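import Pool.Agent.Helper14.CW.Tetra

/-!
# Project MEI (M2): barycentric coordinates of a regular unit tetrahedron

`a : Fin 4 → E3` with pairwise distances `1`; `bar a i x` = barycentric coordinate number `i` of
`x`.  All metric facts are polynomial identities in the barycentric coordinates.
-/

namespace Helper93.MEI

open Set Metric MeasureTheory Helper80.CW Helper14.CW
open scoped RealInnerProductSpace Real

/-- barycentric coordinates of the regular unit tetrahedron `a` -/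
noncomputable def bar (a : Fin 4 → E3) (i : Fin 4) (x : E3) : ℝ :=
  1 / 4 + 2 * ⟪al a i, x - cen a⟫

variable {a : Fin 4 → E3}

section gram
variable (h : Gram4 (al a))
include h

theorem bar_sum (x : E3) : bar a 0 x + bar a 1 x + bar a 2 x + bar a 3 x = 1 := by
  have h1 : ⟪al a 0 + al a 1 + al a 2 + al a 3, x - cen a⟫ = (0 : ℝ) := by
    rw [h.sum, inner_zero_left]
  rw [inner_add_left, inner_add_left, inner_add_left] at h1
  unfold bar
  linarith

theorem bar_expand (x : E3) : x - cen a = bar a 0 x • al a 0 + bar a 1 x • al a 1 +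
    bar a 2 x • al a 2 + bar a 3 x • al a 3 := by
  have h1 := h.tight (x - cen a)
  have h2 : (1 / 4 : ℝ) • (al a 0 + al a 1 + al a 2 + al a 3) = 0 := by
    rw [h.sum, smul_zero]
  have h3 : bar a 0 x • al a 0 + bar a 1 x • al a 1 +
      bar a 2 x • al a 2 + bar a 3 x • al a 3 =
      (1 / 4 : ℝ) • (al a 0 + al a 1 + al a 2 + al a 3) +
      ((2 * ⟪al a 0, x - cen a⟫) • al a 0 + (2 * ⟪al a 1, x - cen a⟫) • al a 1 +
        (2 * ⟪al a 2, x - cen a⟫) • al a 2 + (2 * ⟪al a 3, x - cen a⟫) • al a 3) := by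
    unfold bar
    module
  rw [h3, h2, zero_add]
  exact h1

/-- inner products of differences -/
theorem inner_bar (x y z w : E3) : ⟪x - y, z - w⟫ =
    1 / 2 * ((bar a 0 x - bar a 0 y) * (bar a 0 z - bar a 0 w) +
      (bar a 1 x - bar a 1 y) * (bar a 1 z - bar a 1 w) +
      (bar a 2 x - bar a 2 y) * (bar a 2 z - bar a 2 w) +
      (bar a 3 x - bar a 3 y) * (bar a 3 z - bar a 3 w)) := by
  have ex : x - y = (bar a 0 x - bar a 0 y) • al a 0 + (bar a 1 x - bar a 1 y) • al a 1 +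
      (bar a 2 x - bar a 2 y) • al a 2 + (bar a 3 x - bar a 3 y) • al a 3 := by
    have e1 : x - y = (x - cen a) - (y - cen a) := by abel
    rw [e1, bar_expand h x, bar_expand h y]
    module
  have hz : ∀ i, ⟪al a i, z - w⟫ = 1 / 2 * (bar a i z - bar a i w) := by
    intro i
    unfold bar
    have e1 : z - w = (z - cen a) - (w - cen a) := by abel
    rw [e1, inner_sub_right]
    ring
  rw [ex, inner_add_left, inner_add_left, inner_add_left, real_inner_smul_left,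
    real_inner_smul_left, real_inner_smul_left, real_inner_smul_left, hz, hz, hz, hz]
  ring

theorem dist_sq_bar (x y : E3) : dist x y ^ 2 =
    1 / 2 * ((bar a 0 x - bar a 0 y) ^ 2 + (bar a 1 x - bar a 1 y) ^ 2 +
      (bar a 2 x - bar a 2 y) ^ 2 + (bar a 3 x - bar a 3 y) ^ 2) := by
  rw [dist_eq_norm, ← real_inner_self_eq_norm_sq, inner_bar h]
  ring

theorem norm_sub_sq_bar (x y : E3) : ‖x - y‖ ^ 2 =
    1 / 2 * ((bar a 0 x - bar a 0 y) ^ 2 + (bar a 1 x - bar a 1 y) ^ 2 +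
      (bar a 2 x - bar a 2 y) ^ 2 + (bar a 3 x - bar a 3 y) ^ 2) := by
  rw [← real_inner_self_eq_norm_sq, inner_bar h]
  ring

theorem bar_vertex (i j : Fin 4) : bar a i (a j) = if i = j then 1 else 0 := by
  unfold bar
  have e : a j - cen a = al a j := rfl
  rw [e]
  split_ifs with hij
  · subst hij
    rw [h.diag]
    norm_num
  · rw [h.off i j hij]
    norm_num

theorem bar_vertex_self (i : Fin 4) : bar a i (a i) = 1 := by
  rw [bar_vertex h, if_pos rfl]

theorem bar_vertex_ne {i j : Fin 4} (hij : i ≠ j) : bar a i (a j) = 0 := by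
  rw [bar_vertex h, if_neg hij]

omit h in
theorem bar_cen (i : Fin 4) : bar a i (cen a) = 1 / 4 := by
  unfold bar
  simp

omit h in
/-- the width function in direction `a i - a j` -/
theorem inner_edge {i j : Fin 4} (x y : E3) :
    ⟪x - y, a i - a j⟫ = 1 / 2 * ((bar a i x - bar a j x) - (bar a i y - bar a j y)) := by
  have e : a i - a j = al a i - al a j := by
    unfold al
    abel
  rw [e, inner_sub_right]
  have hz : ∀ i, ⟪x - y, al a i⟫ = 1 / 2 * (bar a i x - bar a i y) := by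
    intro i
    rw [real_inner_comm]
    unfold bar
    have e1 : x - y = (x - cen a) - (y - cen a) := by abel
    rw [e1, inner_sub_right]
    ring
  rw [hz, hz]
  ring

end gram

/-- `x` satisfies the placement inequalities (`x` lies in the rhombic dodecahedron) -/
def Pl (a : Fin 4 → E3) (x : E3) : Prop := ∀ i j, i ≠ j → ⟪x, a i - a j⟫ ≤ ⟪a i, a i - a j⟫

theorem pl_iff (h : Gram4 (al a)) {x : E3} :
    Pl a x ↔ ∀ i j, i ≠ j → bar a i x - bar a j x ≤ 1 := by
  constructor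
  · intro hp i j hij
    have h1 := hp i j hij
    have h2 := inner_edge (a := a) (i := i) (j := j) x (a i)
    rw [bar_vertex_self h, bar_vertex_ne h hij.symm, inner_sub_left] at h2
    linarith
  · intro hp i j hij
    have h1 := hp i j hij
    have h2 := inner_edge (a := a) (i := i) (j := j) x (a i)
    rw [bar_vertex_self h, bar_vertex_ne h hij.symm, inner_sub_left] at h2
    linarith

/-- the squared distance to a vertex minus `1` -/
noncomputable def Qv (a : Fin 4 → E3) (i : Fin 4) (x : E3) : ℝ := ‖x - a i‖ ^ 2 - 1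

section gram
variable (h : Gram4 (al a))
include h

theorem Qv_eq0 (x : E3) : Qv a 0 x = 1 / 2 * ((1 - bar a 0 x) ^ 2 + bar a 1 x ^ 2 +
    bar a 2 x ^ 2 + bar a 3 x ^ 2) - 1 := by
  unfold Qv
  rw [norm_sub_sq_bar h, bar_vertex_self h, bar_vertex_ne h (by decide),
    bar_vertex_ne h (by decide), bar_vertex_ne h (by decide)]
  ring

theorem Qv_eq1 (x : E3) : Qv a 1 x = 1 / 2 * (bar a 0 x ^ 2 + (1 - bar a 1 x) ^ 2 +
    bar a 2 x ^ 2 + bar a 3 x ^ 2) - 1 := by
  unfold Qv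
  rw [norm_sub_sq_bar h, bar_vertex_self h, bar_vertex_ne h (by decide),
    bar_vertex_ne h (by decide), bar_vertex_ne h (by decide)]
  ring

theorem Qv_eq2 (x : E3) : Qv a 2 x = 1 / 2 * (bar a 0 x ^ 2 + bar a 1 x ^ 2 +
    (1 - bar a 2 x) ^ 2 + bar a 3 x ^ 2) - 1 := by
  unfold Qv
  rw [norm_sub_sq_bar h, bar_vertex_self h, bar_vertex_ne h (by decide),
    bar_vertex_ne h (by decide), bar_vertex_ne h (by decide)]
  ring

theorem Qv_eq3 (x : E3) : Qv a 3 x = 1 / 2 * (bar a 0 x ^ 2 + bar a 1 x ^ 2 +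
    bar a 2 x ^ 2 + (1 - bar a 3 x) ^ 2) - 1 := by
  unfold Qv
  rw [norm_sub_sq_bar h, bar_vertex_self h, bar_vertex_ne h (by decide),
    bar_vertex_ne h (by decide), bar_vertex_ne h (by decide)]
  ring

/-- all four at once: `Q_i = ‖b‖²/2 - b_i - 1/2` -/
theorem Qv_eq (i : Fin 4) (x : E3) : Qv a i x = 1 / 2 * (bar a 0 x ^ 2 + bar a 1 x ^ 2 +
    bar a 2 x ^ 2 + bar a 3 x ^ 2) - bar a i x - 1 / 2 := by
  fin_cases i
  · show Qv a 0 x = 1 / 2 * (bar a 0 x ^ 2 + bar a 1 x ^ 2 +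
      bar a 2 x ^ 2 + bar a 3 x ^ 2) - bar a 0 x - 1 / 2
    rw [Qv_eq0 h]; ring
  · show Qv a 1 x = 1 / 2 * (bar a 0 x ^ 2 + bar a 1 x ^ 2 +
      bar a 2 x ^ 2 + bar a 3 x ^ 2) - bar a 1 x - 1 / 2
    rw [Qv_eq1 h]; ring
  · show Qv a 2 x = 1 / 2 * (bar a 0 x ^ 2 + bar a 1 x ^ 2 +
      bar a 2 x ^ 2 + bar a 3 x ^ 2) - bar a 2 x - 1 / 2
    rw [Qv_eq2 h]; ring
  · show Qv a 3 x = 1 / 2 * (bar a 0 x ^ 2 + bar a 1 x ^ 2 +
      bar a 2 x ^ 2 + bar a 3 x ^ 2) - bar a 3 x - 1 / 2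
    rw [Qv_eq3 h]; ring

/-! ### Placement -/

/-- a placed point with three negative coordinates does not exist -/
theorem no_vertex_cell {x : E3} (hx : Pl a x) {i j k l : Fin 4} (hij : i ≠ j)
    (hsum : bar a i x + bar a j x + bar a k x + bar a l x = 1) (hj : bar a j x < 0)
    (hk : bar a k x < 0) (hl : bar a l x < 0) : False := by
  have := (pl_iff h).1 hx i j hij
  linarith

/-- in the wedge `b_k, b_l < 0` a placed point has `b_i, b_j ≥ 0` -/
theorem wedge_nonneg {x : E3} (hx : Pl a x) {i j k l : Fin 4} (hij : i ≠ j)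
    (hsum : bar a i x + bar a j x + bar a k x + bar a l x = 1) (hk : bar a k x ≤ 0)
    (hl : bar a l x ≤ 0) : 0 ≤ bar a j x := by
  by_contra hj
  have := (pl_iff h).1 hx i j hij
  push Not at hj
  linarith

end gram

/-! ### Relabelling -/

theorem cen_perm (σ : Equiv.Perm (Fin 4)) : cen (fun i => a (σ i)) = cen a := by
  have h1 : ∑ i, a (σ i) = ∑ i, a i := Equiv.sum_comp σ a
  rw [Fin.sum_univ_four, Fin.sum_univ_four] at h1
  unfold cen
  rw [h1]

theorem bar_perm (σ : Equiv.Perm (Fin 4)) (i : Fin 4) (x : E3) :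
    bar (fun i => a (σ i)) i x = bar a (σ i) x := by
  unfold bar al
  rw [cen_perm]

theorem al_perm (σ : Equiv.Perm (Fin 4)) : al (fun i => a (σ i)) = fun i => al a (σ i) := by
  funext i
  unfold al
  rw [cen_perm]

theorem gram_perm (h : Gram4 (al a)) (σ : Equiv.Perm (Fin 4)) :
    Gram4 (al (fun i => a (σ i))) := by
  rw [al_perm]
  exact h.perm σ

theorem Qv_perm (σ : Equiv.Perm (Fin 4)) (i : Fin 4) (x : E3) :
    Qv (fun i => a (σ i)) i x = Qv a (σ i) x := rfl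

theorem Pl_perm (σ : Equiv.Perm (Fin 4)) {x : E3} (hx : Pl a x) : Pl (fun i => a (σ i)) x :=
  fun i j hij => hx (σ i) (σ j) (fun h => hij (σ.injective h))

/-! ### Coordinates of the edge `a 0, a 1` (opposite edge `a 2, a 3`) -/

/-- coordinate along the edge `a 0, a 1` -/
noncomputable def eX (a : Fin 4 → E3) (x : E3) : ℝ := (bar a 0 x - bar a 1 x) / 2
/-- coordinate along the opposite edge `a 2, a 3` -/
noncomputable def eY (a : Fin 4 → E3) (x : E3) : ℝ := (bar a 2 x - bar a 3 x) / 2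
/-- height over the edge `a 0, a 1` -/
noncomputable def eW (a : Fin 4 → E3) (x : E3) : ℝ := -(√2 / 2) * (bar a 2 x + bar a 3 x)
/-- height over the opposite edge `a 2, a 3` -/
noncomputable def eV (a : Fin 4 → E3) (x : E3) : ℝ := -(√2 / 2) * (bar a 0 x + bar a 1 x)

theorem s2s : √2 * √2 = (2 : ℝ) := Real.mul_self_sqrt (by norm_num)

section gram
variable (h : Gram4 (al a))
include h

theorem bar0_eq (x : E3) : bar a 0 x = 1 / 2 + eX a x + √2 / 2 * eW a x := by
  have h1 := bar_sum h x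
  unfold eX eW
  linear_combination 1 / 2 * h1 + 1 / 4 * (bar a 2 x + bar a 3 x) * s2s

theorem bar1_eq (x : E3) : bar a 1 x = 1 / 2 - eX a x + √2 / 2 * eW a x := by
  have h1 := bar_sum h x
  unfold eX eW
  linear_combination 1 / 2 * h1 + 1 / 4 * (bar a 2 x + bar a 3 x) * s2s

omit h in
theorem bar2_eq (x : E3) : bar a 2 x = eY a x - √2 / 2 * eW a x := by
  unfold eY eW
  linear_combination -1 / 4 * (bar a 2 x + bar a 3 x) * s2s

omit h in
theorem bar3_eq (x : E3) : bar a 3 x = - eY a x - √2 / 2 * eW a x := by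
  unfold eY eW
  linear_combination -1 / 4 * (bar a 2 x + bar a 3 x) * s2s

theorem eV_eq (x : E3) : eV a x = - eW a x - √2 / 2 := by
  have h1 := bar_sum h x
  unfold eV eW
  linear_combination -(√2 / 2) * h1

theorem norm_sub_sq_e (x y : E3) : ‖x - y‖ ^ 2 =
    (eX a x - eX a y) ^ 2 + (eY a x - eY a y) ^ 2 + (eW a x - eW a y) ^ 2 := by
  rw [norm_sub_sq_bar h, bar0_eq h, bar0_eq h, bar1_eq h, bar1_eq h, bar2_eq, bar2_eq,
    bar3_eq, bar3_eq]
  linear_combination 1 / 2 * (eW a x - eW a y) ^ 2 * s2s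

theorem inner_e (x y z w : E3) : ⟪x - y, z - w⟫ =
    (eX a x - eX a y) * (eX a z - eX a w) + (eY a x - eY a y) * (eY a z - eY a w) +
      (eW a x - eW a y) * (eW a z - eW a w) := by
  rw [inner_bar h, bar0_eq h, bar0_eq h, bar0_eq h, bar0_eq h, bar1_eq h, bar1_eq h,
    bar1_eq h, bar1_eq h, bar2_eq, bar2_eq, bar2_eq, bar2_eq, bar3_eq, bar3_eq, bar3_eq, bar3_eq]
  linear_combination 1 / 2 * (eW a x - eW a y) * (eW a z - eW a w) * s2s

theorem e_vertices :
    (eX a (a 0) = 1 / 2 ∧ eY a (a 0) = 0 ∧ eW a (a 0) = 0) ∧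
    (eX a (a 1) = -1 / 2 ∧ eY a (a 1) = 0 ∧ eW a (a 1) = 0) ∧
    (eX a (a 2) = 0 ∧ eY a (a 2) = 1 / 2 ∧ eW a (a 2) = -(√2 / 2)) ∧
    (eX a (a 3) = 0 ∧ eY a (a 3) = -1 / 2 ∧ eW a (a 3) = -(√2 / 2)) := by
  have n01 : bar a 0 (a 1) = 0 := bar_vertex_ne h (by decide)
  have n02 : bar a 0 (a 2) = 0 := bar_vertex_ne h (by decide)
  have n03 : bar a 0 (a 3) = 0 := bar_vertex_ne h (by decide)
  have n10 : bar a 1 (a 0) = 0 := bar_vertex_ne h (by decide)
  have n12 : bar a 1 (a 2) = 0 := bar_vertex_ne h (by decide)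
  have n13 : bar a 1 (a 3) = 0 := bar_vertex_ne h (by decide)
  have n20 : bar a 2 (a 0) = 0 := bar_vertex_ne h (by decide)
  have n21 : bar a 2 (a 1) = 0 := bar_vertex_ne h (by decide)
  have n23 : bar a 2 (a 3) = 0 := bar_vertex_ne h (by decide)
  have n30 : bar a 3 (a 0) = 0 := bar_vertex_ne h (by decide)
  have n31 : bar a 3 (a 1) = 0 := bar_vertex_ne h (by decide)
  have n32 : bar a 3 (a 2) = 0 := bar_vertex_ne h (by decide)
  unfold eX eY eW
  rw [bar_vertex_self h 0, bar_vertex_self h 1, bar_vertex_self h 2, bar_vertex_self h 3,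
    n01, n02, n03, n10, n12, n13, n20, n21, n23, n30, n31, n32]
  norm_num

/-- dictionary with an orthonormal frame (helper22's `co`) -/
theorem frame_e {b : OrthonormalBasis (Fin 3) ℝ E3} (h0 : b 0 = al a 0 - al a 1)
    (h1 : b 1 = al a 2 - al a 3) (h2 : b 2 = √2 • (al a 0 + al a 1)) (x : E3) :
    ⟪b 0, x - cen a⟫ = eX a x ∧ ⟪b 1, x - cen a⟫ = eY a x ∧
      ⟪b 2, x - cen a⟫ = √2 / 4 + eW a x := by
  have hs := bar_sum h x
  refine ⟨?_, ?_, ?_⟩
  · rw [h0, inner_sub_left]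
    unfold eX bar
    ring
  · rw [h1, inner_sub_left]
    unfold eY bar
    ring
  · rw [h2, real_inner_smul_left, inner_add_left]
    have e0 : ⟪al a 0, x - cen a⟫ = (bar a 0 x - 1 / 4) / 2 := by
      unfold bar
      ring
    have e1 : ⟪al a 1, x - cen a⟫ = (bar a 1 x - 1 / 4) / 2 := by
      unfold bar
      ring
    rw [e0, e1]
    unfold eW
    linear_combination √2 / 2 * hs

theorem Qv0_e (x : E3) : Qv a 0 x = eX a x ^ 2 + eY a x ^ 2 + eW a x ^ 2 - eX a x - 3 / 4 := by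
  rw [Qv_eq h, bar0_eq h, bar1_eq h, bar2_eq, bar3_eq]
  linear_combination 1 / 2 * (eW a x) ^ 2 * s2s

theorem Qv1_e (x : E3) : Qv a 1 x = eX a x ^ 2 + eY a x ^ 2 + eW a x ^ 2 + eX a x - 3 / 4 := by
  rw [Qv_eq h, bar0_eq h, bar1_eq h, bar2_eq, bar3_eq]
  linear_combination 1 / 2 * (eW a x) ^ 2 * s2s

theorem Qv2_e (x : E3) : Qv a 2 x =
    eX a x ^ 2 + eY a x ^ 2 + eW a x ^ 2 - eY a x + √2 * eW a x - 1 / 4 := by
  rw [Qv_eq h, bar0_eq h, bar1_eq h, bar2_eq, bar3_eq]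
  linear_combination 1 / 2 * (eW a x) ^ 2 * s2s

theorem Qv3_e (x : E3) : Qv a 3 x =
    eX a x ^ 2 + eY a x ^ 2 + eW a x ^ 2 + eY a x + √2 * eW a x - 1 / 4 := by
  rw [Qv_eq h, bar0_eq h, bar1_eq h, bar2_eq, bar3_eq]
  linear_combination 1 / 2 * (eW a x) ^ 2 * s2s

/-- all placed points -/
theorem pl_e {x : E3} (hx : Pl a x) :
    |eX a x| + |eY a x| + √2 * eW a x ≤ 1 / 2 ∧ |eX a x| ≤ 1 / 2 ∧ |eY a x| ≤ 1 / 2 := by
  have hp := (pl_iff h).1 hx
  have h02 := hp 0 2 (by decide)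
  have h03 := hp 0 3 (by decide)
  have h12 := hp 1 2 (by decide)
  have h13 := hp 1 3 (by decide)
  have h01 := hp 0 1 (by decide)
  have h10 := hp 1 0 (by decide)
  have h23 := hp 2 3 (by decide)
  have h32 := hp 3 2 (by decide)
  rw [bar0_eq h, bar2_eq] at h02
  rw [bar0_eq h, bar3_eq] at h03
  rw [bar1_eq h, bar2_eq] at h12
  rw [bar1_eq h, bar3_eq] at h13
  rw [bar0_eq h, bar1_eq h] at h01 h10
  rw [bar2_eq, bar3_eq] at h23 h32
  refine ⟨?_, ?_, ?_⟩
  · rcases abs_cases (eX a x) with ⟨e1, _⟩ | ⟨e1, _⟩ <;>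
      rcases abs_cases (eY a x) with ⟨e2, _⟩ | ⟨e2, _⟩ <;> rw [e1, e2] <;> linarith
  · rw [abs_le]
    constructor <;> linarith
  · rw [abs_le]
    constructor <;> linarith

omit h in
/-- the edge cell: `b_2, b_3 ≤ 0` means `√2 |Y| ≤ W` -/
theorem edge_cell_iff (x : E3) :
    (bar a 2 x ≤ 0 ∧ bar a 3 x ≤ 0) ↔ √2 * |eY a x| ≤ eW a x := by
  have s2 := s2s
  have hs : (0 : ℝ) < √2 := by positivity
  rw [bar2_eq, bar3_eq]
  constructor
  · rintro ⟨h1, h2⟩
    rcases abs_cases (eY a x) with ⟨e1, _⟩ | ⟨e1, _⟩ <;> rw [e1] <;> nlinarith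
  · intro h1
    rcases abs_cases (eY a x) with ⟨e1, h3⟩ | ⟨e1, h3⟩ <;> rw [e1] at h1 <;>
      constructor <;> nlinarith

omit h in
theorem edge_cell_iff' (x : E3) :
    (bar a 2 x < 0 ∧ bar a 3 x < 0) ↔ √2 * |eY a x| < eW a x := by
  have s2 := s2s
  have hs : (0 : ℝ) < √2 := by positivity
  rw [bar2_eq, bar3_eq]
  constructor
  · rintro ⟨h1, h2⟩
    rcases abs_cases (eY a x) with ⟨e1, _⟩ | ⟨e1, _⟩ <;> rw [e1] <;> nlinarith
  · intro h1
    rcases abs_cases (eY a x) with ⟨e1, h3⟩ | ⟨e1, h3⟩ <;> rw [e1] at h1 <;>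
      constructor <;> nlinarith

/-- points of the edge cell in the balls about the opposite vertices -/
theorem edge_cell_ball {x : E3} {η : ℝ} (h2 : Qv a 2 x ≤ η) (h3 : Qv a 3 x ≤ η) :
    eX a x ^ 2 + (eY a x ^ 2 + eW a x ^ 2) + √2 * eW a x + |eY a x| ≤ 1 / 4 + η := by
  rw [Qv2_e h] at h2
  rw [Qv3_e h] at h3
  rcases abs_cases (eY a x) with ⟨e1, _⟩ | ⟨e1, _⟩ <;> rw [e1] <;> linarith

omit h in
theorem edge_r_le {y w : ℝ} (hw : |y| ≤ 2 * √2 * w) :
    √2 * √(y ^ 2 + w ^ 2) ≤ √2 * w + |y| := by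
  have s2 := s2s
  have hs : (0 : ℝ) < √2 := by positivity
  have hy := abs_nonneg y
  have hw0 : 0 ≤ w := by
    by_contra hneg
    push Not at hneg
    nlinarith
  rw [← Real.sqrt_mul (by norm_num)]
  apply Real.sqrt_le_iff.2
  refine ⟨by positivity, ?_⟩
  have e : |y| ^ 2 = y ^ 2 := sq_abs y
  nlinarith [mul_nonneg hy (sub_nonneg.2 hw)]

/-! ### The face cell of vertex `i` -/

/-- Fubini identity for the pair of opposite edges `01`, `23`; all points `r`, `q` -/
theorem fubini_id (r q : E3) :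
    (-((1 / 2 + eY a q) * Qv a 2 r) - (1 / 2 - eY a q) * Qv a 3 r) +
      (-((1 / 2 + eX a r) * Qv a 0 q) - (1 / 2 - eX a r) * Qv a 1 q) =
      2 * eW a r * eV a q + (1 - ‖r - q‖ ^ 2) := by
  rw [norm_sub_sq_e h, eV_eq h, Qv0_e h, Qv1_e h, Qv2_e h, Qv3_e h]
  ring

end gram

/-- the contact variable `y_j = ⟨a_i - q, a_i - a_j⟩` -/
noncomputable def yv (a : Fin 4 → E3) (i j : Fin 4) (q : E3) : ℝ := ⟪a i - q, a i - a j⟫

theorem yv_nonneg {q : E3} (hq : Pl a q) {i j : Fin 4} (hij : i ≠ j) : 0 ≤ yv a i j q := by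
  have := hq i j hij
  unfold yv
  rw [inner_sub_left]
  linarith

section gram
variable (h : Gram4 (al a))
include h

theorem yv_bar {i j : Fin 4} (hij : i ≠ j) (q : E3) :
    yv a i j q = 1 / 2 * (1 - bar a i q + bar a j q) := by
  unfold yv
  rw [inner_edge (a := a) (i := i) (j := j) (a i) q, bar_vertex_self h,
    bar_vertex_ne h hij.symm]
  ring

/-- the main identity at vertex `0`, all points `p`, `q` -/
theorem face_id (p q : E3) : Qv a 0 p + ‖a 0 - q‖ ^ 2 =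
    2 * (bar a 1 p * yv a 0 1 q + bar a 2 p * yv a 0 2 q + bar a 3 p * yv a 0 3 q) +
      (‖p - q‖ ^ 2 - 1) := by
  have h1 := bar_sum h p
  have h2 := bar_sum h q
  rw [yv_bar h (by decide), yv_bar h (by decide), yv_bar h (by decide), Qv_eq h,
    norm_sub_sq_bar h, norm_sub_sq_bar h, bar_vertex_self h, bar_vertex_ne h (by decide),
    bar_vertex_ne h (by decide), bar_vertex_ne h (by decide)]
  linear_combination (-(1 - bar a 0 q)) * h1

/-- coupling with an arbitrary point `z` of the body: `‖z - q‖ ≤ 1` -/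
theorem face_coupling {z q : E3} (hzq : ‖z - q‖ ≤ 1) : Qv a 0 z + ‖a 0 - q‖ ^ 2 ≤
    2 * (bar a 1 z * yv a 0 1 q + bar a 2 z * yv a 0 2 q + bar a 3 z * yv a 0 3 q) := by
  rw [face_id h z q]
  have : ‖z - q‖ ^ 2 ≤ 1 := by
    have := norm_nonneg (z - q)
    nlinarith
  linarith

/-- `|d|²` in terms of the contact variables -/
theorem norm_d_sq (q : E3) : ‖a 0 - q‖ ^ 2 =
    2 * (yv a 0 1 q ^ 2 + yv a 0 2 q ^ 2 + yv a 0 3 q ^ 2) -
      1 / 2 * (yv a 0 1 q + yv a 0 2 q + yv a 0 3 q) ^ 2 := by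
  have h2 := bar_sum h q
  have e : bar a 1 q = 1 - bar a 0 q - bar a 2 q - bar a 3 q := by linarith
  rw [yv_bar h (by decide), yv_bar h (by decide), yv_bar h (by decide),
    norm_sub_sq_bar h, bar_vertex_self h, bar_vertex_ne h (by decide),
    bar_vertex_ne h (by decide), bar_vertex_ne h (by decide), e]
  ring

end gram

/-! ### Excess identities (any points) -/

theorem inner_half (p q z : E3) : ⟪p - z, p - q⟫ =
    1 / 2 * (‖p - z‖ ^ 2 + ‖p - q‖ ^ 2 - ‖q - z‖ ^ 2) := by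
  have e : q - z = (p - z) - (p - q) := by abel
  have h1 := norm_sub_sq_real (p - z) (p - q)
  rw [← e] at h1
  linarith

/-- face excess -/
theorem face_excess {p q : E3} (hpq : ‖p - q‖ = 1) (i : Fin 4) :
    1 / 4 * ⟪p - a i, p - q⟫ - 1 / 4 = (Qv a i p - ‖a i - q‖ ^ 2) / 8 := by
  rw [inner_half, hpq, norm_sub_rev q (a i)]
  unfold Qv
  ring

/-- excess of a weighted field `(p - ∑ w_j a_j)` with `∑ w_j = 1` -/
theorem weighted_excess {p q : E3} (hpq : ‖p - q‖ = 1) {w : Fin 4 → ℝ} (hw : ∑ j, w j = 1) :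
    2 * ⟪p - ∑ j, w j • a j, p - q⟫ =
      ∑ j, w j * (Qv a j p + 1) - ∑ j, w j * Qv a j q := by
  have e : p - ∑ j, w j • a j = ∑ j, w j • (p - a j) := by
    simp only [smul_sub, Finset.sum_sub_distrib]
    rw [← Finset.sum_smul, hw, one_smul]
  rw [e, sum_inner, Finset.mul_sum, ← Finset.sum_sub_distrib]
  apply Finset.sum_congr rfl
  intro j _
  rw [real_inner_smul_left, inner_half, hpq]
  unfold Qv
  ring

/-- excess on the tetrahedron, field `p - c` -/
theorem tet_excess {p q : E3} (hpq : ‖p - q‖ = 1) (c : E3) :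
    ⟪p - c, p - q⟫ - 1 / 4 = 1 / 4 + 1 / 2 * (‖p - c‖ ^ 2 - ‖q - c‖ ^ 2) := by
  rw [inner_half, hpq]
  ring

end Helper93.MEI
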