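import Pool.Agent.Helper14.CW.Vol1

/-!
# Lower volume bounds: it is enough to consider smooth bodies of width 1
-/

namespace Helper93.MEI

open Set Metric MeasureTheory Helper80.CW Helper82.CW Helper14.CW
open scoped ContDiff Topology RealInnerProductSpace Real Pointwise

/-- the body with support function `f` -/
def Bd (f : E3 → ℝ) : Set E3 := {y : E3 | ∀ z, ⟪y, z⟫ ≤ f z}

theorem SSup.scale {f : E3 → ℝ} {c : ℝ} (h : SSup f c) {r : ℝ} (hr : 0 < r) :
    SSup (fun x => r * f x) (r * c) where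
  sm := (Sm.const _).mul h.sm
  hom := Hom.const_mul _ h.hom
  zero := by simp [h.zero]
  sub := by
    intro x y
    have h1 := mul_le_mul_of_nonneg_left (h.sub x y) hr.le
    linarith
  nonneg := by
    intro x
    have := h.nonneg x
    positivity
  width := by
    intro x
    have := h.width x
    rw [← mul_add, this]
    ring
  cpos := mul_pos hr h.cpos

theorem Bd_scale (f : E3 → ℝ) {r : ℝ} (hr : 0 < r) :
    Bd (fun x => r * f x) = r • Bd f := by
  ext y
  constructor
  · intro hy
    refine ⟨r⁻¹ • y, ?_, ?_⟩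
    · intro z
      rw [real_inner_smul_left, inv_mul_le_iff₀ hr]
      exact hy z
    · simp [smul_smul, hr.ne']
  · rintro ⟨w, hw, rfl⟩
    intro z
    simp only
    rw [real_inner_smul_left]
    exact mul_le_mul_of_nonneg_left (hw z) hr.le

theorem interior_nonempty {K : Set E3} (hK : IsCompact K) (hc : Convex ℝ K) (hw : Width1 K) :
    (interior K).Nonempty := by
  by_contra hne
  rw [not_nonempty_iff_eq_empty] at hne
  have h0 : volume K = 0 := by
    have h1 : K ⊆ frontier K := by
      rw [frontier, hne, sdiff_empty]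
      exact subset_closure
    exact measure_mono_null h1 (hc.addHaar_frontier volume)
  have h33 := cw_main K hK hc hw
  rw [h0] at h33
  have : 0 < ENNReal.ofReal (4 * π / 33) := ENNReal.ofReal_pos.2 (by positivity)
  exact absurd h33 (not_le.2 this)

theorem reduce {V : ℝ}
    (h : ∀ f : E3 → ℝ, SSup f 1 → (∀ x, x ≠ 0 → 0 < f x) → ENNReal.ofReal V ≤ volume (Bd f))
    {K : Set E3} (hK : IsCompact K) (hc : Convex ℝ K) (hw : Width1 K) :
    ENNReal.ofReal V ≤ volume K := by
  obtain ⟨x0, hx0i⟩ := interior_nonempty hK hc hw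
  have hx0 : x0 ∈ K := interior_subset hx0i
  obtain ⟨ρ, hρ, hball⟩ := Metric.isOpen_iff.1 isOpen_interior x0 hx0i
  have hballK : ball x0 ρ ⊆ K := hball.trans interior_subset
  have hsub : K ⊆ closedBall x0 1 := by
    intro y hy
    rw [mem_closedBall]
    exact diam_le hK hw y hy x0 hx0
  have hR := H0_supp_ball hK hw le_rfl hsub
  have hlowH : ∀ x, ρ / 2 * ‖x‖ ≤ H0 K x0 x := by
    intro x
    by_cases hx : x = 0
    · subst hx
      rw [hR.zero]
      simp
    · have hn : 0 < ‖x‖ := norm_pos_iff.2 hx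
      have h1 : x0 + (ρ / 2 / ‖x‖) • x ∈ K := by
        apply hballK
        rw [mem_ball, dist_eq_norm, add_sub_cancel_left, norm_smul,
          Real.norm_of_nonneg (by positivity), div_mul_cancel₀ _ hn.ne']
        linarith
      have h2 := supp_ge hK hw.nonempty x h1
      rw [inner_add_left, real_inner_smul_left, real_inner_self_eq_norm_mul_norm] at h2
      have h3 : ρ / 2 / ‖x‖ * (‖x‖ * ‖x‖) = ρ / 2 * ‖x‖ := by
        field_simp
      rw [h3] at h2
      unfold H0
      linarith
  set K0 : Set E3 := (fun y => y + x0) ⁻¹' K with hK0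
  have hK0c : IsCompact K0 := by
    have : K0 = (fun y => y - x0) '' K := by
      ext y
      constructor
      · intro hy
        exact ⟨y + x0, hy, by simp⟩
      · rintro ⟨z, hz, rfl⟩
        simpa [hK0] using hz
    rw [this]
    exact hK.image (by fun_prop)
  have hvol : volume K0 = volume K := measure_preimage_add_right volume x0 K
  rw [← hvol]
  have hstep : ∀ ε : ℝ, 0 < ε → ε < 1 → ε < ρ / 2 →
      ENNReal.ofReal (cw ε ^ 3) * ENNReal.ofReal V ≤ volume (cthickening (1 * ε) K0) := by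
    intro ε hε hε1 hερ
    have hS := Ht_SSup hR hε hε1
    have hcp := hS.cpos
    have hS1 := SSup.scale hS (inv_pos.2 hcp)
    rw [inv_mul_cancel₀ hcp.ne'] at hS1
    have hpos : ∀ x, x ≠ 0 → 0 < (cw ε)⁻¹ * Ht (H0 K x0) ε x := by
      intro x hx
      have hn : 0 < ‖x‖ := norm_pos_iff.2 hx
      have h1 := Ht_ge hR hε x
      have h2 := hlowH x
      have h3 : 0 < (ρ / 2 - ε) * ‖x‖ := mul_pos (by linarith) hn
      have h4 : 0 < Ht (H0 K x0) ε x := by
        nlinarith
      exact mul_pos (inv_pos.2 hcp) h4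
    have h1 := h _ hS1 hpos
    rw [Bd_scale _ (inv_pos.2 hcp), Measure.addHaar_smul, finrank_E3] at h1
    have h2 := body_sub' hK hc hw (f := Ht (H0 K x0) ε) (δ := 1 * ε) (Ht_le hR hε)
      (by linarith)
    have h3 : ENNReal.ofReal (cw ε ^ 3) * (ENNReal.ofReal |(cw ε)⁻¹ ^ 3| *
        volume (Bd (Ht (H0 K x0) ε))) = volume (Bd (Ht (H0 K x0) ε)) := by
      rw [← mul_assoc, ← ENNReal.ofReal_mul (by positivity), abs_of_pos (by positivity),
        ← mul_pow, mul_inv_cancel₀ hcp.ne', one_pow, ENNReal.ofReal_one, one_mul]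
    calc ENNReal.ofReal (cw ε ^ 3) * ENNReal.ofReal V ≤ ENNReal.ofReal (cw ε ^ 3) *
          (ENNReal.ofReal |(cw ε)⁻¹ ^ 3| * volume (Bd (Ht (H0 K x0) ε))) :=
          mul_le_mul_right h1 _
      _ = volume (Bd (Ht (H0 K x0) ε)) := h3
      _ ≤ _ := measure_mono h2
  have hlim1 : Filter.Tendsto (fun ε : ℝ => volume (cthickening (1 * ε) K0)) (𝓝[>] 0)
      (𝓝 (volume K0)) := by
    have h1 := tendsto_measure_cthickening_of_isCompact (μ := (volume : Measure E3)) hK0c
    have h2 : Filter.Tendsto (fun ε : ℝ => 1 * ε) (𝓝[>] 0) (𝓝 0) := by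
      have : Continuous (fun ε : ℝ => 1 * ε) := by fun_prop
      have h3 := this.tendsto 0
      simp only [mul_zero] at h3
      exact h3.mono_left nhdsWithin_le_nhds
    exact h1.comp h2
  have hlim2 : Filter.Tendsto (fun ε : ℝ => ENNReal.ofReal (cw ε ^ 3) * ENNReal.ofReal V)
      (𝓝[>] 0) (𝓝 (ENNReal.ofReal V)) := by
    have h1 : Filter.Tendsto (fun ε : ℝ => ENNReal.ofReal (cw ε ^ 3)) (𝓝[>] 0) (𝓝 1) := by
      have h2 := ENNReal.tendsto_ofReal (cw_tendsto.pow 3)
      simpa using h2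
    have h3 := ENNReal.Tendsto.mul_const (b := ENNReal.ofReal V) h1 (Or.inl one_ne_zero)
    simpa using h3
  apply le_of_tendsto_of_tendsto hlim2 hlim1
  have hlt : ∀ᶠ ε : ℝ in 𝓝 0, ε < 1 := eventually_lt_nhds one_pos
  have hlt2 : ∀ᶠ ε : ℝ in 𝓝 0, ε < ρ / 2 := eventually_lt_nhds (by positivity)
  filter_upwards [self_mem_nhdsWithin, hlt.filter_mono nhdsWithin_le_nhds,
    hlt2.filter_mono nhdsWithin_le_nhds] with ε h1 h2 h3
  exact hstep ε h1 h2 h3

end Helper93.MEI
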