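import Pool.Agent.Helper93.MEI.S2a
import Pool.Agent.Helper95.MEI.C7
import Pool.Agent.Helper95.MEI.C8
import Pool.Agent.Helper72.MEI.Bulge

/-!
# Project MEI (M2), row LNK: the reference set `A*` in the frame, the bulge outside it
-/

namespace Helper93.MEI

open Set Metric MeasureTheory Helper80.CW
open Helper22.MEI (t s Fa Fb Fc FD)
open Helper22.Wedge (co fld EC co_mp co_emb co_cd vol_co norm_co)
open Pool.Agent.Helper95.MEI.Cst
open scoped RealInnerProductSpace Real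

section
variable {b : OrthonormalBasis (Fin 3) ℝ E3} {c : E3} {K : Set E3} {a1 a2 a3 a4 : E3}

theorem Bu3_meas (s : ℝ) : MeasurableSet (Helper72.MEI.Bu3 s) := by
  unfold Helper72.MEI.Bu3
  have := Helper72.MEI.Q3_cont
  have c1 : Continuous (fun q : ℝ × ℝ × ℝ => |q.1|) := by fun_prop
  have c2 : Continuous (fun q : ℝ × ℝ × ℝ => q.2.1) := by fun_prop
  have c3 : Continuous (fun q : ℝ × ℝ × ℝ => √2 / 4 - √2 * q.2.1) := by fun_prop
  have c4 : Continuous (fun q : ℝ × ℝ × ℝ => q.2.2) := by fun_prop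
  exact (isClosed_le c1 continuous_const).measurableSet.inter
    ((isClosed_le c2 continuous_const).measurableSet.inter
      ((isClosed_le c3 c4).measurableSet.inter
        ((isOpen_lt continuous_const this).measurableSet.inter
          (isClosed_le this continuous_const).measurableSet)))

theorem Ast_eq (ha3 : co b c a3 = (0, 1 / 2, -t)) (ha4 : co b c a4 = (0, -(1 / 2), -t)) :
    Ast b c a3 a4 = AsE b c := by
  ext x
  rw [AsE_eq]
  have h3 := Helper78.MEI.d3_eq b c (p := x) ha3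
  have h4 := Helper78.MEI.d4_eq b c (p := x) ha4
  have e : cs b c x = ((co b c x).1, (co b c x).2.1, (co b c x).2.2 - t) := rfl
  unfold Ast
  simp only [mem_setOf_eq, mem_inter_iff, e]
  apply and_congr_right
  intro hx
  constructor
  · rintro ⟨k3, k4⟩
    have := Helper78.MEI.star_r b c (p := x) ha3 ha4 (η := 0)
      (by nlinarith [norm_nonneg (x - a3)]) (by nlinarith [norm_nonneg (x - a4)])
    linarith
  · intro k
    have a1 := le_abs_self (co b c x).2.1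
    have a2 := neg_abs_le (co b c x).2.1
    have k3 : ‖x - a3‖ ^ 2 ≤ 1 := by linarith
    have k4 : ‖x - a4‖ ^ 2 ≤ 1 := by linarith
    exact ⟨by nlinarith [norm_nonneg (x - a3)], by nlinarith [norm_nonneg (x - a4)]⟩

theorem int_Ast (ha3 : co b c a3 = (0, 1 / 2, -t)) (ha4 : co b c a4 = (0, -(1 / 2), -t)) :
    ∫ x in Ast b c a3 a4, dvF b c x = fAs := by
  rw [Ast_eq ha3 ha4]
  exact int_dvE_As b c

theorem vol_Ast (ha3 : co b c a3 = (0, 1 / 2, -t)) (ha4 : co b c a4 = (0, -(1 / 2), -t)) :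
    volume.real (Ast b c a3 a4) = vAs := by
  rw [Ast_eq ha3 ha4, Measure.real, vol_AsE, ENNReal.toReal_ofReal vAs_nonneg]

/-- the bulge outside `A*` is small -/
theorem beta_le (hX : ∀ x ∈ K, |(co b c x).1| ≤ 1 / 2)
    (ha3 : co b c a3 = (0, 1 / 2, -t)) (ha4 : co b c a4 = (0, -(1 / 2), -t)) {s3 s4 : ℝ}
    (h3 : ∀ x ∈ K, ‖x - a3‖ ^ 2 - 1 ≤ s3) (h4 : ∀ x ∈ K, ‖x - a4‖ ^ 2 - 1 ≤ s4)
    (hs3 : 0 ≤ s3) (hs4 : 0 ≤ s4) (hs3' : s3 ≤ 0.002) (hs4' : s4 ≤ 0.002) :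
    volume.real ((K ∩ EC b c) \ Ast b c a3 a4) ≤ 0.04 * (s3 + s4) := by
  have hsub : (K ∩ EC b c) \ Ast b c a3 a4 ⊆
      {x | co b c x ∈ Helper72.MEI.Bu4 s4} ∪ {x | co b c x ∈ Helper72.MEI.Bu3 s3} := by
    rintro x ⟨⟨hxK, hxE⟩, hxA⟩
    have e3 : ‖x - a3‖ ^ 2 - 1 = Helper72.MEI.Q3 (co b c x) := by
      rw [norm_co b c x a3, ha3]
      unfold Helper72.MEI.Q3 t
      ring
    have e4 : ‖x - a4‖ ^ 2 - 1 = Helper72.MEI.Q4 (co b c x) := by
      rw [norm_co b c x a4, ha4]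
      unfold Helper72.MEI.Q4 t
      ring
    have hcell : |(co b c x).2.1| < s * ((co b c x).2.2 - t) := hxE
    have hs2 : s * √2 = 1 := by
      unfold s
      have := Real.mul_self_sqrt (show (0:ℝ) ≤ 2 by norm_num)
      linarith
    have hsq : (0:ℝ) < √2 := Real.sqrt_pos.2 (by norm_num)
    have hcell' : √2 * |(co b c x).2.1| < (co b c x).2.2 - t := by
      have := mul_lt_mul_of_pos_left hcell hsq
      calc √2 * |(co b c x).2.1| < √2 * (s * ((co b c x).2.2 - t)) := this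
        _ = (s * √2) * ((co b c x).2.2 - t) := by ring
        _ = _ := by rw [hs2, one_mul]
    have hout : 0 < ‖x - a3‖ ^ 2 - 1 ∨ 0 < ‖x - a4‖ ^ 2 - 1 := by
      by_contra hcon
      push Not at hcon
      obtain ⟨k3, k4⟩ := hcon
      exact hxA ⟨hxE, by nlinarith [norm_nonneg (x - a3)], by nlinarith [norm_nonneg (x - a4)]⟩
    have d3 := Helper78.MEI.d3_eq b c (p := x) ha3
    have d4 := Helper78.MEI.d4_eq b c (p := x) ha4
    rcases le_total 0 (co b c x).2.1 with hy | hy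
    · left
      rw [abs_of_nonneg hy] at hcell'
      refine ⟨hX x hxK, hy, by unfold t at hcell'; linarith, ?_, by rw [← e4]; exact h4 x hxK⟩
      rw [← e4]
      rcases hout with h | h <;> linarith
    · right
      rw [abs_of_nonpos hy] at hcell'
      refine ⟨hX x hxK, hy, by unfold t at hcell'; linarith, ?_, by rw [← e3]; exact h3 x hxK⟩
      rw [← e3]
      rcases hout with h | h <;> linarith
  have hv : volume ((K ∩ EC b c) \ Ast b c a3 a4) ≤ ENNReal.ofReal (0.04 * (s3 + s4)) := by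
    refine (measure_mono hsub).trans ((measure_union_le _ _).trans ?_)
    rw [vol_co b c _ (Helper72.MEI.Bu4_meas s4), vol_co b c _ (Bu3_meas s3)]
    refine (add_le_add (Helper72.MEI.bulge4 hs4 hs4') (Helper72.MEI.bulge3 hs3 hs3')).trans ?_
    rw [← ENNReal.ofReal_add (by positivity) (by positivity)]
    apply ENNReal.ofReal_le_ofReal
    linarith
  exact ENNReal.toReal_le_of_le_ofReal (by positivity) hv

end

section
variable {b : OrthonormalBasis (Fin 3) ℝ E3} {c : E3} {K : Set E3} {a1 a2 a3 a4 : E3}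
  {s1 s2 s3 s4 : ℝ} {σ : Measure (E3 × E3)}

/-- **Row (S2)**, all auxiliary hypotheses discharged except the flux identity -/
theorem area12' [IsFiniteMeasure σ] (hK : IsCompact K)
    (hpr : ∀ᵐ z ∂σ, z.1 ∈ K ∧ z.2 ∈ K ∧ ‖z.1 - z.2‖ = 1)
    (hX : ∀ x ∈ K, |(co b c x).1| ≤ 1 / 2)
    (ha1 : co b c a1 = (1 / 2, 0, t)) (ha2 : co b c a2 = (-(1 / 2), 0, t))
    (ha3 : co b c a3 = (0, 1 / 2, -t)) (ha4 : co b c a4 = (0, -(1 / 2), -t))
    (h1 : ∀ x ∈ K, ‖x - a1‖ ^ 2 - 1 ≤ s1) (h2 : ∀ x ∈ K, ‖x - a2‖ ^ 2 - 1 ≤ s2)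
    (h3 : ∀ x ∈ K, ‖x - a3‖ ^ 2 - 1 ≤ s3) (h4 : ∀ x ∈ K, ‖x - a4‖ ^ 2 - 1 ≤ s4)
    (hs1 : 0 ≤ s1) (hs2 : 0 ≤ s2) (hs3 : 0 ≤ s3) (hs4 : 0 ≤ s4)
    (hs1' : s1 ≤ 0.002) (hs2' : s2 ≤ 0.002) (hs3' : s3 ≤ 0.002) (hs4' : s4 ≤ 0.002)
    (hflux : ∫ z in {z : E3 × E3 | z.1 ∈ EC b c}, ⟪fld b c Fa Fb Fc z.1, z.1 - z.2⟫ ∂σ =
      ∫ x in K ∩ EC b c, dvF b c x) :
    σ.real {z : E3 × E3 | z.1 ∈ EC b c} ≤ 0.1345 := by
  refine area12 hK hpr hX ha1 ha2 ha3 ha4 h1 h2 hs1 hs2 hs1' hs2' hs3' hs4' hflux ?_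
    (beta_le hX ha3 ha4 h3 h4 hs3 hs4 hs3' hs4')
  rw [int_Ast ha3 ha4]
  linarith [fAs_bd.2]

end

end Helper93.MEI
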