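import Pool.Agent.Helper78.MEI.PtA

/-!
# Project MEI (M2), faces: the range of `w = ‖a 0 - q‖²` (rule R6)

* `cw_sum`: `Σ (y_k - g_k) ≥ c(w) √w` with `g_k = (w - S_k)₊/2`, `c(w)` affine, for all caps
  `S_k ≤ 0.13` (`c = 0.65 - 0.17 w`), `S_k ≤ 0.18` (`c = 0.6 - 0.13 w`),
  `S_k ≤ 0.03` (`c = 0.72 - 0.225 w`);
* `Yt_cw`: `Yt ≥ Σ t_k (w - S_k)₊ + 2 μ c(w) √w` for `μ ≤ t_k`;
* `range_cw`: `(1 - m) w + 2 μ c(w) √w ≤ m s + Σ t_k S_k`, `m = √(mt t)`;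
* `own_le`: `Q_0(p) ≤ own t = min s (4 mt t/(1 + t_max)² - 1)`, and `0 ≤ own t`;
* `le_W`: the explicit end `W` of the range.
-/

namespace Helper93.MEI

open Set Metric Helper80.CW Helper14.CW Helper33.MEI Helper78.MEI Pool.Agent.Helper52.MEI
open scoped RealInnerProductSpace

/-- a convex quadratic on an interval -/
theorem quad_ends {α β γ u v x B : ℝ} (hα : 0 ≤ α) (h1 : u ≤ x) (h2 : x ≤ v)
    (hu : α * u ^ 2 + β * u + γ ≤ B) (hv : α * v ^ 2 + β * v + γ ≤ B) :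
    α * x ^ 2 + β * x + γ ≤ B := by
  rcases eq_or_lt_of_le (h1.trans h2) with e | hlt
  · have e1 : x = v := le_antisymm h2 (e ▸ h1)
    rw [e1]
    exact hv
  · have hl : 0 < v - u := by linarith
    have s1 := mul_le_mul_of_nonneg_left hu (show 0 ≤ v - x by linarith)
    have s2 := mul_le_mul_of_nonneg_left hv (show 0 ≤ x - u by linarith)
    have s3 : 0 ≤ α * ((v - u) * ((x - u) * (v - x))) := by
      have q1 : 0 ≤ x - u := by linarith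
      have q2 : 0 ≤ v - x := by linarith
      positivity
    have s4 : (v - u) * (α * x ^ 2 + β * x + γ) ≤ (v - u) * B := by nlinarith
    exact le_of_mul_le_mul_left s4 hl

/-- the maximum over the cube `[u, v]³` -/
theorem cube_max {g1 g2 g3 u v X B : ℝ} (hu : 0 ≤ u) (huv : u ≤ v) (hX : 0 ≤ X)
    (u1 : u ≤ g1) (u2 : u ≤ g2) (u3 : u ≤ g3) (v1 : g1 ≤ v) (v2 : g2 ≤ v) (v3 : g3 ≤ v)
    (hA : 3 / 2 * v ^ 2 + v * X ≤ B)
    (hB : 2 * v ^ 2 + 3 / 2 * u ^ 2 - 2 * u * v + (2 * v - u) * X ≤ B)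
    (hC : 3 / 2 * v ^ 2 + 2 * u ^ 2 - 2 * u * v + (3 * v - 2 * u) * X ≤ B) :
    3 / 2 * (g1 ^ 2 + g2 ^ 2 + g3 ^ 2) - g1 * g2 - g1 * g3 - g2 * g3 +
      (3 * g1 - g2 - g3) * X ≤ B := by
  have hd : 0 ≤ (v - u) * X := mul_nonneg (by linarith) hX
  have hq : 0 ≤ (v - u) * (v + u) := mul_nonneg (by linarith) (by linarith)
  -- all vertices
  have w3 : ∀ x y : ℝ, (x = u ∨ x = v) → (y = u ∨ y = v) → ∀ z : ℝ, (z = u ∨ z = v) →
      3 / 2 * (x ^ 2 + y ^ 2 + z ^ 2) - x * y - x * z - y * z + (3 * x - y - z) * X ≤ B := by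
    intro x y hx hy z hz
    rcases hx with hx | hx <;> rcases hy with hy | hy <;> rcases hz with hz | hz <;>
      rw [hx, hy, hz] <;> nlinarith
  have s3 : ∀ x y : ℝ, (x = u ∨ x = v) → (y = u ∨ y = v) →
      3 / 2 * (x ^ 2 + y ^ 2 + g3 ^ 2) - x * y - x * g3 - y * g3 + (3 * x - y - g3) * X ≤ B := by
    intro x y hx hy
    have k := quad_ends (α := 3 / 2) (β := -x - y - X)
      (γ := 3 / 2 * (x ^ 2 + y ^ 2) - x * y + (3 * x - y) * X) (B := B) (by norm_num) u3 v3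
      (by have := w3 x y hx hy u (Or.inl rfl); linarith)
      (by have := w3 x y hx hy v (Or.inr rfl); linarith)
    linarith
  have s2 : ∀ x : ℝ, (x = u ∨ x = v) →
      3 / 2 * (x ^ 2 + g2 ^ 2 + g3 ^ 2) - x * g2 - x * g3 - g2 * g3 +
        (3 * x - g2 - g3) * X ≤ B := by
    intro x hx
    have k := quad_ends (α := 3 / 2) (β := -x - g3 - X)
      (γ := 3 / 2 * (x ^ 2 + g3 ^ 2) - x * g3 + (3 * x - g3) * X) (B := B) (by norm_num) u2 v2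
      (by have := s3 x u hx (Or.inl rfl); linarith)
      (by have := s3 x v hx (Or.inr rfl); linarith)
    linarith
  have k := quad_ends (α := 3 / 2) (β := -g2 - g3 + 3 * X)
    (γ := 3 / 2 * (g2 ^ 2 + g3 ^ 2) - g2 * g3 - (g2 + g3) * X) (B := B) (by norm_num) u1 v1
    (by have := s2 u (Or.inl rfl); linarith)
    (by have := s2 v (Or.inr rfl); linarith)
  linarith

theorem gv_anti {w S T : ℝ} (h : S ≤ T) : gv w T ≤ gv w S := by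
  unfold gv
  have : pp (w - T) ≤ pp (w - S) := max_le_max (by linarith) le_rfl
  linarith

theorem gv_le_half {w S : ℝ} (hw : 0 ≤ w) (hS : 0 ≤ S) : gv w S ≤ w / 2 := by
  unfold gv
  have : pp (w - S) ≤ w := max_le (by linarith) hw
  linarith

/-- **general form**: any `X` satisfying the three vertex inequalities -/
theorem sum_ge_cube {y1 y2 y3 S1 S2 S3 w S X : ℝ}
    (hw0 : 0 ≤ w) (h1 : gv w S1 ≤ y1) (h2 : gv w S2 ≤ y2) (h3 : gv w S3 ≤ y3)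
    (p1 : 0 ≤ S1) (p2 : 0 ≤ S2) (p3 : 0 ≤ S3) (q1 : S1 ≤ S) (q2 : S2 ≤ S) (q3 : S3 ≤ S)
    (hδ : w = 2 * (y1 ^ 2 + y2 ^ 2 + y3 ^ 2) - 1 / 2 * (y1 + y2 + y3) ^ 2) (hX : 0 ≤ X)
    (hA : 3 / 2 * X ^ 2 + (3 / 2 * (w / 2) ^ 2 + w / 2 * X) ≤ w)
    (hB : 3 / 2 * X ^ 2 + (2 * (w / 2) ^ 2 + 3 / 2 * gv w S ^ 2 - 2 * gv w S * (w / 2) +
      (2 * (w / 2) - gv w S) * X) ≤ w)
    (hC : 3 / 2 * X ^ 2 + (3 / 2 * (w / 2) ^ 2 + 2 * gv w S ^ 2 - 2 * gv w S * (w / 2) +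
      (3 * (w / 2) - 2 * gv w S) * X) ≤ w) :
    X ≤ (y1 - gv w S1) + (y2 - gv w S2) + (y3 - gv w S3) := by
  have hu := gv_nonneg w S
  have hS : 0 ≤ S := p1.trans q1
  have huv := gv_le_half hw0 hS
  have a1 := gv_anti (w := w) q1
  have a2 := gv_anti (w := w) q2
  have a3 := gv_anti (w := w) q3
  have b1 := gv_le_half hw0 p1
  have b2 := gv_le_half hw0 p2
  have b3 := gv_le_half hw0 p3
  have c1 := cube_max (B := w - 3 / 2 * X ^ 2) hu huv hX a1 a2 a3 b1 b2 b3 (by linarith)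
    (by linarith) (by linarith)
  have c2 := cube_max (B := w - 3 / 2 * X ^ 2) hu huv hX a2 a1 a3 b2 b1 b3 (by linarith)
    (by linarith) (by linarith)
  have c3 := cube_max (B := w - 3 / 2 * X ^ 2) hu huv hX a3 a1 a2 b3 b1 b2 (by linarith)
    (by linarith) (by linarith)
  obtain ⟨g1, e1⟩ : ∃ g, g = gv w S1 := ⟨_, rfl⟩
  obtain ⟨g2, e2⟩ : ∃ g, g = gv w S2 := ⟨_, rfl⟩
  obtain ⟨g3, e3⟩ : ∃ g, g = gv w S3 := ⟨_, rfl⟩
  rw [← e1] at h1 a1 b1 c1 c2 c3 ⊢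
  rw [← e2] at h2 a2 b2 c1 c2 c3 ⊢
  rw [← e3] at h3 a3 b3 c1 c2 c3 ⊢
  obtain ⟨l, hl⟩ : ∃ l, l = max (3 * g1 - g2 - g3) (max (3 * g2 - g1 - g3) (3 * g3 - g1 - g2)) :=
    ⟨_, rfl⟩
  have l1 : 3 * g1 - g2 - g3 ≤ l := by rw [hl]; exact le_max_left _ _
  have l2 : 3 * g2 - g1 - g3 ≤ l := by rw [hl]; exact (le_max_left _ _).trans (le_max_right _ _)
  have l3 : 3 * g3 - g1 - g2 ≤ l := by rw [hl]; exact (le_max_right _ _).trans (le_max_right _ _)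
  have hl0 : 0 ≤ l := by linarith
  refine sum_ge h1 h2 h3 hδ hl0 l1 l2 l3 ?_
  have hcase : l = 3 * g1 - g2 - g3 ∨ l = 3 * g2 - g1 - g3 ∨ l = 3 * g3 - g1 - g2 := by
    rw [hl]
    rcases max_choice (3 * g1 - g2 - g3) (max (3 * g2 - g1 - g3) (3 * g3 - g1 - g2)) with e | e
    · left; exact e
    · rw [e]
      right
      exact max_choice _ _
  rcases hcase with e | e | e <;> rw [e] <;> linarith

/-- `X(w) = (c₀ - c₁ w) √w` is admissible in the strip function for all caps `≤ S` -/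
def IsC (S c0 c1 : ℝ) : Prop := ∀ w : ℝ, 0 ≤ w → w ≤ 19 / 16 →
  0 ≤ c0 - c1 * w ∧
  3 / 2 * ((c0 - c1 * w) * √w) ^ 2 + (3 / 2 * (w / 2) ^ 2 + w / 2 * ((c0 - c1 * w) * √w)) ≤ w ∧
  3 / 2 * ((c0 - c1 * w) * √w) ^ 2 + (2 * (w / 2) ^ 2 + 3 / 2 * gv w S ^ 2 -
    2 * gv w S * (w / 2) + (2 * (w / 2) - gv w S) * ((c0 - c1 * w) * √w)) ≤ w ∧
  3 / 2 * ((c0 - c1 * w) * √w) ^ 2 + (3 / 2 * (w / 2) ^ 2 + 2 * gv w S ^ 2 -
    2 * gv w S * (w / 2) + (3 * (w / 2) - 2 * gv w S) * ((c0 - c1 * w) * √w)) ≤ w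

/-- reduction to polynomials in `r = √w` -/
theorem isC_of {S c0 c1 : ℝ} (h0 : c1 * (19 / 16) ≤ c0) (h1 : 0 ≤ c1)
    (hA : ∀ r : ℝ, 0 ≤ r → r ≤ 1.0898 →
      3 / 2 * (c0 - c1 * r ^ 2) ^ 2 + 3 / 8 * r ^ 2 + 1 / 2 * r * (c0 - c1 * r ^ 2) ≤ 1)
    (hB0 : ∀ r : ℝ, 0 ≤ r → r ^ 2 ≤ S →
      3 / 2 * (c0 - c1 * r ^ 2) ^ 2 + 1 / 2 * r ^ 2 + r * (c0 - c1 * r ^ 2) ≤ 1)
    (hC0 : ∀ r : ℝ, 0 ≤ r → r ^ 2 ≤ S →
      3 / 2 * (c0 - c1 * r ^ 2) ^ 2 + 3 / 8 * r ^ 2 + 3 / 2 * r * (c0 - c1 * r ^ 2) ≤ 1)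
    (hB : ∀ r : ℝ, 0 ≤ r → S ≤ r ^ 2 → r ≤ 1.0898 →
      3 / 2 * (c0 - c1 * r ^ 2) ^ 2 * r ^ 2 + 3 / 8 * r ^ 4 - S / 4 * r ^ 2 + 3 / 8 * S ^ 2 +
        (1 / 2 * r ^ 2 + S / 2) * r * (c0 - c1 * r ^ 2) ≤ r ^ 2)
    (hC : ∀ r : ℝ, 0 ≤ r → S ≤ r ^ 2 → r ≤ 1.0898 →
      3 / 2 * (c0 - c1 * r ^ 2) ^ 2 * r ^ 2 + 3 / 8 * r ^ 4 - S / 2 * r ^ 2 + 1 / 2 * S ^ 2 +
        (1 / 2 * r ^ 2 + S) * r * (c0 - c1 * r ^ 2) ≤ r ^ 2) : IsC S c0 c1 := by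
  intro w hw0 hw
  obtain ⟨r, hr⟩ : ∃ r, r = √w := ⟨_, rfl⟩
  have hr0 : 0 ≤ r := by rw [hr]; exact Real.sqrt_nonneg _
  have hr2 : w = r ^ 2 := by rw [hr, Real.sq_sqrt hw0]
  rw [← hr]
  have hr1 : r ≤ 1.0898 := by
    by_contra hc
    have hc := not_le.1 hc
    nlinarith
  have hc : 0 ≤ c0 - c1 * w := by
    have := mul_le_mul_of_nonneg_left hw h1
    linarith
  refine ⟨hc, ?_, ?_⟩
  · have k := mul_le_mul_of_nonneg_right (hA r hr0 hr1) (sq_nonneg r)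
    rw [hr2]
    nlinarith
  · rcases le_total w S with hs | hs
    · have hg : gv w S = 0 := by
        unfold gv pp
        rw [max_eq_right (by linarith)]
        norm_num
      have hs' : r ^ 2 ≤ S := hr2 ▸ hs
      have k1 := mul_le_mul_of_nonneg_right (hB0 r hr0 hs') (sq_nonneg r)
      have k2 := mul_le_mul_of_nonneg_right (hC0 r hr0 hs') (sq_nonneg r)
      rw [hg, hr2]
      constructor <;> nlinarith
    · have hg : gv w S = (w - S) / 2 := by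
        unfold gv pp
        rw [max_eq_left (by linarith)]
      have hs' : S ≤ r ^ 2 := hr2 ▸ hs
      have k1 := hB r hr0 hs' hr1
      have k2 := hC r hr0 hs' hr1
      rw [hg, hr2]
      constructor <;> nlinarith

theorem isC13 : IsC 0.13 0.65 0.17 := by
  refine isC_of (by norm_num) (by norm_num) ?_ ?_ ?_ ?_ ?_
  · intro r hr h2
    have h3 : 0 ≤ 1.0898 - r := by linarith
    nlinarith [mul_nonneg hr h3, mul_nonneg (mul_nonneg hr hr) h3,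
      mul_nonneg (mul_nonneg (mul_nonneg hr hr) hr) h3]
  · intro r hr h2
    have h3 : 0 ≤ 0.3606 - r := by nlinarith
    nlinarith [mul_nonneg hr h3, mul_nonneg (mul_nonneg hr hr) h3,
      mul_nonneg (mul_nonneg (mul_nonneg hr hr) hr) h3]
  · intro r hr h2
    have h3 : 0 ≤ 0.3606 - r := by nlinarith
    nlinarith [mul_nonneg hr h3, mul_nonneg (mul_nonneg hr hr) h3,
      mul_nonneg (mul_nonneg (mul_nonneg hr hr) hr) h3]
  · intro r h0 h1 h2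
    have h3 : 0 ≤ 1.0898 - r := by linarith
    have h4 : 0 ≤ r - 0.36 := by nlinarith
    have h5 := mul_nonneg h3 h4
    nlinarith [mul_nonneg h0 h5, mul_nonneg (mul_nonneg h0 h0) h5,
      mul_nonneg (mul_nonneg (mul_nonneg h0 h0) h0) h5,
      mul_nonneg (mul_nonneg (mul_nonneg (mul_nonneg h0 h0) h0) h0) h5]
  · intro r h0 h1 h2
    have h3 : 0 ≤ 1.0898 - r := by linarith
    have h4 : 0 ≤ r - 0.36 := by nlinarith
    have h5 := mul_nonneg h3 h4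
    nlinarith [mul_nonneg h0 h5, mul_nonneg (mul_nonneg h0 h0) h5,
      mul_nonneg (mul_nonneg (mul_nonneg h0 h0) h0) h5,
      mul_nonneg (mul_nonneg (mul_nonneg (mul_nonneg h0 h0) h0) h0) h5]

theorem isC18 : IsC 0.18 0.6 0.13 := by
  refine isC_of (by norm_num) (by norm_num) ?_ ?_ ?_ ?_ ?_
  · intro r hr h2
    have h3 : 0 ≤ 1.0898 - r := by linarith
    nlinarith [mul_nonneg hr h3, mul_nonneg (mul_nonneg hr hr) h3,
      mul_nonneg (mul_nonneg (mul_nonneg hr hr) hr) h3]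
  · intro r hr h2
    have h3 : 0 ≤ 0.4243 - r := by nlinarith
    nlinarith [mul_nonneg hr h3, mul_nonneg (mul_nonneg hr hr) h3,
      mul_nonneg (mul_nonneg (mul_nonneg hr hr) hr) h3]
  · intro r hr h2
    have h3 : 0 ≤ 0.4243 - r := by nlinarith
    nlinarith [mul_nonneg hr h3, mul_nonneg (mul_nonneg hr hr) h3,
      mul_nonneg (mul_nonneg (mul_nonneg hr hr) hr) h3]
  · intro r h0 h1 h2
    have h3 : 0 ≤ 1.0898 - r := by linarith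
    have h4 : 0 ≤ r - 0.424 := by nlinarith
    have h5 := mul_nonneg h3 h4
    nlinarith [mul_nonneg h0 h5, mul_nonneg (mul_nonneg h0 h0) h5,
      mul_nonneg (mul_nonneg (mul_nonneg h0 h0) h0) h5,
      mul_nonneg (mul_nonneg (mul_nonneg (mul_nonneg h0 h0) h0) h0) h5]
  · intro r h0 h1 h2
    have h3 : 0 ≤ 1.0898 - r := by linarith
    have h4 : 0 ≤ r - 0.424 := by nlinarith
    have h5 := mul_nonneg h3 h4
    nlinarith [mul_nonneg h0 h5, mul_nonneg (mul_nonneg h0 h0) h5,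
      mul_nonneg (mul_nonneg (mul_nonneg h0 h0) h0) h5,
      mul_nonneg (mul_nonneg (mul_nonneg (mul_nonneg h0 h0) h0) h0) h5]

theorem isC03 : IsC 0.03 0.715 0.222 := by
  refine isC_of (by norm_num) (by norm_num) ?_ ?_ ?_ ?_ ?_
  · intro r hr h2
    have h3 : 0 ≤ 1.0898 - r := by linarith
    nlinarith [mul_nonneg hr h3, mul_nonneg (mul_nonneg hr hr) h3,
      mul_nonneg (mul_nonneg (mul_nonneg hr hr) hr) h3]
  · intro r hr h2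
    have h3 : 0 ≤ 0.1733 - r := by nlinarith
    nlinarith [mul_nonneg hr h3, mul_nonneg (mul_nonneg hr hr) h3,
      mul_nonneg (mul_nonneg (mul_nonneg hr hr) hr) h3]
  · intro r hr h2
    have h3 : 0 ≤ 0.1733 - r := by nlinarith
    nlinarith [mul_nonneg hr h3, mul_nonneg (mul_nonneg hr hr) h3,
      mul_nonneg (mul_nonneg (mul_nonneg hr hr) hr) h3]
  · intro r h0 h1 h2
    have h3 : 0 ≤ 1.0898 - r := by linarith
    have h4 : 0 ≤ r - 0.173 := by nlinarith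
    have h5 := mul_nonneg h3 h4
    nlinarith [mul_nonneg h0 h5, mul_nonneg (mul_nonneg h0 h0) h5,
      mul_nonneg (mul_nonneg (mul_nonneg h0 h0) h0) h5,
      mul_nonneg (mul_nonneg (mul_nonneg (mul_nonneg h0 h0) h0) h0) h5]
  · intro r h0 h1 h2
    have h3 : 0 ≤ 1.0898 - r := by linarith
    have h4 : 0 ≤ r - 0.173 := by nlinarith
    have h5 := mul_nonneg h3 h4
    nlinarith [mul_nonneg h0 h5, mul_nonneg (mul_nonneg h0 h0) h5,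
      mul_nonneg (mul_nonneg (mul_nonneg h0 h0) h0) h5,
      mul_nonneg (mul_nonneg (mul_nonneg (mul_nonneg h0 h0) h0) h0) h5]

/-- **(L1)** `Σ (y_k - (w - S_k)₊/2) ≥ (c₀ - c₁ w) √w` -/
theorem cw_sum {S c0 c1 y1 y2 y3 S1 S2 S3 w : ℝ} (hC : IsC S c0 c1)
    (hw0 : 0 ≤ w) (hw : w ≤ 19 / 16) (h1 : gv w S1 ≤ y1) (h2 : gv w S2 ≤ y2)
    (h3 : gv w S3 ≤ y3) (p1 : 0 ≤ S1) (p2 : 0 ≤ S2) (p3 : 0 ≤ S3)
    (q1 : S1 ≤ S) (q2 : S2 ≤ S) (q3 : S3 ≤ S)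
    (hδ : w = 2 * (y1 ^ 2 + y2 ^ 2 + y3 ^ 2) - 1 / 2 * (y1 + y2 + y3) ^ 2) :
    (c0 - c1 * w) * √w ≤ (y1 - gv w S1) + (y2 - gv w S2) + (y3 - gv w S3) := by
  obtain ⟨k0, k1, k2, k3⟩ := hC w hw0 hw
  exact sum_ge_cube hw0 h1 h2 h3 p1 p2 p3 q1 q2 q3 hδ (mul_nonneg k0 (Real.sqrt_nonneg _))
    k1 k2 k3

section gram
variable {a : Fin 4 → E3} (h : Gram4 (al a))
include h

/-- **(L1), coupling form**: `μ ≤ t_k` -/
theorem Yt_cw {S c0 c1 μ : ℝ} (hC : IsC S c0 c1) {q : E3} {t : ℝ × ℝ} (hq : Pl a q)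
    (hw : ‖a 0 - q‖ ^ 2 ≤ 19 / 16) {V : Fin 3 → ℝ} (hV0 : ∀ k, 0 ≤ V k) (hV : ∀ k, V k ≤ S)
    (hμ : 0 ≤ μ) (hM : ∀ k, μ ≤ T3 t k) (h1 : Qv a 1 q ≤ V 0) (h2 : Qv a 2 q ≤ V 1)
    (h3 : Qv a 3 q ≤ V 2) :
    (T3 t 0 * pp (‖a 0 - q‖ ^ 2 - V 0) + T3 t 1 * pp (‖a 0 - q‖ ^ 2 - V 1) +
      T3 t 2 * pp (‖a 0 - q‖ ^ 2 - V 2)) +
      2 * μ * ((c0 - c1 * ‖a 0 - q‖ ^ 2) * √(‖a 0 - q‖ ^ 2)) ≤ Yt a t q := by
  have hd := norm_d_sq h q
  have g1 := gv_le h (k := 1) (by decide) hq h1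
  have g2 := gv_le h (k := 2) (by decide) hq h2
  have g3 := gv_le h (k := 3) (by decide) hq h3
  have key := cw_sum hC (sq_nonneg _) hw g1 g2 g3 (hV0 0) (hV0 1) (hV0 2) (hV 0) (hV 1) (hV 2) hd
  have k0 := mul_le_mul_of_nonneg_left key hμ
  have k1 := mul_le_mul_of_nonneg_right (hM 0) (sub_nonneg.2 g1)
  have k2 := mul_le_mul_of_nonneg_right (hM 1) (sub_nonneg.2 g2)
  have k3 := mul_le_mul_of_nonneg_right (hM 2) (sub_nonneg.2 g3)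
  unfold Yt
  unfold gv at k0 k1 k2 k3
  linarith

/-- **node `U = (1,1,1)`** (helper88): any load `M`, `M_k + μ ≤ t_k`, the residual with the
caps cut at zero, plus the strip function with weight `μ` -/
theorem Yt_U {S c0 c1 μ : ℝ} (hC : IsC S c0 c1) {q : E3} {t : ℝ × ℝ} (hq : Pl a q)
    (hw : ‖a 0 - q‖ ^ 2 ≤ 19 / 16) {V : Fin 3 → ℝ} (hV0 : ∀ k, 0 ≤ V k) (hV : ∀ k, V k ≤ S)
    (hμ : 0 ≤ μ) {L m : ℝ} {M : Fin 3 → ℝ} (hL : Load a q L m M) (hM : ∀ k, M k + μ ≤ T3 t k)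
    (h1 : Qv a 1 q ≤ V 0) (h2 : Qv a 2 q ≤ V 1) (h3 : Qv a 3 q ≤ V 2) :
    L + m * ‖a 0 - q‖ ^ 2 + ((T3 t 0 - M 0) * pp (‖a 0 - q‖ ^ 2 - V 0) +
      (T3 t 1 - M 1) * pp (‖a 0 - q‖ ^ 2 - V 1) + (T3 t 2 - M 2) * pp (‖a 0 - q‖ ^ 2 - V 2)) +
      2 * μ * ((c0 - c1 * ‖a 0 - q‖ ^ 2) * √(‖a 0 - q‖ ^ 2)) ≤ Yt a t q := by
  have hd := norm_d_sq h q
  have g1 := gv_le h (k := 1) (by decide) hq h1
  have g2 := gv_le h (k := 2) (by decide) hq h2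
  have g3 := gv_le h (k := 3) (by decide) hq h3
  have key := cw_sum hC (sq_nonneg _) hw g1 g2 g3 (hV0 0) (hV0 1) (hV0 2) (hV 0) (hV 1) (hV 2) hd
  have k0 := mul_le_mul_of_nonneg_left key hμ
  have m1 : μ ≤ T3 t 0 - M 0 := by linarith [hM 0]
  have m2 : μ ≤ T3 t 1 - M 1 := by linarith [hM 1]
  have m3 : μ ≤ T3 t 2 - M 2 := by linarith [hM 2]
  have k1 := mul_le_mul_of_nonneg_right m1 (sub_nonneg.2 g1)
  have k2 := mul_le_mul_of_nonneg_right m2 (sub_nonneg.2 g2)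
  have k3 := mul_le_mul_of_nonneg_right m3 (sub_nonneg.2 g3)
  unfold Load at hL
  unfold Yt
  unfold gv at k0 k1 k2 k3
  linarith

/-- the same with the residual filled with the caps (linear form) -/
theorem Yt_U_lin {S c0 c1 μ : ℝ} (hC : IsC S c0 c1) {q : E3} {t : ℝ × ℝ} (hq : Pl a q)
    (hw : ‖a 0 - q‖ ^ 2 ≤ 19 / 16) {V : Fin 3 → ℝ} (hV0 : ∀ k, 0 ≤ V k) (hV : ∀ k, V k ≤ S)
    (hμ : 0 ≤ μ) {L m : ℝ} {M : Fin 3 → ℝ} (hL : Load a q L m M) (hM : ∀ k, M k + μ ≤ T3 t k)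
    (h1 : Qv a 1 q ≤ V 0) (h2 : Qv a 2 q ≤ V 1) (h3 : Qv a 3 q ≤ V 2) :
    (L - ((T3 t 0 - M 0) * V 0 + (T3 t 1 - M 1) * V 1 + (T3 t 2 - M 2) * V 2)) +
      (1 - (M 0 + M 1 + M 2 - m)) * ‖a 0 - q‖ ^ 2 +
      2 * μ * ((c0 - c1 * ‖a 0 - q‖ ^ 2) * √(‖a 0 - q‖ ^ 2)) ≤ Yt a t q := by
  have key := Yt_U h hC hq hw hV0 hV hμ hL hM h1 h2 h3
  have hT : T3 t 0 + T3 t 1 + T3 t 2 = 1 := by
    show t.1 + t.2 + (1 - t.1 - t.2) = 1
    ring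
  have r1 := mul_le_mul_of_nonneg_left (le_pp (‖a 0 - q‖ ^ 2 - V 0))
    (show 0 ≤ T3 t 0 - M 0 by linarith [hM 0])
  have r2 := mul_le_mul_of_nonneg_left (le_pp (‖a 0 - q‖ ^ 2 - V 1))
    (show 0 ≤ T3 t 1 - M 1 by linarith [hM 1])
  have r3 := mul_le_mul_of_nonneg_left (le_pp (‖a 0 - q‖ ^ 2 - V 2))
    (show 0 ≤ T3 t 2 - M 2 by linarith [hM 2])
  have e2 : (T3 t 0 + T3 t 1 + T3 t 2) * ‖a 0 - q‖ ^ 2 = ‖a 0 - q‖ ^ 2 := by rw [hT, one_mul]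
  nlinarith

/-- **(L2) the range of `w`** (rule R6) -/
theorem range_cw {S c0 c1 μ s : ℝ} (hC : IsC S c0 c1) {q : E3} {t : ℝ × ℝ} (hq : Pl a q)
    (hw : ‖a 0 - q‖ ^ 2 ≤ 19 / 16) {V : Fin 3 → ℝ} (hV0 : ∀ k, 0 ≤ V k) (hV : ∀ k, V k ≤ S)
    (hμ : 0 ≤ μ) (hM : ∀ k, μ ≤ T3 t k) (h1 : Qv a 1 q ≤ V 0) (h2 : Qv a 2 q ≤ V 1)
    (h3 : Qv a 3 q ≤ V 2) (hX : Yt a t q / √(mt t) - ‖a 0 - q‖ ^ 2 ≤ s) :
    (1 - √(mt t)) * ‖a 0 - q‖ ^ 2 +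
      2 * μ * ((c0 - c1 * ‖a 0 - q‖ ^ 2) * √(‖a 0 - q‖ ^ 2)) ≤
      √(mt t) * s + (T3 t 0 * V 0 + T3 t 1 * V 1 + T3 t 2 * V 2) := by
  have hm : 0 < √(mt t) := Real.sqrt_pos.2 mt_pos
  have k := Yt_cw h hC hq hw hV0 hV hμ hM h1 h2 h3
  have e : √(mt t) * (Yt a t q / √(mt t) - ‖a 0 - q‖ ^ 2) =
      Yt a t q - √(mt t) * ‖a 0 - q‖ ^ 2 := by
    field_simp
  have k2 := mul_le_mul_of_nonneg_left hX hm.le
  rw [e] at k2
  have hT : T3 t 0 + T3 t 1 + T3 t 2 = 1 := by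
    show t.1 + t.2 + (1 - t.1 - t.2) = 1
    ring
  have r1 := mul_le_mul_of_nonneg_left (le_pp (‖a 0 - q‖ ^ 2 - V 0)) (hμ.trans (hM 0))
  have r2 := mul_le_mul_of_nonneg_left (le_pp (‖a 0 - q‖ ^ 2 - V 1)) (hμ.trans (hM 1))
  have r3 := mul_le_mul_of_nonneg_left (le_pp (‖a 0 - q‖ ^ 2 - V 2)) (hμ.trans (hM 2))
  have e2 : (T3 t 0 + T3 t 1 + T3 t 2) * ‖a 0 - q‖ ^ 2 = ‖a 0 - q‖ ^ 2 := by rw [hT, one_mul]
  nlinarith

end gram

/-- the bound of `Q_0(p)` on the ray `t`: `s = S_0` and the placement at `p` -/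
noncomputable def own (s : ℝ) (t : ℝ × ℝ) : ℝ :=
  min s (4 * mt t / (1 + max (T3 t 0) (max (T3 t 1) (T3 t 2))) ^ 2 - 1)

theorem own_le_s (s : ℝ) (t : ℝ × ℝ) : own s t ≤ s := min_le_left _ _

/-- `mt = 1 - σ + (second order)`: `(1 + t_k)² ≤ 4 mt` -/
theorem place_mt {x y z : ℝ} (hy : 0 ≤ y) (hz : 0 ≤ z) (h : x + y + z = 1) :
    (1 + x) ^ 2 ≤ 4 * (1 - (x * y + x * z + y * z)) := by
  have e : x = 1 - y - z := by linarith
  rw [e]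
  nlinarith [sq_nonneg (y - z), mul_nonneg hy hz]

theorem own_nonneg {s : ℝ} (hs : 0 ≤ s) {t : ℝ × ℝ} (ht : t ∈ Dl) : 0 ≤ own s t := by
  obtain ⟨t1, t2, t3⟩ := ht
  have h1 : (0 : ℝ) ≤ T3 t 0 := t1.le
  have h2 : (0 : ℝ) ≤ T3 t 1 := t2.le
  have h3 : (0 : ℝ) ≤ T3 t 2 := by
    show (0 : ℝ) ≤ 1 - t.1 - t.2
    linarith
  have hsum : T3 t 0 + T3 t 1 + T3 t 2 = 1 := by
    show t.1 + t.2 + (1 - t.1 - t.2) = 1
    ring
  have hmt : mt t = 1 - (T3 t 0 * T3 t 1 + T3 t 0 * T3 t 2 + T3 t 1 * T3 t 2) := rfl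
  refine le_min hs ?_
  obtain ⟨x, hx⟩ : ∃ x, x = max (T3 t 0) (max (T3 t 1) (T3 t 2)) := ⟨_, rfl⟩
  rw [← hx]
  have hx0 : 0 ≤ x := by rw [hx]; exact h1.trans (le_max_left _ _)
  have hpos : 0 < (1 + x) ^ 2 := by positivity
  rw [sub_nonneg, le_div_iff₀ hpos, one_mul]
  have hcase : x = T3 t 0 ∨ x = T3 t 1 ∨ x = T3 t 2 := by
    rw [hx]
    rcases max_choice (T3 t 0) (max (T3 t 1) (T3 t 2)) with e | e
    · left; exact e
    · rw [e]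
      right
      exact max_choice _ _
  rw [hmt]
  rcases hcase with e | e | e <;> rw [e]
  · exact (place_mt h2 h3 hsum).trans (le_of_eq (by ring))
  · exact (place_mt h1 h3 (by linarith)).trans (le_of_eq (by ring))
  · exact (place_mt h1 h2 (by linarith)).trans (le_of_eq (by ring))

/-- **own bound** for `p` with `Q_0(p) ≤ s` -/
theorem own_le {a : Fin 4 → E3} (h : Gram4 (al a)) {p : E3} {s : ℝ} (hp : Pl a p)
    (hB : 0 < 1 - bar a 0 p) (hs : Qv a 0 p ≤ s) : Qv a 0 p ≤ own s (tx a p) := by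
  refine le_min hs ?_
  obtain ⟨e1, e2, e3⟩ := tx_mul h hB
  have hsum := bar_sum h p
  have e : 1 + Qv a 0 p = (1 - bar a 0 p) ^ 2 * mt (tx a p) := by
    unfold Qv
    rw [norm_sub_sq_bar h, bar_vertex_self h, bar_vertex_ne h (by decide),
      bar_vertex_ne h (by decide), bar_vertex_ne h (by decide), ← e1, ← e2, ← e3]
    unfold Helper33.MEI.mt
    ring
  have l1 := place_lam h hp (k := 1) (by decide)
  have l2 := place_lam h hp (k := 2) (by decide)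
  have l3 := place_lam h hp (k := 3) (by decide)
  rw [← e1] at l1
  rw [← e2] at l2
  rw [← e3] at l3
  obtain ⟨x, hx⟩ : ∃ x, x = max (T3 (tx a p) 0) (max (T3 (tx a p) 1) (T3 (tx a p) 2)) :=
    ⟨_, rfl⟩
  rw [← hx]
  have hcase : x = T3 (tx a p) 0 ∨ x = T3 (tx a p) 1 ∨ x = T3 (tx a p) 2 := by
    rw [hx]
    rcases max_choice (T3 (tx a p) 0) (max (T3 (tx a p) 1) (T3 (tx a p) 2)) with e | e
    · left; exact e
    · rw [e]
      right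
      exact max_choice _ _
  have hl : (1 - bar a 0 p) * (1 + x) ≤ 2 := by
    rcases hcase with e | e | e <;> rw [e]
    · show (1 - bar a 0 p) * (1 + (tx a p).1) ≤ 2
      linarith
    · show (1 - bar a 0 p) * (1 + (tx a p).2) ≤ 2
      linarith
    · show (1 - bar a 0 p) * (1 + (1 - (tx a p).1 - (tx a p).2)) ≤ 2
      linarith
  have hx3 : 1 / 3 ≤ x := by
    have a1 : T3 (tx a p) 0 ≤ x := by rw [hx]; exact le_max_left _ _
    have a2 : T3 (tx a p) 1 ≤ x := by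
      rw [hx]; exact (le_max_left _ _).trans (le_max_right _ _)
    have a3 : T3 (tx a p) 2 ≤ x := by
      rw [hx]; exact (le_max_right _ _).trans (le_max_right _ _)
    have hs3 : T3 (tx a p) 0 + T3 (tx a p) 1 + T3 (tx a p) 2 = 1 := by
      show (tx a p).1 + (tx a p).2 + (1 - (tx a p).1 - (tx a p).2) = 1
      ring
    linarith
  have hpos : 0 < (1 + x) ^ 2 := by positivity
  have hm := mt_pos (t := tx a p)
  rw [le_sub_iff_add_le, le_div_iff₀ hpos, add_comm, e]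
  have h4 : ((1 - bar a 0 p) * (1 + x)) ^ 2 ≤ 2 ^ 2 :=
    pow_le_pow_left₀ (mul_nonneg hB.le (by linarith)) hl 2
  have h5 := mul_le_mul_of_nonneg_right h4 hm.le
  calc (1 - bar a 0 p) ^ 2 * mt (tx a p) * (1 + x) ^ 2
      = ((1 - bar a 0 p) * (1 + x)) ^ 2 * mt (tx a p) := by ring
    _ ≤ 2 ^ 2 * mt (tx a p) := h5
    _ = 4 * mt (tx a p) := by ring

/-- **(L3)** the range ends at any `W` with `E ≤ β W + 2 μ c(W) √W` -/
theorem le_W {β μ c0 c1 w W E : ℝ} (hβ : 0 ≤ β) (hμ : 0 < μ) (h1 : 0 ≤ c1)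
    (hw0 : 0 ≤ w) (hw : w ≤ 19 / 16) (hW0 : 0 ≤ W)
    (hc : c1 * (19 / 16 + 1.0898 * √W + W) < c0)
    (hE : β * w + 2 * μ * ((c0 - c1 * w) * √w) ≤ E)
    (hW : E ≤ β * W + 2 * μ * ((c0 - c1 * W) * √W)) : w ≤ W := by
  by_contra hlt
  have hlt := not_le.1 hlt
  obtain ⟨r, hr⟩ : ∃ r, r = √w := ⟨_, rfl⟩
  obtain ⟨R, hR⟩ : ∃ R, R = √W := ⟨_, rfl⟩
  have hr0 : 0 ≤ r := by rw [hr]; exact Real.sqrt_nonneg _
  have hR0 : 0 ≤ R := by rw [hR]; exact Real.sqrt_nonneg _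
  have hr2 : w = r ^ 2 := by rw [hr, Real.sq_sqrt hw0]
  have hR2 : W = R ^ 2 := by rw [hR, Real.sq_sqrt hW0]
  have hrR : R < r := by rw [hr, hR]; exact Real.sqrt_lt_sqrt hW0 hlt
  rw [← hr] at hE
  rw [← hR] at hW hc
  have hr1 : r ≤ 1.0898 := by
    by_contra hc
    have hc := not_le.1 hc
    nlinarith
  have k1 : c1 * (w + r * R + W) < c0 := by
    refine lt_of_le_of_lt (mul_le_mul_of_nonneg_left ?_ h1) hc
    have := mul_le_mul_of_nonneg_right hr1 hR0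
    linarith
  have k2 : 0 < (r - R) * (c0 - c1 * (w + r * R + W)) :=
    mul_pos (by linarith) (by linarith)
  have k3 : (c0 - c1 * w) * r - (c0 - c1 * W) * R = (r - R) * (c0 - c1 * (w + r * R + W)) := by
    rw [hr2, hR2]; ring
  have k4 : 0 ≤ β * (w - W) := mul_nonneg hβ (by linarith)
  have k5 : 0 < 2 * μ * ((c0 - c1 * w) * r - (c0 - c1 * W) * R) := by
    rw [k3]
    positivity
  linarith

/-- explicit end of the range, constant `c` -/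
theorem le_W_expl {β μ c w E : ℝ} (hβ : 0 ≤ β) (hμ : 0 < μ) (hc : 0 < c) (hw0 : 0 ≤ w)
    (hE : β * w + 2 * μ * (c * √w) ≤ E) :
    w ≤ (E / (c * μ + √((c * μ) ^ 2 + β * E))) ^ 2 := by
  obtain ⟨r, hr⟩ : ∃ r, r = √w := ⟨_, rfl⟩
  have hr0 : 0 ≤ r := by rw [hr]; exact Real.sqrt_nonneg _
  have hr2 : w = r ^ 2 := by rw [hr, Real.sq_sqrt hw0]
  rw [← hr] at hE
  obtain ⟨m, hm⟩ : ∃ m, m = c * μ := ⟨_, rfl⟩
  have hm0 : 0 < m := by rw [hm]; positivity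
  rw [← hm]
  have hE' : β * r ^ 2 + 2 * m * r ≤ E := by
    rw [hm, ← hr2]
    linarith
  have hE0 : 0 ≤ E := le_trans (by positivity) hE'
  have hs0 := Real.sqrt_nonneg (m ^ 2 + β * E)
  have hss := Real.sq_sqrt (show 0 ≤ m ^ 2 + β * E by positivity)
  set D := √(m ^ 2 + β * E)
  have hden : 0 < m + D := by linarith
  have key : r ≤ E / (m + D) := by
    rw [le_div_iff₀ hden]
    by_contra hcon
    have hcon := not_le.1 hcon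
    -- `r (m + D) > E ≥ β r² + 2 m r`
    have h1 : 0 < r := by
      rcases hr0.lt_or_eq with h | h
      · exact h
      · rw [← h] at hcon
        linarith
    have h2 : β * r < D - m := by
      have h3 : r * (β * r + 2 * m) < r * (m + D) := by nlinarith
      have := lt_of_mul_lt_mul_left h3 hr0
      linarith
    have h4 : (D - m) * (D + m) = β * E := by nlinarith
    rcases hβ.lt_or_eq with hb | hb
    · have h5 : β * E < β * (r * (m + D)) := mul_lt_mul_of_pos_left hcon hb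
      nlinarith
    · rw [← hb] at h2 h4
      have h6 : 0 < D - m := by linarith
      have := mul_pos h6 hden
      linarith
  rw [hr2]
  exact pow_le_pow_left₀ hr0 key 2

/-- rational form: `w (β E + 4 c² μ²) ≤ E²` -/
theorem le_W_rat {β μ c w E : ℝ} (hβ : 0 ≤ β) (hμ : 0 < μ) (hc : 0 < c) (hw0 : 0 ≤ w)
    (hE : β * w + 2 * μ * (c * √w) ≤ E) : w * (β * E + 4 * (c * μ) ^ 2) ≤ E ^ 2 := by
  obtain ⟨r, hr⟩ : ∃ r, r = √w := ⟨_, rfl⟩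
  have hr0 : 0 ≤ r := by rw [hr]; exact Real.sqrt_nonneg _
  have hr2 : w = r ^ 2 := by rw [hr, Real.sq_sqrt hw0]
  rw [← hr] at hE
  obtain ⟨m, hm⟩ : ∃ m, m = c * μ := ⟨_, rfl⟩
  have hm0 : 0 < m := by rw [hm]; positivity
  rw [← hm]
  have hE' : β * r ^ 2 + 2 * m * r ≤ E := by
    rw [hm, ← hr2]
    linarith
  have hE0 : 0 ≤ E := le_trans (by positivity) hE'
  rw [hr2]
  -- `E² ≥ E (β r² + 2 m r)` and `E · 2 m r ≥ (β r² + 2 m r) 2 m r ≥ 4 m² r²`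
  have k1 := mul_le_mul_of_nonneg_left hE' hE0
  have k2 := mul_le_mul_of_nonneg_right hE' (show 0 ≤ 2 * m * r by positivity)
  have k3 : 0 ≤ β * r ^ 2 * (2 * m * r) := by positivity
  nlinarith

/-- `c(w) ≥ c(w₀)` for `w ≤ w₀` -/
theorem cw_mono {β μ c0 c1 w w0 E : ℝ} (hμ : 0 ≤ μ) (h1 : 0 ≤ c1) (hw : w ≤ w0)
    (hE : β * w + 2 * μ * ((c0 - c1 * w) * √w) ≤ E) :
    β * w + 2 * μ * ((c0 - c1 * w0) * √w) ≤ E := by
  have k1 : (c0 - c1 * w0) * √w ≤ (c0 - c1 * w) * √w := by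
    refine mul_le_mul_of_nonneg_right ?_ (Real.sqrt_nonneg _)
    have := mul_le_mul_of_nonneg_left hw h1
    linarith
  have := mul_le_mul_of_nonneg_left k1 (by linarith : 0 ≤ 2 * μ)
  linarith

/-- `(c₀ - c₁ w) √w` is concave: chord on `[w₁, w₂]` (so `ff_line` applies piecewise) -/
theorem cw_chord {c0 c1 w1 w w2 : ℝ} (h0 : 0 ≤ w1) (h1 : w1 ≤ w) (h2 : w ≤ w2) (hc0 : 0 ≤ c0)
    (hc1 : 0 ≤ c1) : (w2 - w) * ((c0 - c1 * w1) * √w1) + (w - w1) * ((c0 - c1 * w2) * √w2) ≤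
      (w2 - w1) * ((c0 - c1 * w) * √w) := by
  have hw0 := h0.trans h1
  have hw2 := hw0.trans h2
  obtain ⟨r1, e1⟩ : ∃ r, r = √w1 := ⟨_, rfl⟩
  obtain ⟨r, e⟩ : ∃ r, r = √w := ⟨_, rfl⟩
  obtain ⟨r2, e2⟩ : ∃ r, r = √w2 := ⟨_, rfl⟩
  have p1 : 0 ≤ r1 := by rw [e1]; exact Real.sqrt_nonneg _
  have q1 : w1 = r1 ^ 2 := by rw [e1, Real.sq_sqrt h0]
  have q : w = r ^ 2 := by rw [e, Real.sq_sqrt hw0]
  have q2 : w2 = r2 ^ 2 := by rw [e2, Real.sq_sqrt hw2]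
  have a1 : r1 ≤ r := by rw [e1, e]; exact Real.sqrt_le_sqrt h1
  have a2 : r ≤ r2 := by rw [e, e2]; exact Real.sqrt_le_sqrt h2
  rw [← e1, ← e, ← e2, q1, q, q2]
  have k : 0 ≤ (r2 - r1) * ((r - r1) * (r2 - r)) := by
    have b1 : 0 ≤ r2 - r1 := by linarith
    have b2 : 0 ≤ r - r1 := by linarith
    have b3 : 0 ≤ r2 - r := by linarith
    positivity
  have k1 := mul_nonneg k hc0
  have k2 : 0 ≤ (r2 - r1) * ((r - r1) * (r2 - r)) * (c1 * (r1 * r2 + r * r1 + r * r2)) := by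
    have b3 : 0 ≤ r := p1.trans a1
    have b4 : 0 ≤ r2 := b3.trans a2
    exact mul_nonneg k (by positivity)
  have id1 : (r2 ^ 2 - r1 ^ 2) * ((c0 - c1 * r ^ 2) * r) -
      ((r2 ^ 2 - r ^ 2) * ((c0 - c1 * r1 ^ 2) * r1) + (r ^ 2 - r1 ^ 2) *
        ((c0 - c1 * r2 ^ 2) * r2)) =
      (r2 - r1) * ((r - r1) * (r2 - r)) * c0 +
        (r2 - r1) * ((r - r1) * (r2 - r)) * (c1 * (r1 * r2 + r * r1 + r * r2)) := by ring
  linarith

end Helper93.MEI
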