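import Pool.Agent.Helper93.MEI.Blk5
import Pool.Agent.Helper53.MEI.Mom6

/-!
# Project MEI (M2), first moments of the arcs: slabs and bulk terms together, all six edges

Two free parameters: `τ ∈ [0, 3/10]` (slab of the upper wall), `θ ∈ [0, 1]` (bulk terms).
-/

set_option autoImplicit false

namespace Helper93.MEI.Blk

open Set MeasureTheory Filter Topology Metric
open Helper80.CW Helper22.Wedge Helper22.Sig Helper14.CW Helper14.MEI2 Helper93.MEI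
open Helper22.MEI (s t FD FD_pos)
open Helper21.Sec Helper21.Mom Helper53.MEI
open Pool.Agent.Helper95.MEI.Fub (Zp int_cont Zp_meas)
open Pool.Agent.Helper73.MEI
open scoped RealInnerProductSpace ContDiff Real

/-- the number of the bulk terms, `η = 1` or `-1`, `d = S 0 - S 1` -/
theorem blk_num {θ η s1 s2 : ℝ} (h0 : 0 ≤ θ) (h1 : θ ≤ 1) (k1 : 0 ≤ s1) (k2 : 0 ≤ s2)
    (hη : η = 1) :
    θ * (2 - θ) * 0.003487 + θ ^ 2 * (3 - 2 * θ) * 0.0008877 -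
      ((0.02322 * θ + 0.00823 * θ ^ 2) * s1 + (0.01992 * θ + 0.00734 * θ ^ 2) * s2) ≤
      VA θ η (s1 + s2) (s1 - s2) + VW θ η (0.5774 * (s1 + s2)) (s1 - s2) := by
  unfold VA VW
  rw [hη]
  have a1 : 0 ≤ θ * (2 - θ) := mul_nonneg h0 (by linarith)
  have a2 : 0 ≤ θ ^ 2 * (3 - 2 * θ) := mul_nonneg (by positivity) (by linarith)
  have a3 : 0 ≤ θ * s1 := mul_nonneg h0 k1
  have a4 : 0 ≤ θ * s2 := mul_nonneg h0 k2
  have a5 : 0 ≤ θ ^ 2 * s1 := mul_nonneg (by positivity) k1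
  have a6 : 0 ≤ θ ^ 2 * s2 := mul_nonneg (by positivity) k2
  nlinarith

theorem blk_num' {θ η s1 s2 : ℝ} (h0 : 0 ≤ θ) (h1 : θ ≤ 1) (k1 : 0 ≤ s1) (k2 : 0 ≤ s2)
    (hη : η = -1) :
    θ * (2 - θ) * 0.003487 + θ ^ 2 * (3 - 2 * θ) * 0.0008877 -
      ((0.02322 * θ + 0.00823 * θ ^ 2) * s2 + (0.01992 * θ + 0.00734 * θ ^ 2) * s1) ≤
      VA θ η (s1 + s2) (s1 - s2) + VW θ η (0.5774 * (s1 + s2)) (s1 - s2) := by
  have h := blk_num h0 h1 k2 k1 (rfl : (1 : ℝ) = 1)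
  refine h.trans (le_of_eq ?_)
  unfold VA VW
  rw [hη]
  ring

section six
variable {a : Fin 4 → E3} {K : Set E3} {σ : Measure (E3 × E3)}
variable [IsFiniteMeasure σ] (h : Pool.Agent.Helper73.MEI.PM K σ)
    (ha : ∀ i j, i ≠ j → dist (a i) (a j) = 1)
    (hull : ∀ p, (∀ q ∈ K, ‖p - q‖ ≤ 1) → p ∈ K) (hp : ∀ x ∈ K, Pl a x)
    {B : Fin 3 → Bool → OrthonormalBasis (Fin 3) ℝ E3}
    (hB : ∀ m e, Fr (fun i => a (pr m e i)) (B m e)) {S : Fin 4 → ℝ} (hS0 : ∀ i, 0 ≤ S i)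
    (hQ : ∀ i, ∀ q ∈ K, Qv a i q ≤ S i) {τ : ℝ} (t0 : 0 ≤ τ) (t1 : τ ≤ 3 / 10)
    {θ : ℝ} (u0 : 0 ≤ θ) (u1 : θ ≤ 1)
    (m : Fin 3) (e i : Bool) {k k' : Fin 4} (hk : k = 2 ∧ k' = 3 ∨ k = 3 ∧ k' = 2)

include h ha hull hp hB hS0 hQ t0 t1 u0 u1 hk in
/-- **first moments of the arcs**: slab parameter `τ`, bulk parameter `θ` -/
theorem mom_wt2 : ∫ z in Helper37.MEI.EE a m e, Helper37.MEI.wt (Helper37.MEI.ap a m e) i z.1 *
      bar a (pf m e k) z.2 ∂σ ≤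
    0.03561 - (θ * (2 - θ) * 0.003487 + θ ^ 2 * (3 - 2 * θ) * 0.0008877) +
      (0.2986 - 0.5798 * τ) * S (pf m e k') +
      0.2942 * τ ^ 3 - 0.14 * τ ^ 4 + 0.1157 * τ ^ 5 +
      (0.07317 + 0.02322 * θ + 0.00823 * θ ^ 2) * S (pf m e (if i then 1 else 0)) +
      (0.05728 + 0.01992 * θ + 0.00734 * θ ^ 2) * S (pf m e (if i then 0 else 1)) := by
  have ha' := Helper37.MEI.hap ha m e
  have hb : Fr (Helper37.MEI.ap a m e) (B m e) := hB m e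
  have hcomp : ∀ p : E3, (∀ q ∈ K, dist p q ≤ 1) → p ∈ K := fun p hpp =>
    hull p fun q hq => by rw [← dist_eq_norm]; exact hpp q hq
  have hp' : ∀ x ∈ K, Pl (Helper37.MEI.ap a m e) x := fun x hx => Pl_perm _ (hp x hx)
  have hQ' : ∀ x ∈ K, ∀ j, Qv (Helper37.MEI.ap a m e) j x ≤ S (pf m e j) :=
    fun x hx j => hQ (pf m e j) x hx
  have hS' : ∀ j, 0 ≤ S (pf m e j) := fun j => hS0 _
  obtain ⟨ε, hks⟩ : ∃ ε : ℝ, ks k ε k' := by
    rcases hk with ⟨h1, h2⟩ | ⟨h1, h2⟩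
    · exact ⟨1, Or.inl ⟨h1, rfl, h2⟩⟩
    · exact ⟨-1, Or.inr ⟨h1, rfl, h2⟩⟩
  have hφc : Continuous (nn (sg i)) := by unfold nn; fun_prop
  have h1 := momF_le ha' h hcomp hp' hb hQ' hS' (wgt_nn (sg_abs i)) hφc hks
  have h2 := bulk_lo ha' h hcomp hp' hb hQ' hS' i hks u0 u1
  have h3 := num_nn (hS' k') (hS' 0) (hS' 1) t0 t1 i
  have hV : Vb (nn (sg i)) (Helper37.MEI.ap a m e) (B m e) K ε =
      ∫ x in K ∩ EC (B m e) (cen (Helper37.MEI.ap a m e)),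
        fderiv ℝ (fun y => om (sg i) (co (B m e) (cen (Helper37.MEI.ap a m e)) y)) x
          (be (B m e) ε) := by
    unfold Vb
    refine integral_congr_ae (Eventually.of_forall fun x => ?_)
    simp only
    have hc : ContDiff ℝ 1 (nn (sg i)) := by unfold nn; fun_prop
    exact (fd_beG (b := B m e) (c := cen (Helper37.MEI.ap a m e)) hc ε x).symm
  simp only [wF_nn] at h1
  rw [hV] at h1
  have hbk : ∀ x, bar (Helper37.MEI.ap a m e) k x = bar a (pf m e k) x := fun x =>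
    bar_perm (pr m e) k x
  simp only [hbk] at h1 h2
  have hEE : Helper37.MEI.EE a m e = Zp (Helper37.MEI.ap a m e) 2 3 := rfl
  rw [hEE]
  cases i
  · have h4 := blk_num u0 u1 (hS' 0) (hS' 1) (rfl : sg false = 1)
    simp only [Bool.false_eq_true, if_false] at h3 ⊢
    linarith
  · have h4 := blk_num' u0 u1 (hS' 0) (hS' 1) (rfl : sg true = -1)
    simp only [if_true] at h3 ⊢
    linarith

end six

end Helper93.MEI.Blk
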