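import Pool.Agent.Helper93.MEI.Blk3

/-!
# Project MEI (M2), bulk terms of the first moments, IV: the volume term
-/

set_option autoImplicit false

namespace Helper93.MEI.Blk

open Set MeasureTheory Filter Topology Metric
open Helper80.CW Helper22.Wedge Helper22.Sig Helper14.CW Helper14.MEI2 Helper93.MEI
open Helper22.MEI (s t FD FD_pos)
open Helper21.Sec Helper21.Mom Helper53.MEI
open scoped RealInnerProductSpace ContDiff

/-! ### powers of the positive part -/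

theorem pp_sq {τ y e u v : ℝ} (hτ : 0 ≤ τ) (hy : 0 ≤ y) (hu : u = y - e / 3)
    (hv : v = max u 0) : τ * (2 - τ) * y ^ 2 - τ * (2 / 3 * y) * e ≤ v ^ 2 := by
  have he : e = 3 * (y - u) := by rw [hu]; ring
  rcases le_total 0 u with h | h
  · rw [hv, max_eq_left h, he]
    nlinarith [sq_nonneg (u - τ * y)]
  · rw [hv, max_eq_right h, he]
    have k1 : τ * y * u ≤ 0 := mul_nonpos_of_nonneg_of_nonpos (mul_nonneg hτ hy) h
    have k2 : 0 ≤ τ ^ 2 * y ^ 2 := by positivity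
    nlinarith

theorem pp_cu {τ y e u v : ℝ} (hτ : 0 ≤ τ) (hy : 0 ≤ y) (hu : u = y - e / 3)
    (hv : v = max u 0) : τ ^ 2 * (3 - 2 * τ) * y ^ 3 - τ ^ 2 * y ^ 2 * e ≤ v ^ 3 := by
  have he : e = 3 * (y - u) := by rw [hu]; ring
  have hty : 0 ≤ τ * y := mul_nonneg hτ hy
  rcases le_total 0 u with h | h
  · rw [hv, max_eq_left h, he]
    have k := mul_nonneg (sq_nonneg (u - τ * y)) (by linarith : 0 ≤ u + 2 * (τ * y))
    nlinarith
  · rw [hv, max_eq_right h, he]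
    have k1 : τ ^ 2 * y ^ 2 * u ≤ 0 := mul_nonpos_of_nonneg_of_nonpos (by positivity) h
    have k2 : 0 ≤ τ ^ 3 * y ^ 3 := by positivity
    nlinarith

/-! ### the region -/

variable (b : OrthonormalBasis (Fin 3) ℝ E3) (c : E3)

/-- coordinates `(X, (Y, W))` -/
noncomputable def Cw (x : E3) : ℝ × (ℝ × ℝ) :=
  ((co b c x).1, ((co b c x).2.1, (co b c x).2.2 - √2 / 4))

theorem Cw_mp : MeasurePreserving (Cw b c) volume volume := by
  have h1 : MeasurePreserving (Prod.map id (Prod.map id (fun z : ℝ => z - √2 / 4)) :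
      ℝ × (ℝ × ℝ) → ℝ × (ℝ × ℝ)) volume volume :=
    (MeasurePreserving.id volume).prod
      ((MeasurePreserving.id volume).prod (measurePreserving_sub_right volume (√2 / 4)))
  exact h1.comp (co_mp b c)

theorem Cw_cont : Continuous (Cw b c) := by
  have h := (co_cd b c).continuous
  unfold Cw
  fun_prop

theorem Cw_inj : Function.Injective (Cw b c) := by
  intro x y h
  simp only [Cw, Prod.mk.injEq] at h
  obtain ⟨h1, h2, h3⟩ := h
  exact co_inj b c (Prod.ext h1 (Prod.ext h2 (by linarith)))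

theorem Cw_emb : MeasurableEmbedding (Cw b c) := (Cw_cont b c).measurableEmbedding (Cw_inj b c)

theorem int_Cw (R : Set (ℝ × (ℝ × ℝ))) (F : ℝ × (ℝ × ℝ) → ℝ) :
    ∫ x in Cw b c ⁻¹' R, F (Cw b c x) = ∫ q in R, F q :=
  (Cw_mp b c).setIntegral_preimage_emb (Cw_emb b c) F R

/-- the lower region in coordinates -/
def Rg (sg d : ℝ) : Set (ℝ × (ℝ × ℝ)) :=
  {q | q.1 ∈ Ioc (-(1 / 2) : ℝ) (1 / 2) ∧ 0 < uu sg d q.1 ∧ q.2 ∈ Sc (√3 * uu sg d q.1)}

theorem Rg_meas (sg d : ℝ) : MeasurableSet (Rg sg d) := by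
  have hu : Continuous fun q : ℝ × (ℝ × ℝ) => uu sg d q.1 :=
    (uu_cont sg d).comp continuous_fst
  have hL : Continuous fun q : ℝ × (ℝ × ℝ) => √3 * uu sg d q.1 := continuous_const.mul hu
  have hY : Continuous fun q : ℝ × (ℝ × ℝ) => q.2.1 := by fun_prop
  have hW : Continuous fun q : ℝ × (ℝ × ℝ) => q.2.2 := by fun_prop
  have m1 : MeasurableSet {q : ℝ × (ℝ × ℝ) | q.1 ∈ Ioc (-(1 / 2) : ℝ) (1 / 2)} :=
    measurable_fst measurableSet_Ioc
  have m2 : MeasurableSet {q : ℝ × (ℝ × ℝ) | 0 < uu sg d q.1} :=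
    measurableSet_lt measurable_const hu.measurable
  have m3 : MeasurableSet {q : ℝ × (ℝ × ℝ) | -(0.577 * (√3 * uu sg d q.1)) < q.2.1} :=
    measurableSet_lt (hL.measurable.const_mul 0.577).neg hY.measurable
  have m4 : MeasurableSet {q : ℝ × (ℝ × ℝ) | q.2.1 < 0.577 * (√3 * uu sg d q.1)} :=
    measurableSet_lt hY.measurable (hL.measurable.const_mul 0.577)
  have m5 : MeasurableSet {q : ℝ × (ℝ × ℝ) | √2 * |q.2.1| < q.2.2} :=
    measurableSet_lt (by fun_prop : Continuous fun q : ℝ × (ℝ × ℝ) => √2 * |q.2.1|).measurable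
      hW.measurable
  have m6 : MeasurableSet {q : ℝ × (ℝ × ℝ) | q.2.2 < √3 * uu sg d q.1 -
      0.551 * q.2.1 ^ 2 / (√3 * uu sg d q.1)} :=
    measurableSet_lt hW.measurable (hL.measurable.sub
      (((hY.measurable.pow_const 2).const_mul 0.551).div hL.measurable))
  have e : Rg sg d = {q : ℝ × (ℝ × ℝ) | q.1 ∈ Ioc (-(1 / 2) : ℝ) (1 / 2)} ∩
      ({q : ℝ × (ℝ × ℝ) | 0 < uu sg d q.1} ∩
      (({q : ℝ × (ℝ × ℝ) | -(0.577 * (√3 * uu sg d q.1)) < q.2.1} ∩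
        {q : ℝ × (ℝ × ℝ) | q.2.1 < 0.577 * (√3 * uu sg d q.1)}) ∩
      ({q : ℝ × (ℝ × ℝ) | √2 * |q.2.1| < q.2.2} ∩
      {q : ℝ × (ℝ × ℝ) | q.2.2 < √3 * uu sg d q.1 -
        0.551 * q.2.1 ^ 2 / (√3 * uu sg d q.1)}))) := by
    ext q
    unfold Rg Sc regionBetween
    simp only [mem_ofPred_eq, mem_inter_iff, mem_Ioo]
  rw [e]
  exact m1.inter (m2.inter ((m3.inter m4).inter (m5.inter m6)))

theorem s3b : √3 ≤ 1.7320509 ∧ 1.73205 < √3 ∧ √3 * √3 = (3 : ℝ) := by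
  refine ⟨?_, ?_, Real.mul_self_sqrt (by norm_num)⟩
  · rw [Real.sqrt_le_left (by norm_num)]; norm_num
  · rw [Real.lt_sqrt (by norm_num)]; norm_num

/-- facts at a point of the region -/
theorem Rg_facts {s1 s2 : ℝ} (h1 : 0 ≤ s1) (h2 : 0 ≤ s2) {q : ℝ × (ℝ × ℝ)}
    (hq : q ∈ Rg (s1 + s2) (s1 - s2)) :
    |q.1| ≤ 1 / 2 ∧ 0 < q.2.2 ∧ √2 * |q.2.1| < q.2.2 ∧
      q.2.1 ^ 2 + q.2.2 ^ 2 ≤ 3 * uu (s1 + s2) (s1 - s2) q.1 ^ 2 ∧
      q.2.1 ^ 2 + q.2.2 ^ 2 ≤ hh q.1 ^ 2 / 3 ∧ q.2.2 ≤ 0.5774 * hh q.1 := by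
  obtain ⟨hX, hu, hS⟩ := hq
  have hX' : |q.1| ≤ 1 / 2 := abs_le.2 ⟨hX.1.le, hX.2⟩
  obtain ⟨_, _, h3⟩ := s3b
  have hL : 0 < √3 * uu (s1 + s2) (s1 - s2) q.1 := by positivity
  obtain ⟨a1, a2, a3⟩ := Sc_disk hL hS
  have e : (√3 * uu (s1 + s2) (s1 - s2) q.1) ^ 2 = 3 * uu (s1 + s2) (s1 - s2) q.1 ^ 2 := by
    rw [mul_pow, sq √3, h3]
  rw [e] at a3
  have he := e1_nonneg h1 h2 hX'
  have hy := (yy_le hX').1
  have hh0 := (sq_le4 hX').1
  have k1 : uu (s1 + s2) (s1 - s2) q.1 ≤ hh q.1 / 3 := by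
    unfold uu hh
    linarith
  have k2 : 3 * uu (s1 + s2) (s1 - s2) q.1 ^ 2 ≤ hh q.1 ^ 2 / 3 := by
    have := pow_le_pow_left₀ hu.le k1 2
    nlinarith
  have hh1 : 0 ≤ hh q.1 := hh0
  refine ⟨hX', a1, a2, a3.le, a3.le.trans k2, ?_⟩
  have k3 : q.2.2 ^ 2 ≤ (0.5774 * hh q.1) ^ 2 := by
    nlinarith [sq_nonneg q.2.1, sq_nonneg (hh q.1)]
  exact (abs_le.1 (abs_le_of_sq_le_sq k3 (by positivity))).2

theorem Rg_bdd {s1 s2 : ℝ} (h1 : 0 ≤ s1) (h2 : 0 ≤ s2) :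
    Bornology.IsBounded (Rg (s1 + s2) (s1 - s2)) := by
  have h : Rg (s1 + s2) (s1 - s2) ⊆ Icc (-(1 / 2)) (1 / 2) ×ˢ (Icc (-1) 1 ×ˢ Icc 0 1) := by
    intro q hq
    obtain ⟨a1, a2, a3, a4, a5, a6⟩ := Rg_facts h1 h2 hq
    have hhq : hh q.1 ≤ 1 / 4 := (sq_le4 a1).2
    have hh0 : 0 ≤ hh q.1 := (sq_le4 a1).1
    have k : q.2.1 ^ 2 ≤ 1 ^ 2 := by nlinarith [sq_nonneg q.2.2]
    exact ⟨abs_le.1 a1, abs_le.1 (abs_le_of_sq_le_sq k zero_le_one), a2.le, by linarith⟩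
  exact ((isBounded_Icc _ _).prod ((isBounded_Icc _ _).prod (isBounded_Icc _ _))).subset h

variable {b c} in
/-- **the region is in the body and in the cell** -/
theorem Rg_sub {K : Set E3} {s1 s2 s3 s4 : ℝ} (h : Bod b c K s1 s2 s3 s4) :
    Cw b c ⁻¹' Rg (s1 + s2) (s1 - s2) ⊆ K ∩ EC b c := by
  intro x hx
  obtain ⟨a1, a2, a3, a4, a5, a6⟩ := Rg_facts h.s1_nn h.s2_nn hx
  refine ⟨low3_mem h a1 hx.2.1.le a4, ?_⟩
  have hr := r2
  change |(co b c x).2.1| < √2 / 2 * ((co b c x).2.2 - √2 / 4)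
  have h5 : √2 * |(co b c x).2.1| < (co b c x).2.2 - √2 / 4 := a3
  have h6 := mul_lt_mul_of_pos_left h5 (by positivity : 0 < √2 / 2)
  have h7 : √2 / 2 * (√2 * |(co b c x).2.1|) = |(co b c x).2.1| := by
    linear_combination |(co b c x).2.1| / 2 * hr
  rwa [h7] at h6

/-! ### the lower function -/

noncomputable def Hf (η ε : ℝ) (q : ℝ × (ℝ × ℝ)) : ℝ :=
  nn η q.1 * (√2 / 2 * Al q.1) + nn η q.1 * Be q.1 * (√2 / 2 * q.2.2 - ε * q.2.1)

theorem Hf_cont (η ε : ℝ) : Continuous (Hf η ε) := by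
  have h1 := nn_cont η
  have h2 := Al_cont
  have h3 := Be_cont
  unfold Hf
  fun_prop

variable {b c} in
theorem Hf_le {K : Set E3} {s1 s2 s3 s4 : ℝ} (h : Bod b c K s1 s2 s3 s4) {η : ℝ}
    (hη : |η| ≤ 1) {ε : ℝ} (hε : ε = 1 ∨ ε = -1) {x : E3}
    (hx : Cw b c x ∈ Rg (s1 + s2) (s1 - s2)) :
    Hf η ε (Cw b c x) ≤ fderiv ℝ (fun y => om η (co b c y)) x (be b ε) +
        fderiv ℝ (fun y => om η (co b c y) * Bf ε (co b c y)) x (b 2) := by
  obtain ⟨a1, a2, a3, a4, a5, a6⟩ := Rg_facts h.s1_nn h.s2_nn hx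
  have hE := (Rg_sub h hx).2
  obtain ⟨b0, b1⟩ := sq_le4 a1
  have hc : hh (Cw b c x).1 = 1 / 4 - (co b c x).1 ^ 2 := rfl
  have hW : (Cw b c x).2.2 = (co b c x).2.2 - √2 / 4 := rfl
  have hY : (Cw b c x).2.1 = (co b c x).2.1 := rfl
  have hX : (Cw b c x).1 = (co b c x).1 := rfl
  rw [hY, hW, hc] at a5
  rw [hW, hc] at a6
  rw [hX] at b0 b1
  have k := Fb_lo (a := Al (co b c x).1) (β := Be (co b c x).1) hη hε a1 hE
    (by linarith) (by unfold Al hh; linarith) ?_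
  · refine le_trans (le_of_eq ?_) k
    unfold Hf Bf
    rw [hW, hY, hX]
    ring
  · unfold Be hh
    have c1 : 0 ≤ 1 - (co b c x).1 ^ 2 - 8 / 3 * (1 / 4 - (co b c x).1 ^ 2) ^ 2 := by
      nlinarith
    have c2 : 8 * (1 - 0.5774 * (1 / 4 - (co b c x).1 ^ 2)) ≤
        8 * (1 - ((co b c x).2.2 - √2 / 4)) := by linarith
    have c3 : 1 - (co b c x).1 ^ 2 - 8 / 3 * (1 / 4 - (co b c x).1 ^ 2) ^ 2 ≤
      1 - (co b c x).1 ^ 2 - 8 * ((co b c x).2.1 ^ 2 + ((co b c x).2.2 - √2 / 4) ^ 2) := by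
      linarith
    have c4 : 0 ≤ 8 * (1 - ((co b c x).2.2 - √2 / 4)) := by
      have : 0 ≤ 8 * (1 - 0.5774 * (1 / 4 - (co b c x).1 ^ 2)) := by linarith
      linarith
    exact mul_le_mul c2 c3 c1 c4

/-! ### the section of the region -/

/-- the lower function of `X` -/
noncomputable def Ph (τ η sg d X : ℝ) : ℝ :=
  τ * (2 - τ) * (nn η X * PA X) + τ ^ 2 * (3 - 2 * τ) * (nn η X * PM X) -
    (τ * (nn η X * (e1 sg d X * SA X)) + τ ^ 2 * (nn η X * (e1 sg d X * SM X)))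

theorem Ph_cont (τ η sg d : ℝ) : Continuous (Ph τ η sg d) := by
  have h1 := nn_cont η
  have h2 := PA_cont
  have h3 := PM_cont
  have h4 := SA_cont
  have h5 := SM_cont
  unfold Ph e1
  fun_prop

theorem sec_lo {τ η s1 s2 X : ℝ} (hτ : 0 ≤ τ) (hτ1 : τ ≤ 1) (hη : |η| ≤ 1) (h1 : 0 ≤ s1)
    (h2 : 0 ≤ s2) (hX : |X| ≤ 1 / 2) {v : ℝ} (hv : v = max (uu (s1 + s2) (s1 - s2) X) 0) :
    Ph τ η (s1 + s2) (s1 - s2) X ≤ nn η X * (√2 / 2 * Al X) * (cA * (√3 * v) ^ 2) +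
      nn η X * Be X * (cM * (√3 * v) ^ 3) := by
  have hn := (nn_bd hη hX).1
  obtain ⟨y0, _, yl', yu'⟩ := yy_facts hX
  obtain ⟨h0, h4⟩ := sq_le4 hX
  have he := e1_nonneg h1 h2 hX
  obtain ⟨t1, t2, t3⟩ := s3b
  have hh0 : 0 ≤ hh X := h0
  have hh4 : hh X ≤ 1 / 4 := h4
  have hX2 := sq_le_of_abs hX
  have hAl : 0 ≤ Al X := by unfold Al; nlinarith
  have hBe : 0 ≤ Be X := by
    unfold Be
    have c1 : 0 ≤ 1 - X ^ 2 - 8 / 3 * hh X ^ 2 := by nlinarith
    have c2 : 0 ≤ 1 - 0.5774 * hh X := by linarith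
    positivity
  have hyl : yl X ≤ yy X := yl'
  have hyu : yy X ≤ yu X := yu'
  have hyl0 : 0 ≤ yl X := by
    unfold yl
    have : 0 ≤ hh X * (1 - 1 / 3 * hh X + 0.18 * hh X ^ 2) := mul_nonneg hh0 (by nlinarith)
    linarith
  have q2 := pp_sq hτ y0 (e := e1 (s1 + s2) (s1 - s2) X) rfl hv
  have q3 := pp_cu hτ y0 (e := e1 (s1 + s2) (s1 - s2) X) rfl hv
  set e := e1 (s1 + s2) (s1 - s2) X
  set y := yy X
  have s2l : (1.4142135 : ℝ) < √2 := by rw [Real.lt_sqrt (by norm_num)]; norm_num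
  have s2u : √2 ≤ 1.4142136 := by rw [Real.sqrt_le_left (by norm_num)]; norm_num
  have ca := cA_lo
  have cm := cM_lo
  have caU : cA ≤ 0.612606 := by unfold cA; nlinarith
  have cmU : cM ≤ 0.2703 := by unfold cM; nlinarith
  -- constants
  have k1 : 1.2995 ≤ √2 / 2 * (cA * 3) := by nlinarith
  have k2 : √2 / 2 * (cA * 3) ≤ 1.2997 := by nlinarith
  have k3 : 1.4044 ≤ cM * (3 * √3) := by nlinarith
  have k4 : cM * (3 * √3) ≤ 1.4046 := by nlinarith
  set A := √2 / 2 * (cA * 3) with hA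
  set M := cM * (3 * √3) with hM
  have e1' : nn η X * (√2 / 2 * Al X) * (cA * (√3 * v) ^ 2) +
      nn η X * Be X * (cM * (√3 * v) ^ 3) = nn η X * (Al X * (A * v ^ 2) + Be X * (M * v ^ 3)) := by
    rw [hA, hM]
    linear_combination (nn η X * (√2 / 2 * Al X) * cA * v ^ 2 +
      nn η X * Be X * cM * √3 * v ^ 3) * t3
  rw [e1']
  have hP : Ph τ η (s1 + s2) (s1 - s2) X = nn η X * ((τ * (2 - τ) * PA X - τ * (e * SA X)) +
      (τ ^ 2 * (3 - 2 * τ) * PM X - τ ^ 2 * (e * SM X))) := by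
    unfold Ph
    ring
  rw [hP]
  refine mul_le_mul_of_nonneg_left (add_le_add ?_ ?_) hn
  · have j1 : τ * (2 - τ) * (1.2995 * yl X ^ 2) ≤ A * (τ * (2 - τ) * y ^ 2) := by
      have i1 : yl X ^ 2 ≤ y ^ 2 := pow_le_pow_left₀ hyl0 hyl 2
      have i2 : 1.2995 * yl X ^ 2 ≤ A * y ^ 2 := mul_le_mul k1 i1 (sq_nonneg _) (by linarith)
      have i3 := mul_le_mul_of_nonneg_left i2 (mul_nonneg hτ (by linarith : 0 ≤ 2 - τ))
      linarith
    have j2 : A * (τ * (2 / 3 * y) * e) ≤ τ * (e * (1.2997 * (2 / 3) * yu X)) := by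
      have i1 : A * y ≤ 1.2997 * yu X := mul_le_mul k2 hyu y0 (by norm_num)
      have i2 := mul_le_mul_of_nonneg_left i1 (mul_nonneg hτ he)
      linarith
    have j3 := mul_le_mul_of_nonneg_left q2 (by linarith : 0 ≤ A)
    have j4 := mul_le_mul_of_nonneg_left (show τ * (2 - τ) * (1.2995 * yl X ^ 2) -
      τ * (e * (1.2997 * (2 / 3) * yu X)) ≤ A * v ^ 2 by linarith) hAl
    refine le_trans (le_of_eq ?_) j4
    unfold PA SA
    ring
  · have j1 : τ ^ 2 * (3 - 2 * τ) * (1.4044 * yl X ^ 3) ≤ M * (τ ^ 2 * (3 - 2 * τ) * y ^ 3) := by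
      have i1 : yl X ^ 3 ≤ y ^ 3 := pow_le_pow_left₀ hyl0 hyl 3
      have i2 : 1.4044 * yl X ^ 3 ≤ M * y ^ 3 := mul_le_mul k3 i1 (by positivity) (by linarith)
      have i3 := mul_le_mul_of_nonneg_left i2
        (mul_nonneg (sq_nonneg τ) (by linarith : 0 ≤ 3 - 2 * τ))
      linarith
    have j2 : M * (τ ^ 2 * y ^ 2 * e) ≤ τ ^ 2 * (e * (1.4046 * yu X ^ 2)) := by
      have i0 : y ^ 2 ≤ yu X ^ 2 := pow_le_pow_left₀ y0 hyu 2
      have i1 : M * y ^ 2 ≤ 1.4046 * yu X ^ 2 := mul_le_mul k4 i0 (sq_nonneg _) (by norm_num)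
      have i2 := mul_le_mul_of_nonneg_left i1 (mul_nonneg (sq_nonneg τ) he)
      linarith
    have j3 := mul_le_mul_of_nonneg_left q3 (by linarith : 0 ≤ M)
    have j4 := mul_le_mul_of_nonneg_left (show τ ^ 2 * (3 - 2 * τ) * (1.4044 * yl X ^ 3) -
      τ ^ 2 * (e * (1.4046 * yu X ^ 2)) ≤ M * v ^ 3 by linarith) hBe
    refine le_trans (le_of_eq ?_) j4
    unfold PM SM
    ring

/-- value of the volume term -/
noncomputable def VA (τ η sg d : ℝ) : ℝ :=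
  τ * (2 - τ) * (5505907763771 / 2835518400000000) +
    τ ^ 2 * (3 - 2 * τ) * (20303684125439846637733 / 22870505001093750000000000) -
    (τ * (14170512127 / 680400000000 * (0.5774 * sg) + 35468813 / 38400000000 * (η * d)) +
      τ ^ 2 * (10496673984108077 / 779625000000000000 * (0.5774 * sg) +
        39009873531175741 / 87516000000000000000 * (η * d)))

theorem int_Ph (τ η sg d : ℝ) :
    ∫ X in (-(1 / 2) : ℝ)..(1 / 2), Ph τ η sg d X = VA τ η sg d := by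
  have h1 := nn_cont η
  have c1 : Continuous fun X => nn η X * PA X := h1.mul PA_cont
  have c2 : Continuous fun X => nn η X * PM X := h1.mul PM_cont
  have c3 : Continuous fun X => nn η X * (e1 sg d X * SA X) := by
    have := SA_cont
    unfold e1
    fun_prop
  have c4 : Continuous fun X => nn η X * (e1 sg d X * SM X) := by
    have := SM_cont
    unfold e1
    fun_prop
  unfold Ph
  have d1 : Continuous fun X => τ * (2 - τ) * (nn η X * PA X) := continuous_const.mul c1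
  have d2 : Continuous fun X => τ ^ 2 * (3 - 2 * τ) * (nn η X * PM X) := continuous_const.mul c2
  have d3 : Continuous fun X => τ * (nn η X * (e1 sg d X * SA X)) := continuous_const.mul c3
  have d4 : Continuous fun X => τ ^ 2 * (nn η X * (e1 sg d X * SM X)) := continuous_const.mul c4
  have d5 : Continuous fun X => τ * (2 - τ) * (nn η X * PA X) +
    τ ^ 2 * (3 - 2 * τ) * (nn η X * PM X) := d1.add d2
  have d6 : Continuous fun X => τ * (nn η X * (e1 sg d X * SA X)) +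
    τ ^ 2 * (nn η X * (e1 sg d X * SM X)) := d3.add d4
  rw [intervalIntegral.integral_sub (d5.intervalIntegrable _ _) (d6.intervalIntegrable _ _),
    intervalIntegral.integral_add (d1.intervalIntegrable _ _) (d2.intervalIntegrable _ _),
    intervalIntegral.integral_add (d3.intervalIntegrable _ _) (d4.intervalIntegrable _ _),
    intervalIntegral.integral_const_mul, intervalIntegral.integral_const_mul,
    intervalIntegral.integral_const_mul, intervalIntegral.integral_const_mul]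
  unfold e1
  rw [int_PA, int_PM, int_SA, int_SM]
  unfold VA
  ring

variable {b c} in
/-- **the volume term** -/
theorem vol_lo {K : Set E3} (hK : IsCompact K) {s1 s2 s3 s4 : ℝ} (h : Bod b c K s1 s2 s3 s4)
    {η : ℝ} (hη : |η| ≤ 1) {ε : ℝ} (hε : ε = 1 ∨ ε = -1) {τ : ℝ} (hτ : 0 ≤ τ) (hτ1 : τ ≤ 1) :
    VA τ η (s1 + s2) (s1 - s2) ≤ ∫ x in K ∩ EC b c,
      (fderiv ℝ (fun y => om η (co b c y)) x (be b ε) +
        fderiv ℝ (fun y => om η (co b c y) * Bf ε (co b c y)) x (b 2)) := by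
  have hs1 := h.s1_nn
  have hs2 := h.s2_nn
  have hEm : MeasurableSet (EC b c) := by
    rw [← cel_eq]; exact (Cel_open _ _).measurableSet
  have hKE : MeasurableSet (K ∩ EC b c) := hK.isClosed.measurableSet.inter hEm
  have hFc : Continuous fun x : E3 => fderiv ℝ (fun y => om η (co b c y)) x (be b ε) +
        fderiv ℝ (fun y => om η (co b c y) * Bf ε (co b c y)) x (b 2) := by
    have g1 : ContDiff ℝ ∞ (fun y => om η (co b c y)) := (om_cd η).comp (co_cdn b c)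
    have g2 : ContDiff ℝ ∞ (fun y => om η (co b c y) * Bf ε (co b c y)) := gB_cd η ε
    exact ((g1.continuous_fderiv (by simp)).clm_apply continuous_const).add
      ((g2.continuous_fderiv (by simp)).clm_apply continuous_const)
  have hFi : IntegrableOn (fun x : E3 => fderiv ℝ (fun y => om η (co b c y)) x (be b ε) +
        fderiv ℝ (fun y => om η (co b c y) * Bf ε (co b c y)) x (b 2)) K :=
    hFc.continuousOn.integrableOn_compact hK
  have hsub := Rg_sub h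
  have hRm : MeasurableSet (Cw b c ⁻¹' Rg (s1 + s2) (s1 - s2)) :=
    (Cw_cont b c).measurable (Rg_meas _ _)
  have hW1 : ∀ x ∈ K, (co b c x).2.2 - √2 / 4 ≤ 1 := fun x hx => by
    have h2 := h.W_le x hx
    have s2l : (1.4142135 : ℝ) < √2 := by rw [Real.lt_sqrt (by norm_num)]; norm_num
    by_contra hcon
    rw [not_le] at hcon
    nlinarith
  have st1 : ∫ x in Cw b c ⁻¹' Rg (s1 + s2) (s1 - s2),
      (fderiv ℝ (fun y => om η (co b c y)) x (be b ε) +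
        fderiv ℝ (fun y => om η (co b c y) * Bf ε (co b c y)) x (b 2)) ≤ ∫ x in K ∩ EC b c,
      (fderiv ℝ (fun y => om η (co b c y)) x (be b ε) +
        fderiv ℝ (fun y => om η (co b c y) * Bf ε (co b c y)) x (b 2)) := by
    refine setIntegral_mono_set (hFi.mono_set inter_subset_left) ?_ hsub.eventuallyLE
    refine (ae_restrict_iff' hKE).2 (ae_of_all _ fun x hx => ?_)
    exact Fb_nonneg hη hε (h.X_le x hx.1) hx.2 (hW1 x hx.1)
  have hHc : Continuous fun x : E3 => Hf η ε (Cw b c x) := (Hf_cont η ε).comp (Cw_cont b c)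
  have st2 : ∫ x in Cw b c ⁻¹' Rg (s1 + s2) (s1 - s2), Hf η ε (Cw b c x) ≤
      ∫ x in Cw b c ⁻¹' Rg (s1 + s2) (s1 - s2),
      (fderiv ℝ (fun y => om η (co b c y)) x (be b ε) +
        fderiv ℝ (fun y => om η (co b c y) * Bf ε (co b c y)) x (b 2)) := by
    refine setIntegral_mono_on
      ((hHc.continuousOn.integrableOn_compact hK).mono_set (hsub.trans inter_subset_left))
      (hFi.mono_set (hsub.trans inter_subset_left)) hRm fun x hx => Hf_le h hη hε hx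
  rw [int_Cw b c] at st2
  refine le_trans ?_ (st2.trans st1)
  rw [← int_Ph]
  refine int_lo3 (Rg_meas _ _) (Rg_bdd hs1 hs2) (Hf_cont η ε) (Ph_cont τ η _ _) (by norm_num)
    (fun X hX => ?_) (fun X hX w hw => hX hw.1)
  have hX' : |X| ≤ 1 / 2 := abs_le.2 ⟨hX.1.le, hX.2⟩
  have k := sec_lo hτ hτ1 hη hs1 hs2 hX' rfl
  rcases lt_or_ge 0 (uu (s1 + s2) (s1 - s2) X) with hu | hu
  · have e : {w : ℝ × ℝ | (X, w) ∈ Rg (s1 + s2) (s1 - s2)} =
        Sc (√3 * uu (s1 + s2) (s1 - s2) X) := by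
      ext w
      unfold Rg
      simp only [mem_ofPred_eq, hX, hu, true_and]
    rw [e]
    have hL : 0 < √3 * uu (s1 + s2) (s1 - s2) X := by positivity
    have k2 := Sc_int hL (nn η X * (√2 / 2 * Al X)) (nn η X * Be X) ε
    rw [max_eq_left hu.le] at k
    rw [← k2] at k
    exact k
  · have e : {w : ℝ × ℝ | (X, w) ∈ Rg (s1 + s2) (s1 - s2)} = ∅ := by
      ext w
      unfold Rg
      simp only [mem_ofPred_eq, mem_empty_iff_false, iff_false, not_and]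
      intro _ h3
      exact absurd h3 (not_lt.2 hu)
    rw [e, setIntegral_empty]
    rw [max_eq_right hu] at k
    simpa using k

end Helper93.MEI.Blk
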