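import Pool.Agent.Helper93.MEI.Blk9
import Pool.Agent.Helper49.MEI.Cpl3

/-!
# Project MEI (M2), bulk terms of the first moments, generic profile, IV: instances, six edges
-/

set_option autoImplicit false

namespace Helper93.MEI.Blk

open Set MeasureTheory Filter Topology Metric
open Helper80.CW Helper22.Wedge Helper22.Sig Helper14.CW Helper14.MEI2 Helper93.MEI
open Helper22.MEI (s t FD FD_pos)
open Helper21.Sec Helper21.Mom Helper53.MEI
open Pool.Agent.Helper95.MEI.Fub (Zp int_cont Zp_meas)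
open Pool.Agent.Helper73.MEI
open Helper49.Cpl (ph22 ph22_cont)
open scoped RealInnerProductSpace ContDiff Real

/-- the rest of the weight of an end after half of the profile `ph22` -/
noncomputable def p1 (i : Bool) (x : ℝ) : ℝ := nn (sg i) x - ph22 x / 2

theorem p1_eq (i : Bool) (x : ℝ) : p1 i x = 1 / 32 + sg i * (7 / 16) * x + 15 / 8 * x ^ 2 := by
  unfold p1 nn ph22
  ring

theorem p1_cont (i : Bool) : Continuous (p1 i) := by
  have := ph22_cont
  have := nn_cont (sg i)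
  unfold p1
  fun_prop

theorem p1_bd (i : Bool) {X : ℝ} (hX : |X| ≤ 1 / 2) : 0 ≤ p1 i X ∧ p1 i X ≤ 1 := by
  have h2 := sq_le_of_abs hX
  obtain ⟨a, b⟩ := abs_le.1 hX
  rw [p1_eq]
  cases i
  · simp only [sg, Bool.false_eq_true, if_false]
    constructor
    · nlinarith [sq_nonneg (X + 7 / 60)]
    · linarith
  · simp only [sg, if_true]
    constructor
    · nlinarith [sq_nonneg (X - 7 / 60)]
    · linarith

theorem wgt_ph : Wgt ph22 (fun _ => ph22) where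
  sn _ := by unfold ph22; fun_prop
  hn _ X hX := by
    have h2 := sq_le_of_abs hX
    unfold ph22
    constructor
    · linarith
    · nlinarith [sq_nonneg X]
  hl _ := tendsto_const_nhds

theorem wgt_p1 (i : Bool) : Wgt (p1 i) (fun _ => p1 i) where
  sn _ := by unfold p1 nn ph22; fun_prop
  hn _ X hX := p1_bd i hX
  hl _ := tendsto_const_nhds

/-- own and other level -/
theorem own_id (i : Bool) (s1 s2 : ℝ) :
    s1 + s2 = (if i then s2 else s1) + (if i then s1 else s2) ∧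
    s1 - s2 = sg i * ((if i then s2 else s1) - (if i then s1 else s2)) := by
  cases i <;> simp [sg]
  ring

section num
variable {θ s1 s2 : ℝ} (h0 : 0 ≤ θ) (h1 : θ ≤ 1) (k1 : 0 ≤ s1) (k2 : 0 ≤ s2)

include h0 h1 k1 k2 in
/-- bulk number of `ph22` -/
theorem BK_ph : θ * (2 - θ) * 0.005584 + θ ^ 2 * (3 - 2 * θ) * 0.001467 -
    (0.032284 * θ + 0.012371 * θ ^ 2) * (s1 + s2) ≤ BK ph22 θ (s1 + s2) (s1 - s2) := by
  rw [BK_eq ph22_cont (a0 := 15 / 8) (a1 := 0) (a2 := -(15 / 2)) (β := 0)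
    (fun x _ _ => by unfold ph22; ring) (fun x _ _ => by unfold ph22; ring)]
  have a1 : 0 ≤ θ * (2 - θ) := mul_nonneg h0 (by linarith)
  have a2 : 0 ≤ θ ^ 2 * (3 - 2 * θ) := mul_nonneg (by positivity) (by linarith)
  have a3 : 0 ≤ θ * (s1 + s2) := mul_nonneg h0 (by linarith)
  have a5 : 0 ≤ θ ^ 2 * (s1 + s2) := mul_nonneg (by positivity) (by linarith)
  nlinarith

include h0 h1 k1 k2 in
/-- bulk number of `p1` -/
theorem BK_p1 (i : Bool) : θ * (2 - θ) * 0.0006948 + θ ^ 2 * (3 - 2 * θ) * 0.0001538 -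
    ((0.00707 * θ + 0.002036 * θ ^ 2) * (if i then s2 else s1) +
      (0.003777 * θ + 0.001144 * θ ^ 2) * (if i then s1 else s2)) ≤
      BK (p1 i) θ (s1 + s2) (s1 - s2) := by
  obtain ⟨e1', e2'⟩ := own_id i s1 s2
  have hh2 : sg i * sg i = 1 := by cases i <;> simp [sg]
  rw [BK_eq (p1_cont i) (a0 := 1 / 16) (a1 := 0) (a2 := 15 / 4) (β := sg i * (7 / 8))
    (fun x _ _ => by rw [p1_eq, p1_eq]; ring) (fun x _ _ => by rw [p1_eq, p1_eq]; ring)]
  rw [e2', e1']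
  have q1 : 0 ≤ (if i then s2 else s1) := by cases i <;> simp [k1, k2]
  have q2 : 0 ≤ (if i then s1 else s2) := by cases i <;> simp [k1, k2]
  set u := (if i then s2 else s1)
  set v := (if i then s1 else s2)
  have e3 : sg i * (u - v) * (sg i * (7 / 8)) = 7 / 8 * (u - v) := by
    linear_combination (7 / 8 * (u - v)) * hh2
  rw [e3]
  have a1 : 0 ≤ θ * (2 - θ) := mul_nonneg h0 (by linarith)
  have a2 : 0 ≤ θ ^ 2 * (3 - 2 * θ) := mul_nonneg (by positivity) (by linarith)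
  have a3 : 0 ≤ θ * u := mul_nonneg h0 q1
  have a4 : 0 ≤ θ * v := mul_nonneg h0 q2
  have a5 : 0 ≤ θ ^ 2 * u := mul_nonneg (by positivity) q1
  have a6 : 0 ≤ θ ^ 2 * v := mul_nonneg (by positivity) q2
  nlinarith

include h0 h1 k1 k2 in
/-- bulk number of the full weight of an end -/
theorem BK_nn (i : Bool) : θ * (2 - θ) * 0.003487 + θ ^ 2 * (3 - 2 * θ) * 0.0008877 -
    ((0.023212 * θ + 0.008221 * θ ^ 2) * (if i then s2 else s1) +
      (0.019918 * θ + 0.00733 * θ ^ 2) * (if i then s1 else s2)) ≤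
      BK (nn (sg i)) θ (s1 + s2) (s1 - s2) := by
  obtain ⟨e1', e2'⟩ := own_id i s1 s2
  have hh2 : sg i * sg i = 1 := by cases i <;> simp [sg]
  rw [BK_eq (nn_cont (sg i)) (a0 := 1) (a1 := 0) (a2 := 0) (β := sg i * (7 / 8))
    (fun x _ _ => by unfold nn; ring) (fun x _ _ => by unfold nn; ring)]
  rw [e2', e1']
  have q1 : 0 ≤ (if i then s2 else s1) := by cases i <;> simp [k1, k2]
  have q2 : 0 ≤ (if i then s1 else s2) := by cases i <;> simp [k1, k2]
  set u := (if i then s2 else s1)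
  set v := (if i then s1 else s2)
  have e3 : sg i * (u - v) * (sg i * (7 / 8)) = 7 / 8 * (u - v) := by
    linear_combination (7 / 8 * (u - v)) * hh2
  rw [e3]
  have a1 : 0 ≤ θ * (2 - θ) := mul_nonneg h0 (by linarith)
  have a2 : 0 ≤ θ ^ 2 * (3 - 2 * θ) := mul_nonneg (by positivity) (by linarith)
  have a3 : 0 ≤ θ * u := mul_nonneg h0 q1
  have a4 : 0 ≤ θ * v := mul_nonneg h0 q2
  have a5 : 0 ≤ θ ^ 2 * u := mul_nonneg (by positivity) q1
  have a6 : 0 ≤ θ ^ 2 * v := mul_nonneg (by positivity) q2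
  nlinarith

include h0 h1 k1 k2 in
/-- bulk number of `(7/8) x⁺` -/
theorem BK_fp (i : Bool) : θ * (2 - θ) * 0.0004825 + θ ^ 2 * (3 - 2 * θ) * 0.0001099 -
    ((0.005203 * θ + 0.001546 * θ ^ 2) * (if i then s2 else s1) +
      (0.00191 * θ + 0.000654 * θ ^ 2) * (if i then s1 else s2)) ≤
      BK (fp i) θ (s1 + s2) (s1 - s2) := by
  obtain ⟨e1', e2'⟩ := own_id i s1 s2
  have hh2 : sg i * sg i = 1 := by cases i <;> simp [sg]
  have hf : ∀ x : ℝ, 0 ≤ x → fp i x + fp i (-x) = 7 / 8 * x ∧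
      fp i x - fp i (-x) = sg i * (7 / 8) * x := by
    intro x hx
    cases i
    · simp only [fp, sg, Bool.false_eq_true, if_false]
      rw [max_eq_left hx, max_eq_right (by linarith : -x ≤ 0)]
      constructor <;> ring
    · simp only [fp, sg, if_true, neg_neg]
      rw [max_eq_left hx, max_eq_right (by linarith : -x ≤ 0)]
      constructor <;> ring
  rw [BK_eq (fp_cont i) (a0 := 0) (a1 := 7 / 8) (a2 := 0) (β := sg i * (7 / 8))
    (fun x hx _ => by rw [(hf x hx).1]; ring) (fun x hx _ => by rw [(hf x hx).2])]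
  rw [e2', e1']
  have q1 : 0 ≤ (if i then s2 else s1) := by cases i <;> simp [k1, k2]
  have q2 : 0 ≤ (if i then s1 else s2) := by cases i <;> simp [k1, k2]
  set u := (if i then s2 else s1)
  set v := (if i then s1 else s2)
  have e3 : sg i * (u - v) * (sg i * (7 / 8)) = 7 / 8 * (u - v) := by
    linear_combination (7 / 8 * (u - v)) * hh2
  rw [e3]
  have a1 : 0 ≤ θ * (2 - θ) := mul_nonneg h0 (by linarith)
  have a2 : 0 ≤ θ ^ 2 * (3 - 2 * θ) := mul_nonneg (by positivity) (by linarith)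
  have a3 : 0 ≤ θ * u := mul_nonneg h0 q1
  have a4 : 0 ≤ θ * v := mul_nonneg h0 q2
  have a5 : 0 ≤ θ ^ 2 * u := mul_nonneg (by positivity) q1
  have a6 : 0 ≤ θ ^ 2 * v := mul_nonneg (by positivity) q2
  nlinarith

include h0 h1 k1 k2 in
/-- bulk number of `1 - 7|x|/8` -/
theorem BK_fd : θ * (2 - θ) * 0.006009 + θ ^ 2 * (3 - 2 * θ) * 0.0015555 -
    (0.036017 * θ + 0.01335 * θ ^ 2) * (s1 + s2) ≤ BK fd θ (s1 + s2) (s1 - s2) := by
  rw [BK_eq fd_cont (a0 := 2) (a1 := -(7 / 4)) (a2 := 0) (β := 0)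
    (fun x hx _ => by unfold fd; rw [abs_neg, abs_of_nonneg hx]; ring)
    (fun x _ _ => by unfold fd; rw [abs_neg]; ring)]
  have a1 : 0 ≤ θ * (2 - θ) := mul_nonneg h0 (by linarith)
  have a2 : 0 ≤ θ ^ 2 * (3 - 2 * θ) := mul_nonneg (by positivity) (by linarith)
  have a3 : 0 ≤ θ * (s1 + s2) := mul_nonneg h0 (by linarith)
  have a5 : 0 ≤ θ ^ 2 * (s1 + s2) := mul_nonneg (by positivity) (by linarith)
  nlinarith

end num

/-! ### all six edges -/

section six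
variable {a : Fin 4 → E3} {K : Set E3} {σ : Measure (E3 × E3)}
variable [IsFiniteMeasure σ] (h : Pool.Agent.Helper73.MEI.PM K σ)
    (ha : ∀ i j, i ≠ j → dist (a i) (a j) = 1)
    (hull : ∀ p, (∀ q ∈ K, ‖p - q‖ ≤ 1) → p ∈ K) (hp : ∀ x ∈ K, Pl a x)
    {B : Fin 3 → Bool → OrthonormalBasis (Fin 3) ℝ E3}
    (hB : ∀ m e, Fr (fun i => a (pr m e i)) (B m e)) {S : Fin 4 → ℝ} (hS0 : ∀ i, 0 ≤ S i)
    (hQ : ∀ i, ∀ q ∈ K, Qv a i q ≤ S i)
    (m : Fin 3) (e : Bool) {k k' : Fin 4} (hk : k = 2 ∧ k' = 3 ∨ k = 3 ∧ k' = 2)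

include h ha hull hp hB hS0 hQ hk in
/-- **generic profile, with the bulk terms**, all six edges -/
theorem momF_all_blk {φ : ℝ → ℝ} {φn : ℕ → ℝ → ℝ} (hw : Wgt φ φn) (cφ : Continuous φ)
    {θ : ℝ} (u0 : 0 ≤ θ) (u1 : θ ≤ 1) :
    ∫ z in Helper37.MEI.EE a m e, wF φ (Helper37.MEI.ap a m e) z.1 *
      bar a (pf m e k) z.2 ∂σ ≤ 3 / 2 * JGu φ (S (pf m e k')) -
        1 / 2 * JGl φ (S (pf m e 0)) (S (pf m e 1)) -
        BK φ θ (S (pf m e 0) + S (pf m e 1)) (S (pf m e 0) - S (pf m e 1)) := by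
  have ha' := Helper37.MEI.hap ha m e
  have hb : Fr (Helper37.MEI.ap a m e) (B m e) := hB m e
  have hcomp : ∀ p : E3, (∀ q ∈ K, dist p q ≤ 1) → p ∈ K := fun p hpp =>
    hull p fun q hq => by rw [← dist_eq_norm]; exact hpp q hq
  have hp' : ∀ x ∈ K, Pl (Helper37.MEI.ap a m e) x := fun x hx => Pl_perm _ (hp x hx)
  have hQ' : ∀ x ∈ K, ∀ j, Qv (Helper37.MEI.ap a m e) j x ≤ S (pf m e j) :=
    fun x hx j => hQ (pf m e j) x hx
  have hS' : ∀ j, 0 ≤ S (pf m e j) := fun j => hS0 _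
  obtain ⟨ε, hks⟩ : ∃ ε : ℝ, ks k ε k' := by
    rcases hk with ⟨h1, h2⟩ | ⟨h1, h2⟩
    · exact ⟨1, Or.inl ⟨h1, rfl, h2⟩⟩
    · exact ⟨-1, Or.inr ⟨h1, rfl, h2⟩⟩
  have h1 := momF_blk ha' h hcomp hp' hb hQ' hS' hw cφ hks u0 u1
  have hbk : ∀ x, bar (Helper37.MEI.ap a m e) k x = bar a (pf m e k) x := fun x =>
    bar_perm (pr m e) k x
  simp only [hbk] at h1
  exact h1

variable {τ : ℝ} (t0 : 0 ≤ τ) (t1 : τ ≤ 3 / 10) {θ : ℝ} (u0 : 0 ≤ θ) (u1 : θ ≤ 1)

include h ha hull hp hB hS0 hQ t0 t1 u0 u1 hk in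
/-- **first moments, part `(7/8) x⁺`**, with the bulk terms -/
theorem mom_wp2 (i : Bool) : ∫ z in Helper37.MEI.EE a m e,
      Helper49.Cpl.wp (Helper37.MEI.ap a m e) i z.1 * bar a (pf m e k) z.2 ∂σ ≤
    0.005832 - (θ * (2 - θ) * 0.0004825 + θ ^ 2 * (3 - 2 * θ) * 0.0001099) +
      (0.06639 - 0.2536 * τ + 0.2537 * τ ^ 2) * S (pf m e k') +
      0.1288 * τ ^ 3 - 0.0612 * τ ^ 4 + 0.0507 * τ ^ 5 +
      (0.02191 + 0.005203 * θ + 0.001546 * θ ^ 2) * S (pf m e (if i then 1 else 0)) +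
      (0.00602 + 0.00191 * θ + 0.000654 * θ ^ 2) * S (pf m e (if i then 0 else 1)) := by
  have h1 := momF_all_blk h ha hull hp hB hS0 hQ m e hk (wgt_fp i) (fp_cont i) u0 u1
  simp only [wF_fp] at h1
  have h2 := num_fp (hS0 (pf m e k')) (hS0 (pf m e 0)) (hS0 (pf m e 1)) t0 t1 i
  have h3 := BK_fp u0 u1 (hS0 (pf m e 0)) (hS0 (pf m e 1)) i
  cases i
  · simp only [Bool.false_eq_true, if_false] at h2 h3 ⊢
    linarith
  · simp only [if_true] at h2 h3 ⊢
    linarith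

include h ha hull hp hB hS0 hQ t0 t1 u0 u1 hk in
/-- **first moments, coupling density**, with the bulk terms -/
theorem mom_de2 : ∫ z in Helper37.MEI.EE a m e, Helper49.Cpl.de (Helper37.MEI.ap a m e) z *
      bar a (pf m e k) z.2 ∂σ ≤
    0.05955 - (θ * (2 - θ) * 0.006009 + θ ^ 2 * (3 - 2 * θ) * 0.0015555) +
      (0.4644 - 0.6523 * τ - 0.5073 * τ ^ 2) * S (pf m e k') +
      √2 * ((9 / 16 + 7 / 8 * τ) * gp τ) +
      (0.10255 + 0.036017 * θ + 0.01335 * θ ^ 2) * (S (pf m e 0) + S (pf m e 1)) := by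
  have h1 := momF_all_blk h ha hull hp hB hS0 hQ m e hk wgt_fd fd_cont u0 u1
  simp only [wF_fd] at h1
  have h2 := num_fd (hS0 (pf m e k')) (hS0 (pf m e 0)) (hS0 (pf m e 1)) t0 t1
  have h3 := BK_fd u0 u1 (hS0 (pf m e 0)) (hS0 (pf m e 1))
  linarith

end six

end Helper93.MEI.Blk
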