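import Pool.Agent.Helper93.MEI.MeasA
import Pool.Agent.Helper33.MEI.FacePM

/-!
# Project MEI (M2), faces: the certificate need not be continuous

`face_meas`: a bounded measurable `g` on the flat simplex with `g (t(p)) ≤` density for all pairs
of the body gives the same lower bound for `Wi` as a continuous one.
-/

namespace Helper93.MEI

open Set Metric MeasureTheory Real Helper80.CW Helper82.CW Helper14.CW Helper22.Sig
open Helper22.Wedge Helper14.MEI2 Pool.Agent.Helper73.MEI Helper33.MEI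
open scoped RealInnerProductSpace ENNReal

variable {a : Fin 4 → E3}

theorem M3_le (t : ℝ × ℝ) : M3 t ≤ 2 := by
  have h1 : (2 : ℝ) / 3 ≤ mt t := mt_ge
  have h2 : (0.8 : ℝ) ≤ √(mt t) := by
    apply Real.le_sqrt_of_sq_le
    norm_num
    linarith
  have h3 : (√(mt t))⁻¹ ≤ 1.25 := by
    rw [show (1.25 : ℝ) = (0.8)⁻¹ by norm_num]
    exact inv_anti₀ (by norm_num) h2
  have h4 : 0 ≤ (√(mt t))⁻¹ := by positivity
  unfold M3
  calc (√(mt t))⁻¹ ^ 3 ≤ 1.25 ^ 3 := pow_le_pow_left₀ h4 h3 3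
    _ ≤ 2 := by norm_num

theorem bar_cont (a : Fin 4 → E3) (i : Fin 4) : Continuous (bar a i) := by
  unfold bar
  fun_prop

variable {σ : Measure (E3 × E3)} [IsFiniteMeasure σ] {K : Set E3}

/-- **the face cell, measurable certificate** (`τ 0` is the vertex) -/
theorem face_meas (h : PM K σ) (ha : ∀ i j, i ≠ j → dist (a i) (a j) = 1)
    (hull : ∀ p, (∀ q ∈ K, ‖p - q‖ ≤ 1) → p ∈ K) (hQ : ∀ i, ∀ q ∈ K, Qv a i q ≤ 3 / 16)
    (τ : Equiv.Perm (Fin 4)) {A : ℝ} (hA : 7 / 2 ≤ A) {g : ℝ × ℝ → ℝ} {C : ℝ}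
    (hg : AEStronglyMeasurable g (volume.restrict Dl)) (hgC : ∀ t ∈ Dl, |g t| ≤ C)
    (hP : ∀ p ∈ K, ∀ q ∈ K, ‖p - q‖ = 1 → 0 < bar a (τ 1) p → 0 < bar a (τ 2) p →
      0 < bar a (τ 3) p → 3 / 4 ≤ 1 - bar a (τ 0) p →
      g (bar a (τ 1) p / (1 - bar a (τ 0) p), bar a (τ 2) p / (1 - bar a (τ 0) p)) ≤
        (A / 2 + 1 / 8) * Qv a (τ 0) p -
        0.127 * ‖a (τ 0) - q‖ ^ 2 / (1 - ‖a (τ 0) - q‖ ^ 2 / 2)) :
    (√2)⁻¹ * ∫ t in Dl, g t * M3 t ≤ Wi a (τ 0) K σ A := by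
  have ha' : ∀ i j, i ≠ j → dist (a (τ i)) (a (τ j)) = 1 :=
    fun i j hij => ha _ _ fun h => hij (τ.injective h)
  have hgr := gram_of_dist ha'
  have hs : (0 : ℝ) < √2 := by positivity
  set a' : Fin 4 → E3 := fun i => a (τ i) with hadef
  have hbp : ∀ k x, bar a' k x = bar a (τ k) x := fun k x => bar_perm τ k x
  set G : Set (E3 × E3) := (K ×ˢ K) ∩ {z | ‖z.1 - z.2‖ = 1 ∧ 3 / 4 ≤ 1 - bar a' 0 z.1 ∧
    0 ≤ bar a' 1 z.1 ∧ 0 ≤ bar a' 2 z.1 ∧ 0 ≤ bar a' 3 z.1} with hG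
  have hc : ∀ k, Continuous (fun z : E3 × E3 => bar a' k z.1) := fun k =>
    (bar_cont a' k).comp continuous_fst
  have hGc : IsCompact G := by
    apply (h.cpt.prod h.cpt).inter_right
    have e1 : IsClosed {z : E3 × E3 | ‖z.1 - z.2‖ = 1} :=
      isClosed_eq (by fun_prop) continuous_const
    have e2 : IsClosed {z : E3 × E3 | 3 / 4 ≤ 1 - bar a' 0 z.1} :=
      isClosed_le continuous_const (continuous_const.sub (hc 0))
    have e3 : IsClosed {z : E3 × E3 | 0 ≤ bar a' 1 z.1} := isClosed_le continuous_const (hc 1)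
    have e4 : IsClosed {z : E3 × E3 | 0 ≤ bar a' 2 z.1} := isClosed_le continuous_const (hc 2)
    have e5 : IsClosed {z : E3 × E3 | 0 ≤ bar a' 3 z.1} := isClosed_le continuous_const (hc 3)
    exact e1.inter (e2.inter (e3.inter (e4.inter e5)))
  have hw : ∀ q ∈ K, ‖a' 0 - q‖ ^ 2 ≤ 19 / 16 := by
    intro q hq
    have h1 := hQ (τ 0) q hq
    unfold Qv at h1
    rw [norm_sub_rev]
    show ‖q - a (τ 0)‖ ^ 2 ≤ 19 / 16
    linarith
  have hΦ : ContinuousOn (fun z : E3 × E3 => (A / 2 + 1 / 8) * Qv a (τ 0) z.1 -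
      0.127 * ‖a' 0 - z.2‖ ^ 2 / (1 - ‖a' 0 - z.2‖ ^ 2 / 2)) G := by
    apply ContinuousOn.sub
    · unfold Qv
      fun_prop
    · apply ContinuousOn.div
      · fun_prop
      · fun_prop
      · intro z hz
        have := hw z.2 hz.1.2
        have h2 : 0 < 1 - ‖a' 0 - z.2‖ ^ 2 / 2 := by linarith
        exact h2.ne'
  have hτ : ContinuousOn (fun z : E3 × E3 => tx a' z.1) G := by
    unfold tx
    apply ContinuousOn.prodMk
    · apply ContinuousOn.div (hc 1).continuousOn (continuous_const.sub (hc 0)).continuousOn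
      intro z hz
      have h2 : 0 < 1 - bar a' 0 z.1 := by linarith [hz.2.2.1]
      exact h2.ne'
    · apply ContinuousOn.div (hc 2).continuousOn (continuous_const.sub (hc 0)).continuousOn
      intro z hz
      have h2 : 0 < 1 - bar a' 0 z.1 := by linarith [hz.2.2.1]
      exact h2.ne'
  have key := Helper93.Meas.meas_of_cont (μ := (volume : Measure (ℝ × ℝ))) (D := Dl) (C := C)
    Dl_meas Dl_fin.ne hGc hΦ hτ (M := M3) M3_cont (fun t => (M3_pos t).le) (b := 2)
    (fun t _ => M3_le t) hg hgC (I := √2 * Wi a (τ 0) K σ A) ?_ ?_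
  · rw [inv_mul_le_iff₀ hs]
    exact key
  · intro z hz t ht hd
    have ht' : t = tx a' z.1 := dist_eq_zero.1 hd
    rw [ht'] at ht ⊢
    obtain ⟨t1, t2, t3⟩ := ht
    have hl : 0 < 1 - bar a' 0 z.1 := by linarith [hz.2.2.1]
    have hsum := bar_sum hgr z.1
    have b1 : 0 < bar a' 1 z.1 := by
      have := mul_pos t1 hl
      unfold tx at this
      simp only at this
      rwa [div_mul_cancel₀ _ hl.ne'] at this
    have b2 : 0 < bar a' 2 z.1 := by
      have := mul_pos t2 hl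
      unfold tx at this
      simp only at this
      rwa [div_mul_cancel₀ _ hl.ne'] at this
    have b3 : 0 < bar a' 3 z.1 := by
      have h5 : (tx a' z.1).1 + (tx a' z.1).2 = (bar a' 1 z.1 + bar a' 2 z.1) / (1 - bar a' 0 z.1) := by
        unfold tx
        simp only
        rw [add_div]
      rw [h5, div_lt_one hl] at t3
      linarith
    have h6 := hP z.1 hz.1.1 z.2 hz.1.2 hz.2.1 (by rw [← hbp]; exact b1) (by rw [← hbp]; exact b2)
      (by rw [← hbp]; exact b3) (by rw [← hbp]; exact hz.2.2.1)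
    rw [← hbp, ← hbp, ← hbp] at h6
    exact h6
  · intro L hL hLG
    have h7 := face_pm h ha hull hQ τ hA hL ?_
    · rw [inv_mul_le_iff₀ hs] at h7
      exact h7
    · filter_upwards [h.ae] with z hz h1 h2
      have h1' : z.1 ∈ TC a' 0 := h1
      rw [TC_bar ha'] at h1'
      refine hLG z ⟨⟨hz.1, hz.2.1⟩, hz.2.2.1, ?_, ?_, ?_, ?_⟩
      · rw [hbp]; exact h2
      · exact (h1' 1 (by decide)).le
      · exact (h1' 2 (by decide)).le
      · exact (h1' 3 (by decide)).le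

end Helper93.MEI
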