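import Pool.Agent.Helper93.MEI.R1

/-!
# Project MEI (M2), regime II: pointwise inequalities of the face cell of vertex `0`

`δ = ‖a 0 - q‖²`, `y_k = ⟨a 0 - q, a 0 - a k⟩`, `β(x) = - bar a 0 x`, `n_k = pp (Qv a k q)`.
The density of side `0` is `A * Qv a 0 p - κ * δ`.
-/

namespace Helper93.MEI

open Set Metric Helper80.CW Helper14.CW
open scoped RealInnerProductSpace

section gram
variable {a : Fin 4 → E3} (h : Gram4 (al a))
include h

/-- `Q_k(q) = δ - 2 y_k` -/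
theorem Qv_yv {k : Fin 4} (hk : 0 ≠ k) (q : E3) :
    Qv a k q = ‖a 0 - q‖ ^ 2 - 2 * yv a 0 k q := by
  have h2 := bar_sum h q
  rw [yv_bar h hk, Qv_eq h, norm_sub_sq_bar h, bar_vertex_self h,
    bar_vertex_ne h (by decide), bar_vertex_ne h (by decide), bar_vertex_ne h (by decide)]
  ring

/-- `Q_0(p) = β(p) δ - Σ b_k(p) Q_k(q) + (|p - q|² - 1)`, all points -/
theorem side_id (p q : E3) : Qv a 0 p = - bar a 0 p * ‖a 0 - q‖ ^ 2 -
    (bar a 1 p * Qv a 1 q + bar a 2 p * Qv a 2 q + bar a 3 p * Qv a 3 q) +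
      (‖p - q‖ ^ 2 - 1) := by
  have h1 := bar_sum h p
  have h2 := face_id h p q
  rw [Qv_yv h (by decide) q, Qv_yv h (by decide) q, Qv_yv h (by decide) q]
  linear_combination h2 + (‖a 0 - q‖ ^ 2) * h1

/-- the coupling with any point `z` at distance at most one from `q` -/
theorem side_coupling {z q : E3} (hzq : ‖z - q‖ ≤ 1) : Qv a 0 z ≤ - bar a 0 z * ‖a 0 - q‖ ^ 2 -
    (bar a 1 z * Qv a 1 q + bar a 2 z * Qv a 2 q + bar a 3 z * Qv a 3 q) := by
  rw [side_id h z q]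
  have : ‖z - q‖ ^ 2 ≤ 1 := by
    have := norm_nonneg (z - q)
    nlinarith
  linarith

/-- **density bound of side `0`**, finitely many loss points with weights -/
theorem side_density {ι : Type*} (S : Finset ι) (α : ι → ℝ) (z : ι → E3) {p q : E3} {A κ : ℝ}
    (hA : 0 < A) (hα : ∀ m ∈ S, 0 ≤ α m) (hz : ∀ m ∈ S, ‖z m - q‖ ≤ 1) (hpq : ‖p - q‖ = 1)
    (h1 : ∑ m ∈ S, α m * bar a 1 (z m) ≤ bar a 1 p)
    (h2 : ∑ m ∈ S, α m * bar a 2 (z m) ≤ bar a 2 p)
    (h3 : ∑ m ∈ S, α m * bar a 3 (z m) ≤ bar a 3 p)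
    (hβ : ∑ m ∈ S, α m * (- bar a 0 (z m)) ≤ - bar a 0 p - κ / A) :
    A * (∑ m ∈ S, α m * Qv a 0 (z m)
      - ((bar a 1 p - ∑ m ∈ S, α m * bar a 1 (z m)) * pp (Qv a 1 q)
        + (bar a 2 p - ∑ m ∈ S, α m * bar a 2 (z m)) * pp (Qv a 2 q)
        + (bar a 3 p - ∑ m ∈ S, α m * bar a 3 (z m)) * pp (Qv a 3 q)))
      ≤ A * Qv a 0 p - κ * ‖a 0 - q‖ ^ 2 := by
  have e0 := side_id h p q
  rw [hpq] at e0
  have e1 : ∑ m ∈ S, α m * Qv a 0 (z m) ≤
      (∑ m ∈ S, α m * (- bar a 0 (z m))) * ‖a 0 - q‖ ^ 2 -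
      ((∑ m ∈ S, α m * bar a 1 (z m)) * Qv a 1 q + (∑ m ∈ S, α m * bar a 2 (z m)) * Qv a 2 q +
        (∑ m ∈ S, α m * bar a 3 (z m)) * Qv a 3 q) := by
    rw [Finset.sum_mul, Finset.sum_mul, Finset.sum_mul, Finset.sum_mul, ← Finset.sum_add_distrib,
      ← Finset.sum_add_distrib, ← Finset.sum_sub_distrib]
    apply Finset.sum_le_sum
    intro m hm
    have := mul_le_mul_of_nonneg_left (side_coupling h (hz m hm)) (hα m hm)
    linarith
  have k1 := le_pp (Qv a 1 q)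
  have k2 := le_pp (Qv a 2 q)
  have k3 := le_pp (Qv a 3 q)
  have m1 := mul_le_mul_of_nonneg_left k1 (sub_nonneg.2 h1)
  have m2 := mul_le_mul_of_nonneg_left k2 (sub_nonneg.2 h2)
  have m3 := mul_le_mul_of_nonneg_left k3 (sub_nonneg.2 h3)
  have hδ : 0 ≤ ‖a 0 - q‖ ^ 2 := by positivity
  have m0 := mul_le_mul_of_nonneg_right hβ hδ
  have e2 : κ / A * A = κ := div_mul_cancel₀ κ hA.ne'
  have key : ∑ m ∈ S, α m * Qv a 0 (z m)
      - ((bar a 1 p - ∑ m ∈ S, α m * bar a 1 (z m)) * pp (Qv a 1 q)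
        + (bar a 2 p - ∑ m ∈ S, α m * bar a 2 (z m)) * pp (Qv a 2 q)
        + (bar a 3 p - ∑ m ∈ S, α m * bar a 3 (z m)) * pp (Qv a 3 q))
      ≤ Qv a 0 p - κ / A * ‖a 0 - q‖ ^ 2 := by
    rw [e0]
    linarith
  calc _ ≤ A * (Qv a 0 p - κ / A * ‖a 0 - q‖ ^ 2) := mul_le_mul_of_nonneg_left key hA.le
    _ = A * Qv a 0 p - (κ / A * A) * ‖a 0 - q‖ ^ 2 := by ring
    _ = _ := by rw [e2]

/-- the same with one loss point -/
theorem side_density_one {z p q : E3} {A κ α : ℝ} (hA : 0 < A) (hα : 0 ≤ α)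
    (hz : ‖z - q‖ ≤ 1) (hpq : ‖p - q‖ = 1)
    (h1 : α * bar a 1 z ≤ bar a 1 p) (h2 : α * bar a 2 z ≤ bar a 2 p)
    (h3 : α * bar a 3 z ≤ bar a 3 p) (hβ : α * (- bar a 0 z) ≤ - bar a 0 p - κ / A) :
    A * (α * Qv a 0 z - ((bar a 1 p - α * bar a 1 z) * pp (Qv a 1 q)
        + (bar a 2 p - α * bar a 2 z) * pp (Qv a 2 q)
        + (bar a 3 p - α * bar a 3 z) * pp (Qv a 3 q)))
      ≤ A * Qv a 0 p - κ * ‖a 0 - q‖ ^ 2 := by
  have := side_density h (S := {()}) (fun _ => α) (fun _ => z) (p := p) (q := q) (A := A) (κ := κ)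
    hA (fun _ _ => hα) (fun _ _ => hz) hpq (by simpa using h1) (by simpa using h2)
    (by simpa using h3) (by simpa using hβ)
  simpa using this

/-- `δ ≤ (3/2) (Σ y)²` for `y ≥ 0` -/
theorem delta_le_sq {q : E3} (hq : Pl a q) : ‖a 0 - q‖ ^ 2 ≤
    3 / 2 * (yv a 0 1 q + yv a 0 2 q + yv a 0 3 q) ^ 2 := by
  rw [norm_d_sq h]
  have y1 := yv_nonneg hq (i := 0) (j := 1) (by decide)
  have y2 := yv_nonneg hq (i := 0) (j := 2) (by decide)
  have y3 := yv_nonneg hq (i := 0) (j := 3) (by decide)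
  nlinarith [mul_nonneg y1 y2, mul_nonneg y1 y3, mul_nonneg y2 y3]

/-- **strip lemma**: if `Q_k(q) ≤ v` for `k ≠ 0` and all `b_k(p) ≥ μ ≥ 0`, then the density is at
least `-((A + κ) v - 2 A μ √(2v/3))₊ - κ (δ - v)₊`. -/
theorem strip {p q : E3} {A κ v μ : ℝ} (hA : 0 < A) (hκ : 0 ≤ κ) (hv : 0 ≤ v) (hv' : v ≤ 0.2)
    (hμ : 0 ≤ μ) (hq : Pl a q) (hpq : ‖p - q‖ = 1) (h0 : bar a 0 p ≤ 0)
    (h1 : μ ≤ bar a 1 p) (h2 : μ ≤ bar a 2 p) (h3 : μ ≤ bar a 3 p)
    (v1 : Qv a 1 q ≤ v) (v2 : Qv a 2 q ≤ v) (v3 : Qv a 3 q ≤ v) (hδ : ‖a 0 - q‖ ^ 2 ≤ 1.2) :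
    - (pp ((A + κ) * v - 2 * A * μ * √(2 / 3 * v)) + κ * pp (‖a 0 - q‖ ^ 2 - v)) ≤
      A * Qv a 0 p - κ * ‖a 0 - q‖ ^ 2 := by
  have e0 := face_id h p q
  rw [hpq] at e0
  have hd := norm_d_sq h q
  have hb := bar_sum h p
  rw [Qv_yv h (by decide) q] at v1 v2 v3
  have y1 := yv_nonneg hq (i := 0) (j := 1) (by decide)
  have y2 := yv_nonneg hq (i := 0) (j := 2) (by decide)
  have y3 := yv_nonneg hq (i := 0) (j := 3) (by decide)
  have hδ0 : 0 ≤ ‖a 0 - q‖ ^ 2 := by positivity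
  have hle := delta_le_sq h hq
  set δ := ‖a 0 - q‖ ^ 2 with hδdef
  set Y1 := yv a 0 1 q
  set Y2 := yv a 0 2 q
  set Y3 := yv a 0 3 q
  set B1 := bar a 1 p
  set B2 := bar a 2 p
  set B3 := bar a 3 p
  have hQ : Qv a 0 p = 2 * (B1 * Y1 + B2 * Y2 + B3 * Y3) - δ := by linarith
  rw [hQ]
  have hc : √(2 / 3 * v) ^ 2 = 2 / 3 * v := Real.sq_sqrt (by positivity)
  have hc0 : 0 ≤ √(2 / 3 * v) := Real.sqrt_nonneg _
  set C := √(2 / 3 * v)
  have hpp := le_pp ((A + κ) * v - 2 * A * μ * C)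
  have hpp0 := pp_nonneg ((A + κ) * v - 2 * A * μ * C)
  rcases le_total δ v with hdv | hdv
  · -- case 1
    have e1 : pp (δ - v) = 0 := by
      unfold pp
      exact max_eq_right (by linarith)
    rw [e1, mul_zero, add_zero]
    set S := Y1 + Y2 + Y3 with hS
    have hS0 : 0 ≤ S := by positivity
    have hm : μ * S ≤ B1 * Y1 + B2 * Y2 + B3 * Y3 := by
      have := mul_le_mul_of_nonneg_right h1 y1
      have := mul_le_mul_of_nonneg_right h2 y2
      have := mul_le_mul_of_nonneg_right h3 y3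
      rw [hS]
      linarith
    -- `r = √(2/3 δ) ≤ S`, `r ≤ C`
    set r := √(2 / 3 * δ) with hr
    have hr0 : 0 ≤ r := Real.sqrt_nonneg _
    have hr2 : r ^ 2 = 2 / 3 * δ := Real.sq_sqrt (by positivity)
    have hrS : r ≤ S := by
      apply Real.sqrt_le_iff.2 ⟨hS0, by linarith⟩
    have hrC : r ≤ C := Real.sqrt_le_sqrt (by linarith)
    have k1 : 2 * A * (μ * r) ≤ 2 * A * (B1 * Y1 + B2 * Y2 + B3 * Y3) := by
      apply mul_le_mul_of_nonneg_left _ (by positivity)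
      exact (mul_le_mul_of_nonneg_left hrS hμ).trans hm
    have k2 : δ = 3 / 2 * r ^ 2 := by linarith
    have k3 : v = 3 / 2 * C ^ 2 := by linarith
    rcases le_total (2 * A * μ) ((A + κ) * (3 / 2) * C) with hcase | hcase
    · -- negative slope at C
      have k4 : r * (2 * A * μ - (A + κ) * (3 / 2) * r) ≥ C * (2 * A * μ - (A + κ) * (3 / 2) * C) := by
        have g1 : r * (2 * A * μ - (A + κ) * (3 / 2) * r) ≥
            r * (2 * A * μ - (A + κ) * (3 / 2) * C) := by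
          apply mul_le_mul_of_nonneg_left _ hr0
          have : (A + κ) * (3 / 2) * r ≤ (A + κ) * (3 / 2) * C :=
            mul_le_mul_of_nonneg_left hrC (by positivity)
          linarith
        have g2 : r * (2 * A * μ - (A + κ) * (3 / 2) * C) ≥
            C * (2 * A * μ - (A + κ) * (3 / 2) * C) := by
          nlinarith
        linarith
      have k5 : (A + κ) * v - 2 * A * μ * C = - (C * (2 * A * μ - (A + κ) * (3 / 2) * C)) := by
        rw [k3]; ring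
      have k6 : (A + κ) * δ = r * ((A + κ) * (3 / 2) * r) := by rw [k2]; ring
      linarith
    · -- nonnegative
      have k4 : 0 ≤ r * (2 * A * μ - (A + κ) * (3 / 2) * r) := by
        apply mul_nonneg hr0
        have : (A + κ) * (3 / 2) * r ≤ (A + κ) * (3 / 2) * C :=
          mul_le_mul_of_nonneg_left hrC (by positivity)
        linarith
      have k6 : (A + κ) * δ = r * ((A + κ) * (3 / 2) * r) := by rw [k2]; ring
      linarith
  · -- case 2
    have e1 : pp (δ - v) = δ - v := by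
      unfold pp
      exact max_eq_left (by linarith)
    rw [e1]
    obtain ⟨m, hm⟩ : ∃ m, m = (δ - v) / 2 := ⟨_, rfl⟩
    have hm0 : 0 ≤ m := by rw [hm]; linarith
    have z1 : 0 ≤ Y1 - m := by rw [hm]; linarith
    have z2 : 0 ≤ Y2 - m := by rw [hm]; linarith
    have z3 : 0 ≤ Y3 - m := by rw [hm]; linarith
    obtain ⟨S, hS⟩ : ∃ S, S = (Y1 - m) + (Y2 - m) + (Y3 - m) := ⟨_, rfl⟩
    have hS0 : 0 ≤ S := by rw [hS]; positivity
    have hsum : m + μ * S ≤ B1 * Y1 + B2 * Y2 + B3 * Y3 := by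
      have g1 := mul_le_mul_of_nonneg_right h1 z1
      have g2 := mul_le_mul_of_nonneg_right h2 z2
      have g3 := mul_le_mul_of_nonneg_right h3 z3
      have g4 : m * 1 ≤ m * (B1 + B2 + B3) := mul_le_mul_of_nonneg_left (by linarith) hm0
      rw [hS]
      linarith
    have hdS : v + 2 * m ≤ 3 / 2 * m ^ 2 + m * S + 3 / 2 * S ^ 2 := by
      have : v + 2 * m = δ := by rw [hm]; ring
      rw [this, hd, hS]
      nlinarith [mul_nonneg z1 z2, mul_nonneg z1 z3, mul_nonneg z2 z3]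
    have hm6 : m ≤ 0.6 := by rw [hm]; linarith
    have hCS : C ≤ S := by
      by_contra hcon
      push Not at hcon
      have hC4 : C ≤ 0.4 := by nlinarith
      have t1 : S * S < C * C := mul_self_lt_mul_self hS0 hcon
      have t2 : m * S ≤ m * 0.4 := mul_le_mul_of_nonneg_left (by linarith) hm0
      have t3 : m * m ≤ m * 0.6 := mul_le_mul_of_nonneg_left hm6 hm0
      rw [pow_two] at hc hdS
      rw [pow_two] at hdS
      linarith
    have g5 : μ * C ≤ μ * S := mul_le_mul_of_nonneg_left hCS hμ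
    have g6 : 2 * A * (m + μ * C) ≤ 2 * A * (B1 * Y1 + B2 * Y2 + B3 * Y3) :=
      mul_le_mul_of_nonneg_left (by linarith) (by positivity)
    have g7 : δ = v + 2 * m := by rw [hm]; ring
    rw [g7]
    have e3 : v + 2 * m - v = 2 * m := by ring
    rw [e3]
    linarith

end gram

end Helper93.MEI
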