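import Pool.Agent.Helper93.MEI.Neg5b
import Pool.Agent.Helper41.MEI.ArcX
import Pool.Agent.Helper31.SR.PcM

/-!
# Project MEI (M2): negative parts of the moments of an arc, levels of sum at most `0.0135`

`neg_all5`; `MA_of_pos`: the columns of the arcs from any bound of the positive parts;
`MA_small`: with the signed moments `mom_wt2`.
-/

set_option autoImplicit false

namespace Helper93.Neg5

open Set MeasureTheory Filter Topology Metric
open Helper80.CW Helper82.CW Helper22.Wedge Helper22.Sig Helper14.CW Helper14.MEI2 Helper93.MEI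
open Helper22.MEI (s t FD FD_pos)
open Helper21.Sec Helper21.Mom Helper53.MEI Helper93.MEI.Blk
open Pool.Agent.Helper95.MEI.Fub (Zp int_cont Zp_meas)
open Pool.Agent.Helper73.MEI Pool.Agent.Helper31.SR
open Helper41.ArcT (sS int3 sum3)
open scoped RealInnerProductSpace ContDiff Real

section main
variable {a : Fin 4 → E3} (ha : ∀ i j, i ≠ j → dist (a i) (a j) = 1)
  {K : Set E3} {σ : Measure (E3 × E3)} [IsFiniteMeasure σ] (h : PM K σ)
  (hcomp : ∀ p : E3, (∀ q ∈ K, dist p q ≤ 1) → p ∈ K)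
  (hpl : ∀ x ∈ K, Pl a x) {b : OrthonormalBasis (Fin 3) ℝ E3} (hb : Fr a b)
  {S : Fin 4 → ℝ} (hQ : ∀ x ∈ K, ∀ i, Qv a i x ≤ S i) (hS0 : ∀ i, 0 ≤ S i)
  (hT : S 0 + S 1 + S 2 + S 3 ≤ 0.0135)

include ha h hb hQ hS0 hpl hcomp hT in
/-- the flux of the field `x⁵` -/
theorem fluxE5 (i : Bool) : ∫ z in Zp a 2 3, gE (sg i) (eX a z.1) * (eX a z.1 - eX a z.2) ∂σ ≤
    √2 * (8 / 3) * (1 / 10080 + (S 2 + S 3) / 560 + (S 2 + S 3) ^ 2 / 80) := by
  have hG := gram_of_dist ha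
  have hB := Helper21.Alp.bod ha hcomp hpl hb hQ hS0
  have h1 := fluxX5 b (cen a) h.cpt h.mem h.flux (sg i)
  rw [← Helper21.Alp.Zp_eq ha hb] at h1
  have e1 : ∀ z : E3 × E3, gE (sg i) (co b (cen a) z.1).1 * ⟪b 0, z.1 - z.2⟫ =
      gE (sg i) (eX a z.1) * (eX a z.1 - eX a z.2) := by
    intro z
    have f1 := (frame_e hG hb.1 hb.2.1 hb.2.2 z.1).1
    have f2 := (frame_e hG hb.1 hb.2.1 hb.2.2 z.2).1
    have f3 : (co b (cen a) z.1).1 = ⟪b 0, z.1 - cen a⟫ := rfl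
    have f4 : ⟪b 0, z.1 - z.2⟫ = ⟪b 0, z.1 - cen a⟫ - ⟪b 0, z.2 - cen a⟫ := by
      rw [← inner_sub_right]
      congr 1
      abel
    rw [f3, f4, f1, f2]
  simp only [e1] at h1
  rw [h1]
  have s2 := hS0 2
  have s3 := hS0 3
  have s0 := hS0 0
  have s1 := hS0 1
  set u := S 2 + S 3 with hu
  have hu1 : u ≤ 0.0135 := by linarith
  have hc : Tendsto (fun m : ℝ => √2 * (8 / 3) * (1 / 10080 + m / 560 + m ^ 2 / 80)) (𝓝[>] u)
      (𝓝 (√2 * (8 / 3) * (1 / 10080 + u / 560 + u ^ 2 / 80))) := by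
    have : Continuous fun m : ℝ => √2 * (8 / 3) * (1 / 10080 + m / 560 + m ^ 2 / 80) := by
      fun_prop
    exact this.continuousAt.tendsto.mono_left nhdsWithin_le_nhds
  refine ge_of_tendsto hc ?_
  filter_upwards [Ioo_mem_nhdsGT (show u < 1 by linarith)] with m hm
  exact vol5 hB s2 s3 hm.1 hm.2.le (sg_abs i)

include ha h hb hQ hS0 hpl hcomp hT in
/-- the negative part of a moment -/
theorem neg_part5 (i : Bool) {k k' : Fin 4} (hk : k = 2 ∧ k' = 3 ∨ k = 3 ∧ k' = 2) :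
    ∫ z in Zp a 2 3, Helper37.MEI.wt a i z.1 * max (-bar a k z.2) 0 ∂σ ≤
      (sS S + 0.00002) *
        (∫ z in Zp a 2 3, Helper37.MEI.wt a i z.1 * max (bar a k' z.2) 0 ∂σ) +
      0.00002 * (∫ z in Zp a 2 3, Helper37.MEI.wt a i z.1 * max (bar a k z.2) 0 ∂σ) +
      √2 * (8 / 3) * (1 / 10080 + (S 2 + S 3) / 560 + (S 2 + S 3) ^ 2 / 80) := by
  have hG := gram_of_dist ha
  have hwc := Helper37.MEI.wt_cont a i
  have hbc := fun k => Pool.Agent.Helper95.MEI.Fub.bar_cont a k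
  have hXc := Pool.Agent.Helper95.MEI.Fub.eX_cont a
  have hgc : Continuous (gE (sg i)) := (gE_cd (sg i) (n := 0)).continuous
  have i1 : ∀ k, Integrable (fun z : E3 × E3 => Helper37.MEI.wt a i z.1 *
      max (bar a k z.2) 0) σ := fun k => int_cont h.cpt h.mem
    ((hwc.comp continuous_fst).mul (((hbc k).comp continuous_snd).max continuous_const))
  have i2 : Integrable (fun z : E3 × E3 => Helper37.MEI.wt a i z.1 *
      max (-bar a k z.2) 0) σ := int_cont h.cpt h.mem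
    ((hwc.comp continuous_fst).mul (((hbc k).comp continuous_snd).neg.max continuous_const))
  have i3 : Integrable (fun z : E3 × E3 => gE (sg i) (eX a z.1) * (eX a z.1 - eX a z.2)) σ :=
    int_cont h.cpt h.mem ((hgc.comp (hXc.comp continuous_fst)).mul
      ((hXc.comp continuous_fst).sub (hXc.comp continuous_snd)))
  have h1 := fluxE5 ha h hcomp hpl hb hQ hS0 hT i
  have h2 : ∫ z in Zp a 2 3, Helper37.MEI.wt a i z.1 * max (-bar a k z.2) 0 ∂σ ≤
      ∫ z in Zp a 2 3, ((sS S + 0.00002) * (Helper37.MEI.wt a i z.1 *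
        max (bar a k' z.2) 0) + (0.00002 * (Helper37.MEI.wt a i z.1 * max (bar a k z.2) 0) +
          1 * (gE (sg i) (eX a z.1) * (eX a z.1 - eX a z.2)))) ∂σ := by
    refine integral_mono_ae i2.integrableOn (((i1 k').integrableOn.const_mul _).add
      (((i1 k).integrableOn.const_mul _).add (i3.integrableOn.const_mul _))) ?_
    filter_upwards [ae_restrict_mem (Zp_meas a 2 3), ae_restrict_of_ae (s := Zp a 2 3) h.ae]
      with z hz hm
    have h3 := pw_bar5 hG (hpl _ hm.1) (hpl _ hm.2.1) hm.2.2.1 hz.1.le hz.2.le hS0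
      (hQ _ hm.1) (hQ _ hm.2.1) (T := sS S) le_rfl hT i hk
    linarith
  have h4 := int3 (μ := σ.restrict (Zp a 2 3)) (i1 k').integrableOn (i1 k).integrableOn
    i3.integrableOn (sS S + 0.00002) 0.00002 1
  rw [h4] at h2
  linarith

include ha h hpl hb hQ hS0 hT hcomp in
/-- **the negative parts of the moments**, from bounds of the signed moments -/
theorem neg_cell5 (i : Bool) {B2 B3 Bm : ℝ}
    (h2 : ∫ z in Zp a 2 3, Helper37.MEI.wt a i z.1 * bar a 2 z.2 ∂σ ≤ B2)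
    (h3 : ∫ z in Zp a 2 3, Helper37.MEI.wt a i z.1 * bar a 3 z.2 ∂σ ≤ B3)
    (b2 : B2 ≤ Bm) (b3 : B3 ≤ Bm) (hBm : 0 ≤ Bm) :
    ∀ v, v = √2 * (8 / 3) * (1 / 10080 + (S 2 + S 3) / 560 + (S 2 + S 3) ^ 2 / 80) →
    ∫ z in Zp a 2 3, Helper37.MEI.wt a i z.1 * max (-bar a 2 z.2) 0 ∂σ ≤
      ((sS S + 0.00002) * B3 + 0.00002 * B2 + v) +
        (sS S + 0.00004) * (1.0692 * ((sS S + 0.00004) * Bm + v)) ∧
    ∫ z in Zp a 2 3, Helper37.MEI.wt a i z.1 * max (-bar a 3 z.2) 0 ∂σ ≤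
      ((sS S + 0.00002) * B2 + 0.00002 * B3 + v) +
        (sS S + 0.00004) * (1.0692 * ((sS S + 0.00004) * Bm + v)) := by
  intro v hv
  have hG := gram_of_dist ha
  have hwc := Helper37.MEI.wt_cont a i
  have hbc := fun k => Pool.Agent.Helper95.MEI.Fub.bar_cont a k
  have i1 : ∀ k, Integrable (fun z : E3 × E3 => Helper37.MEI.wt a i z.1 *
      max (bar a k z.2) 0) σ := fun k => int_cont h.cpt h.mem
    ((hwc.comp continuous_fst).mul (((hbc k).comp continuous_snd).max continuous_const))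
  have i2 : ∀ k, Integrable (fun z : E3 × E3 => Helper37.MEI.wt a i z.1 *
      max (-bar a k z.2) 0) σ := fun k => int_cont h.cpt h.mem
    ((hwc.comp continuous_fst).mul (((hbc k).comp continuous_snd).neg.max continuous_const))
  have hsp : ∀ k, (∫ z in Zp a 2 3, Helper37.MEI.wt a i z.1 * max (bar a k z.2) 0 ∂σ) -
      (∫ z in Zp a 2 3, Helper37.MEI.wt a i z.1 * max (-bar a k z.2) 0 ∂σ) =
      ∫ z in Zp a 2 3, Helper37.MEI.wt a i z.1 * bar a k z.2 ∂σ := by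
    intro k
    rw [← integral_sub (i1 k).integrableOn (i2 k).integrableOn]
    congr 1
    funext z
    rcases le_total 0 (bar a k z.2) with h0 | h0
    · rw [max_eq_left h0, max_eq_right (by linarith)]; ring
    · rw [max_eq_right h0, max_eq_left (by linarith)]; ring
  have hnn : ∀ k, 0 ≤ ∫ z in Zp a 2 3, Helper37.MEI.wt a i z.1 * max (-bar a k z.2) 0 ∂σ := by
    intro k
    apply integral_nonneg_of_ae
    filter_upwards [ae_restrict_of_ae (s := Zp a 2 3) h.mem] with z hm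
    exact mul_nonneg (Helper37.MEI.wt_nonneg hG i (hpl _ hm.1)) (le_max_right _ _)
  have n2 := neg_part5 ha h hcomp hpl hb hQ hS0 hT i (k := 2) (k' := 3) (Or.inl ⟨rfl, rfl⟩)
  have n3 := neg_part5 ha h hcomp hpl hb hQ hS0 hT i (k := 3) (k' := 2) (Or.inr ⟨rfl, rfl⟩)
  rw [← hv] at n2 n3
  have s0 := hS0 0
  have s1 := hS0 1
  have s2 := hS0 2
  have s3 := hS0 3
  have hs : 0 ≤ sS S := by unfold sS; linarith
  have hs' : sS S ≤ 0.0135 := hT
  have hv0 : 0 ≤ v := by rw [hv]; positivity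
  have a1 := Helper41.ArcV.alg (a := sS S + 0.00002) (d := 0.00002) (by positivity)
    (by norm_num) hv0
    (by rw [hsp]; exact h2) (by rw [hsp]; exact h3) (hnn 2) n2 n3 b2 b3 hBm
    (by linarith)
  have a2 := Helper41.ArcV.alg (a := sS S + 0.00002) (d := 0.00002) (by positivity)
    (by norm_num) hv0
    (by rw [hsp]; exact h3) (by rw [hsp]; exact h2) (hnn 3) n3 n2 b3 b2 hBm
    (by linarith)
  have e : sS S + 0.00002 + 0.00002 = sS S + 0.00004 := by ring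
  rw [e] at a1 a2
  exact ⟨a2, a1⟩

end main

/-! ### all cells -/

/-- the numbers -/
theorem num5 {s2 s3 u v B2 B3 : ℝ} (h2 : 0 ≤ s2) (h3 : 0 ≤ s3) (hu : 0 ≤ u)
    (hT : u + s2 + s3 ≤ 0.0135) (hB2 : B2 ≤ 0.03124 + 0.2986 * s3 + 0.1047 * u)
    (hB3 : B3 ≤ 0.03124 + 0.2986 * s2 + 0.1047 * u)
    (hv : v = √2 * (8 / 3) * (1 / 10080 + (s2 + s3) / 560 + (s2 + s3) ^ 2 / 80)) :
    ((u + s2 + s3 + 0.00002) * B2 + 0.00002 * B3 + v) +
        (u + s2 + s3 + 0.00004) *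
          (1.0692 * ((u + s2 + s3 + 0.00004) * 0.0353 + v)) ≤
      0.000377 + 0.0397 * s2 + 0.0437 * s3 + 0.0337 * u := by
  obtain ⟨r0, r1⟩ := r2b
  have a2 : (s2 + s3) ^ 2 ≤ 0.0135 * (s2 + s3) := by
    have := mul_le_mul_of_nonneg_right (show s2 + s3 ≤ 0.0135 by linarith)
      (show 0 ≤ s2 + s3 by linarith)
    linarith
  have hv1 : v ≤ 0.0003743 + 0.007376 * (s2 + s3) := by
    have g0 : 0 ≤ 1 / 10080 + (s2 + s3) / 560 + (s2 + s3) ^ 2 / 80 := by positivity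
    have g1 := mul_le_mul_of_nonneg_right r1 g0
    rw [hv]
    linarith
  have hv2 : v ≤ 0.000474 := by linarith
  set G := u + s2 + s3 with hS
  have hS0 : 0 ≤ G := by linarith
  have b1 : (G + 0.00002) * B2 ≤
      (G + 0.00002) * (0.03124 + 0.2986 * s3 + 0.1047 * u) :=
    mul_le_mul_of_nonneg_left hB2 (by linarith)
  have b2 : G * s3 ≤ 0.0135 * s3 := mul_le_mul_of_nonneg_right hT h3
  have b3 : G * u ≤ 0.0135 * u := mul_le_mul_of_nonneg_right hT hu
  have b4 : (G + 0.00004) * 0.0353 + v ≤ 0.000953 := by linarith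
  have b5 : (G + 0.00004) * (1.0692 * ((G + 0.00004) * 0.0353 + v)) ≤
      (G + 0.00004) * (1.0692 * 0.000953) :=
    mul_le_mul_of_nonneg_left (by linarith) (by linarith)
  have b6 : (G + 0.00002) * (0.03124 + 0.2986 * s3 + 0.1047 * u) =
      0.03124 * G + 0.2986 * (G * s3) + 0.1047 * (G * u) +
      0.00002 * (0.03124 + 0.2986 * s3 + 0.1047 * u) := by ring
  rw [b6] at b1
  linarith

section six
variable {a : Fin 4 → E3} {K : Set E3} {σ : Measure (E3 × E3)}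

/-- **the negative parts of the moments of the full weight**, small levels -/
theorem neg_all5 [IsFiniteMeasure σ] (h : PM K σ) (ha : ∀ i j, i ≠ j → dist (a i) (a j) = 1)
    (hull : ∀ p, (∀ q ∈ K, ‖p - q‖ ≤ 1) → p ∈ K) (hp : ∀ x ∈ K, Pl a x)
    {B : Fin 3 → Bool → OrthonormalBasis (Fin 3) ℝ E3}
    (hB : ∀ m e, Fr (fun i => a (pr m e i)) (B m e)) {S : Fin 4 → ℝ} (hS0 : ∀ i, 0 ≤ S i)
    (hQ : ∀ i, ∀ q ∈ K, Qv a i q ≤ S i) (hT : sS S ≤ 0.0135)
    (m : Fin 3) (e i : Bool) {k k' : Fin 4} (hk : k = 2 ∧ k' = 3 ∨ k = 3 ∧ k' = 2) :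
    ∫ z in Helper37.MEI.EE a m e, Helper37.MEI.wt (Helper37.MEI.ap a m e) i z.1 *
      max (-bar a (pf m e k) z.2) 0 ∂σ ≤
      0.000377 + 0.0397 * S (pf m e k') + 0.0437 * S (pf m e k) +
        0.0337 * (S (pf m e 0) + S (pf m e 1)) := by
  have ha' := Helper37.MEI.hap ha m e
  have hb : Fr (Helper37.MEI.ap a m e) (B m e) := hB m e
  have hcomp : ∀ p : E3, (∀ q ∈ K, dist p q ≤ 1) → p ∈ K := fun p hpp =>
    hull p fun q hq => by rw [← dist_eq_norm]; exact hpp q hq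
  have hp' : ∀ x ∈ K, Pl (Helper37.MEI.ap a m e) x := fun x hx => Pl_perm _ (hp x hx)
  have hQ' : ∀ x ∈ K, ∀ j, Qv (Helper37.MEI.ap a m e) j x ≤ S (pf m e j) :=
    fun x hx j => hQ (pf m e j) x hx
  have hS' : ∀ j, 0 ≤ S (pf m e j) := fun j => hS0 _
  have hsum := Helper41.ArcT.sS_pf S m e
  have hbk : ∀ k x, bar (Helper37.MEI.ap a m e) k x = bar a (pf m e k) x := fun k x =>
    bar_perm (pr m e) k x
  have s0 := hS' 0
  have s1 := hS' 1
  have s2 := hS' 2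
  have s3 := hS' 3
  have m2 := mom_wt2 h ha hull hp hB hS0 hQ (τ := 0) le_rfl (by norm_num) (θ := 1)
    zero_le_one le_rfl m e i (k := 2) (k' := 3) (Or.inl ⟨rfl, rfl⟩)
  have m3 := mom_wt2 h ha hull hp hB hS0 hQ (τ := 0) le_rfl (by norm_num) (θ := 1)
    zero_le_one le_rfl m e i (k := 3) (k' := 2) (Or.inr ⟨rfl, rfl⟩)
  have hi : 0.10462 * S (pf m e (if i then 1 else 0)) +
      0.08454 * S (pf m e (if i then 0 else 1)) ≤
      0.1047 * (S (pf m e 0) + S (pf m e 1)) := by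
    cases i
    · simp only [Bool.false_eq_true, if_false]; linarith
    · simp only [if_true]; linarith
  have c2 : ∫ z in Zp (Helper37.MEI.ap a m e) 2 3, Helper37.MEI.wt (Helper37.MEI.ap a m e) i z.1 *
      bar (Helper37.MEI.ap a m e) 2 z.2 ∂σ ≤
      0.03124 + 0.2986 * S (pf m e 3) + 0.1047 * (S (pf m e 0) + S (pf m e 1)) := by
    simp only [hbk]
    norm_num at m2 hi ⊢
    exact m2.trans (by linarith)
  have c3 : ∫ z in Zp (Helper37.MEI.ap a m e) 2 3, Helper37.MEI.wt (Helper37.MEI.ap a m e) i z.1 *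
      bar (Helper37.MEI.ap a m e) 3 z.2 ∂σ ≤
      0.03124 + 0.2986 * S (pf m e 2) + 0.1047 * (S (pf m e 0) + S (pf m e 1)) := by
    simp only [hbk]
    norm_num at m3 hi ⊢
    exact m3.trans (by linarith)
  obtain ⟨d2, d3⟩ := neg_cell5 ha' h hcomp hp' hb hQ' hS' (by rw [hsum]; exact hT) i
    (Bm := 0.0353) c2 c3 (by
      have : S (pf m e 0) + S (pf m e 1) + S (pf m e 2) + S (pf m e 3) ≤ 0.0135 := by
        rw [hsum]; exact hT
      linarith) (by
      have : S (pf m e 0) + S (pf m e 1) + S (pf m e 2) + S (pf m e 3) ≤ 0.0135 := by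
        rw [hsum]; exact hT
      linarith) (by norm_num) _ rfl
  have hss : sS (fun j => S (pf m e j)) = S (pf m e 0) + S (pf m e 1) + S (pf m e 2) +
      S (pf m e 3) := rfl
  have hT' : S (pf m e 0) + S (pf m e 1) + S (pf m e 2) + S (pf m e 3) ≤ 0.0135 := by
    rw [hsum]; exact hT
  rw [hss] at d2 d3
  simp only [hbk] at d2 d3
  rcases hk with ⟨e1, e2⟩ | ⟨e1, e2⟩
  · rw [e1, e2]
    have n := num5 (u := S (pf m e 0) + S (pf m e 1)) s3 s2 (by linarith) (by linarith)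
      (B2 := 0.03124 + 0.2986 * S (pf m e 2) + 0.1047 * (S (pf m e 0) + S (pf m e 1)))
      (B3 := 0.03124 + 0.2986 * S (pf m e 3) + 0.1047 * (S (pf m e 0) + S (pf m e 1)))
      le_rfl le_rfl rfl
    refine le_trans ?_ n
    refine le_trans (le_of_eq ?_) (d2.trans (le_of_eq ?_))
    · rfl
    · ring
  · rw [e1, e2]
    have n := num5 (u := S (pf m e 0) + S (pf m e 1)) s2 s3 (by linarith) (by linarith)
      (B2 := 0.03124 + 0.2986 * S (pf m e 3) + 0.1047 * (S (pf m e 0) + S (pf m e 1)))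
      (B3 := 0.03124 + 0.2986 * S (pf m e 2) + 0.1047 * (S (pf m e 0) + S (pf m e 1)))
      le_rfl le_rfl rfl
    refine le_trans ?_ n
    refine le_trans (le_of_eq ?_) (d3.trans (le_of_eq ?_))
    · rfl
    · ring

end six

/-! ### the columns of the arcs from any bound of the negative parts -/

section cols
open Helper37.MEI Helper41.MEI Helper78.MEI Helper82.M2
variable {a : Fin 4 → E3} {K : Set E3} {σ : Measure (E3 × E3)}
  {l : Fin 3 → Bool → Bool → E3 × E3 → ℝ}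

/-- an affine bound of the negative parts of the moments of the full weight -/
def NgF (σ : Measure (E3 × E3)) (a : Fin 4 → E3) (S : Fin 4 → ℝ) (D0 dj dk du : ℝ) : Prop :=
  ∀ (m : Fin 3) (e i : Bool) (k k' : Fin 4), (k = 2 ∧ k' = 3 ∨ k = 3 ∧ k' = 2) →
    ∫ z in EE a m e, wt (ap a m e) i z.1 * max (-bar a (pf m e k) z.2) 0 ∂σ ≤
      D0 + dj * S (pf m e k') + dk * S (pf m e k) + du * (S (pf m e 0) + S (pf m e 1))

/-- small levels -/
theorem ngF_small [IsFiniteMeasure σ] (h : PM K σ) (ha : ∀ i j, i ≠ j → dist (a i) (a j) = 1)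
    (hull : ∀ p, (∀ q ∈ K, ‖p - q‖ ≤ 1) → p ∈ K) (hp : ∀ x ∈ K, Pl a x)
    {B : Fin 3 → Bool → OrthonormalBasis (Fin 3) ℝ E3}
    (hB : ∀ m e, Fr (fun i => a (pr m e i)) (B m e)) {S : Fin 4 → ℝ} (hS0 : ∀ i, 0 ≤ S i)
    (hQ : ∀ i, ∀ q ∈ K, Qv a i q ≤ S i) (hT : sS S ≤ 0.0135) :
    NgF σ a S 0.000377 0.0397 0.0437 0.0337 := fun m e i _ _ hk =>
  neg_all5 h ha hull hp hB hS0 hQ hT m e i hk

/-- the positive part of a moment -/
theorem pos_of_neg [IsFiniteMeasure σ] (h : PM K σ)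
    {S : Fin 4 → ℝ} {C0 α γ β0 β1 D0 dj dk du : ℝ}
    (hs : Helper41.ArcV.SgB σ a S C0 α γ β0 β1) (hn : NgF σ a S D0 dj dk du)
    (m : Fin 3) (e i : Bool) {k k' : Fin 4} (hk : k = 2 ∧ k' = 3 ∨ k = 3 ∧ k' = 2) :
    ∫ z in EE a m e, wt (ap a m e) i z.1 * max (bar a (pf m e k) z.2) 0 ∂σ ≤
      (C0 + D0) + (α + dj) * S (pf m e k') + (γ + dk) * S (pf m e k) +
        (β0 + du) * S (vx m e i) + (β1 + du) * S (vx m e (!i)) := by
  have hwc := wt_cont (ap a m e) i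
  have hbc := Pool.Agent.Helper95.MEI.Fub.bar_cont a (pf m e k)
  have i1 : Integrable (fun z : E3 × E3 => wt (ap a m e) i z.1 * bar a (pf m e k) z.2) σ :=
    int_cont h.cpt h.mem ((hwc.comp continuous_fst).mul (hbc.comp continuous_snd))
  have i2 : Integrable (fun z : E3 × E3 => wt (ap a m e) i z.1 *
      max (-bar a (pf m e k) z.2) 0) σ :=
    int_cont h.cpt h.mem ((hwc.comp continuous_fst).mul
      ((hbc.comp continuous_snd).neg.max continuous_const))
  have e1 : ∫ z in EE a m e, wt (ap a m e) i z.1 * max (bar a (pf m e k) z.2) 0 ∂σ =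
      (∫ z in EE a m e, wt (ap a m e) i z.1 * bar a (pf m e k) z.2 ∂σ) +
      ∫ z in EE a m e, wt (ap a m e) i z.1 * max (-bar a (pf m e k) z.2) 0 ∂σ := by
    rw [← integral_add i1.integrableOn i2.integrableOn]
    congr 1
    funext z
    rcases le_total 0 (bar a (pf m e k) z.2) with h0 | h0
    · rw [max_eq_left h0, max_eq_right (by linarith)]; ring
    · rw [max_eq_right h0, max_eq_left (by linarith)]; ring
  have h2 := hs m e i k k' hk
  have h3 := hn m e i k k' hk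
  have h4 : S (vx m e i) + S (vx m e (!i)) = S (pf m e 0) + S (pf m e 1) := by
    cases i
    · rfl
    · show S (pf m e 1) + S (pf m e 0) = _
      ring
  have h5 : du * (S (vx m e i) + S (vx m e (!i))) = du * (S (pf m e 0) + S (pf m e 1)) := by
    rw [h4]
  rw [e1]
  linarith

/-- **the two columns of an arc**, any admissible losses -/
theorem sM_of_neg [IsFiniteMeasure σ] (ha : ∀ i j, i ≠ j → dist (a i) (a j) = 1)
    (hl : Lok a l) (h : PM K σ) (hp : ∀ x ∈ K, Pl a x)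
    {S : Fin 4 → ℝ} {C0 α γ β0 β1 D0 dj dk du : ℝ}
    (hs : Helper41.ArcV.SgB σ a S C0 α γ β0 β1) (hn : NgF σ a S D0 dj dk du)
    (m : Fin 3) (e i : Bool) {k k' : Fin 4} (hk : k = 2 ∧ k' = 3 ∨ k = 3 ∧ k' = 2) :
    max (sM σ a l m e i (pf m e k)) 0 ≤
      (C0 + D0) + (α + dj) * S (pf m e k') + (γ + dk) * S (pf m e k) +
        (β0 + du) * S (vx m e i) + (β1 + du) * S (vx m e (!i)) := by
  obtain ⟨C, hC⟩ := den_bdd ha hl h.cpt h.mem hp m e i
  refine le_trans ?_ (pos_of_neg h hs hn m e i hk)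
  have i1 := dens_int (σ := σ) h.cpt h.mem (den_meas hl m e i) (den_nn hl m e i) hC
    ((Pool.Agent.Helper95.MEI.Fub.bar_cont a (pf m e k)).comp continuous_snd)
  have i2 : Integrable (fun z : E3 × E3 => wt (ap a m e) i z.1 *
      max (bar a (pf m e k) z.2) 0) σ :=
    int_cont h.cpt h.mem (((wt_cont (ap a m e) i).comp
      continuous_fst).mul (((Pool.Agent.Helper95.MEI.Fub.bar_cont a (pf m e k)).comp
        continuous_snd).max continuous_const))
  unfold sM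
  apply max_le
  · refine integral_mono_ae i1.integrableOn i2.integrableOn ?_
    filter_upwards [ae_restrict_of_ae h.mem] with z hz
    have h1 := den_nonneg hl m e i z
    have h2 := den_le (hgp ha) hl m e i (hp _ hz.1)
    have h3 : bar a (pf m e k) z.2 ≤ max (bar a (pf m e k) z.2) 0 := le_max_left _ _
    have h4 : 0 ≤ max (bar a (pf m e k) z.2) 0 := le_max_right _ _
    exact (mul_le_mul_of_nonneg_left h3 h1).trans (mul_le_mul_of_nonneg_right h2 h4)
  · apply integral_nonneg_of_ae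
    filter_upwards [ae_restrict_of_ae h.mem] with z hz
    exact mul_nonneg (wt_nonneg (hgp ha m e) i (Pl_perm _ (hp _ hz.1))) (le_max_right _ _)

/-- **the two columns of the arc `p` of the face of `τ 0`**; `k` the column, `j` the other end -/
theorem MA_of_neg [IsFiniteMeasure σ] (ha : ∀ i j, i ≠ j → dist (a i) (a j) = 1)
    (hl : Lok a l) (h : PM K σ) (hp : ∀ x ∈ K, Pl a x)
    {S : Fin 4 → ℝ} {C0 α γ β0 β1 D0 dj dk du : ℝ}
    (hs : Helper41.ArcV.SgB σ a S C0 α γ β0 β1) (hn : NgF σ a S D0 dj dk du)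
    (τ : Equiv.Perm (Fin 4)) {p k j : Fin 3} (hk : k ≠ p) (hj : j ≠ p) (hjk : j ≠ k) :
    MA σ a l τ p k ≤ (C0 + D0) + (α + dj) * S (τ j.succ) +
      (γ + dk) * S (τ k.succ) + (β0 + du) * S (τ 0) + (β1 + du) * S (τ p.succ) := by
  have hne : τ 0 ≠ τ p.succ := fun h => (Fin.succ_ne_zero p) (τ.injective h).symm
  have h1 : τ k.succ ≠ τ 0 := fun h => (Fin.succ_ne_zero k) (τ.injective h)
  have h2 : τ k.succ ≠ τ p.succ := fun h => hk (Fin.succ_injective _ (τ.injective h))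
  have hv := idx_vx (τ 0) (τ p.succ) hne
  have hτ : S (τ 0) + S (τ 1) + S (τ 2) + S (τ 3) = sS S := by
    have h3 := Equiv.sum_comp τ S
    rw [Fin.sum_univ_four, Fin.sum_univ_four] at h3
    exact h3
  have h3 := sum3 (fun r => S (τ r.succ)) p k j hk.symm hjk.symm hj
  have h3' : S (τ p.succ) + S (τ k.succ) + S (τ j.succ) = S (τ 1) + S (τ 2) + S (τ 3) := h3
  have vs : ∀ (m : Fin 3) (e i : Bool), S (vx m e i) + S (vx m e (!i)) =
      S (pf m e 0) + S (pf m e 1) := by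
    intro m e i
    cases i
    · rfl
    · show S (pf m e 1) + S (pf m e 0) = _
      ring
  have h4 := vs (idx (τ 0) (τ p.succ)).1 (idx (τ 0) (τ p.succ)).2.1 (idx (τ 0) (τ p.succ)).2.2
  rw [hv.1, hv.2] at h4
  have h5 := Helper41.ArcT.sS_pf S (idx (τ 0) (τ p.succ)).1 (idx (τ 0) (τ p.succ)).2.1
  unfold MA Pool.Agent.Helper31.SR.aM pp
  rcases idx_pf (τ 0) (τ p.succ) (τ k.succ) hne h1 h2 with h6 | h6
  · have g := sM_of_neg ha hl h hp hs hn (idx (τ 0) (τ p.succ)).1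
      (idx (τ 0) (τ p.succ)).2.1 (idx (τ 0) (τ p.succ)).2.2 (k := 2) (k' := 3)
      (Or.inl ⟨rfl, rfl⟩)
    rw [hv.1, hv.2, h6] at g
    rw [h6] at h5
    have h7 : S (pf (idx (τ 0) (τ p.succ)).1 (idx (τ 0) (τ p.succ)).2.1 3) = S (τ j.succ) := by
      linarith
    rw [h7] at g
    exact g
  · have g := sM_of_neg ha hl h hp hs hn (idx (τ 0) (τ p.succ)).1
      (idx (τ 0) (τ p.succ)).2.1 (idx (τ 0) (τ p.succ)).2.2 (k := 3) (k' := 2)
      (Or.inr ⟨rfl, rfl⟩)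
    rw [hv.1, hv.2, h6] at g
    rw [h6] at h5
    have h7 : S (pf (idx (τ 0) (τ p.succ)).1 (idx (τ 0) (τ p.succ)).2.1 2) = S (τ j.succ) := by
      linarith
    rw [h7] at g
    exact g

/-- signed moments with the bulk terms in helper41's form, slab parameter `0`, bulk parameter `1` -/
theorem sgB_wt2 [IsFiniteMeasure σ] (h : PM K σ)
    (ha : ∀ i j, i ≠ j → dist (a i) (a j) = 1)
    (hull : ∀ p, (∀ q ∈ K, ‖p - q‖ ≤ 1) → p ∈ K) (hp : ∀ x ∈ K, Pl a x)
    {B : Fin 3 → Bool → OrthonormalBasis (Fin 3) ℝ E3}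
    (hB : ∀ m e, Fr (fun i => a (pr m e i)) (B m e)) {S : Fin 4 → ℝ} (hS0 : ∀ i, 0 ≤ S i)
    (hQ : ∀ i, ∀ q ∈ K, Qv a i q ≤ S i) :
    Helper41.ArcV.SgB σ a S 0.0312353 0.2986 0 0.10462 0.08454 := by
  intro m e i k k' hk
  have h1 := mom_wt2 h ha hull hp hB hS0 hQ (τ := 0) le_rfl (by norm_num) (θ := 1)
    zero_le_one le_rfl m e i hk
  refine h1.trans (le_of_eq ?_)
  cases i
  · show _ = _ + 0.10462 * S (pf m e 0) + 0.08454 * S (pf m e 1)
    simp only [Bool.false_eq_true, if_false]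
    ring
  · show _ = _ + 0.10462 * S (pf m e 1) + 0.08454 * S (pf m e 0)
    simp only [if_true]
    ring

/-- **the columns of the arcs, small levels** -/
theorem MA_small {c : Fin 4 → E3} {S : Fin 4 → ℝ} [IsFiniteMeasure σ] (hC : CN K σ a c)
    (hV : Viol K a S) (hT : S 0 + S 1 + S 2 + S 3 ≤ 0.0135) (hl : Lok a l)
    (τ : Equiv.Perm (Fin 4)) {p k j : Fin 3} (hk : k ≠ p) (hj : j ≠ p) (hjk : j ≠ k) :
    MA σ a l τ p k ≤ 0.0316123 + 0.3383 * S (τ j.succ) + 0.0437 * S (τ k.succ) +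
      0.13832 * S (τ 0) + 0.11824 * S (τ p.succ) := by
  obtain ⟨B, hB⟩ := frames hC.ha
  have hQ : ∀ i, ∀ q ∈ K, Qv a i q ≤ S i := fun i q hq => hV.le i q hq
  have h1 := sgB_wt2 hC.pm hC.ha hC.hull hC.hp hB hV.nn hQ
  have h2 := ngF_small hC.pm hC.ha hC.hull hC.hp hB hV.nn hQ hT
  refine (MA_of_neg hC.ha hl hC.pm hC.hp h1 h2 τ hk hj hjk).trans (le_of_eq ?_)
  norm_num

/-- **the moments of the arcs on the range `Σ S ≤ T`**, `T ≤ .0135` -/
theorem momP_small {ρ T X : ℝ} {P : (Fin 4 → ℝ) → Prop} (hP : ∀ S, P S → ∑ i, S i ≤ T)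
    (hT : T ≤ 0.0135) (hρ : 0.0316123 + 0.3383 * T ≤ ρ) : PcN.MomP ρ X P := by
  intro K σ hσ a c hC hX S hV hS τ p k hk
  obtain ⟨j, hj, hjk⟩ : ∃ j : Fin 3, j ≠ p ∧ j ≠ k := by
    revert hk
    fin_cases p <;> fin_cases k <;> decide
  have hs := hP S hS
  have hs' := hs
  rw [Fin.sum_univ_four] at hs'
  have h1 := MA_small hC hV (hs'.trans hT) (l2_ok hC.ha) τ hk hj hjk
  have hτ : S (τ 0) + S (τ 1) + S (τ 2) + S (τ 3) = ∑ i, S i := by
    rw [← Equiv.sum_comp τ S, Fin.sum_univ_four]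
  have h3 := sum3 (fun r => S (τ r.succ)) p k j hk.symm hjk.symm hj
  have h3' : S (τ p.succ) + S (τ k.succ) + S (τ j.succ) = S (τ 1) + S (τ 2) + S (τ 3) := h3
  have a0 := hV.nn (τ 0)
  have a1 := hV.nn (τ p.succ)
  have a2 := hV.nn (τ k.succ)
  have a3 := hV.nn (τ j.succ)
  linarith

end cols

end Helper93.Neg5
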