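import Pool.Agent.Helper93.MEI.R1
import Pool.Agent.Helper78.MEI.Edge

/-!
# Project MEI (M2), regime I: row (S2) of `h29_reg1.md`, the area of the edge part
-/

namespace Helper93.MEI

open Set Metric MeasureTheory Helper80.CW
open Helper22.MEI (t s Fa Fb Fc FD)
open Helper22.Wedge (co fld EC)
open Pool.Agent.Helper8.MEI (DD DD_pos DD_ge divF NU)
open scoped RealInnerProductSpace Real

/-- the divergence of the edge field in the frame -/
noncomputable def dvF (b : OrthonormalBasis (Fin 3) ℝ E3) (c x : E3) : ℝ :=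
  divF (co b c x).1 (co b c x).2.1 ((co b c x).2.2 - t)

/-- the sharp lens (with the core): points of the edge cell in the balls about `a3`, `a4` -/
def Ast (b : OrthonormalBasis (Fin 3) ℝ E3) (c a3 a4 : E3) : Set E3 :=
  {x | x ∈ EC b c ∧ ‖x - a3‖ ≤ 1 ∧ ‖x - a4‖ ≤ 1}

/-- the negative part density of the excess -/
noncomputable def nE (b : OrthonormalBasis (Fin 3) ℝ E3) (c a1 a2 : E3) (z : E3 × E3) : ℝ :=
  ((1 / 2 + 7 * (co b c z.1).1 / 16) * pp (‖z.2 - a1‖ ^ 2 - 1) +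
    (1 / 2 - 7 * (co b c z.1).1 / 16) * pp (‖z.2 - a2‖ ^ 2 - 1)) / (4 * FD (co b c z.1))

theorem divF_le (x y w : ℝ) : divF x y w ≤ 5.2 := by
  unfold divF
  have hD := DD_ge x y w
  have hp := DD_pos x y w
  rw [div_le_iff₀ (by positivity)]
  have h1 : NU x y w ≤ 1.3 * DD x y w := by
    unfold NU DD
    nlinarith [sq_nonneg x, sq_nonneg y, sq_nonneg w]
  nlinarith

section
variable (b : OrthonormalBasis (Fin 3) ℝ E3) (c : E3)

theorem co_cont : Continuous (co b c) := (Helper22.Wedge.co_cd b c).continuous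

theorem EC_open : IsOpen (EC b c) := by
  have h := co_cont b c
  unfold EC
  exact isOpen_lt (by fun_prop) (by fun_prop)

theorem dvF_cont : Continuous (dvF b c) := by
  have h := co_cont b c
  have hD : ∀ x, DD (co b c x).1 (co b c x).2.1 ((co b c x).2.2 - t) ^ 2 ≠ 0 := fun x =>
    pow_ne_zero 2 (DD_pos _ _ _).ne'
  unfold dvF divF
  refine Continuous.div ?_ ?_ hD
  · unfold NU
    fun_prop
  · unfold DD
    fun_prop

theorem dvF_nonneg (x : E3) : 0 ≤ dvF b c x := (Helper78.MEI.div_pos _ _ _).le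

theorem dvF_le (x : E3) : dvF b c x ≤ 5.2 := divF_le _ _ _

theorem dvF_int {S : Set E3} (hS : volume S ≠ ⊤) : IntegrableOn (dvF b c) S := by
  apply Measure.integrableOn_of_bounded (M := 5.2) hS (dvF_cont b c).aestronglyMeasurable
  filter_upwards with x
  rw [Real.norm_of_nonneg (dvF_nonneg b c x)]
  exact dvF_le b c x

theorem Ast_meas (a3 a4 : E3) : MeasurableSet (Ast b c a3 a4) := by
  have h1 : MeasurableSet {x : E3 | ‖x - a3‖ ≤ 1} :=
    (isClosed_le (by fun_prop) continuous_const).measurableSet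
  have h2 : MeasurableSet {x : E3 | ‖x - a4‖ ≤ 1} :=
    (isClosed_le (by fun_prop) continuous_const).measurableSet
  exact (EC_open b c).measurableSet.inter (h1.inter h2)

theorem Ast_fin (a3 a4 : E3) : volume (Ast b c a3 a4) ≠ ⊤ := by
  have h1 : Ast b c a3 a4 ⊆ closedBall a3 1 := by
    intro x hx
    rw [mem_closedBall, dist_eq_norm]
    exact hx.2.1
  exact ((measure_mono h1).trans_lt measure_closedBall_lt_top).ne

end

section
variable {b : OrthonormalBasis (Fin 3) ℝ E3} {c : E3} {K : Set E3} {a1 a2 a3 a4 : E3}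
  {s1 s2 s3 s4 : ℝ} {σ : Measure (E3 × E3)}

theorem fld_cont : Continuous (fld b c Fa Fb Fc) :=
  (Helper22.Sig.fld_cd b c Helper22.MEI.Fa_cd Helper22.MEI.Fb_cd Helper22.MEI.Fc_cd).continuous

theorem flux_int [IsFiniteMeasure σ] (hK : IsCompact K)
    (hpr : ∀ᵐ z ∂σ, z.1 ∈ K ∧ z.2 ∈ K ∧ ‖z.1 - z.2‖ = 1) :
    Integrable (fun z : E3 × E3 => ⟪fld b c Fa Fb Fc z.1, z.1 - z.2⟫) σ := by
  have hc : Continuous (fun z : E3 × E3 => ⟪fld b c Fa Fb Fc z.1, z.1 - z.2⟫) :=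
    (fld_cont.comp continuous_fst).inner (continuous_fst.sub continuous_snd)
  obtain ⟨C, hC⟩ := hK.exists_bound_of_continuousOn (fld_cont (b := b) (c := c)).continuousOn
  apply Integrable.mono' (integrable_const C) hc.aestronglyMeasurable
  filter_upwards [hpr] with z hz
  have h1 := norm_inner_le_norm (𝕜 := ℝ) (fld b c Fa Fb Fc z.1) (z.1 - z.2)
  rw [hz.2.2, mul_one] at h1
  exact h1.trans (hC z.1 hz.1)

/-- the negative part is at most `.64 (s1 + s2)` -/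
theorem nE_le (hX : ∀ x ∈ K, |(co b c x).1| ≤ 1 / 2) (h1 : ∀ x ∈ K, ‖x - a1‖ ^ 2 - 1 ≤ s1)
    (h2 : ∀ x ∈ K, ‖x - a2‖ ^ 2 - 1 ≤ s2) (hs1 : 0 ≤ s1) (hs2 : 0 ≤ s2) {z : E3 × E3}
    (hz1 : z.1 ∈ K) (hz2 : z.2 ∈ K) : nE b c a1 a2 z ≤ 0.64 * (s1 + s2) := by
  have e1 : pp (‖z.2 - a1‖ ^ 2 - 1) ≤ s1 := max_le (h1 _ hz2) hs1
  have e2 : pp (‖z.2 - a2‖ ^ 2 - 1) ≤ s2 := max_le (h2 _ hz2) hs2
  exact neg_real (x := (co b c z.1).1) (y := (co b c z.1).2.1) (w := (co b c z.1).2.2 - t)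
    (hX _ hz1) e1 e2

theorem nE_nonneg (hX : ∀ x ∈ K, |(co b c x).1| ≤ 1 / 2) {z : E3 × E3} (hz1 : z.1 ∈ K) :
    0 ≤ nE b c a1 a2 z := by
  obtain ⟨k1, k2⟩ := abs_le.1 (hX _ hz1)
  have hD := Helper78.MEI.FD_ge (co b c z.1)
  unfold nE
  apply div_nonneg _ (by linarith)
  apply add_nonneg
  · exact mul_nonneg (by linarith) (pp_nonneg _)
  · exact mul_nonneg (by linarith) (pp_nonneg _)

/-- excess ≥ - negative part -/
theorem excess_ge {z : E3 × E3} (hX : |(co b c z.1).1| ≤ 1 / 2) (hz : ‖z.1 - z.2‖ = 1)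
    (ha1 : co b c a1 = (1 / 2, 0, t)) (ha2 : co b c a2 = (-(1 / 2), 0, t)) :
    1 / 4 - nE b c a1 a2 z ≤ ⟪fld b c Fa Fb Fc z.1, z.1 - z.2⟫ := by
  rw [Helper78.MEI.edge_id b c hz ha1 ha2]
  obtain ⟨k1, k2⟩ := abs_le.1 hX
  have hD := Helper78.MEI.FD_ge (co b c z.1)
  unfold nE
  rw [sub_eq_add_neg, ← neg_div]
  apply add_le_add le_rfl
  apply div_le_div_of_nonneg_right _ (by linarith : (0 : ℝ) ≤ 4 * FD (co b c z.1))
  have e1 := le_pp (‖z.2 - a1‖ ^ 2 - 1)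
  have e2 := le_pp (‖z.2 - a2‖ ^ 2 - 1)
  nlinarith [mul_nonneg (by linarith : 0 ≤ 1 / 2 + 7 * (co b c z.1).1 / 16)
    (sub_nonneg.2 e1), mul_nonneg (by linarith : 0 ≤ 1 / 2 - 7 * (co b c z.1).1 / 16)
    (sub_nonneg.2 e2)]

/-- volume side: `∫_{K ∩ Z} div F ≤ ∫_{A*} div F + 4.58 vol(K ∩ Z \ A*)` -/
theorem vol_side (hK : IsCompact K) (ha3 : co b c a3 = (0, 1 / 2, -t))
    (ha4 : co b c a4 = (0, -(1 / 2), -t)) :
    ∫ x in K ∩ EC b c, dvF b c x ≤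
      (∫ x in Ast b c a3 a4, dvF b c x) + 4.58 * volume.real ((K ∩ EC b c) \ Ast b c a3 a4) := by
  have hKf : volume K ≠ ⊤ := hK.measure_lt_top.ne
  have hKZ : volume (K ∩ EC b c) ≠ ⊤ := ((measure_mono inter_subset_left).trans_lt
    hK.measure_lt_top).ne
  have hm := Ast_meas b c a3 a4
  have h1 := integral_inter_add_sdiff hm (dvF_int b c hKZ)
  rw [← h1]
  have hd : volume ((K ∩ EC b c) \ Ast b c a3 a4) ≠ ⊤ :=
    ((measure_mono sdiff_subset).trans_lt hKZ.lt_top).ne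
  apply add_le_add
  · apply setIntegral_mono_set (dvF_int b c (Ast_fin b c a3 a4))
    · filter_upwards with x using dvF_nonneg b c x
    · exact LE.le.eventuallyLE inter_subset_right
  · have h2 : ∫ x in (K ∩ EC b c) \ Ast b c a3 a4, dvF b c x ≤
        ∫ x in (K ∩ EC b c) \ Ast b c a3 a4, (4.58 : ℝ) := by
      apply setIntegral_mono_on (dvF_int b c hd) (integrableOn_const hd)
      · exact (hK.measurableSet.inter (EC_open b c).measurableSet).diff hm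
      · intro x hx
        apply Helper78.MEI.div_le_bulge b c ha3 ha4
        by_contra hcon
        push Not at hcon
        exact hx.2 ⟨hx.1.2, hcon.1, hcon.2⟩
    refine h2.trans (le_of_eq ?_)
    rw [setIntegral_const, smul_eq_mul, mul_comm]

/-- **Row (S2)**: the area of the part of the boundary in the edge cell. -/
theorem area12 [IsFiniteMeasure σ] (hK : IsCompact K)
    (hpr : ∀ᵐ z ∂σ, z.1 ∈ K ∧ z.2 ∈ K ∧ ‖z.1 - z.2‖ = 1)
    (hX : ∀ x ∈ K, |(co b c x).1| ≤ 1 / 2)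
    (ha1 : co b c a1 = (1 / 2, 0, t)) (ha2 : co b c a2 = (-(1 / 2), 0, t))
    (ha3 : co b c a3 = (0, 1 / 2, -t)) (ha4 : co b c a4 = (0, -(1 / 2), -t))
    (h1 : ∀ x ∈ K, ‖x - a1‖ ^ 2 - 1 ≤ s1) (h2 : ∀ x ∈ K, ‖x - a2‖ ^ 2 - 1 ≤ s2)
    (hs1 : 0 ≤ s1) (hs2 : 0 ≤ s2) (hs1' : s1 ≤ 0.002) (hs2' : s2 ≤ 0.002)
    (hs3' : s3 ≤ 0.002) (hs4' : s4 ≤ 0.002)
    (hflux : ∫ z in {z : E3 × E3 | z.1 ∈ EC b c}, ⟪fld b c Fa Fb Fc z.1, z.1 - z.2⟫ ∂σ =
      ∫ x in K ∩ EC b c, dvF b c x)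
    (hA : ∫ x in Ast b c a3 a4, dvF b c x ≤ 0.0325)
    (hβ : volume.real ((K ∩ EC b c) \ Ast b c a3 a4) ≤ 0.04 * (s3 + s4)) :
    σ.real {z : E3 × E3 | z.1 ∈ EC b c} ≤ 0.1345 := by
  set E : Set (E3 × E3) := {z : E3 × E3 | z.1 ∈ EC b c} with hE
  have hEm : MeasurableSet E := (EC_open b c).measurableSet.preimage measurable_fst
  have hlow : (1 / 4 - 0.64 * (s1 + s2)) * σ.real E ≤
      ∫ z in E, ⟪fld b c Fa Fb Fc z.1, z.1 - z.2⟫ ∂σ := by
    have h3 : ∫ z in E, (1 / 4 - 0.64 * (s1 + s2)) ∂σ ≤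
        ∫ z in E, ⟪fld b c Fa Fb Fc z.1, z.1 - z.2⟫ ∂σ := by
      apply integral_mono_ae (integrable_const _) (flux_int hK hpr).integrableOn
      filter_upwards [ae_restrict_of_ae hpr] with z hz
      have h4 := excess_ge (z := z) (hX _ hz.1) hz.2.2 ha1 ha2
      have h5 := nE_le (a1 := a1) (a2 := a2) hX h1 h2 hs1 hs2 hz.1 hz.2.1
      linarith
    rw [setIntegral_const, smul_eq_mul, mul_comm] at h3
    exact h3
  have hup := vol_side (b := b) (c := c) hK ha3 ha4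
  rw [← hflux] at hup
  have hS0 : 0 ≤ σ.real E := measureReal_nonneg
  nlinarith

/-- the integral of the negative part -/
theorem N12_le [IsFiniteMeasure σ]
    (hpr : ∀ᵐ z ∂σ, z.1 ∈ K ∧ z.2 ∈ K ∧ ‖z.1 - z.2‖ = 1)
    (hX : ∀ x ∈ K, |(co b c x).1| ≤ 1 / 2)
    (h1 : ∀ x ∈ K, ‖x - a1‖ ^ 2 - 1 ≤ s1) (h2 : ∀ x ∈ K, ‖x - a2‖ ^ 2 - 1 ≤ s2)
    (hs1 : 0 ≤ s1) (hs2 : 0 ≤ s2)
    (hS : σ.real {z : E3 × E3 | z.1 ∈ EC b c} ≤ 0.1345) :
    ∫ z in {z : E3 × E3 | z.1 ∈ EC b c}, nE b c a1 a2 z ∂σ ≤ 0.0861 * (s1 + s2) := by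
  set E : Set (E3 × E3) := {z : E3 × E3 | z.1 ∈ EC b c} with hE
  have h3 : ∫ z in E, nE b c a1 a2 z ∂σ ≤ ∫ z in E, 0.64 * (s1 + s2) ∂σ := by
    apply integral_mono_of_nonneg
    · filter_upwards [ae_restrict_of_ae hpr] with z hz using nE_nonneg hX hz.1
    · exact integrable_const _
    · filter_upwards [ae_restrict_of_ae hpr] with z hz using
        nE_le hX h1 h2 hs1 hs2 hz.1 hz.2.1
  rw [setIntegral_const, smul_eq_mul] at h3
  have hS0 : 0 ≤ σ.real E := measureReal_nonneg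
  nlinarith [mul_nonneg (add_nonneg hs1 hs2) (sub_nonneg.2 hS)]

/-- the excess is at least minus the negative part, integrated -/
theorem T12_ge [IsFiniteMeasure σ] (hK : IsCompact K)
    (hpr : ∀ᵐ z ∂σ, z.1 ∈ K ∧ z.2 ∈ K ∧ ‖z.1 - z.2‖ = 1)
    (hX : ∀ x ∈ K, |(co b c x).1| ≤ 1 / 2)
    (ha1 : co b c a1 = (1 / 2, 0, t)) (ha2 : co b c a2 = (-(1 / 2), 0, t))
    (h1 : ∀ x ∈ K, ‖x - a1‖ ^ 2 - 1 ≤ s1) (h2 : ∀ x ∈ K, ‖x - a2‖ ^ 2 - 1 ≤ s2)
    (hs1 : 0 ≤ s1) (hs2 : 0 ≤ s2) :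
    - (∫ z in {z : E3 × E3 | z.1 ∈ EC b c}, nE b c a1 a2 z ∂σ) ≤
      ∫ z in {z : E3 × E3 | z.1 ∈ EC b c}, (⟪fld b c Fa Fb Fc z.1, z.1 - z.2⟫ - 1 / 4) ∂σ := by
  rw [← integral_neg]
  apply integral_mono_ae
  · apply Integrable.neg
    have hc : Continuous (fun z : E3 × E3 => nE b c a1 a2 z) := by
      have h := co_cont b c
      unfold nE pp
      refine Continuous.div (by fun_prop) ?_ ?_
      · unfold FD
        fun_prop
      · intro z
        have := Helper78.MEI.FD_ge (co b c z.1)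
        positivity
    apply Integrable.mono' (integrable_const (0.64 * (s1 + s2))) hc.aestronglyMeasurable
    filter_upwards [ae_restrict_of_ae hpr] with z hz
    rw [Real.norm_of_nonneg (nE_nonneg hX hz.1)]
    exact nE_le hX h1 h2 hs1 hs2 hz.1 hz.2.1
  · exact ((flux_int hK hpr).integrableOn).sub (integrable_const _)
  · filter_upwards [ae_restrict_of_ae hpr] with z hz
    have h4 := excess_ge (z := z) (hX _ hz.1) hz.2.2 ha1 ha2
    linarith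

end

end Helper93.MEI
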