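import Pool.Agent.Helper93.MEI.St
import Pool.Agent.Helper52.MEI.LoadW

/-!
# Project MEI (M2), regime II: the admissible range of `w` and the node `K`

* `strip_range`: `Q_0(p) ≤ own` and the strip function bound `w = ‖a 0 - q‖²` from above;
* `load_res`: a load `(L, m; M)` together with an arbitrary residual `b(p) - M` (both signs),
  bounded by Cauchy-Schwarz: `L + (m - 1) w - 2 H ‖a 0 - q‖ ≤ Q_0(p)`.
-/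

namespace Helper93.MEI

open Set Metric Helper80.CW Helper14.CW Pool.Agent.Helper52.MEI
open scoped RealInnerProductSpace

/-- Cauchy-Schwarz for the dual pair of quadratic forms `2 Σ y² - (Σ y)²/2` and
`(Σ ν² + (Σ ν)²)/2` -/
theorem cs_dual (y1 y2 y3 n1 n2 n3 : ℝ) :
    (n1 * y1 + n2 * y2 + n3 * y3) ^ 2 ≤
      (1 / 2 * (n1 ^ 2 + n2 ^ 2 + n3 ^ 2) + 1 / 2 * (n1 + n2 + n3) ^ 2) *
        (2 * (y1 ^ 2 + y2 ^ 2 + y3 ^ 2) - 1 / 2 * (y1 + y2 + y3) ^ 2) := by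
  obtain ⟨s, hs⟩ : ∃ s, s = n1 * y1 + n2 * y2 + n3 * y3 := ⟨_, rfl⟩
  obtain ⟨N, hN⟩ : ∃ N, N = 1 / 2 * (n1 ^ 2 + n2 ^ 2 + n3 ^ 2) + 1 / 2 * (n1 + n2 + n3) ^ 2 :=
    ⟨_, rfl⟩
  obtain ⟨D, hD⟩ : ∃ D, D = 2 * (y1 ^ 2 + y2 ^ 2 + y3 ^ 2) - 1 / 2 * (y1 + y2 + y3) ^ 2 :=
    ⟨_, rfl⟩
  rw [← hs, ← hN, ← hD]
  have hN0 : 0 ≤ N := by rw [hN]; positivity
  have key : 0 ≤ N * (N * D - s ^ 2) := by
    obtain ⟨T, hT⟩ : ∃ T, T = n1 + n2 + n3 := ⟨_, rfl⟩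
    have e : N * (N * D - s ^ 2) =
        2 * ((N * y1 - s * (1 / 2 * n1 + 1 / 2 * T)) ^ 2 +
          (N * y2 - s * (1 / 2 * n2 + 1 / 2 * T)) ^ 2 +
          (N * y3 - s * (1 / 2 * n3 + 1 / 2 * T)) ^ 2) -
        1 / 2 * ((N * y1 - s * (1 / 2 * n1 + 1 / 2 * T)) +
          (N * y2 - s * (1 / 2 * n2 + 1 / 2 * T)) +
          (N * y3 - s * (1 / 2 * n3 + 1 / 2 * T))) ^ 2 := by
      rw [hD, hs, hN, hT]; ring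
    rw [e]
    nlinarith [sq_nonneg ((N * y1 - s * (1 / 2 * n1 + 1 / 2 * T)) -
        (N * y2 - s * (1 / 2 * n2 + 1 / 2 * T))),
      sq_nonneg ((N * y1 - s * (1 / 2 * n1 + 1 / 2 * T)) -
        (N * y3 - s * (1 / 2 * n3 + 1 / 2 * T))),
      sq_nonneg ((N * y2 - s * (1 / 2 * n2 + 1 / 2 * T)) -
        (N * y3 - s * (1 / 2 * n3 + 1 / 2 * T))),
      sq_nonneg (N * y1 - s * (1 / 2 * n1 + 1 / 2 * T)),
      sq_nonneg (N * y2 - s * (1 / 2 * n2 + 1 / 2 * T)),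
      sq_nonneg (N * y3 - s * (1 / 2 * n3 + 1 / 2 * T))]
  rcases hN0.lt_or_eq with hpos | hz
  · have h2 : 0 ≤ N * D - s ^ 2 := by
      by_contra hcon
      push Not at hcon
      have := mul_neg_of_pos_of_neg hpos hcon
      linarith
    linarith
  · have hz1 : n1 ^ 2 + n2 ^ 2 + n3 ^ 2 ≤ 0 := by
      rw [← hz] at hN
      nlinarith [sq_nonneg (n1 + n2 + n3)]
    have q1 : n1 = 0 := by nlinarith [sq_nonneg n1, sq_nonneg n2, sq_nonneg n3]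
    have q2 : n2 = 0 := by nlinarith [sq_nonneg n1, sq_nonneg n2, sq_nonneg n3]
    have q3 : n3 = 0 := by nlinarith [sq_nonneg n1, sq_nonneg n2, sq_nonneg n3]
    rw [hs, q1, q2, q3, ← hz]
    simp

section gram
variable {a : Fin 4 → E3} (h : Gram4 (al a))
include h

/-- **the range of `w`** (helper88): the same strip function, with `Q_0(p) ≤ own` -/
theorem strip_range {p q : E3} {own μ X l S1 S2 S3 : ℝ} (hμ : 0 ≤ μ)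
    (hq : Pl a q) (hpq : ‖p - q‖ = 1) (h1 : μ ≤ bar a 1 p) (h2 : μ ≤ bar a 2 p)
    (h3 : μ ≤ bar a 3 p) (v1 : Qv a 1 q ≤ S1) (v2 : Qv a 2 q ≤ S2) (v3 : Qv a 3 q ≤ S3)
    (hown : Qv a 0 p ≤ own) (hl : 0 ≤ l)
    (l1 : 3 * gv (‖a 0 - q‖ ^ 2) S1 - gv (‖a 0 - q‖ ^ 2) S2 - gv (‖a 0 - q‖ ^ 2) S3 ≤ l)
    (l2 : 3 * gv (‖a 0 - q‖ ^ 2) S2 - gv (‖a 0 - q‖ ^ 2) S1 - gv (‖a 0 - q‖ ^ 2) S3 ≤ l)
    (l3 : 3 * gv (‖a 0 - q‖ ^ 2) S3 - gv (‖a 0 - q‖ ^ 2) S1 - gv (‖a 0 - q‖ ^ 2) S2 ≤ l)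
    (hX : 3 / 2 * X ^ 2 + l * X + (3 / 2 * (gv (‖a 0 - q‖ ^ 2) S1 ^ 2 +
      gv (‖a 0 - q‖ ^ 2) S2 ^ 2 + gv (‖a 0 - q‖ ^ 2) S3 ^ 2) -
      gv (‖a 0 - q‖ ^ 2) S1 * gv (‖a 0 - q‖ ^ 2) S2 -
      gv (‖a 0 - q‖ ^ 2) S1 * gv (‖a 0 - q‖ ^ 2) S3 -
      gv (‖a 0 - q‖ ^ 2) S2 * gv (‖a 0 - q‖ ^ 2) S3) ≤ ‖a 0 - q‖ ^ 2) :
    2 * (bar a 1 p * gv (‖a 0 - q‖ ^ 2) S1 + bar a 2 p * gv (‖a 0 - q‖ ^ 2) S2 +
      bar a 3 p * gv (‖a 0 - q‖ ^ 2) S3 + μ * X) ≤ ‖a 0 - q‖ ^ 2 + own := by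
  have := strip_exact h (A := 1) (κ := 0) (μ := μ) zero_le_one hμ hq hpq h1 h2 h3 v1 v2 v3 hl
    l1 l2 l3 hX
  linarith

/-- **load with a residual of any sign** (node `K`, distance to a plane `a_0 P_j P_k`). -/
theorem load_res {p q : E3} {L m H : ℝ} {M : Fin 3 → ℝ} (hpq : ‖p - q‖ = 1)
    (hL : Load a q L m M) (hH : 0 ≤ H)
    (hν : 1 / 2 * ((bar a 1 p - M 0) ^ 2 + (bar a 2 p - M 1) ^ 2 + (bar a 3 p - M 2) ^ 2) +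
      1 / 2 * ((bar a 1 p - M 0) + (bar a 2 p - M 1) + (bar a 3 p - M 2)) ^ 2 ≤ H ^ 2) :
    L + (m - 1) * ‖a 0 - q‖ ^ 2 - 2 * H * ‖a 0 - q‖ ≤ Qv a 0 p := by
  have e0 := face_id h p q
  rw [hpq] at e0
  have hd := norm_d_sq h q
  have hQ : Qv a 0 p = 2 * (bar a 1 p * yv a 0 1 q + bar a 2 p * yv a 0 2 q +
    bar a 3 p * yv a 0 3 q) - ‖a 0 - q‖ ^ 2 := by linarith
  have hcs := cs_dual (yv a 0 1 q) (yv a 0 2 q) (yv a 0 3 q) (bar a 1 p - M 0)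
    (bar a 2 p - M 1) (bar a 3 p - M 2)
  rw [← hd] at hcs
  have h2 : ((bar a 1 p - M 0) * yv a 0 1 q + (bar a 2 p - M 1) * yv a 0 2 q +
      (bar a 3 p - M 2) * yv a 0 3 q) ^ 2 ≤ (H * ‖a 0 - q‖) ^ 2 := by
    refine hcs.trans ?_
    rw [mul_pow]
    exact mul_le_mul_of_nonneg_right hν (by positivity)
  have h3 := abs_le_of_sq_le_sq' h2 (by positivity)
  unfold Load at hL
  rw [hQ]
  linarith [h3.1]

/-- density form of `load_res` -/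
theorem load_res_dens {p q : E3} {A κ L m H : ℝ} {M : Fin 3 → ℝ} (hA : 0 ≤ A)
    (hpq : ‖p - q‖ = 1) (hL : Load a q L m M) (hH : 0 ≤ H)
    (hν : 1 / 2 * ((bar a 1 p - M 0) ^ 2 + (bar a 2 p - M 1) ^ 2 + (bar a 3 p - M 2) ^ 2) +
      1 / 2 * ((bar a 1 p - M 0) + (bar a 2 p - M 1) + (bar a 3 p - M 2)) ^ 2 ≤ H ^ 2) :
    A * L - ((κ + A * (1 - m)) * ‖a 0 - q‖ ^ 2 + 2 * A * H * ‖a 0 - q‖) ≤
      A * Qv a 0 p - κ * ‖a 0 - q‖ ^ 2 := by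
  have := mul_le_mul_of_nonneg_left (load_res h hpq hL hH hν) hA
  linarith

end gram

end Helper93.MEI
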