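import Pool.Agent.Helper78.MEI.FaceS

/-!
# Project MEI (M2), faces: cheaper `w`-term

* `xx_wall`, `xx_nc`, `xx_defect`: the loads of the exact filling are limited by the walls, so the
  mass deficit `xe k * ν k` is at most `κ (1 - t_k)` near the corner `k` (`ν k ≤ κ nc N k`);
* `Load.addcaps`, `pt_pp`, `pt_lin`: clipped coordinates keep their mass;
* `ff_conc`: quasi-concavity of `ff` along the concave strip bound;
* `cost7`: the loads for `w ≤ w₁`, the strip function for `w₁ ≤ w ≤ W`.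
-/

namespace Helper93.MEI

open Set Metric Helper80.CW Helper14.CW Helper33.MEI Helper78.MEI Pool.Agent.Helper52.MEI
open Pool.Agent.Helper55.Mass (LN)
open Pool.Agent.Helper55.Apex (nc)
open Pool.Agent.Helper55.Fill (xx xx_nonneg xx_le xx_feas)
open scoped RealInnerProductSpace

/-! ### loads of the filling near the corners -/

section fill
variable {N : Fin 3 → Fin 3 → ℝ} {b : Fin 3 → ℝ} (hN : ∀ k m, 0 ≤ N k m) {c : ℝ} (hc : c < 1)
  (hcol : ∀ m, nc N m ≤ c)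
include hN hc hcol

/-- a wall limits the load: `N k j x_j ≤ b_k` -/
theorem xx_wall (hb : ∀ k, 0 ≤ b k) (k j : Fin 3) : N k j * xx N b j ≤ b k := by
  have h := xx_feas hN hc hcol hb k
  have hx := xx_nonneg hN hc hcol hb
  have h0 := mul_nonneg (hN k 0) (hx 0)
  have h1 := mul_nonneg (hN k 1) (hx 1)
  have h2 := mul_nonneg (hN k 2) (hx 2)
  have hk := hx k
  simp only [LN] at h
  fin_cases j
  · show N k 0 * xx N b 0 ≤ b k
    linarith
  · show N k 1 * xx N b 1 ≤ b k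
    linarith
  · show N k 2 * xx N b 2 ≤ b k
    linarith

/-- both walls: `nc N j x_j ≤ Σ_{k ≠ j} b_k` -/
theorem xx_nc (hd : ∀ k, N k k = 0) (hb : ∀ k, 0 ≤ b k) (j : Fin 3) :
    nc N j * xx N b j ≤ b 0 + b 1 + b 2 - b j := by
  have h0 := xx_feas hN hc hcol hb 0
  have h1 := xx_feas hN hc hcol hb 1
  have h2 := xx_feas hN hc hcol hb 2
  have hx := xx_nonneg hN hc hcol hb
  have d0 := hd 0
  have d1 := hd 1
  have d2 := hd 2
  have x0 := hx 0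
  have x1 := hx 1
  have x2 := hx 2
  have p01 := mul_nonneg (hN 0 1) x1
  have p02 := mul_nonneg (hN 0 2) x2
  have p10 := mul_nonneg (hN 1 0) x0
  have p12 := mul_nonneg (hN 1 2) x2
  have p20 := mul_nonneg (hN 2 0) x0
  have p21 := mul_nonneg (hN 2 1) x1
  simp only [LN] at h0 h1 h2
  rw [d0] at h0
  rw [d1] at h1
  rw [d2] at h2
  fin_cases j
  · show (N 0 0 + N 1 0 + N 2 0) * xx N b 0 ≤ b 0 + b 1 + b 2 - b 0
    rw [d0]
    linarith
  · show (N 0 1 + N 1 1 + N 2 1) * xx N b 1 ≤ b 0 + b 1 + b 2 - b 1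
    rw [d1]
    linarith
  · show (N 0 2 + N 1 2 + N 2 2) * xx N b 2 ≤ b 0 + b 1 + b 2 - b 2
    rw [d2]
    linarith

/-- **mass deficit of one node**: at most `ν b_j` and at most `κ Σ_{k ≠ j} b_k` if
`ν ≤ κ nc N j` (`κ = 1/2` for nonnegative leaks, `2/3` always) -/
theorem xx_defect (hd : ∀ k, N k k = 0) (hb : ∀ k, 0 ≤ b k) (j : Fin 3) {ν κ : ℝ} (hν0 : 0 ≤ ν)
    (hκ : 0 ≤ κ) (hν : ν ≤ κ * nc N j) :
    xx N b j * ν ≤ min (ν * b j) (κ * (b 0 + b 1 + b 2 - b j)) := by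
  have hx := xx_nonneg hN hc hcol hb j
  refine le_min ?_ ?_
  · have := mul_le_mul_of_nonneg_right (xx_le hN hc hcol hb j) hν0
    linarith
  · have k1 := mul_le_mul_of_nonneg_left hν hx
    have k2 := mul_le_mul_of_nonneg_left (xx_nc hN hc hcol hd hb j) hκ
    calc xx N b j * ν ≤ xx N b j * (κ * nc N j) := k1
      _ = κ * (nc N j * xx N b j) := by ring
      _ ≤ _ := k2

/-- the same with the two walls separately -/
theorem xx_defect2 (hb : ∀ k, 0 ≤ b k) (j k : Fin 3) {ν : ℝ} (hν0 : 0 ≤ ν) (hk : 0 < N k j) :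
    xx N b j * ν ≤ ν * (b k / N k j) := by
  have h1 := xx_wall hN hc hcol hb k j
  have h2 : xx N b j ≤ b k / N k j := by
    rw [le_div_iff₀ hk]
    linarith
  have := mul_le_mul_of_nonneg_right h2 hν0
  linarith

end fill

/-! ### clipped coordinates keep their mass -/

section loads
variable {a : Fin 4 → E3}

/-- adding caps to a load, cut at zero -/
theorem load_pp (h : Gram4 (al a)) {q : E3} (hq : Pl a q) {L m : ℝ} {M C V : Fin 3 → ℝ}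
    (hL : Load a q L m M) (hC : ∀ k, 0 ≤ C k) (h1 : Qv a 1 q ≤ V 0) (h2 : Qv a 2 q ≤ V 1)
    (h3 : Qv a 3 q ≤ V 2) :
    Load a q (L + (C 0 * pp (‖a 0 - q‖ ^ 2 - V 0) + C 1 * pp (‖a 0 - q‖ ^ 2 - V 1) +
      C 2 * pp (‖a 0 - q‖ ^ 2 - V 2))) m (fun k => M k + C k) := by
  have g1 := Qv_yv h (k := 1) (by decide) q
  have g2 := Qv_yv h (k := 2) (by decide) q
  have g3 := Qv_yv h (k := 3) (by decide) q
  have y1 := yv_nonneg hq (i := 0) (j := 1) (by decide)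
  have y2 := yv_nonneg hq (i := 0) (j := 2) (by decide)
  have y3 := yv_nonneg hq (i := 0) (j := 3) (by decide)
  have c1 : pp (‖a 0 - q‖ ^ 2 - V 0) ≤ 2 * yv a 0 1 q := max_le (by linarith) (by linarith)
  have c2 : pp (‖a 0 - q‖ ^ 2 - V 1) ≤ 2 * yv a 0 2 q := max_le (by linarith) (by linarith)
  have c3 : pp (‖a 0 - q‖ ^ 2 - V 2) ≤ 2 * yv a 0 3 q := max_le (by linarith) (by linarith)
  have k1 := mul_le_mul_of_nonneg_left c1 (hC 0)
  have k2 := mul_le_mul_of_nonneg_left c2 (hC 1)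
  have k3 := mul_le_mul_of_nonneg_left c3 (hC 2)
  unfold Load at hL ⊢
  beta_reduce
  linarith

/-- adding caps to a load, linear form: mass `m + Σ C`, value `L - Σ C V` -/
theorem load_lin (h : Gram4 (al a)) {q : E3} {L m : ℝ} {M C V : Fin 3 → ℝ}
    (hL : Load a q L m M) (hC : ∀ k, 0 ≤ C k) (h1 : Qv a 1 q ≤ V 0) (h2 : Qv a 2 q ≤ V 1)
    (h3 : Qv a 3 q ≤ V 2) :
    Load a q (L - (C 0 * V 0 + C 1 * V 1 + C 2 * V 2)) (m + (C 0 + C 1 + C 2))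
      (fun k => M k + C k) := by
  have g1 := Qv_yv h (k := 1) (by decide) q
  have g2 := Qv_yv h (k := 2) (by decide) q
  have g3 := Qv_yv h (k := 3) (by decide) q
  have c1 : ‖a 0 - q‖ ^ 2 - V 0 ≤ 2 * yv a 0 1 q := by linarith
  have c2 : ‖a 0 - q‖ ^ 2 - V 1 ≤ 2 * yv a 0 2 q := by linarith
  have c3 : ‖a 0 - q‖ ^ 2 - V 2 ≤ 2 * yv a 0 3 q := by linarith
  have k1 := mul_le_mul_of_nonneg_left c1 (hC 0)
  have k2 := mul_le_mul_of_nonneg_left c2 (hC 1)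
  have k3 := mul_le_mul_of_nonneg_left c3 (hC 2)
  unfold Load at hL ⊢
  beta_reduce
  linarith

/-- a load with exact (signed) coordinates of a point of the body -/
theorem pt_signed (h : Gram4 (al a)) {z q : E3} (hzq : ‖z - q‖ ≤ 1) :
    Load a q (Qv a 0 z) 1 (b3 a z) := by
  have e := face_coupling h hzq
  unfold Load
  rw [one_mul]
  show Qv a 0 z + ‖a 0 - q‖ ^ 2 ≤
    2 * (bar a 1 z * yv a 0 1 q + bar a 2 z * yv a 0 2 q + bar a 3 z * yv a 0 3 q)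
  linarith

/-- **the clipped point keeps its mass** (cut form): columns `M ≥ b3 a z`, the enlargement is
paid by the caps -/
theorem pt_pp (h : Gram4 (al a)) {z q : E3} (hzq : ‖z - q‖ ≤ 1) (hq : Pl a q)
    {M V : Fin 3 → ℝ} (hM : ∀ k, b3 a z k ≤ M k) (h1 : Qv a 1 q ≤ V 0) (h2 : Qv a 2 q ≤ V 1)
    (h3 : Qv a 3 q ≤ V 2) :
    Load a q (Qv a 0 z + ((M 0 - b3 a z 0) * pp (‖a 0 - q‖ ^ 2 - V 0) +
      (M 1 - b3 a z 1) * pp (‖a 0 - q‖ ^ 2 - V 1) +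
      (M 2 - b3 a z 2) * pp (‖a 0 - q‖ ^ 2 - V 2))) 1 M := by
  have k := load_pp h hq (pt_signed h hzq) (C := fun k => M k - b3 a z k)
    (fun k => sub_nonneg.2 (hM k)) h1 h2 h3
  have e : (fun k => b3 a z k + (M k - b3 a z k)) = M := by
    funext k
    ring
  beta_reduce at k
  rw [e] at k
  exact k

/-- **the clipped point keeps its mass** (linear form): for the columns `M ≥ b3 a z` the mass is
`1 + Σ (M - b)` and the value `Q_0(z) - Σ (M - b) V` -/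
theorem pt_lin (h : Gram4 (al a)) {z q : E3} (hzq : ‖z - q‖ ≤ 1)
    {M V : Fin 3 → ℝ} (hM : ∀ k, b3 a z k ≤ M k) (h1 : Qv a 1 q ≤ V 0) (h2 : Qv a 2 q ≤ V 1)
    (h3 : Qv a 3 q ≤ V 2) :
    Load a q (Qv a 0 z - ((M 0 - b3 a z 0) * V 0 + (M 1 - b3 a z 1) * V 1 +
      (M 2 - b3 a z 2) * V 2))
      (1 + ((M 0 - b3 a z 0) + (M 1 - b3 a z 1) + (M 2 - b3 a z 2))) M := by
  have k := load_lin h (pt_signed h hzq) (C := fun k => M k - b3 a z k)
    (fun k => sub_nonneg.2 (hM k)) h1 h2 h3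
  have e : (fun k => b3 a z k + (M k - b3 a z k)) = M := by
    funext k
    ring
  beta_reduce at k
  rw [e] at k
  exact k

end loads

/-! ### switch between the loads and the strip function -/

/-- `ff` is quasi-concave along every curve above its chord -/
theorem ff_conc {A C w1 w W X1 X X2 : ℝ} (hA : 0 ≤ A) (h1 : w1 ≤ w) (h2 : w ≤ W) (h3 : W < 2)
    (hX : (W - w) * X1 + (w - w1) * X2 ≤ (W - w1) * X) (hX1 : w = w1 → X1 ≤ X)
    (k1 : C ≤ ff A X1 w1) (k2 : C ≤ ff A X2 W) : C ≤ ff A X w := by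
  rcases eq_or_lt_of_le h1 with e | hlt
  · rw [← e]
    exact k1.trans (ff_mono hA (by linarith) (hX1 e.symm))
  · have hl : 0 < W - w1 := by linarith
    have hne : W - w1 ≠ 0 := hl.ne'
    -- the chord `g - c w`
    set c : ℝ := (X1 - X2) / (W - w1) with hc
    have hcm : c * (W - w1) = X1 - X2 := by rw [hc, div_mul_cancel₀ _ hne]
    set g : ℝ := X1 + c * w1 with hg
    have e1 : g - c * w1 = X1 := by rw [hg]; ring
    have e2 : g - c * W = X2 := by rw [hg]; linear_combination (-1) * hcm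
    have k := ff_line (A := A) (g := g) (c := c) (C := C) h1 h2 h3 (by rw [e1]; exact k1)
      (by rw [e2]; exact k2)
    refine k.trans (ff_mono hA (by linarith) ?_)
    have e3 : (W - w1) * (g - c * w) = (W - w) * X1 + (w - w1) * X2 := by
      rw [hg]
      linear_combination (w1 - w) * hcm
    exact le_of_mul_le_mul_left (e3.le.trans hX) hl

/-- the strip bound `X₂(w) = (-C + (1 - m) w + 2 μ (c₀ - c₁ w) √w)/m` of `Yt/m - w` -/
noncomputable def Xst (m C μ c0 c1 w : ℝ) : ℝ :=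
  (-C + (1 - m) * w + 2 * μ * ((c0 - c1 * w) * √w)) / m

theorem Xst_chord {m C μ c0 c1 w1 w W : ℝ} (hm : 0 < m) (hμ : 0 ≤ μ) (h0 : 0 ≤ w1)
    (h1 : w1 ≤ w) (h2 : w ≤ W) (hc0 : 0 ≤ c0) (hc1 : 0 ≤ c1) :
    (W - w) * Xst m C μ c0 c1 w1 + (w - w1) * Xst m C μ c0 c1 W ≤
      (W - w1) * Xst m C μ c0 c1 w := by
  have k := cw_chord h0 h1 h2 hc0 hc1
  have k2 := mul_le_mul_of_nonneg_left k (by linarith : 0 ≤ 2 * μ)
  unfold Xst
  rw [← mul_div_assoc, ← mul_div_assoc, ← mul_div_assoc, ← add_div]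
  apply div_le_div_of_nonneg_right _ hm.le
  nlinarith

/-- **pointwise step of rule R7**: `g - c w` for `w ≤ w₁`, the strip bound for `w₁ ≤ w ≤ W` -/
theorem ff_switch {A g c m C μ c0 c1 w w1 W X B : ℝ} (hA : 0 ≤ A) (hm : 0 < m) (hμ : 0 ≤ μ)
    (hc0 : 0 ≤ c0) (hc1 : 0 ≤ c1) (hw0 : 0 ≤ w) (hw1 : 0 ≤ w1) (hwW : w ≤ W) (hW : W < 2)
    (hw1W : w1 ≤ W) (x1 : g - c * w ≤ X) (x2 : Xst m C μ c0 c1 w ≤ X)
    (b0 : B ≤ ff A (g - c * w1) w1) (b1 : B ≤ A * g) (b2 : B ≤ ff A (Xst m C μ c0 c1 w1) w1)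
    (b3 : B ≤ ff A (Xst m C μ c0 c1 W) W) : B ≤ ff A X w := by
  rcases le_total w w1 with h | h
  · have k := ff_line (A := A) (g := g) (c := c) (C := B) hw0 h (by linarith : w1 < 2)
      (by rw [mul_zero, sub_zero, ff_zero]; exact b1) b0
    exact k.trans (ff_mono hA (by linarith) x1)
  · have k := ff_conc (A := A) (C := B) hA h hwW hW
      (Xst_chord (C := C) (c0 := c0) (c1 := c1) hm hμ hw1 h hwW hc0 hc1)
      (fun e => by rw [e]) b2 b3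
    exact k.trans (ff_mono hA (by linarith) x2)

/-- the cost of rule R7: `w₁` = any number after the crossing of the two bounds, `W` = end of the
range, `own` = own bound -/
noncomputable def cost7 (A g c own w1 W : ℝ) : ℝ :=
  max (cost A g c w1) (A * (g - own) + 0.127 * W / (1 - W / 2))

theorem cost7_nonneg {A g c own w1 W : ℝ} (hA : 0 ≤ A) (h0 : 0 ≤ w1) (h1 : w1 < 2) :
    0 ≤ cost7 A g c own w1 W := (cost_nonneg hA h0 h1).trans (le_max_left _ _)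

/-- **rule R7, pointwise** -/
theorem r7_point {A g c m C μ c0 c1 own w w1 W X : ℝ} (hA : 0 ≤ A) (hm : 0 < m) (hμ : 0 ≤ μ)
    (hc0 : 0 ≤ c0) (hc1 : 0 ≤ c1) (hw0 : 0 ≤ w) (hw1 : 0 ≤ w1) (hwW : w ≤ W) (hW : W < 2)
    (hw1W : w1 ≤ W) (hown : 0 ≤ own) (x1 : g - c * w ≤ X) (x2 : Xst m C μ c0 c1 w ≤ X)
    (cross : g - c * w1 ≤ Xst m C μ c0 c1 w1) (ends : own ≤ Xst m C μ c0 c1 W) :
    A * g - cost7 A g c own w1 W ≤ ff A X w := by
  have hw12 : w1 < 2 := by linarith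
  have k0 : A * g - cost A g c w1 ≤ ff A (g - c * w1) w1 := by
    have := ff_ge (A := A) (g := g) (c := c) hA hw1 le_rfl hw12
    unfold cost
    linarith
  have l0 : cost A g c w1 ≤ cost7 A g c own w1 W := le_max_left _ _
  have l1 : A * (g - own) + 0.127 * W / (1 - W / 2) ≤ cost7 A g c own w1 W := le_max_right _ _
  have n0 := cost_nonneg (g := g) (c := c) hA hw1 hw12
  refine ff_switch hA hm hμ hc0 hc1 hw0 hw1 hwW hW hw1W x1 x2 ?_ ?_ ?_ ?_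
  · linarith
  · linarith
  · exact le_trans (by linarith) (k0.trans (ff_mono hA hw12 cross))
  · have hX0 : 0 ≤ Xst m C μ c0 c1 W := hown.trans ends
    have hW0 : 0 ≤ W := hw0.trans hwW
    rw [ff_of_nonneg hA hX0 hW0 hW]
    have := mul_le_mul_of_nonneg_left ends hA
    linarith

/-- the strip bound for a point of the body -/
theorem Xst_le {a : Fin 4 → E3} (h : Gram4 (al a)) {S c0 c1 μ : ℝ} (hC : IsC S c0 c1) {q : E3}
    {t : ℝ × ℝ} (hq : Pl a q) (hw : ‖a 0 - q‖ ^ 2 ≤ 19 / 16) {V : Fin 3 → ℝ}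
    (hV0 : ∀ k, 0 ≤ V k) (hV : ∀ k, V k ≤ S) (hμ : 0 ≤ μ) (hM : ∀ k, μ ≤ T3 t k)
    (h1 : Qv a 1 q ≤ V 0) (h2 : Qv a 2 q ≤ V 1) (h3 : Qv a 3 q ≤ V 2) :
    Xst (√(mt t)) (T3 t 0 * V 0 + T3 t 1 * V 1 + T3 t 2 * V 2) μ c0 c1 (‖a 0 - q‖ ^ 2) ≤
      Yt a t q / √(mt t) - ‖a 0 - q‖ ^ 2 := by
  have hm : 0 < √(mt t) := Real.sqrt_pos.2 mt_pos
  have k := Yt_cw h hC hq hw hV0 hV hμ hM h1 h2 h3
  have hT : T3 t 0 + T3 t 1 + T3 t 2 = 1 := by
    show t.1 + t.2 + (1 - t.1 - t.2) = 1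
    ring
  have r1 := mul_le_mul_of_nonneg_left (le_pp (‖a 0 - q‖ ^ 2 - V 0)) (hμ.trans (hM 0))
  have r2 := mul_le_mul_of_nonneg_left (le_pp (‖a 0 - q‖ ^ 2 - V 1)) (hμ.trans (hM 1))
  have r3 := mul_le_mul_of_nonneg_left (le_pp (‖a 0 - q‖ ^ 2 - V 2)) (hμ.trans (hM 2))
  have e2 : (T3 t 0 + T3 t 1 + T3 t 2) * ‖a 0 - q‖ ^ 2 = ‖a 0 - q‖ ^ 2 := by rw [hT, one_mul]
  have e3 : Yt a t q / √(mt t) - ‖a 0 - q‖ ^ 2 =
      (Yt a t q - √(mt t) * ‖a 0 - q‖ ^ 2) / √(mt t) := by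
    field_simp
  rw [e3]
  unfold Xst
  apply div_le_div_of_nonneg_right _ hm.le
  nlinarith

/-- **rule R7 for the face certificate**: hypothesis of `face_cert` for `ω t ≥ cost7` -/
theorem r7_face {a : Fin 4 → E3} (h : Gram4 (al a)) {A S c0 c1 μ G D own w1 W : ℝ}
    (hA : 0 ≤ A) (hC : IsC S c0 c1) (hc0 : 0 ≤ c0) (hc1 : 0 ≤ c1) {q : E3} {t : ℝ × ℝ}
    (ht : t ∈ Dl) (hq : Pl a q) (hw : ‖a 0 - q‖ ^ 2 ≤ 19 / 16) {V : Fin 3 → ℝ}
    (hV0 : ∀ k, 0 ≤ V k) (hV : ∀ k, V k ≤ S) (hμ : 0 < μ) (hM : ∀ k, μ ≤ T3 t k)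
    (h1 : Qv a 1 q ≤ V 0) (h2 : Qv a 2 q ≤ V 1) (h3 : Qv a 3 q ≤ V 2)
    (hown : 0 ≤ own) (hX : Yt a t q / √(mt t) - ‖a 0 - q‖ ^ 2 ≤ own)
    (hG : G + (1 - D) * ‖a 0 - q‖ ^ 2 ≤ Yt a t q)
    (hw1 : 0 ≤ w1) (hw1W : w1 ≤ W) (hW2 : W < 2) (hcW : c1 * (19 / 16 + 1.0898 * √W + W) < c0)
    (cross : G / √(mt t) - (1 - (1 - D) / √(mt t)) * w1 ≤
      Xst (√(mt t)) (T3 t 0 * V 0 + T3 t 1 * V 1 + T3 t 2 * V 2) μ c0 c1 w1)
    (ends : own ≤ Xst (√(mt t)) (T3 t 0 * V 0 + T3 t 1 * V 1 + T3 t 2 * V 2) μ c0 c1 W) :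
    A * (G / √(mt t)) - cost7 A (G / √(mt t)) (1 - (1 - D) / √(mt t)) own w1 W ≤
      ff A (Yt a t q / √(mt t) - ‖a 0 - q‖ ^ 2) (‖a 0 - q‖ ^ 2) := by
  have hm : 0 < √(mt t) := Real.sqrt_pos.2 mt_pos
  have hm1 : √(mt t) ≤ 1 := by
    apply Real.sqrt_le_iff.2
    refine ⟨zero_le_one, ?_⟩
    obtain ⟨t1, t2, t3⟩ := ht
    have q1 := mul_pos t1 t2
    have q2 := mul_pos t1 (show 0 < 1 - t.1 - t.2 by linarith)
    have q3 := mul_pos t2 (show 0 < 1 - t.1 - t.2 by linarith)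
    unfold Helper33.MEI.mt
    linarith
  have hr := range_cw h hC hq hw hV0 hV hμ.le hM h1 h2 h3 hX
  have hW0 : 0 ≤ W := hw1.trans hw1W
  have hends : √(mt t) * own + (T3 t 0 * V 0 + T3 t 1 * V 1 + T3 t 2 * V 2) ≤
      (1 - √(mt t)) * W + 2 * μ * ((c0 - c1 * W) * √W) := by
    unfold Xst at ends
    rw [le_div_iff₀ hm] at ends
    linarith
  have hwW := le_W (sub_nonneg.2 hm1) hμ hc1 (sq_nonneg _) hw hW0 hcW hr hends
  have x2 := Xst_le h hC hq hw hV0 hV hμ.le hM h1 h2 h3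
  have x1 : G / √(mt t) - (1 - (1 - D) / √(mt t)) * ‖a 0 - q‖ ^ 2 ≤
      Yt a t q / √(mt t) - ‖a 0 - q‖ ^ 2 := by
    have e : G / √(mt t) - (1 - (1 - D) / √(mt t)) * ‖a 0 - q‖ ^ 2 =
        (G + (1 - D) * ‖a 0 - q‖ ^ 2) / √(mt t) - ‖a 0 - q‖ ^ 2 := by
      rw [add_div]
      ring
    rw [e]
    have := div_le_div_of_nonneg_right hG hm.le
    linarith
  exact r7_point hA hm hμ.le hc0 hc1 (sq_nonneg _) hw1 hwW hW2 hw1W hown x1 x2 cross ends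

end Helper93.MEI
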