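import Pool.Agent.Helper93.MEI.Reduce

/-!
# Quantitative reduction to smooth bodies (row RED)
-/

namespace Helper93.MEI

open Set Metric MeasureTheory Helper80.CW Helper82.CW Helper14.CW Filter
open scoped ContDiff Topology RealInnerProductSpace Real Pointwise

/-- approximation of a body of width 1 by smooth bodies of width 1 -/
theorem approx {K : Set E3} (hK : IsCompact K) (hc : Convex ℝ K) (hw : Width1 K) :
    ∃ x0 ∈ K, ∃ f : ℕ → E3 → ℝ, ∃ l : ℕ → ℝ, ∃ v : ℕ → ENNReal,
      (∀ n, SSup (f n) 1) ∧ (∀ n x, x ≠ 0 → 0 < f n x) ∧ Tendsto l atTop (𝓝 1) ∧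
      (∀ n q, q + x0 ∈ K → l n • q ∈ Bd (f n)) ∧ (∀ n, volume (Bd (f n)) ≤ v n) ∧
      Tendsto v atTop (𝓝 (volume K)) := by
  obtain ⟨x0, hx0i⟩ := interior_nonempty hK hc hw
  have hx0 : x0 ∈ K := interior_subset hx0i
  obtain ⟨ρ, hρ, hball⟩ := Metric.isOpen_iff.1 isOpen_interior x0 hx0i
  have hballK : ball x0 ρ ⊆ K := hball.trans interior_subset
  have hsub : K ⊆ closedBall x0 1 := by
    intro y hy
    rw [mem_closedBall]
    exact diam_le hK hw y hy x0 hx0
  have hR := H0_supp_ball hK hw le_rfl hsub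
  have hlowH : ∀ x, ρ / 2 * ‖x‖ ≤ H0 K x0 x := by
    intro x
    by_cases hx : x = 0
    · subst hx
      rw [hR.zero]
      simp
    · have hn : 0 < ‖x‖ := norm_pos_iff.2 hx
      have h1 : x0 + (ρ / 2 / ‖x‖) • x ∈ K := by
        apply hballK
        rw [mem_ball, dist_eq_norm, add_sub_cancel_left, norm_smul,
          Real.norm_of_nonneg (by positivity), div_mul_cancel₀ _ hn.ne']
        linarith
      have h2 := supp_ge hK hw.nonempty x h1
      rw [inner_add_left, real_inner_smul_left, real_inner_self_eq_norm_mul_norm] at h2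
      have h3 : ρ / 2 / ‖x‖ * (‖x‖ * ‖x‖) = ρ / 2 * ‖x‖ := by
        field_simp
      rw [h3] at h2
      unfold H0
      linarith
  set K0 : Set E3 := (fun y => y + x0) ⁻¹' K with hK0
  have hK0c : IsCompact K0 := by
    have : K0 = (fun y => y - x0) '' K := by
      ext y
      constructor
      · intro hy
        exact ⟨y + x0, hy, by simp⟩
      · rintro ⟨z, hz, rfl⟩
        simpa [hK0] using hz
    rw [this]
    exact hK.image (by fun_prop)
  have hvol : volume K0 = volume K := measure_preimage_add_right volume x0 K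
  set e0 : ℝ := min (1 / 2) (ρ / 4) with he0
  have he0p : 0 < e0 := by
    rw [he0]
    positivity
  have he1 : e0 ≤ 1 / 2 := min_le_left _ _
  have he2 : e0 ≤ ρ / 4 := min_le_right _ _
  set ε : ℕ → ℝ := fun n => e0 * (1 / ((n : ℝ) + 1)) with hε
  have hεp : ∀ n, 0 < ε n := fun n => by
    rw [hε]
    positivity
  have hεle : ∀ n, ε n ≤ e0 := by
    intro n
    have h1 : 1 / ((n : ℝ) + 1) ≤ 1 := by
      rw [div_le_one (by positivity)]
      have : (0 : ℝ) ≤ n := Nat.cast_nonneg n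
      linarith
    calc e0 * (1 / ((n : ℝ) + 1)) ≤ e0 * 1 := mul_le_mul_of_nonneg_left h1 he0p.le
      _ = e0 := mul_one _
  have hεt0 : Tendsto ε atTop (𝓝 0) := by
    have := (tendsto_one_div_add_atTop_nhds_zero_nat (𝕜 := ℝ)).const_mul e0
    rw [mul_zero] at this
    exact this
  have hεt : Tendsto ε atTop (𝓝[>] 0) := by
    rw [tendsto_nhdsWithin_iff]
    exact ⟨hεt0, Eventually.of_forall fun n => hεp n⟩
  have hS : ∀ n, SSup (Ht (H0 K x0) (ε n)) (cw (ε n)) := fun n =>
    Ht_SSup hR (hεp n) (by linarith [hεle n])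
  have hcp : ∀ n, 0 < cw (ε n) := fun n => (hS n).cpos
  have hcwt : Tendsto (fun n => cw (ε n)) atTop (𝓝 1) := cw_tendsto.comp hεt
  have hHt : ∀ n x, (ρ / 2 - ε n) * ‖x‖ ≤ Ht (H0 K x0) (ε n) x := by
    intro n x
    have h1 := Ht_ge hR (hεp n) x
    have h2 := hlowH x
    nlinarith
  have hρε : ∀ n, 0 < ρ / 2 - ε n := fun n => by
    have := hεle n
    linarith
  set m : ℕ → ℝ := fun n => (1 + ε n / (ρ / 2 - ε n))⁻¹ with hm
  have hmp : ∀ n, 0 < 1 + ε n / (ρ / 2 - ε n) := fun n => by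
    have := div_pos (hεp n) (hρε n)
    linarith
  have hmt : Tendsto m atTop (𝓝 1) := by
    have h1 : Tendsto (fun n => ε n / (ρ / 2 - ε n)) atTop (𝓝 (0 / (ρ / 2 - 0))) :=
      hεt0.div (tendsto_const_nhds.sub hεt0) (by
        have : ρ / 2 - 0 > 0 := by linarith
        exact this.ne')
    have h2 : Tendsto (fun n => 1 + ε n / (ρ / 2 - ε n)) atTop (𝓝 1) := by
      have := h1.const_add 1
      simpa using this
    have h3 := h2.inv₀ one_ne_zero
    simpa using h3
  refine ⟨x0, hx0, fun n x => (cw (ε n))⁻¹ * Ht (H0 K x0) (ε n) x,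
    fun n => (cw (ε n))⁻¹ * m n,
    fun n => ENNReal.ofReal ((cw (ε n))⁻¹ ^ 3) * volume (cthickening (1 * ε n) K0),
    ?_, ?_, ?_, ?_, ?_, ?_⟩
  · intro n
    have h1 := SSup.scale (hS n) (inv_pos.2 (hcp n))
    rw [inv_mul_cancel₀ (hcp n).ne'] at h1
    exact h1
  · intro n x hx
    have hn : 0 < ‖x‖ := norm_pos_iff.2 hx
    have h1 := hHt n x
    have h2 := mul_pos (hρε n) hn
    exact mul_pos (inv_pos.2 (hcp n)) (by linarith)
  · have h1 := (hcwt.inv₀ one_ne_zero).mul hmt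
    simpa using h1
  · intro n q hq z
    simp only
    rw [real_inner_smul_left, mul_assoc]
    apply mul_le_mul_of_nonneg_left _ (inv_pos.2 (hcp n)).le
    rw [hm]
    simp only
    rw [inv_mul_le_iff₀ (hmp n)]
    have h1 : ⟪q, z⟫ ≤ H0 K x0 z := by
      have := supp_ge hK hw.nonempty z hq
      unfold H0
      rw [inner_add_left] at this
      linarith
    have h2 := Ht_ge hR (hεp n) z
    have h3 := hHt n z
    have h4 : ε n * ‖z‖ ≤ ε n / (ρ / 2 - ε n) * Ht (H0 K x0) (ε n) z := by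
      rw [div_mul_eq_mul_div, le_div_iff₀ (hρε n)]
      nlinarith [hεp n]
    nlinarith
  · intro n
    have h2 := body_sub' hK hc hw (f := Ht (H0 K x0) (ε n)) (δ := 1 * ε n) (Ht_le hR (hεp n))
      (by linarith [hεp n])
    have h3 : volume (Bd (fun x => (cw (ε n))⁻¹ * Ht (H0 K x0) (ε n) x)) =
        ENNReal.ofReal ((cw (ε n))⁻¹ ^ 3) * volume (Bd (Ht (H0 K x0) (ε n))) := by
      rw [Bd_scale _ (inv_pos.2 (hcp n)), Measure.addHaar_smul, finrank_E3,
        abs_of_pos (pow_pos (inv_pos.2 (hcp n)) 3)]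
    simp only
    rw [h3]
    exact mul_le_mul_right (measure_mono h2) _
  · have hlim1 : Tendsto (fun n => volume (cthickening (1 * ε n) K0)) atTop (𝓝 (volume K0)) := by
      have h1 := tendsto_measure_cthickening_of_isCompact (μ := (volume : Measure E3)) hK0c
      have h2 : Tendsto (fun n => 1 * ε n) atTop (𝓝 0) := by
        simpa using hεt0
      exact h1.comp h2
    have hlim2 : Tendsto (fun n => ENNReal.ofReal ((cw (ε n))⁻¹ ^ 3)) atTop (𝓝 1) := by
      have h2 := ENNReal.tendsto_ofReal ((hcwt.inv₀ one_ne_zero).pow 3)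
      simpa using h2
    have h3 := ENNReal.Tendsto.mul hlim2 (Or.inl one_ne_zero) hlim1
      (Or.inr ENNReal.one_ne_top)
    rw [one_mul, hvol] at h3
    exact h3

/-- **Row RED**: quantitative reduction to smooth bodies. -/
theorem reduce_s {V c : ℝ} (hc0 : 0 < c)
    (h : ∀ f : E3 → ℝ, SSup f 1 → (∀ x, x ≠ 0 → 0 < f x) →
      ∃ a : Fin 4 → E3, (∀ i j, i ≠ j → dist (a i) (a j) = 1) ∧
        ∀ i, ∀ q ∈ Bd f, ENNReal.ofReal (V + c * (dist q (a i) ^ 2 - 1)) ≤ volume (Bd f))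
    {K : Set E3} (hK : IsCompact K) (hc : Convex ℝ K) (hw : Width1 K) :
    ∃ a : Fin 4 → E3, (∀ i j, i ≠ j → dist (a i) (a j) = 1) ∧
      ∀ i, ∀ q ∈ K, ENNReal.ofReal (V + c * (dist q (a i) ^ 2 - 1)) ≤ volume K := by
  obtain ⟨x0, hx0, f, l, v, hS, hpos, hl, hmem, hv, hvt⟩ := approx hK hc hw
  choose a ha hq using fun n => h (f n) (hS n) (hpos n)
  have hKfin : volume K ≠ ⊤ := hK.measure_lt_top.ne
  -- boundedness of the tetrahedra
  have hbd : ∃ n0, ∀ n, n0 ≤ n → ∀ i, ‖a n i‖ ^ 2 ≤ 1 + ((volume K + 1).toReal - V) / c := by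
    have hlt : ∀ᶠ n in atTop, v n < volume K + 1 := by
      apply (tendsto_order.1 hvt).2
      exact ENNReal.lt_add_right hKfin one_ne_zero
    obtain ⟨n0, hn0⟩ := eventually_atTop.1 hlt
    refine ⟨n0, fun n hn i => ?_⟩
    have h0 : (0 : E3) ∈ Bd (f n) := by
      intro z
      rw [inner_zero_left]
      exact (hS n).nonneg z
    have h1 := (hq n i 0 h0).trans ((hv n).trans (hn0 n hn).le)
    have h2 : V + c * (dist (0 : E3) (a n i) ^ 2 - 1) ≤ (volume K + 1).toReal := by
      rw [← ENNReal.ofReal_le_iff_le_toReal (ENNReal.add_ne_top.2 ⟨hKfin, ENNReal.one_ne_top⟩)]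
      exact h1
    rw [dist_zero_left] at h2
    have h3 : c * (‖a n i‖ ^ 2 - 1) ≤ (volume K + 1).toReal - V := by linarith
    rw [← le_div_iff₀' hc0] at h3
    linarith
  obtain ⟨n0, hn0⟩ := hbd
  set B : ℝ := √(1 + ((volume K + 1).toReal - V) / c) with hB
  have hbd2 : ∀ n, (fun n => a (n + n0)) n ∈ closedBall (0 : Fin 4 → E3) B := by
    intro n
    rw [mem_closedBall_zero_iff, pi_norm_le_iff_of_nonneg (Real.sqrt_nonneg _)]
    intro i
    exact Real.le_sqrt_of_sq_le (hn0 (n + n0) (Nat.le_add_left _ _) i)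
  obtain ⟨b, _, φ, hφ, hφt⟩ := (isCompact_closedBall (0 : Fin 4 → E3) B).tendsto_subseq hbd2
  set ψ : ℕ → ℕ := fun n => φ n + n0 with hψ
  have hψt : Tendsto ψ atTop atTop :=
    tendsto_atTop_mono (fun n => Nat.le_add_right (φ n) n0) hφ.tendsto_atTop
  have hat : Tendsto (fun n => a (ψ n)) atTop (𝓝 b) := hφt
  have hai : ∀ i, Tendsto (fun n => a (ψ n) i) atTop (𝓝 (b i)) := fun i =>
    (continuous_apply i).continuousAt.tendsto.comp hat
  refine ⟨fun i => b i + x0, ?_, ?_⟩
  · intro i j hij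
    rw [dist_add_right]
    have h1 : Tendsto (fun n => dist (a (ψ n) i) (a (ψ n) j)) atTop (𝓝 (dist (b i) (b j))) :=
      (hai i).dist (hai j)
    have h2 : (fun n => dist (a (ψ n) i) (a (ψ n) j)) = fun _ => (1 : ℝ) := by
      funext n
      exact ha (ψ n) i j hij
    rw [h2] at h1
    exact (tendsto_nhds_unique h1 tendsto_const_nhds)
  · intro i q hqK
    have hq0 : (q - x0) + x0 ∈ K := by simpa using hqK
    have h1 : ∀ n, ENNReal.ofReal (V + c * (dist (l (ψ n) • (q - x0)) (a (ψ n) i) ^ 2 - 1)) ≤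
        v (ψ n) := fun n => (hq (ψ n) i _ (hmem (ψ n) _ hq0)).trans (hv (ψ n))
    have h2 : Tendsto (fun n => ENNReal.ofReal
        (V + c * (dist (l (ψ n) • (q - x0)) (a (ψ n) i) ^ 2 - 1))) atTop
        (𝓝 (ENNReal.ofReal (V + c * (dist q (b i + x0) ^ 2 - 1)))) := by
      apply ENNReal.tendsto_ofReal
      have h3 : Tendsto (fun n => l (ψ n) • (q - x0)) atTop (𝓝 (q - x0)) := by
        have := (hl.comp hψt).smul_const (q - x0)
        simpa using this
      have h4 := ((((h3.dist (hai i)).pow 2).sub_const 1).const_mul c).const_add V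
      have h5 : dist (q - x0) (b i) = dist q (b i + x0) := by
        rw [dist_eq_norm, dist_eq_norm]
        congr 1
        abel
      rw [h5] at h4
      exact h4
    exact le_of_tendsto_of_tendsto' h2 (hvt.comp hψt) h1

end Helper93.MEI
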