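import Pool.Agent.Helper93.MEI.F2b

/-!
# Project MEI (M2), w-term: the load with clipped nodes on an interval of `w`

`wx V` is below its chord on intervals which do not contain `V` inside; `load_end`: the load
certificate of `inst_F2` by two end values `du, dv` of the deficit.
-/

set_option autoImplicit false

namespace Helper93.MEI

open Set Metric Helper80.CW Helper82.CW Helper14.CW Helper78.MEI Helper82.M2

theorem pp_pos_eq {x : ℝ} (h : 0 ≤ x) : pp x = x := max_eq_left h

theorem pp_neg_eq {x : ℝ} (h : x ≤ 0) : pp x = 0 := max_eq_right h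

theorem wx_small {V w : ℝ} (h : w ≤ V) (hw : 0 ≤ w) : wx V w = w / 2 := by
  unfold wx
  rw [pp_neg_eq (by linarith : w - V ≤ 0), sub_zero, pp_pos_eq (by linarith)]

theorem wx_large {V w : ℝ} (h : V ≤ w) : wx V w = pp (V - w / 2) := by
  unfold wx
  rw [pp_pos_eq (by linarith : 0 ≤ w - V)]
  congr 1
  ring

theorem wx_chord {V u v w : ℝ} (hu : 0 ≤ u) (huw : u ≤ w) (hwv : w ≤ v) (hV : v ≤ V ∨ V ≤ u) :
    (v - u) * wx V w ≤ (v - w) * wx V u + (w - u) * wx V v := by
  rcases hV with h | h
  · rw [wx_small (hwv.trans h) (hu.trans huw), wx_small (huw.trans (hwv.trans h)) hu,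
      wx_small h (hu.trans (huw.trans hwv))]
    nlinarith
  · rw [wx_large (h.trans huw), wx_large h, wx_large (h.trans (huw.trans hwv))]
    have k1 := le_pp (V - u / 2)
    have k2 := le_pp (V - v / 2)
    have k3 := pp_nonneg (V - u / 2)
    have k4 := pp_nonneg (V - v / 2)
    have a1 : 0 ≤ v - w := by linarith
    have a2 : 0 ≤ w - u := by linarith
    rcases le_total (V - w / 2) 0 with h1 | h1
    · rw [pp_neg_eq h1]
      have := mul_nonneg a1 k3
      have := mul_nonneg a2 k4
      linarith
    · rw [pp_pos_eq h1]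
      have := mul_le_mul_of_nonneg_left k1 a1
      have := mul_le_mul_of_nonneg_left k2 a2
      linarith

/-- end values of the load deficit on `[u, v]` -/
theorem load_end {G D P V u v w du dv Y : ℝ} (hP : 0 ≤ P) (hu : 0 ≤ u) (huw : u ≤ w)
    (hwv : w ≤ v) (huv : u < v) (hV : v ≤ V ∨ V ≤ u) (h : G + (1 - D) * w - P * wx V w ≤ Y)
    (hdu : D * u + P * wx V u ≤ du) (hdv : D * v + P * wx V v ≤ dv) :
    G + w - ((v - w) * du + (w - u) * dv) / (v - u) ≤ Y := by
  have d : 0 < v - u := by linarith
  have k1 := wx_chord hu huw hwv hV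
  have k2 := mul_le_mul_of_nonneg_left k1 hP
  have k3 := mul_le_mul_of_nonneg_left hdu (by linarith : 0 ≤ v - w)
  have k4 := mul_le_mul_of_nonneg_left hdv (by linarith : 0 ≤ w - u)
  have k5 : (D * w + P * wx V w) * (v - u) ≤ (v - w) * du + (w - u) * dv := by
    nlinarith
  have k6 : D * w + P * wx V w ≤ ((v - w) * du + (w - u) * dv) / (v - u) := by
    rw [le_div_iff₀ d]
    exact k5
  linarith

end Helper93.MEI
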