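import Pool.Agent.Helper53.MEI.Wall

/-!
# Project MEI (M2), bulk terms of the first moments, I: the section of the lower region

`Sc L`: part of the sector `√2 |Y| < W`, `Y² + W² < L²`, given by a parabola; exact integrals of
affine functions, and iterated integration of sections.
-/

set_option autoImplicit false

namespace Helper93.MEI.Blk

open Set MeasureTheory Filter Topology Metric
open Helper21.Sec Helper53.MEI

/-- the section: `(Y, W)` -/
def Sc (L : ℝ) : Set (ℝ × ℝ) :=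
  regionBetween (fun Y => √2 * |Y|) (fun Y => L - 0.551 * Y ^ 2 / L)
    (Ioo (-(0.577 * L)) (0.577 * L))

theorem Sc_disk {L : ℝ} (hL : 0 < L) {p : ℝ × ℝ} (hp : p ∈ Sc L) :
    0 < p.2 ∧ √2 * |p.1| < p.2 ∧ p.1 ^ 2 + p.2 ^ 2 < L ^ 2 := by
  obtain ⟨Y, W⟩ := p
  unfold Sc regionBetween at hp
  simp only [mem_ofPred_eq, mem_Ioo] at hp
  obtain ⟨⟨h1, h2⟩, h3, h4⟩ := hp
  have h0 : 0 ≤ √2 * |Y| := by positivity
  have hW : 0 < W := lt_of_le_of_lt h0 h3
  refine ⟨hW, h3, ?_⟩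
  have hY2 : Y ^ 2 ≤ 0.333 * L ^ 2 := by
    have : Y ^ 2 ≤ (0.577 * L) ^ 2 := sq_le_sq' h1.le h2.le
    nlinarith [sq_nonneg L]
  have h5 : W * L < L ^ 2 - 0.551 * Y ^ 2 := by
    have h6 := mul_lt_mul_of_pos_right h4 hL
    have h7 : (L - 0.551 * Y ^ 2 / L) * L = L ^ 2 - 0.551 * Y ^ 2 := by
      field_simp
    rwa [h7] at h6
  have h6 : 0 < W * L := mul_pos hW hL
  have h7 : (W * L) ^ 2 < (L ^ 2 - 0.551 * Y ^ 2) ^ 2 := by
    exact pow_lt_pow_left₀ h5 h6.le two_ne_zero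
  have h8 : (L ^ 2 - 0.551 * Y ^ 2) ^ 2 ≤ (L ^ 2 - Y ^ 2) * L ^ 2 := by
    have hy : 0 ≤ Y ^ 2 := sq_nonneg Y
    have : 0 ≤ Y ^ 2 * (0.102 * L ^ 2 - 0.303601 * Y ^ 2) :=
      mul_nonneg hy (by nlinarith [sq_nonneg L])
    nlinarith
  have h9 : W ^ 2 * L ^ 2 < (L ^ 2 - Y ^ 2) * L ^ 2 := by nlinarith
  have h10 : W ^ 2 < L ^ 2 - Y ^ 2 := lt_of_mul_lt_mul_right h9 (sq_nonneg L)
  simp only
  linarith

theorem Sc_bdd {L : ℝ} (hL : 0 < L) : Bornology.IsBounded (Sc L) := by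
  have h : Sc L ⊆ Icc (-L) L ×ˢ Icc 0 L := by
    intro p hp
    obtain ⟨h1, h2, h3⟩ := Sc_disk hL hp
    have a1 : |p.1| ≤ L := abs_le_of_sq_le_sq (by nlinarith [sq_nonneg p.2]) hL.le
    have a2 : p.2 ≤ L := (abs_le.1 (abs_le_of_sq_le_sq (by nlinarith [sq_nonneg p.1]) hL.le)).2
    exact ⟨abs_le.1 a1, h1.le, a2⟩
  exact ((isBounded_Icc _ _).prod (isBounded_Icc _ _)).subset h

/-- constants of the section -/
noncomputable def cA : ℝ := 2 * (0.577 - 0.551 * 0.577 ^ 3 / 3) - √2 * 0.577 ^ 2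

noncomputable def cM : ℝ :=
  √2 / 2 * (0.577 - 2 * 0.551 * 0.577 ^ 3 / 3 + 0.551 ^ 2 * 0.577 ^ 5 / 5 - 2 * 0.577 ^ 3 / 3)

theorem cA_lo : 0.6126 ≤ cA := by
  have : √2 ≤ 1.4142136 := by
    rw [Real.sqrt_le_left (by norm_num)]; norm_num
  unfold cA
  nlinarith

theorem cM_lo : 0.27029 ≤ cM := by
  have : (1.4142135 : ℝ) < √2 := by
    rw [Real.lt_sqrt (by norm_num)]; norm_num
  unfold cM
  nlinarith

/-- **integral of an affine function over the section** -/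
theorem Sc_int {L : ℝ} (hL : 0 < L) (A B ε : ℝ) :
    ∫ p in Sc L, (A + B * (√2 / 2 * p.2 - ε * p.1)) = A * (cA * L ^ 2) + B * (cM * L ^ 3) := by
  have hr : √2 * √2 = (2 : ℝ) := r2
  have hLi : L * L⁻¹ = 1 := mul_inv_cancel₀ hL.ne'
  set i := L⁻¹ with hi
  have hdiv : ∀ Y : ℝ, L - 0.551 * Y ^ 2 / L = L - 0.551 * Y ^ 2 * i := fun Y => by
    rw [hi, div_eq_mul_inv]
  have hf : Continuous fun Y : ℝ => √2 * |Y| := by fun_prop
  have hg : Continuous fun Y : ℝ => L - 0.551 * Y ^ 2 / L := by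
    simp only [hdiv]
    fun_prop
  have hH : Continuous fun p : ℝ × ℝ => A + B * (√2 / 2 * p.2 - ε * p.1) := by fun_prop
  have h1 := (int_reg hf hg measurableSet_Ioo hH (Sc_bdd hL)).2
  have h0 : Sc L = regionBetween (fun Y => √2 * |Y|) (fun Y => L - 0.551 * Y ^ 2 / L)
    (Ioo (-(0.577 * L)) (0.577 * L)) := rfl
  rw [h0, h1]
  set Q : ℝ → ℝ := fun Y => (A - B * ε * Y) * (L - 0.551 * Y ^ 2 * i - √2 * |Y|) +
    B * (√2 / 4) * ((L - 0.551 * Y ^ 2 * i) ^ 2 - 2 * |Y| ^ 2) with hQ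
  have hQc : Continuous Q := by rw [hQ]; fun_prop
  have h2 : ∫ Y in Ioo (-(0.577 * L)) (0.577 * L), ∫ W in Ioo (√2 * |Y|) (L - 0.551 * Y ^ 2 / L),
      (A + B * (√2 / 2 * W - ε * Y)) = ∫ Y in Ioo (-(0.577 * L)) (0.577 * L), Q Y := by
    refine setIntegral_congr_fun measurableSet_Ioo fun Y hY => ?_
    have hY' : |Y| ≤ 0.577 * L := abs_le.2 ⟨hY.1.le, hY.2.le⟩
    have hle : √2 * |Y| ≤ L - 0.551 * Y ^ 2 * i := by
      have s2 : √2 ≤ 1.4143 := by
        rw [Real.sqrt_le_left (by norm_num)]; norm_num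
      have a0 := abs_nonneg Y
      have k1 : √2 * |Y| ≤ 1.4143 * (0.577 * L) :=
        mul_le_mul s2 hY' a0 (by norm_num)
      have k2 : Y ^ 2 * i ≤ 0.333 * L := by
        have k3 : Y ^ 2 ≤ (0.577 * L) ^ 2 := by
          rw [← sq_abs Y]; exact pow_le_pow_left₀ a0 hY' 2
        have hi0 : 0 < i := inv_pos.2 hL
        have k4 := mul_le_mul_of_nonneg_right k3 hi0.le
        have k5 : (0.577 * L) ^ 2 * i = 0.332929 * L * (L * i) := by ring
        rw [k5, hLi] at k4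
        linarith
      linarith
    rw [hdiv]
    have hc : Continuous fun W : ℝ => A + B * (√2 / 2 * W - ε * Y) := by fun_prop
    rw [← integral_Ioc_eq_integral_Ioo, ← intervalIntegral.integral_of_le hle]
    have hd : ∀ W ∈ uIcc (√2 * |Y|) (L - 0.551 * Y ^ 2 * i), HasDerivAt (fun W : ℝ =>
        (A - B * ε * Y) * W + B * (√2 / 4) * W ^ 2) (A + B * (√2 / 2 * W - ε * Y)) W := by
      intro W _
      have k1 := (hasDerivAt_id W).const_mul (A - B * ε * Y)
      have k2 := (hasDerivAt_pow 2 W).const_mul (B * (√2 / 4))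
      refine (k1.add k2).congr_deriv ?_
      push_cast
      ring
    rw [intervalIntegral.integral_eq_sub_of_hasDerivAt hd (hc.intervalIntegrable _ _), hQ]
    simp only
    linear_combination (-(B * (√2 / 4) * |Y| ^ 2)) * hr
  rw [h2, ← integral_Ioc_eq_integral_Ioo, ← intervalIntegral.integral_of_le (by linarith),
    ← intervalIntegral.integral_add_adjacent_intervals (b := (0 : ℝ))
      (hQc.intervalIntegrable _ _) (hQc.intervalIntegrable _ _)]
  have e1 : ∫ x in (-(0.577 * L))..(0 : ℝ), Q x = ∫ x in (0 : ℝ)..(0.577 * L), Q (-x) := by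
    rw [intervalIntegral.integral_comp_neg (f := Q), neg_zero]
  have hQn : Continuous fun x : ℝ => Q (-x) := hQc.comp continuous_neg
  rw [e1, ← intervalIntegral.integral_add
    (hQn.intervalIntegrable _ _) (hQc.intervalIntegrable _ _)]
  have e2 : ∫ x in (0 : ℝ)..(0.577 * L), (Q (-x) + Q x) = ∫ x in (0 : ℝ)..(0.577 * L),
      (2 * A * (L - 0.551 * x ^ 2 * i - √2 * x) +
        B * (√2 / 2) * ((L - 0.551 * x ^ 2 * i) ^ 2 - 2 * x ^ 2)) := by
    refine intervalIntegral.integral_congr fun x hx => ?_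
    rw [uIcc_of_le (by linarith)] at hx
    rw [hQ]
    simp only [abs_neg, abs_of_nonneg hx.1]
    ring
  rw [e2]
  have hd : ∀ x ∈ uIcc (0 : ℝ) (0.577 * L), HasDerivAt (fun x : ℝ =>
      (2 * A * L + B * (√2 / 2) * L ^ 2) * x ^ 1 + (-(√2 * A)) * x ^ 2 +
      (-(2 * A * 0.551 * i / 3) + B * (√2 / 2) * (-(2 * 0.551 * (L * i)) - 2) / 3) * x ^ 3 +
      (B * (√2 / 2) * 0.551 ^ 2 * i ^ 2 / 5) * x ^ 5)
      (2 * A * (L - 0.551 * x ^ 2 * i - √2 * x) +
        B * (√2 / 2) * ((L - 0.551 * x ^ 2 * i) ^ 2 - 2 * x ^ 2)) x := by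
    intro x _
    have k := (((hpow 0 (2 * A * L + B * (√2 / 2) * L ^ 2) x).add (hpow 1 (-(√2 * A)) x)).add
      (hpow 2 (-(2 * A * 0.551 * i / 3) + B * (√2 / 2) * (-(2 * 0.551 * (L * i)) - 2) / 3) x)).add
      (hpow 4 (B * (√2 / 2) * 0.551 ^ 2 * i ^ 2 / 5) x)
    refine k.congr_deriv ?_
    push_cast
    ring
  have hc : Continuous fun x : ℝ => 2 * A * (L - 0.551 * x ^ 2 * i - √2 * x) +
        B * (√2 / 2) * ((L - 0.551 * x ^ 2 * i) ^ 2 - 2 * x ^ 2) := by fun_prop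
  rw [intervalIntegral.integral_eq_sub_of_hasDerivAt hd (hc.intervalIntegrable _ _)]
  unfold cA cM
  rw [hLi]
  have q1 : L ^ 3 * i = L ^ 2 := by
    calc L ^ 3 * i = L ^ 2 * (L * i) := by ring
      _ = L ^ 2 := by rw [hLi, mul_one]
  have q2 : L ^ 5 * i ^ 2 = L ^ 3 := by
    calc L ^ 5 * i ^ 2 = L ^ 3 * (L * i) * (L * i) := by ring
      _ = L ^ 3 := by rw [hLi, mul_one, mul_one]
  linear_combination (-(2 * A * 0.551 / 3) * 0.577 ^ 3) * q1 +
    (B * (√2 / 2) * 0.551 ^ 2 / 5 * 0.577 ^ 5) * q2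

/-! ### sections over an interval -/

/-- **lower bound of an integral by its sections** -/
theorem int_lo3 {R : Set (ℝ × (ℝ × ℝ))} (hR : MeasurableSet R) (hRb : Bornology.IsBounded R)
    {H : ℝ × (ℝ × ℝ) → ℝ} (hH : Continuous H) {φ : ℝ → ℝ} (hφ : Continuous φ) {a b : ℝ}
    (hab : a ≤ b) (h1 : ∀ X ∈ Ioc a b, φ X ≤ ∫ w in {w : ℝ × ℝ | (X, w) ∈ R}, H (X, w))
    (h2 : ∀ X, X ∉ Ioc a b → ∀ w, (X, w) ∉ R) : ∫ X in a..b, φ X ≤ ∫ q in R, H q := by
  have hi : IntegrableOn H R :=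
    (hH.continuousOn.integrableOn_compact hRb.isCompact_closure).mono_set subset_closure
  have hi2 := (integrable_indicator_iff hR).2 hi
  have hv : (volume : Measure (ℝ × (ℝ × ℝ))) =
    (volume : Measure ℝ).prod (volume : Measure (ℝ × ℝ)) := rfl
  have hsec : ∀ X, MeasurableSet {w : ℝ × ℝ | (X, w) ∈ R} := fun X =>
    measurable_prodMk_left hR
  have key : ∀ X : ℝ, ∫ w, R.indicator H (X, w) =
      (Ioc a b).indicator (fun X => ∫ w in {w : ℝ × ℝ | (X, w) ∈ R}, H (X, w)) X := by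
    intro X
    by_cases hx : X ∈ Ioc a b
    · rw [indicator_of_mem hx, ← integral_indicator (hsec X)]
      rfl
    · rw [indicator_of_notMem hx]
      have : ∀ w, R.indicator H (X, w) = 0 := fun w => indicator_of_notMem (h2 X hx w) _
      simp only [this, integral_zero]
  have h3 : ∫ q in R, H q =
      ∫ X in Ioc a b, ∫ w in {w : ℝ × ℝ | (X, w) ∈ R}, H (X, w) := by
    rw [← integral_indicator hR, hv]
    rw [hv] at hi2
    rw [integral_prod _ hi2, ← integral_indicator measurableSet_Ioc]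
    exact integral_congr_ae (Eventually.of_forall key)
  have h4 : IntegrableOn (fun X => ∫ w in {w : ℝ × ℝ | (X, w) ∈ R}, H (X, w)) (Ioc a b) := by
    rw [hv] at hi2
    have h5 := hi2.integral_prod_left
    rw [← integrable_indicator_iff measurableSet_Ioc]
    exact (integrable_congr (Eventually.of_forall key)).1 h5
  rw [h3, intervalIntegral.integral_of_le hab]
  exact setIntegral_mono_on
    ((hφ.continuousOn.integrableOn_compact isCompact_Icc).mono_set Ioc_subset_Icc_self) h4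
    measurableSet_Ioc h1

end Helper93.MEI.Blk
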