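import Pool.Agent.Helper93.MEI.Blk10
import Pool.Agent.Helper47.MEI.MomP
import Pool.Agent.Helper22.MEI.Cpd4

/-!
# Project MEI (M2), bulk terms of the first moments, generic profile, V: the profile `ph22`
-/

set_option autoImplicit false

namespace Helper93.MEI.Blk

open Set MeasureTheory Filter Topology Metric
open Helper80.CW Helper22.Wedge Helper22.Sig Helper14.CW Helper14.MEI2 Helper93.MEI
open Helper22.MEI (s t FD FD_pos)
open Helper21.Sec Helper21.Mom Helper53.MEI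
open Pool.Agent.Helper95.MEI.Fub (Zp int_cont Zp_meas)
open Pool.Agent.Helper73.MEI
open Helper49.Cpl (ph22 ph22_cont dp)
open scoped RealInnerProductSpace ContDiff Real

theorem wF_dp (φ : ℝ → ℝ) (b : Fin 4 → E3) (z : E3 × E3) : wF φ b z.1 = dp φ b z := by
  unfold wF dp Helper49.Cpl.rh
  rw [div_eq_mul_inv]

theorem p1_same (i : Bool) : p1 i = Helper47.MEI.MomP.p1 i := by
  funext x
  rw [Helper47.MEI.MomP.p1_eq]
  rfl

section six
variable {a : Fin 4 → E3} {K : Set E3} {σ : Measure (E3 × E3)}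
variable [IsFiniteMeasure σ] (h : Pool.Agent.Helper73.MEI.PM K σ)
    (ha : ∀ i j, i ≠ j → dist (a i) (a j) = 1)
    (hull : ∀ p, (∀ q ∈ K, ‖p - q‖ ≤ 1) → p ∈ K) (hp : ∀ x ∈ K, Pl a x)
    {B : Fin 3 → Bool → OrthonormalBasis (Fin 3) ℝ E3}
    (hB : ∀ m e, Fr (fun i => a (pr m e i)) (B m e)) {S : Fin 4 → ℝ} (hS0 : ∀ i, 0 ≤ S i)
    (hQ : ∀ i, ∀ q ∈ K, Qv a i q ≤ S i)
    (m : Fin 3) (e : Bool) {k k' : Fin 4} (hk : k = 2 ∧ k' = 3 ∨ k = 3 ∧ k' = 2)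
    {τ : ℝ} (t0 : 0 ≤ τ) (t1 : τ ≤ 3 / 10) {θ : ℝ} (u0 : 0 ≤ θ) (u1 : θ ≤ 1)

include h ha hull hp hB hS0 hQ t0 t1 u0 u1 hk in
/-- **first moments, the profile `ph22`**, with the bulk terms -/
theorem mom_wph2 : ∫ z in Helper37.MEI.EE a m e, wF ph22 (Helper37.MEI.ap a m e) z.1 *
      bar a (pf m e k) z.2 ∂σ ≤
    0.05345 - (θ * (2 - θ) * 0.005584 + θ ^ 2 * (3 - 2 * θ) * 0.001467) +
      (0.36843 - 2.1743 * τ ^ 2 + 1.4497 * τ ^ 3) * S (pf m e k') +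
      √2 * (15 / 4 * (τ - τ ^ 2) * gp τ) +
      (0.08294 + 0.032284 * θ + 0.012371 * θ ^ 2) * (S (pf m e 0) + S (pf m e 1)) := by
  have h1 := momF_all_blk h ha hull hp hB hS0 hQ m e hk wgt_ph ph22_cont u0 u1
  have h2 := Helper47.MEI.MomP.num_ph (hS0 (pf m e k')) (hS0 (pf m e 0)) (hS0 (pf m e 1)) t0 t1
  have h3 := BK_ph u0 u1 (hS0 (pf m e 0)) (hS0 (pf m e 1))
  linarith

include h ha hull hp hB hS0 hQ t0 t1 u0 u1 hk in
/-- the same with helper49's density `dp` -/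
theorem mom_ph2 : ∫ z in Helper37.MEI.EE a m e, dp ph22 (Helper37.MEI.ap a m e) z *
      bar a (pf m e k) z.2 ∂σ ≤
    0.05345 - (θ * (2 - θ) * 0.005584 + θ ^ 2 * (3 - 2 * θ) * 0.001467) +
      (0.36843 - 2.1743 * τ ^ 2 + 1.4497 * τ ^ 3) * S (pf m e k') +
      √2 * (15 / 4 * (τ - τ ^ 2) * gp τ) +
      (0.08294 + 0.032284 * θ + 0.012371 * θ ^ 2) * (S (pf m e 0) + S (pf m e 1)) := by
  have h1 := mom_wph2 h ha hull hp hB hS0 hQ m e hk t0 t1 u0 u1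
  simp only [wF_dp] at h1
  exact h1

omit hk in
include h ha hull hp hB hS0 hQ t0 t1 u0 u1 in
/-- the moment `mX` of helper22 for the profile `ph22` -/
theorem mX_ph2 (i : Bool) : Helper22.Cpd.mX ph22 σ a m e i ≤
    0.05345 - (θ * (2 - θ) * 0.005584 + θ ^ 2 * (3 - 2 * θ) * 0.001467) +
      (0.36843 - 2.1743 * τ ^ 2 + 1.4497 * τ ^ 3) * S (Helper37.MEI.vx m e (!i)) +
      √2 * (15 / 4 * (τ - τ ^ 2) * gp τ) +
      (0.08294 + 0.032284 * θ + 0.012371 * θ ^ 2) *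
        (S (Helper37.MEI.vx m (!e) false) + S (Helper37.MEI.vx m (!e) true)) := by
  obtain ⟨e1, e2⟩ := Helper22.Cpd.vx_opp m e
  unfold Helper22.Cpd.mX
  cases i
  · rw [e1]
    have h1 := mom_ph2 h ha hull hp hB hS0 hQ m (!e) (k := 2) (k' := 3) (Or.inl ⟨rfl, rfl⟩)
      t0 t1 u0 u1
    rw [← e2] at h1
    exact h1
  · rw [e2]
    have h1 := mom_ph2 h ha hull hp hB hS0 hQ m (!e) (k := 3) (k' := 2) (Or.inr ⟨rfl, rfl⟩)
      t0 t1 u0 u1
    rw [← e1] at h1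
    exact h1

include h ha hull hp hB hS0 hQ t0 t1 u0 u1 hk in
/-- **first moments, weight of an end after half of `ph22`**, with the bulk terms -/
theorem mom_p12 (i : Bool) : ∫ z in Helper37.MEI.EE a m e,
      wF (p1 i) (Helper37.MEI.ap a m e) z.1 * bar a (pf m e k) z.2 ∂σ ≤
    0.008883 - (θ * (2 - θ) * 0.0006948 + θ ^ 2 * (3 - 2 * θ) * 0.0001538) +
      (0.11436 - 0.5798 * τ + 1.0873 * τ ^ 2 - 0.7248 * τ ^ 3) * S (pf m e k') +
      √2 / 2 * gp τ +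
      (0.0317 + 0.00707 * θ + 0.002036 * θ ^ 2) * S (pf m e (if i then 1 else 0)) +
      (0.0158 + 0.003777 * θ + 0.001144 * θ ^ 2) * S (pf m e (if i then 0 else 1)) := by
  have h1 := momF_all_blk h ha hull hp hB hS0 hQ m e hk (wgt_p1 i) (p1_cont i) u0 u1
  have h2 := Helper47.MEI.MomP.num_p1 (hS0 (pf m e k')) (hS0 (pf m e 0)) (hS0 (pf m e 1)) t0 t1 i
  have h3 := BK_p1 u0 u1 (hS0 (pf m e 0)) (hS0 (pf m e 1)) i
  rw [← p1_same] at h2
  cases i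
  · simp only [Bool.false_eq_true, if_false] at h2 h3 ⊢
    linarith
  · simp only [if_true] at h2 h3 ⊢
    linarith

end six

end Helper93.MEI.Blk
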