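import Pool.Agent.Helper93.MEI.Blk1
import Pool.Agent.Helper53.MEI.Mom3

/-!
# Project MEI (M2), bulk terms of the first moments, II: the lower region is in the body
-/

set_option autoImplicit false

namespace Helper93.MEI.Blk

open Set MeasureTheory Filter Topology Metric
open Helper80.CW Helper22.Wedge Helper22.Sig Helper14.CW Helper14.MEI2 Helper93.MEI
open Helper22.MEI (s t FD FD_pos)
open Helper21.Sec Helper21.Mom Helper53.MEI
open Pool.Agent.Helper95.MEI.Fub (Zp int_cont Zp_meas)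
open scoped RealInnerProductSpace ContDiff

/-- transversal coordinate of the end of the section by a wall -/
noncomputable def yy (X : ℝ) : ℝ := √2 / 2 * W0 X

/-- loss of this coordinate, times 3 -/
noncomputable def e1 (sg d X : ℝ) : ℝ := 0.5774 * sg + d * X

/-- the coordinate for the body -/
noncomputable def uu (sg d X : ℝ) : ℝ := yy X - e1 sg d X / 3

theorem yy_cont : Continuous yy := continuous_const.mul W0_cont

theorem uu_cont (sg d : ℝ) : Continuous (uu sg d) := by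
  unfold uu e1
  exact yy_cont.sub (by fun_prop)

theorem yy_facts {X : ℝ} (hX : |X| ≤ 1 / 2) :
    0 ≤ yy X ∧ 3 * yy X ^ 2 + 3 * yy X = 1 / 4 - X ^ 2 ∧
    (1 / 4 - X ^ 2 - 1 / 3 * (1 / 4 - X ^ 2) ^ 2 + 0.18 * (1 / 4 - X ^ 2) ^ 3) / 3 ≤ yy X ∧
    yy X ≤ (1 / 4 - X ^ 2 - 0.286 * (1 / 4 - X ^ 2) ^ 2) / 3 := by
  obtain ⟨y, h1, h2, h3⟩ := y0_bd hX
  obtain ⟨h4, h5⟩ := qw_W0 hX
  have hr := r2
  have e : yy X = y := by
    unfold yy
    rw [h1]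
    linear_combination y / 2 * hr
  rw [e]
  refine ⟨?_, ?_, h2, h3⟩
  · have : √2 * 0 ≤ √2 * y := by rw [mul_zero, ← h1]; exact h4
    exact le_of_mul_le_mul_left this (by positivity)
  · unfold qw at h5
    rw [h1] at h5
    linear_combination h5 - (3 / 2 * y ^ 2 + 3 / 2 * y) * hr

theorem sq_le4 {X : ℝ} (hX : |X| ≤ 1 / 2) : 0 ≤ 1 / 4 - X ^ 2 ∧ 1 / 4 - X ^ 2 ≤ 1 / 4 := by
  have := sq_le_of_abs hX
  exact ⟨by linarith, by nlinarith [sq_nonneg X]⟩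

theorem yy_le {X : ℝ} (hX : |X| ≤ 1 / 2) : yy X ≤ (1 / 4 - X ^ 2) / 3 ∧ yy X ≤ 1 / 12 := by
  obtain ⟨_, _, _, h⟩ := yy_facts hX
  obtain ⟨h0, h1⟩ := sq_le4 hX
  have : 0 ≤ (1 / 4 - X ^ 2) ^ 2 := sq_nonneg _
  constructor <;> linarith

theorem e1_nonneg {s1 s2 X : ℝ} (h1 : 0 ≤ s1) (h2 : 0 ≤ s2) (hX : |X| ≤ 1 / 2) :
    0 ≤ e1 (s1 + s2) (s1 - s2) X := by
  obtain ⟨a, b⟩ := abs_le.1 hX
  unfold e1
  have k1 := mul_nonneg h1 (by linarith : 0 ≤ 0.5774 + X)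
  have k2 := mul_nonneg h2 (by linarith : 0 ≤ 0.5774 - X)
  linarith

/-- the scalar inequality of the lower region -/
theorem low3_poly {X u s1 s2 : ℝ} (hX : |X| ≤ 1 / 2) (h1 : 0 ≤ s1) (h2 : 0 ≤ s2)
    (hu : u = uu (s1 + s2) (s1 - s2) X) (hu0 : 0 ≤ u) :
    X ^ 2 + 3 * u ^ 2 + u * (3 + (s1 + s2)) + ((1 / 2 + X) * s1 + (1 / 2 - X) * s2) ≤ 1 / 4 := by
  obtain ⟨hy0, hyq, _, _⟩ := yy_facts hX
  obtain ⟨_, hy⟩ := yy_le hX
  have he := e1_nonneg h1 h2 hX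
  obtain ⟨a, b⟩ := abs_le.1 hX
  set y := yy X with hyd
  set e := e1 (s1 + s2) (s1 - s2) X with hed
  have hue : u = y - e / 3 := hu
  have he2 : e = 0.5774 * (s1 + s2) + (s1 - s2) * X := hed
  have k1 : e * e ≤ e * (3 * y) := mul_le_mul_of_nonneg_left (by linarith) he
  have k2 : (s1 + s2) * u ≤ (s1 + s2) * y := mul_le_mul_of_nonneg_left (by linarith) (by linarith)
  have k3 : X ^ 2 = 1 / 4 - (3 * y ^ 2 + 3 * y) := by linarith
  -- it suffices that `-y e - e + σ y + σ/2 + X d ≤ 0`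
  have k4 : 0 ≤ y * (s1 * (1 / 2 + X)) := mul_nonneg hy0 (mul_nonneg h1 (by linarith))
  have k5 : 0 ≤ y * (s2 * (1 / 2 - X)) := mul_nonneg hy0 (mul_nonneg h2 (by linarith))
  have k6 : (s1 + s2) * y ≤ (s1 + s2) * (1 / 12) :=
    mul_le_mul_of_nonneg_left hy (by linarith)
  have k7 : -(y * e) - e + (s1 + s2) * y + ((1 / 2 + X) * s1 + (1 / 2 - X) * s2) ≤ 0 := by
    rw [he2]
    have e3 : y * (0.5774 * (s1 + s2) + (s1 - s2) * X) =
      0.0774 * ((s1 + s2) * y) - ((s1 + s2) * y) * 0 + y * (s1 * (1 / 2 + X)) +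
        y * (s2 * (1 / 2 - X)) := by ring
    rw [e3]
    nlinarith
  rw [hue]
  nlinarith

variable {b : OrthonormalBasis (Fin 3) ℝ E3} {c : E3}

/-- **the lower region is in the body** -/
theorem low3_mem {K : Set E3} {s1 s2 s3 s4 : ℝ} (h : Bod b c K s1 s2 s3 s4) {x : E3}
    (hX : |(co b c x).1| ≤ 1 / 2) (hu : 0 ≤ uu (s1 + s2) (s1 - s2) (co b c x).1)
    (hl : (co b c x).2.1 ^ 2 + ((co b c x).2.2 - √2 / 4) ^ 2 ≤
      3 * uu (s1 + s2) (s1 - s2) (co b c x).1 ^ 2) : x ∈ K := by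
  refine h.comp x fun q hq => ?_
  have hn := norm_co b c x q
  have hp := low3_poly hX h.s1_nn h.s2_nn rfl hu
  have hq1 := h.Q1 q hq
  have hq2 := h.Q2 q hq
  obtain ⟨a1, a2⟩ := abs_le.1 hX
  set X := (co b c x).1 with hXd
  set Y := (co b c x).2.1
  set W := (co b c x).2.2 - √2 / 4 with hW
  set X' := (co b c q).1
  set Y' := (co b c q).2.1
  set W' := (co b c q).2.2 - √2 / 4 with hW'
  set u := uu (s1 + s2) (s1 - s2) X
  have hZ : (co b c x).2.2 - (co b c q).2.2 = W - W' := by rw [hW, hW']; ring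
  rw [hZ] at hn
  have hs1 := h.s1_nn
  have hs2 := h.s2_nn
  have k1 := mul_le_mul_of_nonneg_left hq1 (by linarith : 0 ≤ 1 / 2 + X)
  have k2 := mul_le_mul_of_nonneg_left hq2 (by linarith : 0 ≤ 1 / 2 - X)
  -- Cauchy
  have hR : Y' ^ 2 + W' ^ 2 ≤ 3 / 4 + (s1 + s2) / 2 := by nlinarith [sq_nonneg X']
  have k3 : (Y * Y' + W * W') ^ 2 ≤ (u * (3 / 2 + (s1 + s2) / 2)) ^ 2 := by
    have c1 : (Y * Y' + W * W') ^ 2 ≤ (Y ^ 2 + W ^ 2) * (Y' ^ 2 + W' ^ 2) := by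
      nlinarith [sq_nonneg (Y * W' - W * Y')]
    have c2 : (Y ^ 2 + W ^ 2) * (Y' ^ 2 + W' ^ 2) ≤ 3 * u ^ 2 * (3 / 4 + (s1 + s2) / 2) :=
      mul_le_mul hl hR (by positivity) (by positivity)
    have c3 : 3 * u ^ 2 * (3 / 4 + (s1 + s2) / 2) ≤ (u * (3 / 2 + (s1 + s2) / 2)) ^ 2 := by
      have : 0 ≤ u ^ 2 * (s1 + s2) ^ 2 := by positivity
      nlinarith
    linarith
  have k4 : -(Y * Y' + W * W') ≤ u * (3 / 2 + (s1 + s2) / 2) := by
    have := abs_le_of_sq_le_sq k3 (mul_nonneg hu (by linarith))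
    linarith [(abs_le.1 this).1]
  have hfin : (X - X') ^ 2 + (Y - Y') ^ 2 + (W - W') ^ 2 ≤ 1 := by
    have e : (X - X') ^ 2 + (Y - Y') ^ 2 + (W - W') ^ 2 = X ^ 2 + (Y ^ 2 + W ^ 2) -
      2 * (Y * Y' + W * W') + (1 / 2 + X) * (X' ^ 2 + Y' ^ 2 + W' ^ 2 - X' - 3 / 4) +
      (1 / 2 - X) * (X' ^ 2 + Y' ^ 2 + W' ^ 2 + X' - 3 / 4) + 3 / 4 := by ring
    rw [e]
    linarith
  rw [dist_eq_norm]
  have : ‖x - q‖ ^ 2 ≤ 1 ^ 2 := by rw [hn, one_pow]; exact hfin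
  exact le_of_sq_le_sq this (by norm_num)

/-! ### the integrand -/

/-- `- b_k` as a function of the coordinates -/
noncomputable def Bf (ε : ℝ) (q : ℝ × ℝ × ℝ) : ℝ := √2 / 2 * (q.2.2 - √2 / 4) - ε * q.2.1

theorem Bf_cd (ε : ℝ) {n : WithTop ℕ∞} : ContDiff ℝ n (Bf ε) := by
  unfold Bf
  fun_prop

theorem gB_cd (η ε : ℝ) {n : WithTop ℕ∞} :
    ContDiff ℝ n (fun x : E3 => om η (co b c x) * Bf ε (co b c x)) :=
  ((om_cd η).comp (co_cdn b c)).mul ((Bf_cd ε).comp (co_cdn b c))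

theorem fd_Bf (ε : ℝ) (x : E3) : fderiv ℝ (fun y => Bf ε (co b c y)) x (b 2) = √2 / 2 := by
  obtain ⟨⟨i00, i01, i02⟩, ⟨i10, i11, i12⟩, ⟨i20, i21, i22⟩⟩ := ibv b
  rw [fd_co b c (Bf_cd ε), i02, i12, i22]
  refine Helper22.MEI.E3_of (Bf_cd ε) ?_
  unfold Bf
  have h := (((hasDerivAt_id (co b c x).2.2).sub_const (√2 / 4)).const_mul (√2 / 2)).sub_const
    (ε * (co b c x).2.1)
  refine h.congr_deriv ?_
  ring

theorem fd_omB (η ε : ℝ) (x : E3) :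
    fderiv ℝ (fun y => om η (co b c y) * Bf ε (co b c y)) x (b 2) =
      om η (co b c x) * (√2 / 2) + Bf ε (co b c x) * omz η (co b c x) := by
  have h1 : DifferentiableAt ℝ (fun y => om η (co b c y)) x :=
    (((om_cd η (n := 1)).comp (co_cdn b c)).differentiable one_ne_zero) x
  have h2 : DifferentiableAt ℝ (fun y => Bf ε (co b c y)) x :=
    (((Bf_cd ε (n := 1)).comp (co_cdn b c)).differentiable one_ne_zero) x
  have h3 := fderiv_fun_mul h1 h2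
  rw [h3]
  simp only [add_apply, FunLike.coe_smul, Pi.smul_apply, smul_eq_mul]
  have h4 : fderiv ℝ (fun y => om η (co b c y)) x (b 2) = omz η (co b c x) := by
    obtain ⟨⟨i00, i01, i02⟩, ⟨i10, i11, i12⟩, ⟨i20, i21, i22⟩⟩ := ibv b
    rw [fd_co b c (om_cd η), i02, i12, i22]
    exact E3_om η (co b c x)
  rw [fd_Bf, h4]

/-- **formula of the integrand** on the cell -/
theorem Fb_eq {η : ℝ} {ε : ℝ} (x : E3) :
    fderiv ℝ (fun y => om η (co b c y)) x (be b ε) +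
        fderiv ℝ (fun y => om η (co b c y) * Bf ε (co b c y)) x (b 2) =
    nn η (co b c x).1 * (√2 / 2 * (1 / (4 * FD (co b c x))) + 8 * (1 / (4 * FD (co b c x))) ^ 2 *
      ((1 - ((co b c x).2.2 - √2 / 4)) * Bf ε (co b c x))) := by
  rw [fd_omB, fd_be]
  have hD := FD_pos (co b c x)
  set X := (co b c x).1
  set Y := (co b c x).2.1
  set W := (co b c x).2.2 - √2 / 4 with hWd
  have hB : Bf ε (co b c x) = √2 / 2 * W - ε * Y := rfl
  have eo : om η (co b c x) = nn η X / (4 * FD (co b c x)) := rfl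
  have ez : omz η (co b c x) = -(nn η X * W / (2 * FD (co b c x) ^ 2)) := rfl
  have ey : omy η (co b c x) = -(nn η X * Y / (2 * FD (co b c x) ^ 2)) := rfl
  rw [eo, ez, ey, hB]
  set D := FD (co b c x)
  field_simp
  ring

theorem Bf_nonneg {ε : ℝ} (hε : ε = 1 ∨ ε = -1) {x : E3} (hx : x ∈ EC b c) :
    0 ≤ Bf ε (co b c x) := by
  have h1 : |(co b c x).2.1| < s * ((co b c x).2.2 - t) := hx
  have hs : s = √2 / 2 := rfl
  have ht : t = √2 / 4 := rfl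
  rw [hs, ht] at h1
  obtain ⟨h2, h3⟩ := abs_lt.1 h1
  unfold Bf
  rcases hε with h | h <;> rw [h] <;> linarith

theorem Fb_nonneg {η : ℝ} (hη : |η| ≤ 1) {ε : ℝ} (hε : ε = 1 ∨ ε = -1) {x : E3}
    (hX : |(co b c x).1| ≤ 1 / 2) (hx : x ∈ EC b c) (hW : (co b c x).2.2 - √2 / 4 ≤ 1) :
    0 ≤ fderiv ℝ (fun y => om η (co b c y)) x (be b ε) +
        fderiv ℝ (fun y => om η (co b c y) * Bf ε (co b c y)) x (b 2) := by
  rw [Fb_eq]
  have h1 := Bf_nonneg hε hx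
  have h2 := (nn_bd hη hX).1
  have h3 := FD_pos (co b c x)
  have h4 : 0 ≤ 1 - ((co b c x).2.2 - √2 / 4) := by linarith
  positivity

/-- **lower bound of the integrand on the cell** -/
theorem Fb_lo {η : ℝ} (hη : |η| ≤ 1) {ε : ℝ} (hε : ε = 1 ∨ ε = -1) {x : E3} {a β : ℝ}
    (hX : |(co b c x).1| ≤ 1 / 2) (hx : x ∈ EC b c)
    (hW : (co b c x).2.2 - √2 / 4 ≤ 1)
    (ha : a ≤ 1 - (co b c x).1 ^ 2 / 2 -
      4 * ((co b c x).2.1 ^ 2 + ((co b c x).2.2 - √2 / 4) ^ 2))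
    (hβ : β ≤ 8 * (1 - ((co b c x).2.2 - √2 / 4)) * (1 - (co b c x).1 ^ 2 -
      8 * ((co b c x).2.1 ^ 2 + ((co b c x).2.2 - √2 / 4) ^ 2))) :
    nn η (co b c x).1 * (√2 / 2 * a + β * Bf ε (co b c x)) ≤
      fderiv ℝ (fun y => om η (co b c y)) x (be b ε) +
        fderiv ℝ (fun y => om η (co b c y) * Bf ε (co b c y)) x (b 2) := by
  rw [Fb_eq]
  have hB0 := Bf_nonneg hε hx
  have hD := FD_pos (co b c x)
  have hn := (nn_bd hη hX).1
  have hFD : FD (co b c x) = 1 / 4 + (co b c x).1 ^ 2 / 8 +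
    ((co b c x).2.1 ^ 2 + ((co b c x).2.2 - √2 / 4) ^ 2) := rfl
  set X := (co b c x).1
  set Y := (co b c x).2.1
  set W := (co b c x).2.2 - √2 / 4 with hWd
  set B := Bf ε (co b c x)
  set D := FD (co b c x)
  set r := 1 / (4 * D) with hr
  refine mul_le_mul_of_nonneg_left ?_ hn
  have hz : 4 * D = 1 + (X ^ 2 / 2 + 4 * (Y ^ 2 + W ^ 2)) := by rw [hFD]; ring
  set z := X ^ 2 / 2 + 4 * (Y ^ 2 + W ^ 2) with hzd
  have hz0 : 0 ≤ z := by positivity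
  have hr1 : 1 - z ≤ r := by
    rw [hr, hz, le_div_iff₀ (by linarith)]
    nlinarith [sq_nonneg z]
  have hr2 : 1 - 2 * z ≤ r ^ 2 := by
    rw [hr, hz, div_pow, one_pow, le_div_iff₀ (by positivity)]
    nlinarith [sq_nonneg z, mul_nonneg hz0 (sq_nonneg z)]
  have k1 : √2 / 2 * a ≤ √2 / 2 * r := mul_le_mul_of_nonneg_left (by linarith) (by positivity)
  have k2 : β ≤ 8 * r ^ 2 * (1 - W) := by
    refine hβ.trans ?_
    have k3 : (1 - W) * (1 - X ^ 2 - 8 * (Y ^ 2 + W ^ 2)) ≤ (1 - W) * r ^ 2 :=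
      mul_le_mul_of_nonneg_left (by rw [hzd] at hr2; linarith) (by linarith)
    linarith
  have k4 := mul_le_mul_of_nonneg_right k2 hB0
  linarith

end Helper93.MEI.Blk
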