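import Pool.Agent.Helper93.MEI.Blk2

/-!
# Project MEI (M2), bulk terms of the first moments, III: polynomial integrals
-/

set_option autoImplicit false

namespace Helper93.MEI.Blk

open Set MeasureTheory
open Helper53.MEI

noncomputable def hh (X : ℝ) : ℝ := 1 / 4 - X ^ 2
noncomputable def yl (X : ℝ) : ℝ := (hh X - 1 / 3 * hh X ^ 2 + 0.18 * hh X ^ 3) / 3
noncomputable def yu (X : ℝ) : ℝ := (hh X - 0.286 * hh X ^ 2) / 3
noncomputable def Al (X : ℝ) : ℝ := 1 - X ^ 2 / 2 - 4 / 3 * hh X ^ 2
noncomputable def Be (X : ℝ) : ℝ := 8 * (1 - 0.5774 * hh X) * (1 - X ^ 2 - 8 / 3 * hh X ^ 2)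
noncomputable def Aw (X : ℝ) : ℝ := 1 - X ^ 2 / 2 - 2 / 3 * hh X ^ 2
noncomputable def PA (X : ℝ) : ℝ := 1.2995 * Al X * yl X ^ 2
noncomputable def SA (X : ℝ) : ℝ := 1.2997 * (2 / 3) * (Al X * yu X)
noncomputable def PM (X : ℝ) : ℝ := 1.4044 * Be X * yl X ^ 3
noncomputable def SM (X : ℝ) : ℝ := 1.4046 * (Be X * yu X ^ 2)
noncomputable def PW (X : ℝ) : ℝ := Aw X * yl X ^ 2
noncomputable def SW (X : ℝ) : ℝ := 2 / 3 * (Aw X * yu X)

theorem nn_cont (η : ℝ) : Continuous (nn η) := by unfold nn; fun_prop
theorem hh_cont : Continuous hh := by unfold hh; fun_prop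
theorem yl_cont : Continuous yl := by have := hh_cont; unfold yl; fun_prop
theorem yu_cont : Continuous yu := by have := hh_cont; unfold yu; fun_prop
theorem Al_cont : Continuous Al := by have := hh_cont; unfold Al; fun_prop
theorem Be_cont : Continuous Be := by have := hh_cont; unfold Be; fun_prop
theorem Aw_cont : Continuous Aw := by have := hh_cont; unfold Aw; fun_prop
theorem PA_cont : Continuous PA := by have := Al_cont; have := yl_cont; unfold PA; fun_prop
theorem SA_cont : Continuous SA := by have := Al_cont; have := yu_cont; unfold SA; fun_prop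
theorem PM_cont : Continuous PM := by have := Be_cont; have := yl_cont; unfold PM; fun_prop
theorem SM_cont : Continuous SM := by have := Be_cont; have := yu_cont; unfold SM; fun_prop
theorem PW_cont : Continuous PW := by have := Aw_cont; have := yl_cont; unfold PW; fun_prop
theorem SW_cont : Continuous SW := by have := Aw_cont; have := yu_cont; unfold SW; fun_prop

theorem int_PA (η : ℝ) : ∫ x in (-(1 / 2) : ℝ)..(1 / 2), nn η x * PA x = 5505907763771 / 2835518400000000 := by
  have hd : ∀ x ∈ uIcc (-(1 / 2) : ℝ) (1 / 2), HasDerivAt (fun x : ℝ =>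
      (141787974581 / 39813120000000) * x ^ 1 +
      (-172360047967 / 19906560000000) * x ^ 3 +
      (27906302477 / 4147200000000) * x ^ 5 +
      (11357081611 / 1244160000000) * x ^ 7 +
      (-96212381 / 23328000000) * x ^ 9 +
      (-417687889 / 285120000000) * x ^ 11 +
      (-299672497 / 126360000000) * x ^ 13 +
      (-1166951 / 2700000000) * x ^ 15 +
      (-7797 / 42500000) * x ^ 17 +
      η * (992515822067 / 637009920000000) * x ^ 2 +
      η * (-1206520335769 / 212336640000000) * x ^ 4 +
      η * (195344117339 / 39813120000000) * x ^ 6 +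
      η * (556496998939 / 79626240000000) * x ^ 8 +
      η * (-673486667 / 207360000000) * x ^ 10 +
      η * (-2923815223 / 2488320000000) * x ^ 12 +
      η * (-299672497 / 155520000000) * x ^ 14 +
      η * (-8168657 / 23040000000) * x ^ 16 +
      η * (-18193 / 120000000) * x ^ 18)
      (nn η x * PA x) x := by
    intro x _
    have k := ((((((((((((((((((hpow 0 ((141787974581 / 39813120000000)) x).add (hpow 2 ((-172360047967 / 19906560000000)) x)).add (hpow 4 ((27906302477 / 4147200000000)) x)).add (hpow 6 ((11357081611 / 1244160000000)) x)).add (hpow 8 ((-96212381 / 23328000000)) x)).add (hpow 10 ((-417687889 / 285120000000)) x)).add (hpow 12 ((-299672497 / 126360000000)) x)).add (hpow 14 ((-1166951 / 2700000000)) x)).add (hpow 16 ((-7797 / 42500000)) x)).add (hpow 1 (η * (992515822067 / 637009920000000)) x)).add (hpow 3 (η * (-1206520335769 / 212336640000000)) x)).add (hpow 5 (η * (195344117339 / 39813120000000)) x)).add (hpow 7 (η * (556496998939 / 79626240000000)) x)).add (hpow 9 (η * (-673486667 / 207360000000)) x)).add (hpow 11 (η * (-2923815223 / 2488320000000))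 x)).add (hpow 13 (η * (-299672497 / 155520000000)) x)).add (hpow 15 (η * (-8168657 / 23040000000)) x)).add (hpow 17 (η * (-18193 / 120000000)) x))
    refine k.congr_deriv ?_
    unfold nn PA
    simp only [hh, yl, Al]
    push_cast
    ring
  rw [intervalIntegral.integral_eq_sub_of_hasDerivAt hd
    ((nn_cont η).mul PA_cont |>.intervalIntegrable _ _)]
  ring

theorem int_PM (η : ℝ) : ∫ x in (-(1 / 2) : ℝ)..(1 / 2), nn η x * PM x = 20303684125439846637733 / 22870505001093750000000000 := by
  have hd : ∀ x ∈ uIcc (-(1 / 2) : ℝ) (1 / 2), HasDerivAt (fun x : ℝ =>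
      (663617195619103669 / 358318080000000000000) * x ^ 1 +
      (-16820178806296177231 / 2687385600000000000000) * x ^ 3 +
      (5052932811760662811 / 559872000000000000000) * x ^ 5 +
      (780039478396356697 / 78382080000000000000) * x ^ 7 +
      (-376751632698821719 / 12597120000000000000) * x ^ 9 +
      (-23013274708267483 / 3849120000000000000) * x ^ 11 +
      (28671169955827733 / 2843100000000000000) * x ^ 13 +
      (24208599259257433 / 1640250000000000000) * x ^ 15 +
      (1102037020680899 / 92947500000000000) * x ^ 17 +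
      (264368913492473 / 51941250000000000) * x ^ 19 +
      (174042969959 / 88593750000000) * x ^ 21 +
      (3402710227 / 8984375000000) * x ^ 23 +
      (91226313 / 1220703125000) * x ^ 25 +
      η * (4645320369333725683 / 5733089280000000000000) * x ^ 2 +
      η * (-117741251644073240617 / 28665446400000000000000) * x ^ 4 +
      η * (35370529682324639677 / 5374771200000000000000) * x ^ 6 +
      η * (5460276348774496879 / 716636160000000000000) * x ^ 8 +
      η * (-2637261428891752033 / 111974400000000000000) * x ^ 10 +
      η * (-161092922957872381 / 33592320000000000000) * x ^ 12 +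
      η * (28671169955827733 / 3499200000000000000) * x ^ 14 +
      η * (169460194814802031 / 13996800000000000000) * x ^ 16 +
      η * (7714259144766293 / 787320000000000000) * x ^ 18 +
      η * (1850582394447311 / 437400000000000000) * x ^ 20 +
      η * (1218300789713 / 742500000000000) * x ^ 22 +
      η * (23818971589 / 75000000000000) * x ^ 24 +
      η * (638584191 / 10156250000000) * x ^ 26)
      (nn η x * PM x) x := by
    intro x _
    have k := ((((((((((((((((((((((((((hpow 0 ((663617195619103669 / 358318080000000000000)) x).add (hpow 2 ((-16820178806296177231 / 2687385600000000000000)) x)).add (hpow 4 ((5052932811760662811 / 559872000000000000000)) x)).add (hpow 6 ((780039478396356697 / 78382080000000000000)) x)).add (hpow 8 ((-376751632698821719 / 12597120000000000000)) x)).add (hpow 10 ((-23013274708267483 / 3849120000000000000)) x)).add (hpow 12 ((28671169955827733 / 2843100000000000000)) x)).add (hpow 14 ((24208599259257433 / 1640250000000000000)) x)).add (hpow 16 ((1102037020680899 / 92947500000000000)) x)).add (hpow 18 ((264368913492473 / 51941250000000000))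 x)).add (hpow 20 ((174042969959 / 88593750000000)) x)).add (hpow 22 ((3402710227 / 8984375000000)) x)).add (hpow 24 ((91226313 / 1220703125000)) x)).add (hpow 1 (η * (4645320369333725683 / 5733089280000000000000)) x)).add (hpow 3 (η * (-117741251644073240617 / 28665446400000000000000)) x)).add (hpow 5 (η * (35370529682324639677 / 5374771200000000000000)) x)).add (hpow 7 (η * (5460276348774496879 / 716636160000000000000)) x)).add (hpow 9 (η * (-2637261428891752033 / 111974400000000000000)) x)).add (hpow 11 (η * (-161092922957872381 / 33592320000000000000)) x)).add (hpow 13 (η * (28671169955827733 / 3499200000000000000)) x)).add (hpow 15 (η * (169460194814802031 / 13996800000000000000)) x)).add (hpow 17 (η * (7714259144766293 / 787320000000000000)) x)).add (hpow 19 (η * (1850582394447311 / 437400000000000000)) x)).add (hpow 21 (η * (1218300789713 / 742500000000000)) x)).add (hpow 23 (η * (23818971589 / 75000000000000)) x)).add (hpow 25 (η * (638584191 / 10156250000000)) x))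
    refine k.congr_deriv ?_
    unfold nn PM
    simp only [hh, yl, Be]
    push_cast
    ring
  rw [intervalIntegral.integral_eq_sub_of_hasDerivAt hd
    ((nn_cont η).mul PM_cont |>.intervalIntegrable _ _)]
  ring

theorem int_PW (η : ℝ) : ∫ x in (-(1 / 2) : ℝ)..(1 / 2), nn η x * PW x = 235968539 / 152681760000 := by
  have hd : ∀ x ∈ uIcc (-(1 / 2) : ℝ) (1 / 2), HasDerivAt (fun x : ℝ =>
      (114069167 / 39813120000) * x ^ 1 +
      (-72713777 / 9953280000) * x ^ 3 +
      (611477 / 82944000) * x ^ 5 +
      (14093699 / 4354560000) * x ^ 7 +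
      (-1687 / 1866240) * x ^ 9 +
      (-117919 / 142560000) * x ^ 11 +
      (-4469 / 4860000) * x ^ 13 +
      (-53 / 270000) * x ^ 15 +
      (-3 / 42500) * x ^ 17 +
      η * (798484169 / 637009920000) * x ^ 2 +
      η * (-508996439 / 106168320000) * x ^ 4 +
      η * (4280339 / 796262400) * x ^ 6 +
      η * (98655893 / 39813120000) * x ^ 8 +
      η * (-11809 / 16588800) * x ^ 10 +
      η * (-825433 / 1244160000) * x ^ 12 +
      η * (-58097 / 77760000) * x ^ 14 +
      η * (-371 / 2304000) * x ^ 16 +
      η * (-7 / 120000) * x ^ 18)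
      (nn η x * PW x) x := by
    intro x _
    have k := ((((((((((((((((((hpow 0 ((114069167 / 39813120000)) x).add (hpow 2 ((-72713777 / 9953280000)) x)).add (hpow 4 ((611477 / 82944000)) x)).add (hpow 6 ((14093699 / 4354560000)) x)).add (hpow 8 ((-1687 / 1866240)) x)).add (hpow 10 ((-117919 / 142560000)) x)).add (hpow 12 ((-4469 / 4860000)) x)).add (hpow 14 ((-53 / 270000)) x)).add (hpow 16 ((-3 / 42500)) x)).add (hpow 1 (η * (798484169 / 637009920000)) x)).add (hpow 3 (η * (-508996439 / 106168320000)) x)).add (hpow 5 (η * (4280339 / 796262400)) x)).add (hpow 7 (η * (98655893 / 39813120000)) x)).add (hpow 9 (η * (-11809 / 16588800)) x)).add (hpow 11 (η * (-825433 / 1244160000)) x)).add (hpow 13 (η * (-58097 / 77760000)) x)).add (hpow 15 (η * (-371 / 2304000)) x)).add (hpow 17 (η * (-7 / 120000)) x))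
    refine k.congr_deriv ?_
    unfold nn PW
    simp only [hh, yl, Aw]
    push_cast
    ring
  rw [intervalIntegral.integral_eq_sub_of_hasDerivAt hd
    ((nn_cont η).mul PW_cont |>.intervalIntegrable _ _)]
  ring

theorem int_SA (η e d : ℝ) : ∫ x in (-(1 / 2) : ℝ)..(1 / 2), nn η x * ((e + d * x) * SA x) =
    14170512127 / 680400000000 * e + 35468813 / 38400000000 * (η * d) := by
  have hd : ∀ x ∈ uIcc (-(1 / 2) : ℝ) (1 / 2), HasDerivAt (fun x : ℝ =>
      e * (88496573 / 2880000000) * x ^ 1 +
      e * (-465955447 / 12960000000) * x ^ 3 +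
      e * (-18572713 / 900000000) * x ^ 5 +
      e * (948781 / 42000000) * x ^ 7 +
      e * (1858571 / 303750000) * x ^ 9 +
      (d * (88496573 / 5760000000) + η * e * (619476011 / 46080000000)) * x ^ 2 +
      (d * (-465955447 / 17280000000) + η * e * (-3261688129 / 138240000000)) * x ^ 4 +
      (d * (-18572713 / 1080000000) + η * e * (-130008991 / 8640000000)) * x ^ 6 +
      (d * (948781 / 48000000) + η * e * (6641467 / 384000000)) * x ^ 8 +
      (d * (1858571 / 337500000) + η * e * (13009997 / 2700000000)) * x ^ 10 +
      η * d * (619476011 / 69120000000) * x ^ 3 +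
      η * d * (-3261688129 / 172800000000) * x ^ 5 +
      η * d * (-18572713 / 1440000000) * x ^ 7 +
      η * d * (6641467 / 432000000) * x ^ 9 +
      η * d * (1182727 / 270000000) * x ^ 11)
      (nn η x * ((e + d * x) * SA x)) x := by
    intro x _
    have k := (((((((((((((((hpow 0 (e * (88496573 / 2880000000)) x).add (hpow 2 (e * (-465955447 / 12960000000)) x)).add (hpow 4 (e * (-18572713 / 900000000)) x)).add (hpow 6 (e * (948781 / 42000000)) x)).add (hpow 8 (e * (1858571 / 303750000)) x)).add (hpow 1 ((d * (88496573 / 5760000000) + η * e * (619476011 / 46080000000))) x)).add (hpow 3 ((d * (-465955447 / 17280000000) + η * e * (-3261688129 / 138240000000))) x)).add (hpow 5 ((d * (-18572713 / 1080000000) + η * e * (-130008991 / 8640000000))) x)).add (hpow 7 ((d * (948781 / 48000000) + η * e * (6641467 / 384000000))) x)).add (hpow 9 ((d * (1858571 / 337500000) + η * e * (13009997 / 2700000000))) x)).add (hpow 2 (η * d * (619476011 / 69120000000)) x)).add (hpow 4 (η * d * (-3261688129 / 172800000000)) x)).add (hpow 6 (η * d * (-18572713 / 1440000000)) x)).add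 (hpow 8 (η * d * (6641467 / 432000000)) x)).add (hpow 10 (η * d * (1182727 / 270000000)) x))
    refine k.congr_deriv ?_
    unfold nn SA
    simp only [hh, yu, Al]
    push_cast
    ring
  rw [intervalIntegral.integral_eq_sub_of_hasDerivAt hd
    ((nn_cont η).mul ((by fun_prop : Continuous fun x : ℝ => e + d * x).mul SA_cont) |>.intervalIntegrable _ _)]
  ring

theorem int_SM (η e d : ℝ) : ∫ x in (-(1 / 2) : ℝ)..(1 / 2), nn η x * ((e + d * x) * SM x) =
    10496673984108077 / 779625000000000000 * e + 39009873531175741 / 87516000000000000000 * (η * d) := by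
  have hd : ∀ x ∈ uIcc (-(1 / 2) : ℝ) (1 / 2), HasDerivAt (fun x : ℝ =>
      e * (15350017045813 / 640000000000000) * x ^ 1 +
      e * (-726341008054511 / 14400000000000000) * x ^ 3 +
      e * (25910664489481 / 18000000000000000) * x ^ 5 +
      e * (1216481001987 / 8750000000000) * x ^ 7 +
      e * (-1477965682883 / 101250000000000) * x ^ 9 +
      e * (-13258697327849 / 123750000000000) * x ^ 11 +
      e * (-208366353833 / 4687500000000) * x ^ 13 +
      e * (-138203891683 / 26367187500000) * x ^ 15 +
      (d * (15350017045813 / 1280000000000000) + η * e * (107450119320691 / 10240000000000000)) * x ^ 2 +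
      (d * (-726341008054511 / 19200000000000000) + η * e * (-5084387056381577 / 153600000000000000)) * x ^ 4 +
      (d * (25910664489481 / 21600000000000000) + η * e * (181374651426367 / 172800000000000000)) * x ^ 6 +
      (d * (1216481001987 / 10000000000000) + η * e * (8515367013909 / 80000000000000)) * x ^ 8 +
      (d * (-1477965682883 / 112500000000000) + η * e * (-10345759780181 / 900000000000000)) * x ^ 10 +
      (d * (-13258697327849 / 135000000000000) + η * e * (-92810881294943 / 1080000000000000)) * x ^ 12 +
      (d * (-2708762599829 / 65625000000000) + η * e * (-2708762599829 / 75000000000000)) * x ^ 14 +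
      (d * (-138203891683 / 28125000000000) + η * e * (-967427241781 / 225000000000000)) * x ^ 16 +
      η * d * (107450119320691 / 15360000000000000) * x ^ 3 +
      η * d * (-5084387056381577 / 192000000000000000) * x ^ 5 +
      η * d * (25910664489481 / 28800000000000000) * x ^ 7 +
      η * d * (2838455671303 / 30000000000000) * x ^ 9 +
      η * d * (-10345759780181 / 990000000000000) * x ^ 11 +
      η * d * (-92810881294943 / 1170000000000000) * x ^ 13 +
      η * d * (-18961338198803 / 562500000000000) * x ^ 15 +
      η * d * (-967427241781 / 239062500000000) * x ^ 17)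
      (nn η x * ((e + d * x) * SM x)) x := by
    intro x _
    have k := ((((((((((((((((((((((((hpow 0 (e * (15350017045813 / 640000000000000)) x).add (hpow 2 (e * (-726341008054511 / 14400000000000000)) x)).add (hpow 4 (e * (25910664489481 / 18000000000000000)) x)).add (hpow 6 (e * (1216481001987 / 8750000000000)) x)).add (hpow 8 (e * (-1477965682883 / 101250000000000)) x)).add (hpow 10 (e * (-13258697327849 / 123750000000000)) x)).add (hpow 12 (e * (-208366353833 / 4687500000000)) x)).add (hpow 14 (e * (-138203891683 / 26367187500000)) x)).add (hpow 1 ((d * (15350017045813 / 1280000000000000) + η * e * (107450119320691 / 10240000000000000))) x)).add (hpow 3 ((d * (-726341008054511 / 19200000000000000) + η * e * (-5084387056381577 / 153600000000000000))) x)).add (hpow 5 ((d * (25910664489481 / 21600000000000000) + η * e * (181374651426367 / 172800000000000000))) x)).add (hpow 7 ((d * (1216481001987 / 10000000000000) + η * e * (8515367013909 / 80000000000000))) x)).add (hpow 9 ((d * (-1477965682883 / 112500000000000) + η * e * (-10345759780181 / 900000000000000)))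 x)).add (hpow 11 ((d * (-13258697327849 / 135000000000000) + η * e * (-92810881294943 / 1080000000000000))) x)).add (hpow 13 ((d * (-2708762599829 / 65625000000000) + η * e * (-2708762599829 / 75000000000000))) x)).add (hpow 15 ((d * (-138203891683 / 28125000000000) + η * e * (-967427241781 / 225000000000000))) x)).add (hpow 2 (η * d * (107450119320691 / 15360000000000000)) x)).add (hpow 4 (η * d * (-5084387056381577 / 192000000000000000)) x)).add (hpow 6 (η * d * (25910664489481 / 28800000000000000)) x)).add (hpow 8 (η * d * (2838455671303 / 30000000000000)) x)).add (hpow 10 (η * d * (-10345759780181 / 990000000000000)) x)).add (hpow 12 (η * d * (-92810881294943 / 1170000000000000)) x)).add (hpow 14 (η * d * (-18961338198803 / 562500000000000)) x)).add (hpow 16 (η * d * (-967427241781 / 239062500000000)) x))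
    refine k.congr_deriv ?_
    unfold nn SM
    simp only [hh, yu, Be]
    push_cast
    ring
  rw [intervalIntegral.integral_eq_sub_of_hasDerivAt hd
    ((nn_cont η).mul ((by fun_prop : Continuous fun x : ℝ => e + d * x).mul SM_cont) |>.intervalIntegrable _ _)]
  ring

theorem int_SW (η e d : ℝ) : ∫ x in (-(1 / 2) : ℝ)..(1 / 2), nn η x * ((e + d * x) * SW x) =
    1124003 / 68040000 * e + 74947 / 103680000 * (η * d) := by
  have hd : ∀ x ∈ uIcc (-(1 / 2) : ℝ) (1 / 2), HasDerivAt (fun x : ℝ =>
      e * (14237 / 576000) * x ^ 1 +
      e * (-41279 / 1296000) * x ^ 3 +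
      e * (-143 / 22500) * x ^ 5 +
      e * (619 / 63000) * x ^ 7 +
      e * (143 / 60750) * x ^ 9 +
      (d * (14237 / 1152000) + η * e * (99659 / 9216000)) * x ^ 2 +
      (d * (-41279 / 1728000) + η * e * (-288953 / 13824000)) * x ^ 4 +
      (d * (-143 / 27000) + η * e * (-1001 / 216000)) * x ^ 6 +
      (d * (619 / 72000) + η * e * (4333 / 576000)) * x ^ 8 +
      (d * (143 / 67500) + η * e * (1001 / 540000)) * x ^ 10 +
      η * d * (99659 / 13824000) * x ^ 3 +
      η * d * (-288953 / 17280000) * x ^ 5 +
      η * d * (-143 / 36000) * x ^ 7 +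
      η * d * (4333 / 648000) * x ^ 9 +
      η * d * (91 / 54000) * x ^ 11)
      (nn η x * ((e + d * x) * SW x)) x := by
    intro x _
    have k := (((((((((((((((hpow 0 (e * (14237 / 576000)) x).add (hpow 2 (e * (-41279 / 1296000)) x)).add (hpow 4 (e * (-143 / 22500)) x)).add (hpow 6 (e * (619 / 63000)) x)).add (hpow 8 (e * (143 / 60750)) x)).add (hpow 1 ((d * (14237 / 1152000) + η * e * (99659 / 9216000))) x)).add (hpow 3 ((d * (-41279 / 1728000) + η * e * (-288953 / 13824000))) x)).add (hpow 5 ((d * (-143 / 27000) + η * e * (-1001 / 216000))) x)).add (hpow 7 ((d * (619 / 72000) + η * e * (4333 / 576000))) x)).add (hpow 9 ((d * (143 / 67500) + η * e * (1001 / 540000))) x)).add (hpow 2 (η * d * (99659 / 13824000)) x)).add (hpow 4 (η * d * (-288953 / 17280000)) x)).add (hpow 6 (η * d * (-143 / 36000)) x)).add (hpow 8 (η * d * (4333 / 648000)) x)).add (hpow 10 (η * d * (91 / 54000)) x))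
    refine k.congr_deriv ?_
    unfold nn SW
    simp only [hh, yu, Aw]
    push_cast
    ring
  rw [intervalIntegral.integral_eq_sub_of_hasDerivAt hd
    ((nn_cont η).mul ((by fun_prop : Continuous fun x : ℝ => e + d * x).mul SW_cont) |>.intervalIntegrable _ _)]
  ring

end Helper93.MEI.Blk
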