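import Pool.Agent.Helper93.MEI.Blk4

/-!
# Project MEI (M2), bulk terms of the first moments, V: the wall term and the moments

`momw_blk`: first moment of an arc `≤ 3/2 ju - 1/2 jl - (VA + VW)`, for every `τ ∈ [0, 1]`.
-/

set_option autoImplicit false

namespace Helper93.MEI.Blk

open Set MeasureTheory Filter Topology Metric
open Helper80.CW Helper22.Wedge Helper22.Sig Helper14.CW Helper14.MEI2 Helper93.MEI
open Helper22.MEI (s t FD FD_pos)
open Helper21.Sec Helper21.Mom Helper53.MEI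
open Pool.Agent.Helper95.MEI.Fub (Zp int_cont Zp_meas)
open Pool.Agent.Helper73.MEI
open scoped RealInnerProductSpace ContDiff Real

/-! ### the inner integral -/

theorem inner_w {η : ℝ} (hη : |η| ≤ 1) {X e w v : ℝ} (hX : |X| ≤ 1 / 2) (he : 0 ≤ e)
    (hw : 0 ≤ w) (hv : v = max (yy X - e / 3) 0) :
    nn η X * (√2 * (Aw X * v ^ 2 - w ^ 2 / 2)) ≤
      ∫ W in Ioo w (W0 X - √2 / 3 * e), √2 * W * f2 η (X, W) := by
  obtain ⟨n0, n1⟩ := nn_bd hη hX
  have hr := r2
  have hs2 : (0 : ℝ) < √2 := by positivity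
  have hX2 := sq_le_of_abs hX
  have hy : W0 X = √2 * yy X := by
    unfold yy
    linear_combination (-(W0 X) / 2) * hr
  have hyl := (yy_le hX).1
  have hh0 := (sq_le4 hX).1
  have hv0 : 0 ≤ v := by rw [hv]; exact le_max_right _ _
  have hvy : v ≤ hh X / 3 := by
    rw [hv]
    refine max_le ?_ ?_
    · unfold hh; linarith
    · unfold hh; linarith
  have hAw : Aw X * v ^ 2 ≤ (1 - X ^ 2 / 2) * v ^ 2 - 6 * v ^ 4 := by
    have k1 : v ^ 2 ≤ hh X ^ 2 / 9 := by
      have := pow_le_pow_left₀ hv0 hvy 2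
      nlinarith
    have k2 := mul_le_mul_of_nonneg_left k1 (sq_nonneg v)
    unfold Aw
    nlinarith
  rcases le_or_gt (W0 X - √2 / 3 * e) w with hle | hlt
  · rw [Ioo_eq_empty (not_lt.2 hle), setIntegral_empty]
    refine mul_nonpos_of_nonneg_of_nonpos n0 (mul_nonpos_of_nonneg_of_nonpos hs2.le ?_)
    have k1 : √2 * v ≤ w := by
      rw [hv]
      rcases le_total 0 (yy X - e / 3) with h | h
      · rw [max_eq_left h]
        rw [hy] at hle
        linarith
      · rw [max_eq_right h, mul_zero]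
        exact hw
    have k2 : v ^ 2 ≤ w ^ 2 / 2 := by
      have := pow_le_pow_left₀ (by positivity) k1 2
      rw [mul_pow, sq √2, hr] at this
      linarith
    have k3 : 0 ≤ v ^ 4 := by positivity
    have k4 : (1 - X ^ 2 / 2) * v ^ 2 ≤ 1 * v ^ 2 :=
      mul_le_mul_of_nonneg_right (by nlinarith [sq_nonneg X]) (sq_nonneg v)
    linarith
  · set W1 := W0 X - √2 / 3 * e with hW1
    have hvW : √2 * v = W1 := by
      have : 0 < √2 * (yy X - e / 3) := by
        have e2 : √2 * (yy X - e / 3) = W1 := by rw [hW1, hy]; ring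
        rw [e2]; linarith
      have h3 : 0 < yy X - e / 3 := by
        by_contra hcon
        rw [not_lt] at hcon
        have := mul_nonpos_of_nonneg_of_nonpos hs2.le hcon
        linarith
      rw [hv, max_eq_left h3.le, hW1, hy]
      ring
    have hc : Continuous fun W : ℝ => √2 * W * f2 η (X, W) :=
      (by fun_prop : Continuous fun W : ℝ => √2 * W).mul ((f2_cont η).comp (by fun_prop))
    rw [← integral_Ioc_eq_integral_Ioo, ← intervalIntegral.integral_of_le hlt.le]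
    have h2 : ∫ W in w..W1, nn η X * (√2 * (W * (1 - (X ^ 2 / 2 + 6 * W ^ 2)))) ≤
        ∫ W in w..W1, √2 * W * f2 η (X, W) := by
      refine intervalIntegral.integral_mono_on hlt.le
        ((by fun_prop : Continuous fun W : ℝ => nn η X * (√2 * (W * (1 - (X ^ 2 / 2 + 6 * W ^ 2))))
          ).intervalIntegrable _ _) (hc.intervalIntegrable _ _) fun W hW => ?_
      have hW0 : 0 ≤ W := hw.trans hW.1
      have hz : 0 ≤ X ^ 2 / 2 + 6 * W ^ 2 := by positivity
      have k : nn η X * (1 - (X ^ 2 / 2 + 6 * W ^ 2)) ≤ f2 η (X, W) := by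
        unfold f2
        simp only
        rw [le_div_iff₀ (by linarith), mul_assoc]
        refine mul_le_of_le_one_right n0 ?_
        have e : (1 - (X ^ 2 / 2 + 6 * W ^ 2)) * (1 + X ^ 2 / 2 + 6 * W ^ 2) =
          1 - (X ^ 2 / 2 + 6 * W ^ 2) ^ 2 := by ring
        rw [e]
        have : 0 ≤ (X ^ 2 / 2 + 6 * W ^ 2) ^ 2 := by positivity
        linarith
      have k2 := mul_le_mul_of_nonneg_left k (mul_nonneg hs2.le hW0)
      linarith
    have h3 : ∫ W in w..W1, nn η X * (√2 * (W * (1 - (X ^ 2 / 2 + 6 * W ^ 2)))) =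
        nn η X * (√2 * (((1 - X ^ 2 / 2) / 2 * W1 ^ 2 - 3 / 2 * W1 ^ 4) -
          ((1 - X ^ 2 / 2) / 2 * w ^ 2 - 3 / 2 * w ^ 4))) := by
      rw [intervalIntegral.integral_const_mul, intervalIntegral.integral_const_mul]
      congr 2
      have hd : ∀ W ∈ uIcc w W1, HasDerivAt (fun W : ℝ =>
          (1 - X ^ 2 / 2) / 2 * W ^ 2 - 3 / 2 * W ^ 4)
          (W * (1 - (X ^ 2 / 2 + 6 * W ^ 2))) W := by
        intro W _
        have k := ((hasDerivAt_pow 2 W).const_mul ((1 - X ^ 2 / 2) / 2)).sub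
          ((hasDerivAt_pow 4 W).const_mul (3 / 2))
        refine k.congr_deriv ?_
        push_cast
        ring
      rw [intervalIntegral.integral_eq_sub_of_hasDerivAt hd
        ((by fun_prop : Continuous fun W : ℝ => W * (1 - (X ^ 2 / 2 + 6 * W ^ 2))
          ).intervalIntegrable _ _)]
    refine le_trans ?_ h2
    rw [h3]
    refine mul_le_mul_of_nonneg_left (mul_le_mul_of_nonneg_left ?_ hs2.le) n0
    have e2 : W1 ^ 2 = 2 * v ^ 2 := by rw [← hvW, mul_pow, sq √2, hr]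
    have e4 : W1 ^ 4 = 4 * v ^ 4 := by
      have : W1 ^ 4 = (W1 ^ 2) ^ 2 := by ring
      rw [this, e2]; ring
    rw [e2, e4]
    have k1 : (1 - X ^ 2 / 2) / 2 * w ^ 2 ≤ 1 / 2 * w ^ 2 :=
      mul_le_mul_of_nonneg_right (by nlinarith [sq_nonneg X]) (sq_nonneg w)
    have k2 : 0 ≤ w ^ 4 := by positivity
    linarith

/-! ### the integral over the lower region of the wall -/

/-- value of the wall term -/
noncomputable def VW (τ η e d : ℝ) : ℝ :=
  τ * (2 - τ) * (235968539 / 152681760000) -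
    τ * (1124003 / 68040000 * e + 74947 / 103680000 * (η * d))

theorem int_PS (τ η e d : ℝ) :
    ∫ X in (-(1 / 2) : ℝ)..(1 / 2), (τ * (2 - τ) * (nn η X * PW X) -
      τ * (nn η X * ((e + d * X) * SW X))) = VW τ η e d := by
  have h1 := nn_cont η
  have h2 := SW_cont
  have c1 : Continuous fun X => τ * (2 - τ) * (nn η X * PW X) :=
    continuous_const.mul (h1.mul PW_cont)
  have c2 : Continuous fun X => τ * (nn η X * ((e + d * X) * SW X)) := by fun_prop
  rw [intervalIntegral.integral_sub (c1.intervalIntegrable _ _) (c2.intervalIntegrable _ _),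
    intervalIntegral.integral_const_mul, intervalIntegral.integral_const_mul, int_PW, int_SW]
  unfold VW
  ring

theorem Wlow_int_w {η : ℝ} (hη : |η| ≤ 1) {e d w C τ : ℝ} (hw : 0 ≤ w) (hC : 0 ≤ C)
    (hδ : ∀ X : ℝ, |X| ≤ 1 / 2 → 0 ≤ e + d * X) (hτ : 0 ≤ τ) (hτ1 : τ ≤ 1) :
    √2 * VW τ η e d - √2 / 4 * w ^ 2 - C ≤ ∫ r in Wlow e d w, (√2 * r.2 * f2 η r - C) := by
  have hr := r2
  have hs2 : (0 : ℝ) < √2 := by positivity
  have hH : Continuous (fun r : ℝ × ℝ => √2 * r.2 * f2 η r - C) :=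
    ((by fun_prop : Continuous fun r : ℝ × ℝ => √2 * r.2).mul (f2_cont η)).sub continuous_const
  obtain ⟨hi, hint⟩ := int_reg (f := fun _ => w) (g := fun X => W0 X - √2 / 3 * (e + d * X))
    (s := Ioc (-(1 / 2)) (1 / 2)) continuous_const (W0_cont.sub (by fun_prop))
    measurableSet_Ioc hH (Wlow_bdd hw hδ)
  have hW : Wlow e d w = regionBetween (fun _ => w) (fun X => W0 X - √2 / 3 * (e + d * X))
    (Ioc (-(1 / 2)) (1 / 2)) := rfl
  rw [hW, hint]
  have h2 := SW_cont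
  have h3 := PW_cont
  have hn := nn_cont η
  have c1 : Continuous fun X : ℝ => τ * (2 - τ) * (nn η X * PW X) -
      τ * (nn η X * ((e + d * X) * SW X)) := by fun_prop
  have hG : Continuous (fun X : ℝ => √2 * (τ * (2 - τ) * (nn η X * PW X) -
      τ * (nn η X * ((e + d * X) * SW X))) - √2 / 2 * w ^ 2 * nn η X - C) :=
    ((c1.const_mul _).sub (hn.const_mul _)).sub continuous_const
  have h1 : ∫ X in Ioc (-(1 / 2) : ℝ) (1 / 2), (√2 * (τ * (2 - τ) * (nn η X * PW X) -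
      τ * (nn η X * ((e + d * X) * SW X))) - √2 / 2 * w ^ 2 * nn η X - C) ≤
      ∫ x in Ioc (-(1 / 2) : ℝ) (1 / 2), ∫ y in Ioo w (W0 x - √2 / 3 * (e + d * x)),
      (√2 * (x, y).2 * f2 η (x, y) - C) := by
    refine setIntegral_mono_on
      ((hG.continuousOn.integrableOn_compact isCompact_Icc).mono_set Ioc_subset_Icc_self) hi
      measurableSet_Ioc fun x hx => ?_
    have hX : |x| ≤ 1 / 2 := abs_le.2 ⟨hx.1.le, hx.2⟩
    obtain ⟨n0, n1⟩ := nn_bd hη hX
    have he := hδ x hX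
    have hc : Continuous fun y : ℝ => √2 * y * f2 η (x, y) :=
      (by fun_prop : Continuous fun y : ℝ => √2 * y).mul ((f2_cont η).comp (by fun_prop))
    have hi1 : IntegrableOn (fun y : ℝ => √2 * y * f2 η (x, y))
        (Ioo w (W0 x - √2 / 3 * (e + d * x))) :=
      (hc.continuousOn.integrableOn_compact isCompact_Icc).mono_set Ioo_subset_Icc_self
    have hi2 : IntegrableOn (fun _ : ℝ => C) (Ioo w (W0 x - √2 / 3 * (e + d * x))) :=
      (continuous_const.continuousOn.integrableOn_compact isCompact_Icc).mono_set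
        Ioo_subset_Icc_self
    rw [integral_sub hi1 hi2, setIntegral_const, Real.volume_real_Ioo, smul_eq_mul]
    have k1 := inner_w hη hX he hw rfl
    have k2 : max (W0 x - √2 / 3 * (e + d * x) - w) 0 * C ≤ 1 * C := by
      refine mul_le_mul_of_nonneg_right (max_le ?_ zero_le_one) hC
      have := W0_le x
      have : 0 ≤ √2 / 3 * (e + d * x) := mul_nonneg (by positivity) he
      linarith
    obtain ⟨y0, _, yl', yu'⟩ := yy_facts hX
    obtain ⟨h0, h4⟩ := sq_le4 hX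
    have hh0 : 0 ≤ hh x := h0
    have hh4 : hh x ≤ 1 / 4 := h4
    have hX2 := sq_le_of_abs hX
    have hAw : 0 ≤ Aw x := by unfold Aw; nlinarith
    have hyl : yl x ≤ yy x := yl'
    have hyu : yy x ≤ yu x := yu'
    have hyl0 : 0 ≤ yl x := by
      unfold yl
      have : 0 ≤ hh x * (1 - 1 / 3 * hh x + 0.18 * hh x ^ 2) := mul_nonneg hh0 (by nlinarith)
      linarith
    have q2 := pp_sq hτ y0 (e := e + d * x) rfl (rfl : max (yy x - (e + d * x) / 3) 0 = _)
    set v := max (yy x - (e + d * x) / 3) 0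
    have j1 : τ * (2 - τ) * yl x ^ 2 ≤ τ * (2 - τ) * yy x ^ 2 :=
      mul_le_mul_of_nonneg_left (pow_le_pow_left₀ hyl0 hyl 2) (mul_nonneg hτ (by linarith))
    have j2 : τ * (2 / 3 * yy x) * (e + d * x) ≤ τ * (2 / 3 * yu x) * (e + d * x) := by
      refine mul_le_mul_of_nonneg_right (mul_le_mul_of_nonneg_left (by linarith) hτ) he
    have j3 : Aw x * (τ * (2 - τ) * yl x ^ 2 - τ * (2 / 3 * yu x) * (e + d * x)) ≤
        Aw x * v ^ 2 := mul_le_mul_of_nonneg_left (by linarith) hAw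
    have j4 := mul_le_mul_of_nonneg_left j3 (mul_nonneg n0 hs2.le)
    have j5 : √2 * (τ * (2 - τ) * (nn η x * PW x) - τ * (nn η x * ((e + d * x) * SW x))) =
      nn η x * √2 * (Aw x * (τ * (2 - τ) * yl x ^ 2 - τ * (2 / 3 * yu x) * (e + d * x))) := by
      unfold PW SW
      ring
    rw [j5]
    linarith
  refine le_trans (le_of_eq ?_) h1
  rw [← intervalIntegral.integral_of_le (by norm_num)]
  have d1 : Continuous fun X : ℝ => √2 * (τ * (2 - τ) * (nn η X * PW X) -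
      τ * (nn η X * ((e + d * X) * SW X))) := continuous_const.mul c1
  have d2 : Continuous fun X : ℝ => √2 / 2 * w ^ 2 * nn η X := continuous_const.mul hn
  have d3 : Continuous fun X : ℝ => √2 * (τ * (2 - τ) * (nn η X * PW X) -
      τ * (nn η X * ((e + d * X) * SW X))) - √2 / 2 * w ^ 2 * nn η X := d1.sub d2
  rw [intervalIntegral.integral_sub (d3.intervalIntegrable _ _) (by simp),
    intervalIntegral.integral_sub (d1.intervalIntegrable _ _) (d2.intervalIntegrable _ _),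
    intervalIntegral.integral_const_mul, intervalIntegral.integral_const_mul, int_PS, int_nn,
    intervalIntegral.integral_const]
  simp only [smul_eq_mul]
  ring

/-! ### the wall integrals of the body -/

variable {b : OrthonormalBasis (Fin 3) ℝ E3} {c : E3}

/-- the own wall -/
theorem own_wall {K : Set E3} {s1 s2 s3 s4 : ℝ} (hK : IsCompact K) (h : Bod b c K s1 s2 s3 s4)
    {η : ℝ} (hη : |η| ≤ 1) (ε : ℝ) (m : ℕ) :
    0 ≤ ∫ x in K, om η (co b c x) * Bf ε (co b c x) * jk (m + 1) (Tw b c ε x) := by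
  have hM : (0 : ℝ) < m + 1 := by positivity
  refine setIntegral_nonneg hK.isClosed.measurableSet fun x hx => ?_
  by_cases hc : (Tw b c ε x).2 ∈ Ioo (0 : ℝ) (1 / (m + 1)) ∧
      0 < √2 * (Tw b c ε x).1.2 - (Tw b c ε x).2
  · have h1 : 0 ≤ om η (co b c x) := by
      have := (nn_bd hη (h.X_le x hx)).1
      exact div_nonneg this (by have := FD_pos (co b c x); positivity)
    have h2 : 0 < Bf ε (co b c x) := hc.1.1
    exact mul_nonneg (mul_nonneg h1 h2.le) (jk_nonneg hM _)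
  · rw [jk_zero hM hc, mul_zero]

/-- the opposite wall -/
theorem opp_wall {K : Set E3} {s1 s2 s3 s4 : ℝ} (hK : IsCompact K) (h : Bod b c K s1 s2 s3 s4)
    {η : ℝ} (hη : |η| ≤ 1) {ε : ℝ} (hε : ε = 1 ∨ ε = -1) {τ : ℝ} (hτ : 0 ≤ τ) (hτ1 : τ ≤ 1)
    (m : ℕ) :
    √2 * VW τ η (0.5774 * (s1 + s2) + 2 * (1 / ((m : ℝ) + 1))) (s1 - s2) -
      √2 / 4 * (√2 * (1 / ((m : ℝ) + 1))) ^ 2 - 2 * (1 / ((m : ℝ) + 1)) ≤
      ∫ x in K, om η (co b c x) * Bf ε (co b c x) * jk (m + 1) (Tw b c (-ε) x) := by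
  have hM : (0 : ℝ) < m + 1 := by positivity
  have hM1 : (1 : ℝ) / (m + 1) ≤ 1 := by
    rw [div_le_one hM]
    have : (0 : ℝ) ≤ m := Nat.cast_nonneg m
    linarith
  have hs1 := h.s1_nn
  have hs2 := h.s2_nn
  have hr := r2
  have hsq : (0 : ℝ) < √2 := by positivity
  have hpos : (0 : ℝ) < 1 / ((m : ℝ) + 1) := by positivity
  have hε' : -ε = 1 ∨ -ε = -1 := by
    rcases hε with h | h
    · right; rw [h]
    · left; rw [h]; norm_num
  have hδ : ∀ X : ℝ, |X| ≤ 1 / 2 →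
      0 ≤ (0.5774 * (s1 + s2) + 2 * (1 / ((m : ℝ) + 1))) + (s1 - s2) * X := by
    intro X hX
    have := e1_nonneg hs1 hs2 hX
    unfold e1 at this
    linarith
  have hw : 0 ≤ √2 * (1 / ((m : ℝ) + 1)) := by positivity
  have h1 := Wlow_int_w hη hw (C := 2 * (1 / ((m : ℝ) + 1))) (by positivity) hδ hτ hτ1
  refine h1.trans ?_
  -- the weight
  set G : (ℝ × ℝ) × ℝ → ℝ := fun p => omh η p * max (√2 * p.1.2 - p.2) 0 with hG
  have hGc : Continuous G := (omh_cont η).mul (by fun_prop)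
  have e1 : ∫ x in K, om η (co b c x) * Bf ε (co b c x) * jk (m + 1) (Tw b c (-ε) x) =
      ∫ x in K, G (Tw b c (-ε) x) * jk (m + 1) (Tw b c (-ε) x) := by
    refine integral_congr_ae (Eventually.of_forall fun x => ?_)
    simp only
    by_cases hc : (Tw b c (-ε) x).2 ∈ Ioo (0 : ℝ) (1 / ((m : ℝ) + 1)) ∧
        0 < √2 * (Tw b c (-ε) x).1.2 - (Tw b c (-ε) x).2
    · rw [hG]
      simp only
      rw [max_eq_left hc.2.le, om_omh b c η hε']
      congr 2
      have e3 : (Tw b c (-ε) x).1.2 = (co b c x).2.2 - √2 / 4 := rfl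
      have e4 : (Tw b c (-ε) x).2 = √2 / 2 * ((co b c x).2.2 - √2 / 4) - -ε * (co b c x).2.1 := rfl
      rw [e3, e4]
      unfold Bf
      ring
    · rw [jk_zero hM hc, mul_zero, mul_zero]
  rw [e1, int_Tw b c hε' K (fun p => G p * jk (m + 1) p)]
  refine wall_lower_w hM (hK.image (Tw_cont b c (-ε))) (Wlow_meas _ _ _) (Wlow_bdd hw hδ)
    hGc ?_ (((by fun_prop : Continuous fun r : ℝ × ℝ => √2 * r.2).mul (f2_cont η)).sub
      continuous_const) ?_
  · rintro p ⟨x, hx, rfl⟩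
    exact mul_nonneg (omh_bd hη (h.X_le x hx)).1 (le_max_right _ _)
  intro r hr' l hl
  have e2 : 2 * (1 / ((m : ℝ) + 1)) = 2 / (m + 1) := by ring
  have e3 : √2 * (1 / ((m : ℝ) + 1)) = √2 / (m + 1) := by ring
  rw [e2, e3] at hr'
  obtain ⟨h2, h3⟩ := low_mem h hε' m hr' hl
  refine ⟨h2, h3, ?_⟩
  obtain ⟨X, W⟩ := r
  have hδX := hδ X
  unfold Wlow regionBetween at hr'
  simp only [mem_ofPred_eq, mem_Ioo, mem_Ioc] at hr'
  obtain ⟨⟨hXl, hXu⟩, hWl, hWu⟩ := hr'
  have hX : |X| ≤ 1 / 2 := abs_le.2 ⟨hXl.le, hXu⟩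
  have hW0 : 0 ≤ W := (lt_trans (by positivity) hWl).le
  have h4 := omh_lo hη hX hW0 hl.1.le (hl.2.le.trans hM1)
  have h5 := hl.2.le
  have h6 : 0 < √2 * W - l := lt_of_lt_of_le hpos h3
  have hδ2 := hδX hX
  rw [e2] at hδ2
  have hWy : √2 * W ≤ 1 / 6 := by
    have k1 := (yy_le hX).2
    have k2 : yy X = √2 / 2 * W0 X := rfl
    have k3 : W ≤ W0 X := by
      have : 0 ≤ √2 / 3 * (0.5774 * (s1 + s2) + 2 / ((m : ℝ) + 1) + (s1 - s2) * X) :=
        mul_nonneg (by positivity) hδ2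
      linarith
    have k4 := mul_le_mul_of_nonneg_left k3 hsq.le
    linarith
  obtain ⟨n0, n1⟩ := nn_bd hη hX
  have hf2 : 0 ≤ f2 η (X, W) ∧ f2 η (X, W) ≤ 0.72 := by
    unfold f2
    simp only
    have hD : (1 : ℝ) ≤ 1 + X ^ 2 / 2 + 6 * W ^ 2 := by
      have : 0 ≤ X ^ 2 / 2 + 6 * W ^ 2 := by positivity
      linarith
    exact ⟨div_nonneg n0 (by linarith), (div_le_self n0 hD).trans n1⟩
  rw [hG]
  simp only
  rw [max_eq_left h6.le]
  have k1 := mul_le_mul_of_nonneg_right h4 h6.le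
  have hl0 := hl.1
  have k2 : (f2 η (X, W) - 3 * l) * (√2 * W - l) ≥ √2 * W * f2 η (X, W) - 2 * l := by
    have k3 : l * f2 η (X, W) ≤ l * 0.72 := mul_le_mul_of_nonneg_left hf2.2 hl0.le
    have k4 : l * (√2 * W) ≤ l * (1 / 6) := mul_le_mul_of_nonneg_left hWy hl0.le
    nlinarith [sq_nonneg l]
  linarith

/-- **flux of the second bulk term** -/
theorem flux_B {σ : Measure (E3 × E3)} [IsFiniteMeasure σ] {K : Set E3} (hK : IsCompact K)
    (hσ : ∀ᵐ z ∂σ, z.1 ∈ K ∧ z.2 ∈ K)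
    (hU : ∀ G : E3 → E3, ContDiff ℝ ∞ G → ∫ z, ⟪G z.1, z.1 - z.2⟫ ∂σ = ∫ x in K, dvg G x)
    {s1 s2 s3 s4 : ℝ} (h : Bod b c K s1 s2 s3 s4) {η : ℝ} (hη : |η| ≤ 1) {ε : ℝ}
    (hε : ε = 1 ∨ ε = -1) {τ : ℝ} (hτ : 0 ≤ τ) (hτ1 : τ ≤ 1) :
    (∫ x in K ∩ EC b c, fderiv ℝ (fun y => om η (co b c y) * Bf ε (co b c y)) x (b 2)) +
      VW τ η (0.5774 * (s1 + s2)) (s1 - s2) ≤
      ∫ z in {z | z.1 ∈ EC b c}, om η (co b c z.1) * Bf ε (co b c z.1) * ⟪b 2, z.1 - z.2⟫ ∂σ := by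
  have hl := fluxg_lim b c hK hσ hU (gB_cd (b := b) (c := c) η ε) (b 2)
  rw [cel_eq, (nuw_b b 0).1, (nuw_b b 1).1] at hl
  have h1 := lim_inv
  have hlim : Tendsto (fun m : ℕ => √2 / 2 * (√2 * VW τ η (0.5774 * (s1 + s2) +
      2 * (1 / ((m : ℝ) + 1))) (s1 - s2) - √2 / 4 * (√2 * (1 / ((m : ℝ) + 1))) ^ 2 -
      2 * (1 / ((m : ℝ) + 1)))) atTop (𝓝 (VW τ η (0.5774 * (s1 + s2)) (s1 - s2))) := by
    have hc : Continuous (fun u : ℝ => √2 / 2 * (√2 * VW τ η (0.5774 * (s1 + s2) +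
      2 * u) (s1 - s2) - √2 / 4 * (√2 * u) ^ 2 - 2 * u)) := by
      unfold VW
      fun_prop
    have h2 := (hc.tendsto 0).comp h1
    refine h2.congr' ?_ |>.trans (le_of_eq ?_)
    · exact Eventually.of_forall fun m => rfl
    · congr 1
      have hr := r2
      simp only [mul_zero, add_zero, sub_zero, ne_eq, OfNat.ofNat_ne_zero, not_false_eq_true,
        zero_pow]
      linear_combination (VW τ η (0.5774 * (s1 + s2)) (s1 - s2) / 2) * hr
  have h3 := le_of_tendsto_of_tendsto' hlim hl fun m => by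
    have k1 := own_wall hK h hη ε m
    have k2 := opp_wall hK h hη hε hτ hτ1 m
    have k3 : √2 / 2 * (√2 * VW τ η (0.5774 * (s1 + s2) +
      2 * (1 / ((m : ℝ) + 1))) (s1 - s2) - √2 / 4 * (√2 * (1 / ((m : ℝ) + 1))) ^ 2 -
      2 * (1 / ((m : ℝ) + 1))) ≤ √2 / 2 *
        (∫ x in K, om η (co b c x) * Bf ε (co b c x) * jk (m + 1) (Tw b c (-ε) x)) :=
      mul_le_mul_of_nonneg_left k2 (by positivity)
    have k4 : 0 ≤ √2 / 2 *
        (∫ x in K, om η (co b c x) * Bf ε (co b c x) * jk (m + 1) (Tw b c ε x)) :=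
      mul_nonneg (by positivity) k1
    rcases hε with h | h
    · rw [h] at k3 k4 ⊢
      linarith
    · rw [h] at k3 k4 ⊢
      rw [neg_neg] at k3
      linarith
  linarith

/-! ### the moments -/

section main
variable {a : Fin 4 → E3} (ha : ∀ i j, i ≠ j → dist (a i) (a j) = 1)
  {K : Set E3} {σ : Measure (E3 × E3)} [IsFiniteMeasure σ] (h : Pool.Agent.Helper73.MEI.PM K σ)
  (hcomp : ∀ p : E3, (∀ q ∈ K, dist p q ≤ 1) → p ∈ K)
  (hpl : ∀ x ∈ K, Pl a x) (hb : Fr a b)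
  {S : Fin 4 → ℝ} (hQ : ∀ x ∈ K, ∀ i, Qv a i x ≤ S i) (hS0 : ∀ i, 0 ≤ S i)

include ha hb in
theorem bar_Bf {k k' : Fin 4} {ε : ℝ} (hk : ks k ε k') (x : E3) :
    bar a k x = -Bf ε (co b (cen a) x) := by
  have hG := gram_of_dist ha
  obtain ⟨f0, f1, f2⟩ := frame_e hG hb.1 hb.2.1 hb.2.2 x
  have e1 : (co b (cen a) x).2.1 = eY a x := f1
  have e2 : (co b (cen a) x).2.2 = √2 / 4 + eW a x := f2
  have r := r2
  unfold Bf
  rw [e1, e2]
  unfold eY eW
  rcases hk with ⟨h1, h2, _⟩ | ⟨h1, h2, _⟩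
  · rw [h1, h2]
    linear_combination (-(1 / 4) * (bar a 2 x + bar a 3 x)) * r
  · rw [h1, h2]
    linear_combination (-(1 / 4) * (bar a 2 x + bar a 3 x)) * r

include ha h hcomp hpl hb hQ hS0 in
/-- **the two bulk terms** -/
theorem bulk_lo (i : Bool) {k k' : Fin 4} {ε : ℝ} (hk : ks k ε k') {τ : ℝ} (hτ : 0 ≤ τ)
    (hτ1 : τ ≤ 1) :
    VA τ (sg i) (S 0 + S 1) (S 0 - S 1) + VW τ (sg i) (0.5774 * (S 0 + S 1)) (S 0 - S 1) ≤
      (∫ x in K ∩ EC b (cen a), fderiv ℝ (fun y => om (sg i) (co b (cen a) y)) x (be b ε)) -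
      ∫ z in Zp a 2 3, Helper37.MEI.wt a i z.1 * bar a k z.1 ∂σ := by
  have hG := gram_of_dist ha
  have hB := Helper21.Alp.bod ha hcomp hpl hb hQ hS0
  have hε : ε = 1 ∨ ε = -1 := by
    rcases hk with ⟨_, h2, _⟩ | ⟨_, h2, _⟩
    · exact Or.inl h2
    · exact Or.inr h2
  have hv := vol_lo h.cpt hB (sg_abs i) hε hτ hτ1
  have hf := flux_B h.cpt h.mem h.flux hB (sg_abs i) hε hτ hτ1
  have g1 : ContDiff ℝ ∞ (fun y => om (sg i) (co b (cen a) y)) :=
    (om_cd (sg i)).comp (co_cdn b (cen a))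
  have g2 : ContDiff ℝ ∞ (fun y => om (sg i) (co b (cen a) y) * Bf ε (co b (cen a) y)) :=
    gB_cd (sg i) ε
  have i1 : IntegrableOn (fun x : E3 =>
      fderiv ℝ (fun y => om (sg i) (co b (cen a) y)) x (be b ε)) (K ∩ EC b (cen a)) :=
    (((g1.continuous_fderiv (by simp)).clm_apply continuous_const).continuousOn.integrableOn_compact
      h.cpt).mono_set inter_subset_left
  have i2 : IntegrableOn (fun x : E3 =>
      fderiv ℝ (fun y => om (sg i) (co b (cen a) y) * Bf ε (co b (cen a) y)) x (b 2))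
      (K ∩ EC b (cen a)) :=
    (((g2.continuous_fderiv (by simp)).clm_apply continuous_const).continuousOn.integrableOn_compact
      h.cpt).mono_set inter_subset_left
  rw [integral_add i1 i2] at hv
  -- the first term
  have hwc := Helper37.MEI.wt_cont a i
  have hbc := Pool.Agent.Helper95.MEI.Fub.bar_cont a k
  have h2 : ∫ z in {z | z.1 ∈ EC b (cen a)}, om (sg i) (co b (cen a) z.1) *
      Bf ε (co b (cen a) z.1) * ⟪b 2, z.1 - z.2⟫ ∂σ ≤
      -∫ z in Zp a 2 3, Helper37.MEI.wt a i z.1 * bar a k z.1 ∂σ := by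
    rw [← Helper21.Alp.Zp_eq ha hb, ← integral_neg]
    have j1 : Integrable (fun z : E3 × E3 => om (sg i) (co b (cen a) z.1) *
        Bf ε (co b (cen a) z.1) * ⟪b 2, z.1 - z.2⟫) σ :=
      int_cont h.cpt h.mem ((g2.continuous.comp continuous_fst).mul (by fun_prop))
    have j2 : Integrable (fun z : E3 × E3 => -(Helper37.MEI.wt a i z.1 * bar a k z.1)) σ :=
      int_cont h.cpt h.mem
        (((hwc.comp continuous_fst).mul (hbc.comp continuous_fst)).neg)
    refine integral_mono_ae j1.integrableOn j2.integrableOn ?_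
    filter_upwards [ae_restrict_mem (Zp_meas a 2 3), ae_restrict_of_ae (s := Zp a 2 3) h.ae]
      with z hz hm
    have hw0 := Helper37.MEI.wt_nonneg hG i (hpl _ hm.1)
    have e3 := bar_Bf ha hb hk z.1
    have hb0 : bar a k z.1 ≤ 0 := by
      rcases hk with ⟨h3, _, _⟩ | ⟨h3, _, _⟩
      · rw [h3]; exact hz.1.le
      · rw [h3]; exact hz.2.le
    have e4 : ⟪b 2, z.1 - z.2⟫ ≤ 1 := by
      have := real_inner_le_norm (b 2) (z.1 - z.2)
      rw [hm.2.2.1, b.norm_eq_one] at this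
      linarith
    rw [← wt_om ha hb i z.1]
    have e5 : Bf ε (co b (cen a) z.1) = -bar a k z.1 := by rw [e3, neg_neg]
    rw [e5]
    have e6 : 0 ≤ Helper37.MEI.wt a i z.1 * -bar a k z.1 := mul_nonneg hw0 (by linarith)
    have e7 := mul_le_mul_of_nonneg_left e4 e6
    linarith
  linarith

include ha h hcomp hpl hb hQ hS0 in
/-- **moment of an arc by the walls, with the bulk terms** -/
theorem momw_blk (i : Bool) {k k' : Fin 4} {ε : ℝ} (hk : ks k ε k') {τ : ℝ} (hτ : 0 ≤ τ)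
    (hτ1 : τ ≤ 1) :
    ∫ z in Zp a 2 3, Helper37.MEI.wt a i z.1 * bar a k z.2 ∂σ ≤
      3 / 2 * ju (S k') - 1 / 2 * jl (sg i) (S 0) (S 1) -
        (VA τ (sg i) (S 0 + S 1) (S 0 - S 1) +
          VW τ (sg i) (0.5774 * (S 0 + S 1)) (S 0 - S 1)) := by
  have h1 := momw_id ha h hcomp hpl hb hQ hS0 i hk
  have h2 := bulk_lo ha h hcomp hpl hb hQ hS0 i hk hτ hτ1
  linarith

end main

end Helper93.MEI.Blk
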