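import Pool.Agent.Helper93.MEI.Blk5
import Pool.Agent.Helper53.MEI.Mom6

/-!
# Project MEI (M2), bulk terms of the first moments, generic profile, I: the volume term
-/

set_option autoImplicit false

namespace Helper93.MEI.Blk

open Set MeasureTheory Filter Topology Metric
open Helper80.CW Helper22.Wedge Helper22.Sig Helper14.CW Helper14.MEI2 Helper93.MEI
open Helper22.MEI (s t FD FD_pos)
open Helper21.Sec Helper21.Mom Helper53.MEI
open scoped RealInnerProductSpace ContDiff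

variable {b : OrthonormalBasis (Fin 3) ℝ E3} {c : E3}

theorem gBF_cd {φ : ℝ → ℝ} {n : WithTop ℕ∞} (h : ContDiff ℝ n φ) (ε : ℝ) :
    ContDiff ℝ n (fun x : E3 => omF φ (co b c x) * Bf ε (co b c x)) :=
  ((omF_cd h).comp (co_cdn b c)).mul ((Bf_cd ε).comp (co_cdn b c))

/-- derivative in the third direction, second term -/
theorem fd_omFB {φ : ℝ → ℝ} (h : ContDiff ℝ 1 φ) (ε : ℝ) (x : E3) :
    fderiv ℝ (fun y => omF φ (co b c y) * Bf ε (co b c y)) x (b 2) =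
      omF φ (co b c x) * (√2 / 2) +
        Bf ε (co b c x) * -(φ (co b c x).1 * ((co b c x).2.2 - t) / (2 * FD (co b c x) ^ 2)) := by
  have h1 : DifferentiableAt ℝ (fun y => omF φ (co b c y)) x :=
    (((omF_cd h).comp (co_cdn b c)).differentiable one_ne_zero) x
  have h2 : DifferentiableAt ℝ (fun y => Bf ε (co b c y)) x :=
    (((Bf_cd ε (n := 1)).comp (co_cdn b c)).differentiable one_ne_zero) x
  have h3 := fderiv_fun_mul h1 h2
  rw [h3]
  simp only [add_apply, FunLike.coe_smul, Pi.smul_apply, smul_eq_mul]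
  have h4 : fderiv ℝ (fun y => omF φ (co b c y)) x (b 2) =
      -(φ (co b c x).1 * ((co b c x).2.2 - t) / (2 * FD (co b c x) ^ 2)) := by
    obtain ⟨⟨i00, i01, i02⟩, ⟨i10, i11, i12⟩, ⟨i20, i21, i22⟩⟩ := ibv b
    rw [fd_co b c (omF_cd h), i02, i12, i22]
    exact E3_omF h (co b c x)
  rw [fd_Bf, h4]

/-- the integrand of the bulk -/
noncomputable def FG (φ : ℝ → ℝ) (ε : ℝ) (q : ℝ × ℝ × ℝ) : ℝ :=
  φ q.1 * (√2 / 2 * (1 / (4 * FD q)) + 8 * (1 / (4 * FD q)) ^ 2 *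
    ((1 - (q.2.2 - √2 / 4)) * Bf ε q))

theorem FG_eq {φ : ℝ → ℝ} (h : ContDiff ℝ 1 φ) (ε : ℝ) (x : E3) :
    dG φ ε (co b c x) + fderiv ℝ (fun y => omF φ (co b c y) * Bf ε (co b c y)) x (b 2) =
      FG φ ε (co b c x) := by
  rw [fd_omFB h]
  have hD := FD_pos (co b c x)
  have ht : t = √2 / 4 := rfl
  unfold dG omF FG
  rw [ht]
  set X := (co b c x).1
  set Y := (co b c x).2.1
  set W := (co b c x).2.2 - √2 / 4 with hWd
  have hB : Bf ε (co b c x) = √2 / 2 * W - ε * Y := rfl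
  rw [hB]
  set D := FD (co b c x)
  field_simp
  ring

theorem FG_cont {φ : ℝ → ℝ} (cφ : Continuous φ) (ε : ℝ) :
    Continuous fun x : E3 => FG φ ε (co b c x) := by
  have hcc := (co_cd b c).continuous
  have hFD : Continuous (fun x : E3 => FD (co b c x)) :=
    (Helper37.MEI.FD_cdn (n := 0)).continuous.comp hcc
  have hB : Continuous fun x : E3 => Bf ε (co b c x) := (Bf_cd ε (n := 0)).continuous.comp hcc
  have hi : Continuous fun x : E3 => 1 / (4 * FD (co b c x)) :=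
    Continuous.div continuous_const (continuous_const.mul hFD) fun x => by
      have := FD_pos (co b c x)
      positivity
  have h1 : Continuous fun x : E3 => φ (co b c x).1 := cφ.comp (continuous_fst.comp hcc)
  have h2 : Continuous fun x : E3 => (co b c x).2.2 :=
    continuous_snd.comp (continuous_snd.comp hcc)
  unfold FG
  exact h1.mul ((hi.const_mul _).add (((hi.pow 2).const_mul 8).mul
    ((continuous_const.sub (h2.sub continuous_const)).mul hB)))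

theorem FG_nonneg {φ : ℝ → ℝ} {ε : ℝ} (hε : ε = 1 ∨ ε = -1) {x : E3}
    (h2 : 0 ≤ φ (co b c x).1) (hx : x ∈ EC b c) (hW : (co b c x).2.2 - √2 / 4 ≤ 1) :
    0 ≤ FG φ ε (co b c x) := by
  have h1 := Bf_nonneg hε hx
  have h3 := FD_pos (co b c x)
  have h4 : 0 ≤ 1 - ((co b c x).2.2 - √2 / 4) := by linarith
  unfold FG
  positivity

/-- **lower bound of the integrand on the cell** -/
theorem FG_lo {φ : ℝ → ℝ} {ε : ℝ} (hε : ε = 1 ∨ ε = -1) {x : E3} {a β : ℝ}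
    (hn : 0 ≤ φ (co b c x).1) (hx : x ∈ EC b c)
    (hW : (co b c x).2.2 - √2 / 4 ≤ 1)
    (ha : a ≤ 1 - (co b c x).1 ^ 2 / 2 -
      4 * ((co b c x).2.1 ^ 2 + ((co b c x).2.2 - √2 / 4) ^ 2))
    (hβ : β ≤ 8 * (1 - ((co b c x).2.2 - √2 / 4)) * (1 - (co b c x).1 ^ 2 -
      8 * ((co b c x).2.1 ^ 2 + ((co b c x).2.2 - √2 / 4) ^ 2))) :
    φ (co b c x).1 * (√2 / 2 * a + β * Bf ε (co b c x)) ≤ FG φ ε (co b c x) := by
  unfold FG
  have hB0 := Bf_nonneg hε hx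
  have hD := FD_pos (co b c x)
  have hFD : FD (co b c x) = 1 / 4 + (co b c x).1 ^ 2 / 8 +
    ((co b c x).2.1 ^ 2 + ((co b c x).2.2 - √2 / 4) ^ 2) := rfl
  set X := (co b c x).1
  set Y := (co b c x).2.1
  set W := (co b c x).2.2 - √2 / 4 with hWd
  set B := Bf ε (co b c x)
  set D := FD (co b c x)
  set r := 1 / (4 * D) with hr
  refine mul_le_mul_of_nonneg_left ?_ hn
  have hz : 4 * D = 1 + (X ^ 2 / 2 + 4 * (Y ^ 2 + W ^ 2)) := by rw [hFD]; ring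
  set z := X ^ 2 / 2 + 4 * (Y ^ 2 + W ^ 2) with hzd
  have hz0 : 0 ≤ z := by positivity
  have hr1 : 1 - z ≤ r := by
    rw [hr, hz, le_div_iff₀ (by linarith)]
    nlinarith [sq_nonneg z]
  have hr2 : 1 - 2 * z ≤ r ^ 2 := by
    rw [hr, hz, div_pow, one_pow, le_div_iff₀ (by positivity)]
    nlinarith [sq_nonneg z, mul_nonneg hz0 (sq_nonneg z)]
  have k1 : √2 / 2 * a ≤ √2 / 2 * r := mul_le_mul_of_nonneg_left (by linarith) (by positivity)
  have k2 : β ≤ 8 * r ^ 2 * (1 - W) := by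
    refine hβ.trans ?_
    have k3 : (1 - W) * (1 - X ^ 2 - 8 * (Y ^ 2 + W ^ 2)) ≤ (1 - W) * r ^ 2 :=
      mul_le_mul_of_nonneg_left (by rw [hzd] at hr2; linarith) (by linarith)
    linarith
  have k4 := mul_le_mul_of_nonneg_right k2 hB0
  linarith

/-! ### the lower function -/

/-- the lower function of the volume part, without the profile -/
noncomputable def Pk (τ sg d X : ℝ) : ℝ :=
  τ * (2 - τ) * PA X + τ ^ 2 * (3 - 2 * τ) * PM X -
    (τ * (e1 sg d X * SA X) + τ ^ 2 * (e1 sg d X * SM X))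

theorem Pk_cont (τ sg d : ℝ) : Continuous (Pk τ sg d) := by
  have h2 := PA_cont
  have h3 := PM_cont
  have h4 := SA_cont
  have h5 := SM_cont
  unfold Pk e1
  fun_prop

noncomputable def HG (φ : ℝ → ℝ) (ε : ℝ) (q : ℝ × (ℝ × ℝ)) : ℝ :=
  φ q.1 * (√2 / 2 * Al q.1) + φ q.1 * Be q.1 * (√2 / 2 * q.2.2 - ε * q.2.1)

theorem HG_cont {φ : ℝ → ℝ} (cφ : Continuous φ) (ε : ℝ) : Continuous (HG φ ε) := by
  have h2 := Al_cont
  have h3 := Be_cont
  unfold HG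
  fun_prop

theorem HG_le {K : Set E3} {s1 s2 s3 s4 : ℝ} (h : Bod b c K s1 s2 s3 s4) {φ : ℝ → ℝ}
    (hφ : ∀ X : ℝ, |X| ≤ 1 / 2 → 0 ≤ φ X) {ε : ℝ} (hε : ε = 1 ∨ ε = -1) {x : E3}
    (hx : Cw b c x ∈ Rg (s1 + s2) (s1 - s2)) : HG φ ε (Cw b c x) ≤ FG φ ε (co b c x) := by
  obtain ⟨a1, a2, a3, a4, a5, a6⟩ := Rg_facts h.s1_nn h.s2_nn hx
  have hE := (Rg_sub h hx).2
  obtain ⟨b0, b1⟩ := sq_le4 a1
  have hc : hh (Cw b c x).1 = 1 / 4 - (co b c x).1 ^ 2 := rfl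
  have hW : (Cw b c x).2.2 = (co b c x).2.2 - √2 / 4 := rfl
  have hY : (Cw b c x).2.1 = (co b c x).2.1 := rfl
  have hX : (Cw b c x).1 = (co b c x).1 := rfl
  rw [hY, hW, hc] at a5
  rw [hW, hc] at a6
  rw [hX] at b0 b1
  have k := FG_lo (φ := φ) (a := Al (co b c x).1) (β := Be (co b c x).1) hε (hφ _ a1) hE
    (by linarith) (by unfold Al hh; linarith) ?_
  · refine le_trans (le_of_eq ?_) k
    unfold HG Bf
    rw [hW, hY, hX]
    ring
  · unfold Be hh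
    have c1 : 0 ≤ 1 - (co b c x).1 ^ 2 - 8 / 3 * (1 / 4 - (co b c x).1 ^ 2) ^ 2 := by
      nlinarith
    have c2 : 8 * (1 - 0.5774 * (1 / 4 - (co b c x).1 ^ 2)) ≤
        8 * (1 - ((co b c x).2.2 - √2 / 4)) := by linarith
    have c3 : 1 - (co b c x).1 ^ 2 - 8 / 3 * (1 / 4 - (co b c x).1 ^ 2) ^ 2 ≤
      1 - (co b c x).1 ^ 2 - 8 * ((co b c x).2.1 ^ 2 + ((co b c x).2.2 - √2 / 4) ^ 2) := by
      linarith
    have c4 : 0 ≤ 8 * (1 - ((co b c x).2.2 - √2 / 4)) := by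
      have : 0 ≤ 8 * (1 - 0.5774 * (1 / 4 - (co b c x).1 ^ 2)) := by linarith
      linarith
    exact mul_le_mul c2 c3 c1 c4

/-! ### the section -/

theorem sec_loG {n τ s1 s2 X : ℝ} (hτ : 0 ≤ τ) (hτ1 : τ ≤ 1) (hn : 0 ≤ n) (h1 : 0 ≤ s1)
    (h2 : 0 ≤ s2) (hX : |X| ≤ 1 / 2) {v : ℝ} (hv : v = max (uu (s1 + s2) (s1 - s2) X) 0) :
    n * Pk τ (s1 + s2) (s1 - s2) X ≤ n * (√2 / 2 * Al X) * (cA * (√3 * v) ^ 2) +
      n * Be X * (cM * (√3 * v) ^ 3) := by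
  obtain ⟨y0, _, yl', yu'⟩ := yy_facts hX
  obtain ⟨h0, h4⟩ := sq_le4 hX
  have he := e1_nonneg h1 h2 hX
  obtain ⟨t1, t2, t3⟩ := s3b
  have hh0 : 0 ≤ hh X := h0
  have hh4 : hh X ≤ 1 / 4 := h4
  have hX2 := sq_le_of_abs hX
  have hAl : 0 ≤ Al X := by unfold Al; nlinarith
  have hBe : 0 ≤ Be X := by
    unfold Be
    have c1 : 0 ≤ 1 - X ^ 2 - 8 / 3 * hh X ^ 2 := by nlinarith
    have c2 : 0 ≤ 1 - 0.5774 * hh X := by linarith
    positivity
  have hyl : yl X ≤ yy X := yl'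
  have hyu : yy X ≤ yu X := yu'
  have hyl0 : 0 ≤ yl X := by
    unfold yl
    have : 0 ≤ hh X * (1 - 1 / 3 * hh X + 0.18 * hh X ^ 2) := mul_nonneg hh0 (by nlinarith)
    linarith
  have q2 := pp_sq hτ y0 (e := e1 (s1 + s2) (s1 - s2) X) rfl hv
  have q3 := pp_cu hτ y0 (e := e1 (s1 + s2) (s1 - s2) X) rfl hv
  set e := e1 (s1 + s2) (s1 - s2) X
  set y := yy X
  have s2l : (1.4142135 : ℝ) < √2 := by rw [Real.lt_sqrt (by norm_num)]; norm_num
  have s2u : √2 ≤ 1.4142136 := by rw [Real.sqrt_le_left (by norm_num)]; norm_num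
  have ca := cA_lo
  have cm := cM_lo
  have caU : cA ≤ 0.612606 := by unfold cA; nlinarith
  have cmU : cM ≤ 0.2703 := by unfold cM; nlinarith
  -- constants
  have k1 : 1.2995 ≤ √2 / 2 * (cA * 3) := by nlinarith
  have k2 : √2 / 2 * (cA * 3) ≤ 1.2997 := by nlinarith
  have k3 : 1.4044 ≤ cM * (3 * √3) := by nlinarith
  have k4 : cM * (3 * √3) ≤ 1.4046 := by nlinarith
  set A := √2 / 2 * (cA * 3) with hA
  set M := cM * (3 * √3) with hM
  have e1' : n * (√2 / 2 * Al X) * (cA * (√3 * v) ^ 2) +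
      n * Be X * (cM * (√3 * v) ^ 3) = n * (Al X * (A * v ^ 2) + Be X * (M * v ^ 3)) := by
    rw [hA, hM]
    linear_combination (n * (√2 / 2 * Al X) * cA * v ^ 2 +
      n * Be X * cM * √3 * v ^ 3) * t3
  rw [e1']
  have hP : n * Pk τ (s1 + s2) (s1 - s2) X = n * ((τ * (2 - τ) * PA X - τ * (e * SA X)) +
      (τ ^ 2 * (3 - 2 * τ) * PM X - τ ^ 2 * (e * SM X))) := by
    unfold Pk
    ring
  rw [hP]
  refine mul_le_mul_of_nonneg_left (add_le_add ?_ ?_) hn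
  · have j1 : τ * (2 - τ) * (1.2995 * yl X ^ 2) ≤ A * (τ * (2 - τ) * y ^ 2) := by
      have i1 : yl X ^ 2 ≤ y ^ 2 := pow_le_pow_left₀ hyl0 hyl 2
      have i2 : 1.2995 * yl X ^ 2 ≤ A * y ^ 2 := mul_le_mul k1 i1 (sq_nonneg _) (by linarith)
      have i3 := mul_le_mul_of_nonneg_left i2 (mul_nonneg hτ (by linarith : 0 ≤ 2 - τ))
      linarith
    have j2 : A * (τ * (2 / 3 * y) * e) ≤ τ * (e * (1.2997 * (2 / 3) * yu X)) := by
      have i1 : A * y ≤ 1.2997 * yu X := mul_le_mul k2 hyu y0 (by norm_num)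
      have i2 := mul_le_mul_of_nonneg_left i1 (mul_nonneg hτ he)
      linarith
    have j3 := mul_le_mul_of_nonneg_left q2 (by linarith : 0 ≤ A)
    have j4 := mul_le_mul_of_nonneg_left (show τ * (2 - τ) * (1.2995 * yl X ^ 2) -
      τ * (e * (1.2997 * (2 / 3) * yu X)) ≤ A * v ^ 2 by linarith) hAl
    refine le_trans (le_of_eq ?_) j4
    unfold PA SA
    ring
  · have j1 : τ ^ 2 * (3 - 2 * τ) * (1.4044 * yl X ^ 3) ≤ M * (τ ^ 2 * (3 - 2 * τ) * y ^ 3) := by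
      have i1 : yl X ^ 3 ≤ y ^ 3 := pow_le_pow_left₀ hyl0 hyl 3
      have i2 : 1.4044 * yl X ^ 3 ≤ M * y ^ 3 := mul_le_mul k3 i1 (by positivity) (by linarith)
      have i3 := mul_le_mul_of_nonneg_left i2
        (mul_nonneg (sq_nonneg τ) (by linarith : 0 ≤ 3 - 2 * τ))
      linarith
    have j2 : M * (τ ^ 2 * y ^ 2 * e) ≤ τ ^ 2 * (e * (1.4046 * yu X ^ 2)) := by
      have i0 : y ^ 2 ≤ yu X ^ 2 := pow_le_pow_left₀ y0 hyu 2
      have i1 : M * y ^ 2 ≤ 1.4046 * yu X ^ 2 := mul_le_mul k4 i0 (sq_nonneg _) (by norm_num)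
      have i2 := mul_le_mul_of_nonneg_left i1 (mul_nonneg (sq_nonneg τ) he)
      linarith
    have j3 := mul_le_mul_of_nonneg_left q3 (by linarith : 0 ≤ M)
    have j4 := mul_le_mul_of_nonneg_left (show τ ^ 2 * (3 - 2 * τ) * (1.4044 * yl X ^ 3) -
      τ ^ 2 * (e * (1.4046 * yu X ^ 2)) ≤ M * v ^ 3 by linarith) hBe
    refine le_trans (le_of_eq ?_) j4
    unfold PM SM
    ring

/-- **the volume term**, generic profile -/
theorem vol_loG {K : Set E3} (hK : IsCompact K) {s1 s2 s3 s4 : ℝ} (h : Bod b c K s1 s2 s3 s4)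
    {φ : ℝ → ℝ} (cφ : Continuous φ) (hφ : ∀ X : ℝ, |X| ≤ 1 / 2 → 0 ≤ φ X) {ε : ℝ}
    (hε : ε = 1 ∨ ε = -1) {τ : ℝ} (hτ : 0 ≤ τ) (hτ1 : τ ≤ 1) :
    ∫ X in (-(1 / 2) : ℝ)..(1 / 2), φ X * Pk τ (s1 + s2) (s1 - s2) X ≤
      ∫ x in K ∩ EC b c, FG φ ε (co b c x) := by
  have hs1 := h.s1_nn
  have hs2 := h.s2_nn
  have hEm : MeasurableSet (EC b c) := by
    rw [← cel_eq]; exact (Cel_open _ _).measurableSet
  have hKE : MeasurableSet (K ∩ EC b c) := hK.isClosed.measurableSet.inter hEm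
  have hFc : Continuous fun x : E3 => FG φ ε (co b c x) := FG_cont cφ ε
  have hFi : IntegrableOn (fun x : E3 => FG φ ε (co b c x)) K :=
    hFc.continuousOn.integrableOn_compact hK
  have hsub := Rg_sub h
  have hRm : MeasurableSet (Cw b c ⁻¹' Rg (s1 + s2) (s1 - s2)) :=
    (Cw_cont b c).measurable (Rg_meas _ _)
  have hW1 : ∀ x ∈ K, (co b c x).2.2 - √2 / 4 ≤ 1 := fun x hx => by
    have h2 := h.W_le x hx
    have s2l : (1.4142135 : ℝ) < √2 := by rw [Real.lt_sqrt (by norm_num)]; norm_num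
    by_contra hcon
    rw [not_le] at hcon
    nlinarith
  have st1 : ∫ x in Cw b c ⁻¹' Rg (s1 + s2) (s1 - s2), FG φ ε (co b c x) ≤
      ∫ x in K ∩ EC b c, FG φ ε (co b c x) := by
    refine setIntegral_mono_set (hFi.mono_set inter_subset_left) ?_ hsub.eventuallyLE
    refine (ae_restrict_iff' hKE).2 (ae_of_all _ fun x hx => ?_)
    exact FG_nonneg hε (hφ _ (h.X_le x hx.1)) hx.2 (hW1 x hx.1)
  have hHc : Continuous fun x : E3 => HG φ ε (Cw b c x) := (HG_cont cφ ε).comp (Cw_cont b c)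
  have st2 : ∫ x in Cw b c ⁻¹' Rg (s1 + s2) (s1 - s2), HG φ ε (Cw b c x) ≤
      ∫ x in Cw b c ⁻¹' Rg (s1 + s2) (s1 - s2), FG φ ε (co b c x) := by
    refine setIntegral_mono_on
      ((hHc.continuousOn.integrableOn_compact hK).mono_set (hsub.trans inter_subset_left))
      (hFi.mono_set (hsub.trans inter_subset_left)) hRm fun x hx => HG_le h hφ hε hx
  rw [int_Cw b c] at st2
  refine le_trans ?_ (st2.trans st1)
  refine int_lo3 (Rg_meas _ _) (Rg_bdd hs1 hs2) (HG_cont cφ ε) (cφ.mul (Pk_cont τ _ _))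
    (by norm_num) (fun X hX => ?_) (fun X hX w hw => hX hw.1)
  have hX' : |X| ≤ 1 / 2 := abs_le.2 ⟨hX.1.le, hX.2⟩
  have k := sec_loG hτ hτ1 (hφ X hX') hs1 hs2 hX' rfl
  rcases lt_or_ge 0 (uu (s1 + s2) (s1 - s2) X) with hu | hu
  · have e : {w : ℝ × ℝ | (X, w) ∈ Rg (s1 + s2) (s1 - s2)} =
        Sc (√3 * uu (s1 + s2) (s1 - s2) X) := by
      ext w
      unfold Rg
      simp only [mem_ofPred_eq, hX, hu, true_and]
    rw [e]
    have hL : 0 < √3 * uu (s1 + s2) (s1 - s2) X := by positivity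
    have k2 := Sc_int hL (φ X * (√2 / 2 * Al X)) (φ X * Be X) ε
    rw [max_eq_left hu.le] at k
    rw [← k2] at k
    exact k
  · have e : {w : ℝ × ℝ | (X, w) ∈ Rg (s1 + s2) (s1 - s2)} = ∅ := by
      ext w
      unfold Rg
      simp only [mem_ofPred_eq, mem_empty_iff_false, iff_false, not_and]
      intro _ h3
      exact absurd h3 (not_lt.2 hu)
    rw [e, setIntegral_empty]
    rw [max_eq_right hu] at k
    simpa using k

end Helper93.MEI.Blk
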