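import Pool.Agent.Helper93.MEI.Blk8

/-!
# Project MEI (M2), bulk terms of the first moments, generic profile, III: the numbers

`BK_num`: the bulk number of every profile with `φ x + φ (-x) = a0 + a1 x + a2 x²` and
`φ x - φ (-x) = β x` on `[0, 1/2]`.
-/

set_option autoImplicit false

namespace Helper93.MEI.Blk

open Set MeasureTheory
open Helper53.MEI

noncomputable def PAW (X : ℝ) : ℝ := PA X + PW X
noncomputable def SAW (X : ℝ) : ℝ := SA X + SW X

theorem PAW_cont : Continuous PAW := PA_cont.add PW_cont
theorem SAW_cont : Continuous SAW := SA_cont.add SW_cont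

theorem H_PAW0 : ∫ x in (0 : ℝ)..(1 / 2), x ^ 0 * PAW x = 69217264416397 / 19848628800000000 := by
  have hd : ∀ x ∈ uIcc (0 : ℝ) (1 / 2), HasDerivAt (fun x : ℝ =>
      (255857141581 / 19906560000000) * x ^ 1 +
      (-317787601967 / 9953280000000) * x ^ 3 +
      (19493384159 / 691200000000) * x ^ 5 +
      (107686969277 / 4354560000000) * x ^ 7 +
      (-117299881 / 11664000000) * x ^ 9 +
      (-217841963 / 47520000000) * x ^ 11 +
      (-415866497 / 63180000000) * x ^ 13 +
      (-1696951 / 1350000000) * x ^ 15 +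
      (-10797 / 21250000) * x ^ 17)
      (x ^ 0 * PAW x) x := by
    intro x _
    have k := (((((((((hpow 0 ((255857141581 / 19906560000000)) x).add (hpow 2 ((-317787601967 / 9953280000000)) x)).add (hpow 4 ((19493384159 / 691200000000)) x)).add (hpow 6 ((107686969277 / 4354560000000)) x)).add (hpow 8 ((-117299881 / 11664000000)) x)).add (hpow 10 ((-217841963 / 47520000000)) x)).add (hpow 12 ((-415866497 / 63180000000)) x)).add (hpow 14 ((-1696951 / 1350000000)) x)).add (hpow 16 ((-10797 / 21250000)) x))
    refine k.congr_deriv ?_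
    simp only [PAW, PA, PW, hh, yl, Al, Aw]
    push_cast
    ring
  rw [intervalIntegral.integral_eq_sub_of_hasDerivAt hd
    (((continuous_pow 0).mul PAW_cont).intervalIntegrable _ _)]
  ring

theorem H_PAW1 : ∫ x in (0 : ℝ)..(1 / 2), x ^ 1 * PAW x = 364306627273 / 660602880000000 := by
  have hd : ∀ x ∈ uIcc (0 : ℝ) (1 / 2), HasDerivAt (fun x : ℝ =>
      (255857141581 / 39813120000000) * x ^ 2 +
      (-317787601967 / 13271040000000) * x ^ 4 +
      (19493384159 / 829440000000) * x ^ 6 +
      (107686969277 / 4976640000000) * x ^ 8 +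
      (-117299881 / 12960000000) * x ^ 10 +
      (-217841963 / 51840000000) * x ^ 12 +
      (-415866497 / 68040000000) * x ^ 14 +
      (-1696951 / 1440000000) * x ^ 16 +
      (-3599 / 7500000) * x ^ 18)
      (x ^ 1 * PAW x) x := by
    intro x _
    have k := (((((((((hpow 1 ((255857141581 / 39813120000000)) x).add (hpow 3 ((-317787601967 / 13271040000000)) x)).add (hpow 5 ((19493384159 / 829440000000)) x)).add (hpow 7 ((107686969277 / 4976640000000)) x)).add (hpow 9 ((-117299881 / 12960000000)) x)).add (hpow 11 ((-217841963 / 51840000000)) x)).add (hpow 13 ((-415866497 / 68040000000)) x)).add (hpow 15 ((-1696951 / 1440000000)) x)).add (hpow 17 ((-3599 / 7500000)) x))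
    refine k.congr_deriv ?_
    simp only [PAW, PA, PW, hh, yl, Al, Aw]
    push_cast
    ring
  rw [intervalIntegral.integral_eq_sub_of_hasDerivAt hd
    (((continuous_pow 1).mul PAW_cont).intervalIntegrable _ _)]
  ring

theorem H_PAW2 : ∫ x in (0 : ℝ)..(1 / 2), x ^ 2 * PAW x = 575460556973143 / 4525487366400000000 := by
  have hd : ∀ x ∈ uIcc (0 : ℝ) (1 / 2), HasDerivAt (fun x : ℝ =>
      (255857141581 / 59719680000000) * x ^ 3 +
      (-317787601967 / 16588800000000) * x ^ 5 +
      (19493384159 / 967680000000) * x ^ 7 +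
      (107686969277 / 5598720000000) * x ^ 9 +
      (-117299881 / 14256000000) * x ^ 11 +
      (-217841963 / 56160000000) * x ^ 13 +
      (-415866497 / 72900000000) * x ^ 15 +
      (-1696951 / 1530000000) * x ^ 17 +
      (-10797 / 23750000) * x ^ 19)
      (x ^ 2 * PAW x) x := by
    intro x _
    have k := (((((((((hpow 2 ((255857141581 / 59719680000000)) x).add (hpow 4 ((-317787601967 / 16588800000000)) x)).add (hpow 6 ((19493384159 / 967680000000)) x)).add (hpow 8 ((107686969277 / 5598720000000)) x)).add (hpow 10 ((-117299881 / 14256000000)) x)).add (hpow 12 ((-217841963 / 56160000000)) x)).add (hpow 14 ((-415866497 / 72900000000)) x)).add (hpow 16 ((-1696951 / 1530000000)) x)).add (hpow 18 ((-10797 / 23750000)) x))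
    refine k.congr_deriv ?_
    simp only [PAW, PA, PW, hh, yl, Al, Aw]
    push_cast
    ring
  rw [intervalIntegral.integral_eq_sub_of_hasDerivAt hd
    (((continuous_pow 2).mul PAW_cont).intervalIntegrable _ _)]
  ring

theorem H_PM0 : ∫ x in (0 : ℝ)..(1 / 2), x ^ 0 * PM x = 20303684125439846637733 / 22870505001093750000000000 := by
  have hd : ∀ x ∈ uIcc (0 : ℝ) (1 / 2), HasDerivAt (fun x : ℝ =>
      (663617195619103669 / 179159040000000000000) * x ^ 1 +
      (-16820178806296177231 / 1343692800000000000000) * x ^ 3 +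
      (5052932811760662811 / 279936000000000000000) * x ^ 5 +
      (780039478396356697 / 39191040000000000000) * x ^ 7 +
      (-376751632698821719 / 6298560000000000000) * x ^ 9 +
      (-23013274708267483 / 1924560000000000000) * x ^ 11 +
      (28671169955827733 / 1421550000000000000) * x ^ 13 +
      (24208599259257433 / 820125000000000000) * x ^ 15 +
      (1102037020680899 / 46473750000000000) * x ^ 17 +
      (264368913492473 / 25970625000000000) * x ^ 19 +
      (174042969959 / 44296875000000) * x ^ 21 +
      (3402710227 / 4492187500000) * x ^ 23 +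
      (91226313 / 610351562500) * x ^ 25)
      (x ^ 0 * PM x) x := by
    intro x _
    have k := (((((((((((((hpow 0 ((663617195619103669 / 179159040000000000000)) x).add (hpow 2 ((-16820178806296177231 / 1343692800000000000000)) x)).add (hpow 4 ((5052932811760662811 / 279936000000000000000)) x)).add (hpow 6 ((780039478396356697 / 39191040000000000000)) x)).add (hpow 8 ((-376751632698821719 / 6298560000000000000)) x)).add (hpow 10 ((-23013274708267483 / 1924560000000000000)) x)).add (hpow 12 ((28671169955827733 / 1421550000000000000)) x)).add (hpow 14 ((24208599259257433 / 820125000000000000)) x)).add (hpow 16 ((1102037020680899 / 46473750000000000)) x)).add (hpow 18 ((264368913492473 / 25970625000000000)) x)).add (hpow 20 ((174042969959 / 44296875000000)) x)).add (hpow 22 ((3402710227 / 4492187500000)) x)).add (hpow 24 ((91226313 / 610351562500)) x))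
    refine k.congr_deriv ?_
    simp only [PM, hh, yl, Be]
    push_cast
    ring
  rw [intervalIntegral.integral_eq_sub_of_hasDerivAt hd
    (((continuous_pow 0).mul PM_cont).intervalIntegrable _ _)]
  ring

theorem H_PM1 : ∫ x in (0 : ℝ)..(1 / 2), x ^ 1 * PM x = 64926092355622706224321 / 516494013235200000000000000 := by
  have hd : ∀ x ∈ uIcc (0 : ℝ) (1 / 2), HasDerivAt (fun x : ℝ =>
      (663617195619103669 / 358318080000000000000) * x ^ 2 +
      (-16820178806296177231 / 1791590400000000000000) * x ^ 4 +
      (5052932811760662811 / 335923200000000000000) * x ^ 6 +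
      (780039478396356697 / 44789760000000000000) * x ^ 8 +
      (-376751632698821719 / 6998400000000000000) * x ^ 10 +
      (-23013274708267483 / 2099520000000000000) * x ^ 12 +
      (28671169955827733 / 1530900000000000000) * x ^ 14 +
      (24208599259257433 / 874800000000000000) * x ^ 16 +
      (1102037020680899 / 49207500000000000) * x ^ 18 +
      (264368913492473 / 27337500000000000) * x ^ 20 +
      (174042969959 / 46406250000000) * x ^ 22 +
      (3402710227 / 4687500000000) * x ^ 24 +
      (91226313 / 634765625000) * x ^ 26)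
      (x ^ 1 * PM x) x := by
    intro x _
    have k := (((((((((((((hpow 1 ((663617195619103669 / 358318080000000000000)) x).add (hpow 3 ((-16820178806296177231 / 1791590400000000000000)) x)).add (hpow 5 ((5052932811760662811 / 335923200000000000000)) x)).add (hpow 7 ((780039478396356697 / 44789760000000000000)) x)).add (hpow 9 ((-376751632698821719 / 6998400000000000000)) x)).add (hpow 11 ((-23013274708267483 / 2099520000000000000)) x)).add (hpow 13 ((28671169955827733 / 1530900000000000000)) x)).add (hpow 15 ((24208599259257433 / 874800000000000000)) x)).add (hpow 17 ((1102037020680899 / 49207500000000000)) x)).add (hpow 19 ((264368913492473 / 27337500000000000)) x)).add (hpow 21 ((174042969959 / 46406250000000)) x)).add (hpow 23 ((3402710227 / 4687500000000)) x)).add (hpow 25 ((91226313 / 634765625000)) x))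
    refine k.congr_deriv ?_
    simp only [PM, hh, yl, Be]
    push_cast
    ring
  rw [intervalIntegral.integral_eq_sub_of_hasDerivAt hd
    (((continuous_pow 1).mul PM_cont).intervalIntegrable _ _)]
  ring

theorem H_PM2 : ∫ x in (0 : ℝ)..(1 / 2), x ^ 2 * PM x = 2399979975230200843891 / 91482020004375000000000000 := by
  have hd : ∀ x ∈ uIcc (0 : ℝ) (1 / 2), HasDerivAt (fun x : ℝ =>
      (663617195619103669 / 537477120000000000000) * x ^ 3 +
      (-16820178806296177231 / 2239488000000000000000) * x ^ 5 +
      (5052932811760662811 / 391910400000000000000) * x ^ 7 +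
      (780039478396356697 / 50388480000000000000) * x ^ 9 +
      (-376751632698821719 / 7698240000000000000) * x ^ 11 +
      (-23013274708267483 / 2274480000000000000) * x ^ 13 +
      (28671169955827733 / 1640250000000000000) * x ^ 15 +
      (24208599259257433 / 929475000000000000) * x ^ 17 +
      (1102037020680899 / 51941250000000000) * x ^ 19 +
      (264368913492473 / 28704375000000000) * x ^ 21 +
      (174042969959 / 48515625000000) * x ^ 23 +
      (3402710227 / 4882812500000) * x ^ 25 +
      (10136257 / 73242187500) * x ^ 27)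
      (x ^ 2 * PM x) x := by
    intro x _
    have k := (((((((((((((hpow 2 ((663617195619103669 / 537477120000000000000)) x).add (hpow 4 ((-16820178806296177231 / 2239488000000000000000)) x)).add (hpow 6 ((5052932811760662811 / 391910400000000000000)) x)).add (hpow 8 ((780039478396356697 / 50388480000000000000)) x)).add (hpow 10 ((-376751632698821719 / 7698240000000000000)) x)).add (hpow 12 ((-23013274708267483 / 2274480000000000000)) x)).add (hpow 14 ((28671169955827733 / 1640250000000000000)) x)).add (hpow 16 ((24208599259257433 / 929475000000000000)) x)).add (hpow 18 ((1102037020680899 / 51941250000000000)) x)).add (hpow 20 ((264368913492473 / 28704375000000000)) x)).add (hpow 22 ((174042969959 / 48515625000000)) x)).add (hpow 24 ((3402710227 / 4882812500000)) x)).add (hpow 26 ((10136257 / 73242187500)) x))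
    refine k.congr_deriv ?_
    simp only [PM, hh, yl, Be]
    push_cast
    ring
  rw [intervalIntegral.integral_eq_sub_of_hasDerivAt hd
    (((continuous_pow 2).mul PM_cont).intervalIntegrable _ _)]
  ring

theorem H_SAW0 : ∫ x in (0 : ℝ)..(1 / 2), x ^ 0 * SAW x = 8470180709 / 226800000000 := by
  have hd : ∀ x ∈ uIcc (0 : ℝ) (1 / 2), HasDerivAt (fun x : ℝ =>
      (17742397 / 160000000) * x ^ 1 +
      (-97638383 / 720000000) * x ^ 3 +
      (-8097571 / 150000000) * x ^ 5 +
      (4084343 / 63000000) * x ^ 7 +
      (857857 / 50625000) * x ^ 9)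
      (x ^ 0 * SAW x) x := by
    intro x _
    have k := (((((hpow 0 ((17742397 / 160000000)) x).add (hpow 2 ((-97638383 / 720000000)) x)).add (hpow 4 ((-8097571 / 150000000)) x)).add (hpow 6 ((4084343 / 63000000)) x)).add (hpow 8 ((857857 / 50625000)) x))
    refine k.congr_deriv ?_
    simp only [SAW, SA, SW, hh, yu, Al, Aw]
    push_cast
    ring
  rw [intervalIntegral.integral_eq_sub_of_hasDerivAt hd
    (((continuous_pow 0).mul SAW_cont).intervalIntegrable _ _)]
  ring

theorem H_SAW1 : ∫ x in (0 : ℝ)..(1 / 2), x ^ 1 * SAW x = 1081060007 / 153600000000 := by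
  have hd : ∀ x ∈ uIcc (0 : ℝ) (1 / 2), HasDerivAt (fun x : ℝ =>
      (17742397 / 320000000) * x ^ 2 +
      (-97638383 / 960000000) * x ^ 4 +
      (-8097571 / 180000000) * x ^ 6 +
      (4084343 / 72000000) * x ^ 8 +
      (857857 / 56250000) * x ^ 10)
      (x ^ 1 * SAW x) x := by
    intro x _
    have k := (((((hpow 1 ((17742397 / 320000000)) x).add (hpow 3 ((-97638383 / 960000000)) x)).add (hpow 5 ((-8097571 / 180000000)) x)).add (hpow 7 ((4084343 / 72000000)) x)).add (hpow 9 ((857857 / 56250000)) x))
    refine k.congr_deriv ?_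
    simp only [SAW, SA, SW, hh, yu, Al, Aw]
    push_cast
    ring
  rw [intervalIntegral.integral_eq_sub_of_hasDerivAt hd
    (((continuous_pow 1).mul SAW_cont).intervalIntegrable _ _)]
  ring

theorem H_SAW2 : ∫ x in (0 : ℝ)..(1 / 2), x ^ 2 * SAW x = 1707127951 / 907200000000 := by
  have hd : ∀ x ∈ uIcc (0 : ℝ) (1 / 2), HasDerivAt (fun x : ℝ =>
      (17742397 / 480000000) * x ^ 3 +
      (-97638383 / 1200000000) * x ^ 5 +
      (-8097571 / 210000000) * x ^ 7 +
      (4084343 / 81000000) * x ^ 9 +
      (77987 / 5625000) * x ^ 11)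
      (x ^ 2 * SAW x) x := by
    intro x _
    have k := (((((hpow 2 ((17742397 / 480000000)) x).add (hpow 4 ((-97638383 / 1200000000)) x)).add (hpow 6 ((-8097571 / 210000000)) x)).add (hpow 8 ((4084343 / 81000000)) x)).add (hpow 10 ((77987 / 5625000)) x))
    refine k.congr_deriv ?_
    simp only [SAW, SA, SW, hh, yu, Al, Aw]
    push_cast
    ring
  rw [intervalIntegral.integral_eq_sub_of_hasDerivAt hd
    (((continuous_pow 2).mul SAW_cont).intervalIntegrable _ _)]
  ring

theorem H_SM0 : ∫ x in (0 : ℝ)..(1 / 2), x ^ 0 * SM x = 10496673984108077 / 779625000000000000 := by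
  have hd : ∀ x ∈ uIcc (0 : ℝ) (1 / 2), HasDerivAt (fun x : ℝ =>
      (15350017045813 / 320000000000000) * x ^ 1 +
      (-726341008054511 / 7200000000000000) * x ^ 3 +
      (25910664489481 / 9000000000000000) * x ^ 5 +
      (1216481001987 / 4375000000000) * x ^ 7 +
      (-1477965682883 / 50625000000000) * x ^ 9 +
      (-13258697327849 / 61875000000000) * x ^ 11 +
      (-208366353833 / 2343750000000) * x ^ 13 +
      (-138203891683 / 13183593750000) * x ^ 15)
      (x ^ 0 * SM x) x := by
    intro x _
    have k := ((((((((hpow 0 ((15350017045813 / 320000000000000)) x).add (hpow 2 ((-726341008054511 / 7200000000000000)) x)).add (hpow 4 ((25910664489481 / 9000000000000000)) x)).add (hpow 6 ((1216481001987 / 4375000000000)) x)).add (hpow 8 ((-1477965682883 / 50625000000000)) x)).add (hpow 10 ((-13258697327849 / 61875000000000)) x)).add (hpow 12 ((-208366353833 / 2343750000000)) x)).add (hpow 14 ((-138203891683 / 13183593750000)) x))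
    refine k.congr_deriv ?_
    simp only [SM, hh, yu, Be]
    push_cast
    ring
  rw [intervalIntegral.integral_eq_sub_of_hasDerivAt hd
    (((continuous_pow 0).mul SM_cont).intervalIntegrable _ _)]
  ring

theorem H_SM1 : ∫ x in (0 : ℝ)..(1 / 2), x ^ 1 * SM x = 42120730189509497 / 19353600000000000000 := by
  have hd : ∀ x ∈ uIcc (0 : ℝ) (1 / 2), HasDerivAt (fun x : ℝ =>
      (15350017045813 / 640000000000000) * x ^ 2 +
      (-726341008054511 / 9600000000000000) * x ^ 4 +
      (25910664489481 / 10800000000000000) * x ^ 6 +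
      (1216481001987 / 5000000000000) * x ^ 8 +
      (-1477965682883 / 56250000000000) * x ^ 10 +
      (-13258697327849 / 67500000000000) * x ^ 12 +
      (-2708762599829 / 32812500000000) * x ^ 14 +
      (-138203891683 / 14062500000000) * x ^ 16)
      (x ^ 1 * SM x) x := by
    intro x _
    have k := ((((((((hpow 1 ((15350017045813 / 640000000000000)) x).add (hpow 3 ((-726341008054511 / 9600000000000000)) x)).add (hpow 5 ((25910664489481 / 10800000000000000)) x)).add (hpow 7 ((1216481001987 / 5000000000000)) x)).add (hpow 9 ((-1477965682883 / 56250000000000)) x)).add (hpow 11 ((-13258697327849 / 67500000000000)) x)).add (hpow 13 ((-2708762599829 / 32812500000000)) x)).add (hpow 15 ((-138203891683 / 14062500000000)) x))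
    refine k.congr_deriv ?_
    simp only [SM, hh, yu, Be]
    push_cast
    ring
  rw [intervalIntegral.integral_eq_sub_of_hasDerivAt hd
    (((continuous_pow 1).mul SM_cont).intervalIntegrable _ _)]
  ring

theorem H_SM2 : ∫ x in (0 : ℝ)..(1 / 2), x ^ 2 * SM x = 39009873531175741 / 76576500000000000000 := by
  have hd : ∀ x ∈ uIcc (0 : ℝ) (1 / 2), HasDerivAt (fun x : ℝ =>
      (15350017045813 / 960000000000000) * x ^ 3 +
      (-726341008054511 / 12000000000000000) * x ^ 5 +
      (25910664489481 / 12600000000000000) * x ^ 7 +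
      (405493667329 / 1875000000000) * x ^ 9 +
      (-1477965682883 / 61875000000000) * x ^ 11 +
      (-13258697327849 / 73125000000000) * x ^ 13 +
      (-2708762599829 / 35156250000000) * x ^ 15 +
      (-138203891683 / 14941406250000) * x ^ 17)
      (x ^ 2 * SM x) x := by
    intro x _
    have k := ((((((((hpow 2 ((15350017045813 / 960000000000000)) x).add (hpow 4 ((-726341008054511 / 12000000000000000)) x)).add (hpow 6 ((25910664489481 / 12600000000000000)) x)).add (hpow 8 ((405493667329 / 1875000000000)) x)).add (hpow 10 ((-1477965682883 / 61875000000000)) x)).add (hpow 12 ((-13258697327849 / 73125000000000)) x)).add (hpow 14 ((-2708762599829 / 35156250000000)) x)).add (hpow 16 ((-138203891683 / 14941406250000)) x))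
    refine k.congr_deriv ?_
    simp only [SM, hh, yu, Be]
    push_cast
    ring
  rw [intervalIntegral.integral_eq_sub_of_hasDerivAt hd
    (((continuous_pow 2).mul SM_cont).intervalIntegrable _ _)]
  ring

/-- quadratic weight -/
theorem quad_int {P : ℝ → ℝ} (cP : Continuous P) {I0 I1 I2 : ℝ}
    (h0 : ∫ x in (0 : ℝ)..(1 / 2), x ^ 0 * P x = I0) (h1 : ∫ x in (0 : ℝ)..(1 / 2), x ^ 1 * P x = I1)
    (h2 : ∫ x in (0 : ℝ)..(1 / 2), x ^ 2 * P x = I2) (a0 a1 a2 : ℝ) :
    ∫ x in (0 : ℝ)..(1 / 2), (a0 + a1 * x + a2 * x ^ 2) * P x = a0 * I0 + a1 * I1 + a2 * I2 := by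
  have c0 : Continuous fun x : ℝ => a0 * (x ^ 0 * P x) := by fun_prop
  have c1 : Continuous fun x : ℝ => a1 * (x ^ 1 * P x) := by fun_prop
  have c2 : Continuous fun x : ℝ => a2 * (x ^ 2 * P x) := by fun_prop
  have c01 : Continuous fun x : ℝ => a0 * (x ^ 0 * P x) + a1 * (x ^ 1 * P x) := c0.add c1
  have e : ∀ x : ℝ, (a0 + a1 * x + a2 * x ^ 2) * P x =
      (a0 * (x ^ 0 * P x) + a1 * (x ^ 1 * P x)) + a2 * (x ^ 2 * P x) := fun x => by ring
  simp only [e]
  rw [intervalIntegral.integral_add (c01.intervalIntegrable _ _) (c2.intervalIntegrable _ _),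
    intervalIntegral.integral_add (c0.intervalIntegrable _ _) (c1.intervalIntegrable _ _),
    intervalIntegral.integral_const_mul, intervalIntegral.integral_const_mul,
    intervalIntegral.integral_const_mul, h0, h1, h2]

/-- folding of an integral -/
theorem fold_int {f : ℝ → ℝ} (cf : Continuous f) :
    ∫ x in (-(1 / 2) : ℝ)..(1 / 2), f x = ∫ x in (0 : ℝ)..(1 / 2), (f x + f (-x)) := by
  rw [← intervalIntegral.integral_add_adjacent_intervals (b := (0 : ℝ))
    (cf.intervalIntegrable _ _) (cf.intervalIntegrable _ _)]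
  have e1 : ∫ x in (-(1 / 2) : ℝ)..(0 : ℝ), f x = ∫ x in (0 : ℝ)..(1 / 2), f (-x) := by
    rw [intervalIntegral.integral_comp_neg (f := f), neg_zero]
  have hn : Continuous fun x : ℝ => f (-x) := cf.comp continuous_neg
  rw [e1, ← intervalIntegral.integral_add
    (hn.intervalIntegrable _ _) (cf.intervalIntegrable _ _)]
  refine intervalIntegral.integral_congr fun x _ => ?_
  exact add_comm _ _

/-- the closed form of the bulk number -/
theorem BK_eq {φ : ℝ → ℝ} (cφ : Continuous φ) {a0 a1 a2 β : ℝ}
    (hs : ∀ x : ℝ, 0 ≤ x → x ≤ 1 / 2 → φ x + φ (-x) = a0 + a1 * x + a2 * x ^ 2)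
    (hd : ∀ x : ℝ, 0 ≤ x → x ≤ 1 / 2 → φ x - φ (-x) = β * x) (τ sg d : ℝ) :
    BK φ τ sg d = τ * (2 - τ) * (a0 * (69217264416397 / 19848628800000000) + a1 * (364306627273 / 660602880000000) + a2 * (575460556973143 / 4525487366400000000)) +
      τ ^ 2 * (3 - 2 * τ) * (a0 * (20303684125439846637733 / 22870505001093750000000000) + a1 * (64926092355622706224321 / 516494013235200000000000000) +
        a2 * (2399979975230200843891 / 91482020004375000000000000)) -
      0.5774 * sg * (τ * (a0 * (8470180709 / 226800000000) + a1 * (1081060007 / 153600000000) + a2 * (1707127951 / 907200000000)) +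
        τ ^ 2 * (a0 * (10496673984108077 / 779625000000000000) + a1 * (42120730189509497 / 19353600000000000000) + a2 * (39009873531175741 / 76576500000000000000))) -
      d * β * (τ * (1707127951 / 907200000000) + τ ^ 2 * (39009873531175741 / 76576500000000000000)) := by
  have h1 := PAW_cont
  have h2 := PM_cont
  have h3 := SAW_cont
  have h4 := SM_cont
  have cP : Continuous fun X : ℝ => φ X * (Pk τ sg d X + Qk τ (0.5774 * sg) d X) :=
    cφ.mul ((Pk_cont τ sg d).add (Qk_cont τ (0.5774 * sg) d))
  unfold BK
  rw [fold_int cP]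
  set w : ℝ → ℝ := fun x => a0 + a1 * x + a2 * x ^ 2 with hw
  have cw : Continuous w := by rw [hw]; fun_prop
  have e : ∫ x in (0 : ℝ)..(1 / 2), (φ x * (Pk τ sg d x + Qk τ (0.5774 * sg) d x) +
      φ (-x) * (Pk τ sg d (-x) + Qk τ (0.5774 * sg) d (-x))) =
      ∫ x in (0 : ℝ)..(1 / 2), ((τ * (2 - τ) * (w x * PAW x) +
        τ ^ 2 * (3 - 2 * τ) * (w x * PM x)) -
        (0.5774 * sg * τ * (w x * SAW x) + 0.5774 * sg * τ ^ 2 * (w x * SM x)) -
        (d * β * τ * (x ^ 2 * SAW x) + d * β * τ ^ 2 * (x ^ 2 * SM x))) := by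
    refine intervalIntegral.integral_congr fun x hx => ?_
    rw [uIcc_of_le (by norm_num)] at hx
    have k1 := hs x hx.1 hx.2
    have k2 := hd x hx.1 hx.2
    have p1 : PA (-x) = PA x := by simp only [PA, hh, yl, Al]; ring
    have p2 : PM (-x) = PM x := by simp only [PM, hh, yl, Be]; ring
    have p3 : SA (-x) = SA x := by simp only [SA, hh, yu, Al]; ring
    have p4 : SM (-x) = SM x := by simp only [SM, hh, yu, Be]; ring
    have p5 : PW (-x) = PW x := by simp only [PW, hh, yl, Aw]; ring
    have p6 : SW (-x) = SW x := by simp only [SW, hh, yu, Aw]; ring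
    simp only [hw, Pk, Qk, e1, PAW, SAW]
    rw [p1, p2, p3, p4, p5, p6]
    rw [← k1]
    linear_combination (-(τ * (d * x * (SA x + SW x)) + τ ^ 2 * (d * x * SM x))) * k2
  rw [e]
  have c1 : Continuous fun x => τ * (2 - τ) * (w x * PAW x) := by fun_prop
  have c2 : Continuous fun x => τ ^ 2 * (3 - 2 * τ) * (w x * PM x) := by fun_prop
  have c3 : Continuous fun x => 0.5774 * sg * τ * (w x * SAW x) := by fun_prop
  have c4 : Continuous fun x => 0.5774 * sg * τ ^ 2 * (w x * SM x) := by fun_prop
  have c5 : Continuous fun x => d * β * τ * (x ^ 2 * SAW x) := by fun_prop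
  have c6 : Continuous fun x => d * β * τ ^ 2 * (x ^ 2 * SM x) := by fun_prop
  have c12 : Continuous fun x => τ * (2 - τ) * (w x * PAW x) +
        τ ^ 2 * (3 - 2 * τ) * (w x * PM x) := c1.add c2
  have c34 : Continuous fun x => 0.5774 * sg * τ * (w x * SAW x) +
    0.5774 * sg * τ ^ 2 * (w x * SM x) := c3.add c4
  have c56 : Continuous fun x => d * β * τ * (x ^ 2 * SAW x) +
    d * β * τ ^ 2 * (x ^ 2 * SM x) := c5.add c6
  have c14 : Continuous fun x => (τ * (2 - τ) * (w x * PAW x) +
        τ ^ 2 * (3 - 2 * τ) * (w x * PM x)) -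
        (0.5774 * sg * τ * (w x * SAW x) + 0.5774 * sg * τ ^ 2 * (w x * SM x)) := c12.sub c34
  rw [intervalIntegral.integral_sub (c14.intervalIntegrable _ _) (c56.intervalIntegrable _ _),
    intervalIntegral.integral_sub (c12.intervalIntegrable _ _) (c34.intervalIntegrable _ _),
    intervalIntegral.integral_add (c1.intervalIntegrable _ _) (c2.intervalIntegrable _ _),
    intervalIntegral.integral_add (c3.intervalIntegrable _ _) (c4.intervalIntegrable _ _),
    intervalIntegral.integral_add (c5.intervalIntegrable _ _) (c6.intervalIntegrable _ _)]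
  simp only [intervalIntegral.integral_const_mul]
  rw [H_SAW2, H_SM2, hw, quad_int h1 H_PAW0 H_PAW1 H_PAW2, quad_int h2 H_PM0 H_PM1 H_PM2,
    quad_int h3 H_SAW0 H_SAW1 H_SAW2, quad_int h4 H_SM0 H_SM1 H_SM2]
  ring

end Helper93.MEI.Blk
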