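import Pool.Agent.Helper93.MEI.Wr2
import Pool.Agent.Helper78.MEI.FaceV
import Pool.Agent.Helper31.SR.FI

/-!
# Project MEI (M2), faces: the exact mass deficit in closed, separable form

* `xx_def`: `Σ x_k nc_k ≤ Σ_k min (b_k, (N b)_k)` for the exact filling `x`;
* `Dg_le`: the deficit of a general certificate is at most
  `κ Σ_k min (t_k, (N t)_k) + Σ al (Σ ζ + (1 - κ) Σ N ζ - μx) + arcs` if `1 + nc - μ ≤ κ nc`;
* `nun_le`: for contact points `1 + nc - 1/q ≤ (2/3) nc`, and `≤ nc/2` without clipping.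
-/

namespace Helper93.MEI

open Set Metric Helper80.CW Helper82.CW Helper14.CW Helper78.MEI Helper82.M2
open Pool.Agent.Helper52.MEI
open Pool.Agent.Helper55.Sx (Sim)
open Pool.Agent.Helper55.Mass (LN LN_nonneg vv vv_nonneg)
open Pool.Agent.Helper55.Apex (nc)
open Pool.Agent.Helper55.Fill (xx xx_nonneg xx_le xx_feas rr rr_nonneg)
open scoped RealInnerProductSpace

section fill
variable {N : Fin 3 → Fin 3 → ℝ} {b : Fin 3 → ℝ} (hN : ∀ k m, 0 ≤ N k m) {c : ℝ} (hc : c < 1)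
  (hcol : ∀ m, nc N m ≤ c)

/-- `Σ_k x_k nc_k = Σ_k (N x)_k` -/
theorem sum_nc (N : Fin 3 → Fin 3 → ℝ) (x : Fin 3 → ℝ) :
    x 0 * nc N 0 + x 1 * nc N 1 + x 2 * nc N 2 = LN N x 0 + LN N x 1 + LN N x 2 := by
  unfold nc LN
  ring

include hN hc hcol

theorem LN_xx_le_LN (hb : ∀ k, 0 ≤ b k) (k : Fin 3) : LN N (xx N b) k ≤ LN N b k := by
  have h0 := mul_le_mul_of_nonneg_left (xx_le hN hc hcol hb 0) (hN k 0)
  have h1 := mul_le_mul_of_nonneg_left (xx_le hN hc hcol hb 1) (hN k 1)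
  have h2 := mul_le_mul_of_nonneg_left (xx_le hN hc hcol hb 2) (hN k 2)
  unfold LN
  linarith

theorem LN_xx_le (hb : ∀ k, 0 ≤ b k) (k : Fin 3) :
    LN N (xx N b) k ≤ min (b k) (LN N b k) := by
  refine le_min ?_ (LN_xx_le_LN hN hc hcol hb k)
  have h1 := xx_feas hN hc hcol hb k
  have h2 := xx_nonneg hN hc hcol hb k
  linarith

/-- the leaks of the exact filling -/
theorem xx_def (hb : ∀ k, 0 ≤ b k) :
    xx N b 0 * nc N 0 + xx N b 1 * nc N 1 + xx N b 2 * nc N 2 ≤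
      min (b 0) (LN N b 0) + min (b 1) (LN N b 1) + min (b 2) (LN N b 2) := by
  rw [sum_nc]
  have h0 := LN_xx_le hN hc hcol hb 0
  have h1 := LN_xx_le hN hc hcol hb 1
  have h2 := LN_xx_le hN hc hcol hb 2
  linarith

/-- sharper: the part of the coordinate used by its own node and by the residual is free -/
theorem xx_def' (hb : ∀ k, 0 ≤ b k) :
    xx N b 0 * nc N 0 + xx N b 1 * nc N 1 + xx N b 2 * nc N 2 ≤
      (b 0 + b 1 + b 2) - (xx N b 0 + xx N b 1 + xx N b 2) := by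
  rw [sum_nc]
  have h0 := xx_feas hN hc hcol hb 0
  have h1 := xx_feas hN hc hcol hb 1
  have h2 := xx_feas hN hc hcol hb 2
  linarith

end fill

/-- separable bound of the deficit of the contact nodes -/
noncomputable def Dmin (N : Fin 3 → Fin 3 → ℝ) (b : Fin 3 → ℝ) : ℝ :=
  min (b 0) (LN N b 0) + min (b 1) (LN N b 1) + min (b 2) (LN N b 2)

theorem Dmin_le_LN (N : Fin 3 → Fin 3 → ℝ) (b : Fin 3 → ℝ) :
    Dmin N b ≤ LN N b 0 + LN N b 1 + LN N b 2 := by
  have h0 := min_le_right (b 0) (LN N b 0)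
  have h1 := min_le_right (b 1) (LN N b 1)
  have h2 := min_le_right (b 2) (LN N b 2)
  unfold Dmin
  linarith

theorem Dmin_le_b (N : Fin 3 → Fin 3 → ℝ) (b : Fin 3 → ℝ) : Dmin N b ≤ b 0 + b 1 + b 2 := by
  have h0 := min_le_left (b 0) (LN N b 0)
  have h1 := min_le_left (b 1) (LN N b 1)
  have h2 := min_le_left (b 2) (LN N b 2)
  unfold Dmin
  linarith

/-- a wall: the leaks into the smallest coordinate are free -/
theorem Dmin_wall (N : Fin 3 → Fin 3 → ℝ) (b : Fin 3 → ℝ) (l : Fin 3) :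
    Dmin N b ≤ b l + (LN N b 0 + LN N b 1 + LN N b 2 - LN N b l) := by
  have h0 := min_le_right (b 0) (LN N b 0)
  have h1 := min_le_right (b 1) (LN N b 1)
  have h2 := min_le_right (b 2) (LN N b 2)
  have g0 := min_le_left (b 0) (LN N b 0)
  have g1 := min_le_left (b 1) (LN N b 1)
  have g2 := min_le_left (b 2) (LN N b 2)
  unfold Dmin
  fin_cases l
  · show min (b 0) (LN N b 0) + min (b 1) (LN N b 1) + min (b 2) (LN N b 2) ≤
      b 0 + (LN N b 0 + LN N b 1 + LN N b 2 - LN N b 0)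
    linarith
  · show min (b 0) (LN N b 0) + min (b 1) (LN N b 1) + min (b 2) (LN N b 2) ≤
      b 1 + (LN N b 0 + LN N b 1 + LN N b 2 - LN N b 1)
    linarith
  · show min (b 0) (LN N b 0) + min (b 1) (LN N b 1) + min (b 2) (LN N b 2) ≤
      b 2 + (LN N b 0 + LN N b 1 + LN N b 2 - LN N b 2)
    linarith

/-- monotone in the leaks -/
theorem Dmin_mono {N N' : Fin 3 → Fin 3 → ℝ} (h : ∀ k m, N k m ≤ N' k m) {b : Fin 3 → ℝ}
    (hb : ∀ k, 0 ≤ b k) : Dmin N b ≤ Dmin N' b := by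
  have key : ∀ k, LN N b k ≤ LN N' b k := by
    intro k
    have h0 := mul_le_mul_of_nonneg_right (h k 0) (hb 0)
    have h1 := mul_le_mul_of_nonneg_right (h k 1) (hb 1)
    have h2 := mul_le_mul_of_nonneg_right (h k 2) (hb 2)
    unfold LN
    linarith
  unfold Dmin
  exact add_le_add (add_le_add (min_le_min_left _ (key 0)) (min_le_min_left _ (key 1)))
    (min_le_min_left _ (key 2))

section deficit
variable {ι : Type*} [Fintype ι] {N : Fin 3 → Fin 3 → ℝ} {al : ι → ℝ × ℝ → ℝ}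
  {ζ : ι → Fin 3 → ℝ} {μx : ι → ℝ} {μ : Fin 3 → ℝ} {α g : Fin 3 → ℝ × ℝ → ℝ}
  {M : Fin 3 → Fin 3 → ℝ} {sm : Fin 3 → ℝ}

/-- **the exact deficit of a general certificate**, `1 + nc - μ ≤ κ nc` -/
theorem Dg_le (hN : ∀ k m, 0 ≤ N k m) {c : ℝ} (hc : c < 1) (hcol : ∀ m, nc N m ≤ c) {κ : ℝ}
    (hκ : 0 ≤ κ) (hμ : ∀ k, 1 + nc N k - μ k ≤ κ * nc N k) {t : ℝ × ℝ} (ht : t ∈ Sim)
    (hx : ∀ k, ∑ m, al m t * ζ m k + ∑ l, α l t * M l k ≤ xx N (vv t) k) :
    Dg N al ζ μ μx α g M sm t ≤ κ * Dmin N (vv t)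
      + ∑ m, al m t * ((∑ k, (ζ m k + (1 - κ) * LN N (ζ m) k)) - μx m)
      + ∑ l, α l t * ((∑ k, (M l k + (1 - κ) * LN N (M l) k)) - sm l)
      + ∑ l, ((M l 0 + M l 1 + M l 2) - sm l) * g l t := by
  have hb : ∀ k, 0 ≤ vv t k := fun k => vv_nonneg ht k
  have h1 := xx_def hN hc hcol hb
  have h2 : ∀ k, (xx N (vv t) k - (∑ m, al m t * ζ m k + ∑ l, α l t * M l k)) *
      (1 + nc N k - μ k) ≤
      (xx N (vv t) k - (∑ m, al m t * ζ m k + ∑ l, α l t * M l k)) * (κ * nc N k) := fun k =>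
    mul_le_mul_of_nonneg_left (hμ k) (by have := hx k; linarith)
  have e1 : ∀ (z : Fin 3 → ℝ), z 0 * nc N 0 + z 1 * nc N 1 + z 2 * nc N 2 =
      LN N z 0 + LN N z 1 + LN N z 2 := fun z => sum_nc N z
  have hm : ∀ m, al m t * ((∑ k, (ζ m k + LN N (ζ m) k)) - μx m) -
      κ * (al m t * ζ m 0 * nc N 0 + al m t * ζ m 1 * nc N 1 + al m t * ζ m 2 * nc N 2) =
      al m t * ((∑ k, (ζ m k + (1 - κ) * LN N (ζ m) k)) - μx m) := by
    intro m
    have := e1 (ζ m)
    simp only [Fin.sum_univ_three]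
    linear_combination (-(κ * al m t)) * this
  have hl : ∀ l, α l t * ((∑ k, (M l k + LN N (M l) k)) - sm l) -
      κ * (α l t * M l 0 * nc N 0 + α l t * M l 1 * nc N 1 + α l t * M l 2 * nc N 2) =
      α l t * ((∑ k, (M l k + (1 - κ) * LN N (M l) k)) - sm l) := by
    intro l
    have := e1 (M l)
    simp only [Fin.sum_univ_three]
    linear_combination (-(κ * α l t)) * this
  have h3 := mul_le_mul_of_nonneg_left h1 hκ
  have s1 : ∑ m, al m t * ((∑ k, (ζ m k + (1 - κ) * LN N (ζ m) k)) - μx m) =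
      ∑ m, al m t * ((∑ k, (ζ m k + LN N (ζ m) k)) - μx m) -
        κ * ((∑ m, al m t * ζ m 0) * nc N 0 + (∑ m, al m t * ζ m 1) * nc N 1
          + (∑ m, al m t * ζ m 2) * nc N 2) := by
    rw [← Finset.sum_congr rfl fun m _ => hm m, Finset.sum_sub_distrib, ← Finset.mul_sum,
      Finset.sum_add_distrib, Finset.sum_add_distrib, Finset.sum_mul, Finset.sum_mul,
      Finset.sum_mul]
  have s2 : ∑ l, α l t * ((∑ k, (M l k + (1 - κ) * LN N (M l) k)) - sm l) =
      ∑ l, α l t * ((∑ k, (M l k + LN N (M l) k)) - sm l) -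
        κ * ((∑ l, α l t * M l 0) * nc N 0 + (∑ l, α l t * M l 1) * nc N 1
          + (∑ l, α l t * M l 2) * nc N 2) := by
    rw [← Finset.sum_congr rfl fun l _ => hl l, Finset.sum_sub_distrib, ← Finset.mul_sum,
      Finset.sum_add_distrib, Finset.sum_add_distrib, Finset.sum_mul, Finset.sum_mul,
      Finset.sum_mul]
  rw [s1, s2]
  have g0 := h2 0
  have g1 := h2 1
  have g2 := h2 2
  unfold Dg
  rw [Fin.sum_univ_three (f := fun k => (xx N (vv t) k -
    (∑ m, al m t * ζ m k + ∑ l, α l t * M l k)) * (1 + nc N k - μ k))]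
  unfold Dmin
  nlinarith [g0, g1, g2, h3]

end deficit

/-! ### contact points -/

open Pool.Agent.Helper31.SR

/-- the deficit of a contact node is at most two thirds of its leaks -/
theorem nun_lk {y y' : ℝ} (hy : 0 ≤ y) (hy' : 0 ≤ y') (hq : 0 < qq y y') :
    1 + (lk y y' + lk y' y) - 1 / qq y y' ≤ 2 / 3 * (lk y y' + lk y' y) := by
  have e1 : lk y' y = max 0 ((3 * y' - y) / 2) / qq y y' := by
    unfold lk
    rw [qq_comm y' y]
  have hkey : qq y y' + 1 / 3 * (max 0 ((3 * y - y') / 2) + max 0 ((3 * y' - y) / 2)) ≤ 1 := by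
    unfold qq
    rcases le_total 0 ((3 * y - y') / 2) with h1 | h1 <;>
    rcases le_total 0 ((3 * y' - y) / 2) with h2 | h2
    · rw [max_eq_right h1, max_eq_right h2]
      linarith
    · rw [max_eq_right h1, max_eq_left h2]
      linarith
    · rw [max_eq_left h1, max_eq_right h2]
      linarith
    · rw [max_eq_left h1, max_eq_left h2]
      linarith
  rw [e1]
  unfold lk
  have h3 : 1 + 1 / 3 * (max 0 ((3 * y - y') / 2) / qq y y' + max 0 ((3 * y' - y) / 2) / qq y y')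
      ≤ 1 / qq y y' := by
    rw [le_div_iff₀ hq]
    have e2 : (1 + 1 / 3 * (max 0 ((3 * y - y') / 2) / qq y y' +
        max 0 ((3 * y' - y) / 2) / qq y y')) * qq y y' =
        qq y y' + 1 / 3 * (max 0 ((3 * y - y') / 2) + max 0 ((3 * y' - y) / 2)) := by
      field_simp
    rw [e2]
    exact hkey
  linarith

/-- without clipping it is exactly one half of the leaks -/
theorem nun_lk_half {y y' : ℝ} (h1 : y' ≤ 3 * y) (h2 : y ≤ 3 * y') (hq : 0 < qq y y') :
    1 + (lk y y' + lk y' y) - 1 / qq y y' = 1 / 2 * (lk y y' + lk y' y) := by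
  have e1 : lk y' y = max 0 ((3 * y' - y) / 2) / qq y y' := by
    unfold lk
    rw [qq_comm y' y]
  rw [e1]
  unfold lk
  rw [max_eq_right (by linarith : 0 ≤ (3 * y - y') / 2),
    max_eq_right (by linarith : 0 ≤ (3 * y' - y) / 2)]
  have hne := hq.ne'
  field_simp
  unfold qq
  ring

/-- with the mass of the clipped coordinate (`pt_lin`) it is at most one half of the leaks -/
theorem nun_lk_F2 {y y' : ℝ} (hq : 0 < qq y y') :
    1 + (lk y y' + lk y' y) - (1 + max 0 (-((3 * y - y') / 2)) + max 0 (-((3 * y' - y) / 2)))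
      / qq y y' ≤ 1 / 2 * (lk y y' + lk y' y) := by
  have e1 : lk y' y = max 0 ((3 * y' - y) / 2) / qq y y' := by
    unfold lk
    rw [qq_comm y' y]
  rw [e1]
  unfold lk
  set u := (3 * y - y') / 2 with hu
  set u' := (3 * y' - y) / 2 with hu'
  have hs : u + u' = 2 * (1 - qq y y') := by
    rw [hu, hu']
    unfold qq
    ring
  have k1 : max 0 u - max 0 (-u) = u := by
    rcases le_total 0 u with h | h
    · rw [max_eq_right h, max_eq_left (by linarith)]; ring
    · rw [max_eq_left h, max_eq_right (by linarith)]; ring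
  have k2 : max 0 u' - max 0 (-u') = u' := by
    rcases le_total 0 u' with h | h
    · rw [max_eq_right h, max_eq_left (by linarith)]; ring
    · rw [max_eq_left h, max_eq_right (by linarith)]; ring
  have n1 : 0 ≤ max 0 (-u) := le_max_left _ _
  have n2 : 0 ≤ max 0 (-u') := le_max_left _ _
  have h3 : 1 + 1 / 2 * (max 0 u / qq y y' + max 0 u' / qq y y') ≤
      (1 + max 0 (-u) + max 0 (-u')) / qq y y' := by
    rw [le_div_iff₀ hq]
    have e2 : (1 + 1 / 2 * (max 0 u / qq y y' + max 0 u' / qq y y')) * qq y y' =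
        qq y y' + 1 / 2 * (max 0 u + max 0 u') := by
      field_simp
    rw [e2]
    linarith
  linarith

/-- the deficits of the contact nodes of a placed body -/
theorem nun_le {a : Fin 4 → E3} {K : Set E3} {S : Fin 4 → ℝ} {σ : MeasureTheory.Measure (E3 × E3)}
    {c : Fin 4 → E3} {z : Fin 4 → Fin 4 → E3} (h : CN K σ a c) (v : Viol K a S) (hz : CV a K z)
    (k : Fin 3) : 1 + nc (NM a z) k - 1 / qM a z k ≤ 2 / 3 * nc (NM a z) k := by
  have g := gram_of_dist h.ha
  obtain ⟨q0, q1, q2⟩ := qM_eq hz g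
  obtain ⟨n0, n1, n2⟩ := nc_eq h v hz
  have hy : ∀ {i j k : Fin 4}, i ≠ j → i ≠ k → 0 ≤ Y a z i j k := fun hij hik =>
    Y_nonneg hz h.hp hij hik
  have hp : ∀ k, 0 < qM a z k := fun k => by
    have := qM_ge h v hz k
    linarith
  fin_cases k
  · show 1 + nc (NM a z) 0 - 1 / qM a z 0 ≤ 2 / 3 * nc (NM a z) 0
    have hp0 := hp 0
    rw [q0] at hp0
    rw [n0, q0]
    exact nun_lk (hy (by decide) (by decide)) (hy (by decide) (by decide)) hp0
  · show 1 + nc (NM a z) 1 - 1 / qM a z 1 ≤ 2 / 3 * nc (NM a z) 1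
    have hp0 := hp 1
    rw [q1] at hp0
    rw [n1, q1]
    exact nun_lk (hy (by decide) (by decide)) (hy (by decide) (by decide)) hp0
  · show 1 + nc (NM a z) 2 - 1 / qM a z 2 ≤ 2 / 3 * nc (NM a z) 2
    have hp0 := hp 2
    rw [q2] at hp0
    rw [n2, q2]
    exact nun_lk (hy (by decide) (by decide)) (hy (by decide) (by decide)) hp0

end Helper93.MEI
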