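import Pool.Agent.Helper93.MEI.Dd
import Pool.Agent.Helper78.MEI.FaceM

/-!
# Project MEI (M2), faces: clipped contact nodes keep their mass

`gen_F2`: for every point `q` of the body
`Gg - Λ/3 wx V w + (1 - D̂) w ≤ Yt`, `Λ ≤ Dmin`, `D̂ = ½ Dmin + …` (`κ = 1/2` in `Dg_le`), although
`1 + nc - μ` can be `(2/3) nc`; `wx V w ≤ w/2, V/2`, `wx V w = 0` for `w ≥ 2V`.
-/

namespace Helper93.MEI

open Set Metric Helper80.CW Helper82.CW Helper14.CW Helper78.MEI Helper82.M2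
open Helper14.MEI2 Pool.Agent.Helper52.MEI Pool.Agent.Helper73.MEI Helper37.MEI Helper41.MEI
open Pool.Agent.Helper55.Sx (Sim)
open Pool.Agent.Helper55.Mass (LN LN_nonneg vv vv_nonneg)
open Pool.Agent.Helper55.Apex (nc)
open Pool.Agent.Helper55.ApexP (PN alP alP_nonneg)
open Pool.Agent.Helper55.Fill (xx xx_nonneg xx_le xx_feas rr rr_nonneg)
open Pool.Agent.Helper31.SR
open scoped RealInnerProductSpace

section general
variable {a : Fin 4 → E3} {ι : Type*} [Fintype ι] {N : Fin 3 → Fin 3 → ℝ}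
  {al : ι → ℝ × ℝ → ℝ} {ζ : ι → Fin 3 → ℝ} {L μx : ι → ℝ} {R S μ n : Fin 3 → ℝ}
  {α g : Fin 3 → ℝ × ℝ → ℝ} {M : Fin 3 → Fin 3 → ℝ} {E sm : Fin 3 → ℝ}

/-- bound of `Σ X_k nc_k` -/
noncomputable def Lam (N : Fin 3 → Fin 3 → ℝ) (al : ι → ℝ × ℝ → ℝ) (ζ : ι → Fin 3 → ℝ)
    (α : Fin 3 → ℝ × ℝ → ℝ) (M : Fin 3 → Fin 3 → ℝ) (t : ℝ × ℝ) : ℝ :=
  Dmin N (vv t) - (∑ m, al m t * (∑ k, LN N (ζ m) k) + ∑ l, α l t * (∑ k, LN N (M l) k))

/-- the deficit with `κ = 1/2` -/
noncomputable def Dh (N : Fin 3 → Fin 3 → ℝ) (al : ι → ℝ × ℝ → ℝ) (ζ : ι → Fin 3 → ℝ)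
    (μx : ι → ℝ) (α g : Fin 3 → ℝ × ℝ → ℝ) (M : Fin 3 → Fin 3 → ℝ) (sm : Fin 3 → ℝ)
    (t : ℝ × ℝ) : ℝ :=
  Dmin N (vv t) / 2
    + ∑ m, al m t * ((∑ k, (ζ m k + LN N (ζ m) k / 2)) - μx m)
    + ∑ l, α l t * ((∑ k, (M l k + LN N (M l) k / 2)) - sm l)
    + ∑ l, ((M l 0 + M l 1 + M l 2) - sm l) * g l t

theorem sum_X_nc (hN : ∀ k m, 0 ≤ N k m) {c : ℝ} (hc : c < 1) (hcol : ∀ m, nc N m ≤ c)
    {t : ℝ × ℝ} (ht : t ∈ Sim) :
    ∑ k, (xx N (vv t) k - (∑ m, al m t * ζ m k + ∑ l, α l t * M l k)) * nc N k ≤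
      Lam N al ζ α M t := by
  have hb : ∀ k, 0 ≤ vv t k := fun k => vv_nonneg ht k
  have h1 := xx_def hN hc hcol hb
  have e1 : ∀ (z : Fin 3 → ℝ), z 0 * nc N 0 + z 1 * nc N 1 + z 2 * nc N 2 =
      LN N z 0 + LN N z 1 + LN N z 2 := fun z => sum_nc N z
  have s1 : ∑ m, al m t * (∑ k, LN N (ζ m) k) =
      (∑ m, al m t * ζ m 0) * nc N 0 + (∑ m, al m t * ζ m 1) * nc N 1
          + (∑ m, al m t * ζ m 2) * nc N 2 := by
    rw [Finset.sum_mul, Finset.sum_mul, Finset.sum_mul, ← Finset.sum_add_distrib,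
      ← Finset.sum_add_distrib]
    refine Finset.sum_congr rfl fun m _ => ?_
    have := e1 (ζ m)
    rw [Fin.sum_univ_three]
    linear_combination (-al m t) * this
  have s2 : ∑ l, α l t * (∑ k, LN N (M l) k) =
      (∑ l, α l t * M l 0) * nc N 0 + (∑ l, α l t * M l 1) * nc N 1
          + (∑ l, α l t * M l 2) * nc N 2 := by
    rw [Finset.sum_mul, Finset.sum_mul, Finset.sum_mul, ← Finset.sum_add_distrib,
      ← Finset.sum_add_distrib]
    refine Finset.sum_congr rfl fun m _ => ?_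
    have := e1 (M m)
    rw [Fin.sum_univ_three]
    linear_combination (-α m t) * this
  unfold Lam
  rw [s1, s2, Fin.sum_univ_three]
  unfold Dmin
  linarith

/-- price of the clipped coordinates below the level `V` of the caps -/
noncomputable def wx (V w : ℝ) : ℝ := pp (w / 2 - pp (w - V))

theorem wx_nonneg (V w : ℝ) : 0 ≤ wx V w := pp_nonneg _

theorem wx_le_half {V w : ℝ} (hw : 0 ≤ w) : wx V w ≤ w / 2 := by
  unfold wx
  refine max_le ?_ (by linarith)
  have := pp_nonneg (w - V)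
  linarith

theorem wx_le_V {V w : ℝ} (hV : 0 ≤ V) : wx V w ≤ V / 2 := by
  unfold wx
  refine max_le ?_ (by linarith)
  rcases le_total w V with h4 | h4
  · have := pp_nonneg (w - V)
    linarith
  · have := le_pp (w - V)
    linarith

theorem wx_zero {V w : ℝ} (h : 2 * V ≤ w) : wx V w = 0 := by
  unfold wx
  have := le_pp (w - V)
  exact max_eq_right (by linarith)

/-- **clipped nodes keep their mass**: general certificates -/
theorem gen_F2 (h : Gram4 (Helper14.CW.al a)) (hN : ∀ k m, 0 ≤ N k m) {c : ℝ} (hc : c < 1)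
    (hcol : ∀ m, nc N m ≤ c) {q : E3} (hq : Pl a q)
    {t : ℝ × ℝ} (ht : t ∈ Sim) (hal : ∀ m, 0 ≤ al m t) (hα0 : ∀ l, 0 ≤ α l t)
    (hg : ∀ l, 0 ≤ g l t) (hM0 : ∀ l k, 0 ≤ M l k)
    (hx : ∀ k, ∑ m, al m t * ζ m k + ∑ l, α l t * M l k ≤ xx N (vv t) k)
    (hres : ∀ k, ∑ l, g l t * M l k ≤ rr N (vv t) k) {V : ℝ}
    (hn0 : ∀ j, 0 ≤ n j) (hn : ∀ j, n j ≤ nc N j / 3)
    (hμ : ∀ j, 1 + nc N j - μ j ≤ (nc N j + n j) / 2)
    (nodes : ∀ j, Load a q (R j + n j * pp (‖a 0 - q‖ ^ 2 - V)) (μ j)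
      (fun k => (if k = j then 1 else 0) + N k j))
    (extra : ∀ m, Load a q (L m) (μx m) (fun k => ζ m k + LN N (ζ m) k))
    (arcs : ∀ l, Load a q (E l) (sm l) (M l))
    (h1 : Qv a 1 q ≤ S 0) (h2 : Qv a 2 q ≤ S 1) (h3 : Qv a 3 q ≤ S 2) :
    Gg N al ζ L α g M E R S t - Lam N al ζ α M t / 3 * wx V (‖a 0 - q‖ ^ 2)
      + (1 - Dh N al ζ μx α g M sm t) * ‖a 0 - q‖ ^ 2 ≤ Yt a t q := by
  set w := ‖a 0 - q‖ ^ 2 with hw
  have hw0 : 0 ≤ w := sq_nonneg _
  have key := gen_Yt (R := fun j => R j + n j * pp (w - V)) h hN hq hal hα0 hg hM0 hx hres nodes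
    extra arcs h1 h2 h3
  rw [← hw] at key
  obtain ⟨X, hX⟩ : ∃ X : Fin 3 → ℝ, X = fun k =>
    xx N (vv t) k - (∑ m, al m t * ζ m k + ∑ l, α l t * M l k) := ⟨_, rfl⟩
  have hXk : ∀ k, X k = xx N (vv t) k - (∑ m, al m t * ζ m k + ∑ l, α l t * M l k) := fun k => by
    rw [hX]
  have hX0 : ∀ k, 0 ≤ X k := fun k => by
    rw [hXk]
    have := hx k
    linarith
  -- the value
  have eG : Gg N al ζ L α g M E (fun j => R j + n j * pp (w - V)) S t =
      Gg N al ζ L α g M E R S t + (X 0 * n 0 + X 1 * n 1 + X 2 * n 2) * pp (w - V) := by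
    unfold Gg
    rw [hXk, hXk, hXk]
    ring
  rw [eG] at key
  -- the deficit
  have hD : Dg N al ζ μ μx α g M sm t ≤ Dh N al ζ μx α g M sm t
      + (X 0 * n 0 + X 1 * n 1 + X 2 * n 2) / 2
      + ((∑ k, X k * nc N k) - Lam N al ζ α M t) / 2 := by
    have d0 := mul_le_mul_of_nonneg_left (hμ 0) (hX0 0)
    have d1 := mul_le_mul_of_nonneg_left (hμ 1) (hX0 1)
    have d2 := mul_le_mul_of_nonneg_left (hμ 2) (hX0 2)
    have a1 : ∑ m, al m t * ((∑ k, (ζ m k + LN N (ζ m) k)) - μx m) =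
        ∑ m, al m t * ((∑ k, (ζ m k + LN N (ζ m) k / 2)) - μx m)
          + (∑ m, al m t * (∑ k, LN N (ζ m) k)) / 2 := by
      rw [Finset.sum_div, ← Finset.sum_add_distrib]
      refine Finset.sum_congr rfl fun m _ => ?_
      simp only [Fin.sum_univ_three]
      ring
    have a2 : ∑ l, α l t * ((∑ k, (M l k + LN N (M l) k)) - sm l) =
        ∑ l, α l t * ((∑ k, (M l k + LN N (M l) k / 2)) - sm l)
          + (∑ l, α l t * (∑ k, LN N (M l) k)) / 2 := by
      rw [Finset.sum_div, ← Finset.sum_add_distrib]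
      refine Finset.sum_congr rfl fun m _ => ?_
      simp only [Fin.sum_univ_three]
      ring
    unfold Dg Dh Lam
    rw [a1, a2, Fin.sum_univ_three (f := fun k => X k * nc N k),
      Fin.sum_univ_three (f := fun k => (xx N (vv t) k -
      (∑ m, al m t * ζ m k + ∑ l, α l t * M l k)) * (1 + nc N k - μ k))]
    rw [← hXk, ← hXk, ← hXk]
    linarith
  have hL : ∑ k, X k * nc N k ≤ Lam N al ζ α M t := by
    have := sum_X_nc (al := al) (ζ := ζ) (α := α) (M := M) hN hc hcol ht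
    rw [hX]
    exact this
  have hXn : X 0 * n 0 + X 1 * n 1 + X 2 * n 2 ≤ (∑ k, X k * nc N k) / 3 := by
    have d0 := mul_le_mul_of_nonneg_left (hn 0) (hX0 0)
    have d1 := mul_le_mul_of_nonneg_left (hn 1) (hX0 1)
    have d2 := mul_le_mul_of_nonneg_left (hn 2) (hX0 2)
    rw [Fin.sum_univ_three]
    linarith
  have hXn0 : 0 ≤ X 0 * n 0 + X 1 * n 1 + X 2 * n 2 := by
    have d0 := mul_nonneg (hX0 0) (hn0 0)
    have d1 := mul_nonneg (hX0 1) (hn0 1)
    have d2 := mul_nonneg (hX0 2) (hn0 2)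
    linarith
  set P := X 0 * n 0 + X 1 * n 1 + X 2 * n 2 with hP
  have hpp : w / 2 - pp (w - V) ≤ wx V w := le_pp _
  have hwx := wx_nonneg V w
  have k1 := mul_le_mul_of_nonneg_left hpp hXn0
  have k2 := mul_le_mul_of_nonneg_right hD hw0
  have k3 := mul_le_mul_of_nonneg_right (hXn.trans (div_le_div_of_nonneg_right hL (by norm_num)))
    hwx
  have k4 : ((∑ k, X k * nc N k) - Lam N al ζ α M t) / 2 * w ≤ 0 :=
    mul_nonpos_of_nonpos_of_nonneg (by linarith) hw0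
  linarith

end general

/-! ### contact nodes -/

/-- the clipped part of a leak -/
noncomputable def nl (y y' : ℝ) : ℝ := max 0 (-((3 * y - y') / 2)) / qq y y'

theorem nl_nonneg {y y' : ℝ} (hq : 0 < qq y y') : 0 ≤ nl y y' :=
  div_nonneg (le_max_left _ _) hq.le

theorem max_sub_max_neg (x : ℝ) : max 0 x - max 0 (-x) = x := by
  rcases le_total 0 x with h | h
  · rw [max_eq_right h, max_eq_left (by linarith)]
    ring
  · rw [max_eq_left h, max_eq_right (by linarith)]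
    ring

theorem nun_nl {y y' : ℝ} (hq : 0 < qq y y') :
    1 + (lk y y' + lk y' y) - 1 / qq y y' = ((lk y y' + lk y' y) + (nl y y' + nl y' y)) / 2 := by
  have e1 : lk y' y = max 0 ((3 * y' - y) / 2) / qq y y' := by
    unfold lk
    rw [qq_comm y' y]
  have e2 : nl y' y = max 0 (-((3 * y' - y) / 2)) / qq y y' := by
    unfold nl
    rw [qq_comm y' y]
  rw [e1, e2]
  unfold lk nl
  set u := (3 * y - y') / 2 with hu
  set u' := (3 * y' - y) / 2 with hu'
  have hs : u + u' = 2 * (1 - qq y y') := by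
    rw [hu, hu']
    unfold qq
    ring
  have k1 := max_sub_max_neg u
  have k2 := max_sub_max_neg u'
  have hne := hq.ne'
  field_simp
  linarith

theorem nl_le {y y' : ℝ} (hy : 0 ≤ y) (hy' : 0 ≤ y') (hq : 0 < qq y y') :
    nl y y' + nl y' y ≤ (lk y y' + lk y' y) / 3 := by
  have e1 : lk y' y = max 0 ((3 * y' - y) / 2) / qq y y' := by
    unfold lk
    rw [qq_comm y' y]
  have e2 : nl y' y = max 0 (-((3 * y' - y) / 2)) / qq y y' := by
    unfold nl
    rw [qq_comm y' y]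
  rw [e1, e2]
  unfold lk nl
  rw [← add_div, ← add_div, div_div, mul_comm (qq y y') 3, ← div_div]
  apply div_le_div_of_nonneg_right _ hq.le
  rcases le_total 0 ((3 * y - y') / 2) with h1 | h1 <;>
  rcases le_total 0 ((3 * y' - y) / 2) with h2 | h2
  · rw [max_eq_right h1, max_eq_right h2, max_eq_left (by linarith), max_eq_left (by linarith)]
    linarith
  · rw [max_eq_right h1, max_eq_left h2, max_eq_left (by linarith), max_eq_right (by linarith)]
    linarith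
  · rw [max_eq_left h1, max_eq_right h2, max_eq_right (by linarith), max_eq_left (by linarith)]
    linarith
  · rw [max_eq_left h1, max_eq_left h2, max_eq_right (by linarith), max_eq_right (by linarith)]
    linarith

/-- the clipped part of the leaks of the node `j` -/
noncomputable def ng (a : Fin 4 → E3) (z : Fin 4 → Fin 4 → E3) (j : Fin 3) : ℝ :=
  ((if (0 : Fin 3) = j then 0 else max 0 (-(bar a (0 : Fin 3).succ (Pt a z j)))) +
    (if (1 : Fin 3) = j then 0 else max 0 (-(bar a (1 : Fin 3).succ (Pt a z j)))) +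
    (if (2 : Fin 3) = j then 0 else max 0 (-(bar a (2 : Fin 3).succ (Pt a z j))))) / qM a z j

section body
variable {a : Fin 4 → E3} {K : Set E3} {S : Fin 4 → ℝ} {σ : MeasureTheory.Measure (E3 × E3)}
  {c : Fin 4 → E3} {z : Fin 4 → Fin 4 → E3}

/-- the load of a contact node with the mass of its clipped coordinates -/
theorem Pt_load_F2 (hz : CV a K z) (h : CN K σ a c) (v : Viol K a S) {q : E3} (hq : q ∈ K)
    {V : ℝ} (hV : ∀ k : Fin 3, S k.succ ≤ V) (j : Fin 3) :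
    Load a q (RM a z j + ng a z j * pp (‖a 0 - q‖ ^ 2 - V)) (1 / qM a z j)
      (fun k => (if k = j then 1 else 0) + NM a z k j) := by
  have hj : (0 : Fin 4) ≠ j.succ := (Fin.succ_ne_zero j).symm
  have hPK : Pt a z j ∈ K := (hz.ct 0 j.succ hj).mem2
  have g := gram_of_dist h.ha
  have hpos : 0 < qM a z j := by
    have := qM_ge h v hz j
    linarith
  have hbk : ∀ k, b3 a (Pt a z j) k = bar a k.succ (Pt a z j) := by
    intro k
    fin_cases k <;> rfl
  have h1 := pt_pp g (h.hd _ hPK q hq) (h.hp q hq)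
    (M := fun k => if k = j then qM a z j else max 0 (bar a k.succ (Pt a z j)))
    (V := fun _ => V) (by
      intro k
      rw [hbk k]
      split_ifs with hk
      · rw [hk]
        exact le_rfl
      · exact le_max_right _ _)
    ((v.le 1 q hq).trans (hV 0)) ((v.le 2 q hq).trans (hV 1)) ((v.le 3 q hq).trans (hV 2))
  have h2 := Load.smul (c := 1 / qM a z j) (by positivity) h1
  have h3 : Qv a 0 (Pt a z j) = ‖z 0 j.succ‖ ^ 2 := (hz.ct 0 j.succ hj).Qv_eq (h.ha 0 _ hj)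
  have hM : ∀ k, (if k = j then qM a z j else max 0 (bar a k.succ (Pt a z j))) -
      b3 a (Pt a z j) k = if k = j then 0 else max 0 (-(bar a k.succ (Pt a z j))) := by
    intro k
    rw [hbk k]
    split_ifs with hk
    · rw [hk]
      unfold qM
      ring
    · have := max_sub_max_neg (bar a k.succ (Pt a z j))
      linarith
  rw [h3] at h2
  simp only [hM] at h2
  have e1 : 1 / qM a z j * (‖z 0 j.succ‖ ^ 2 +
      ((if (0 : Fin 3) = j then 0 else max 0 (-(bar a (0 : Fin 3).succ (Pt a z j)))) *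
          pp (‖a 0 - q‖ ^ 2 - V) +
        (if (1 : Fin 3) = j then 0 else max 0 (-(bar a (1 : Fin 3).succ (Pt a z j)))) *
          pp (‖a 0 - q‖ ^ 2 - V) +
        (if (2 : Fin 3) = j then 0 else max 0 (-(bar a (2 : Fin 3).succ (Pt a z j)))) *
          pp (‖a 0 - q‖ ^ 2 - V))) = RM a z j + ng a z j * pp (‖a 0 - q‖ ^ 2 - V) := by
    unfold RM ng
    ring
  have e2 : (fun k => 1 / qM a z j * (if k = j then qM a z j else
      max 0 (bar a k.succ (Pt a z j)))) = fun k => (if k = j then 1 else 0) + NM a z k j := by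
    funext k
    unfold NM
    split_ifs with hk
    · rw [add_zero]
      field_simp
    · unfold qM
      ring
  rw [e1, e2, mul_one] at h2
  exact h2

theorem ng_facts (hz : CV a K z) (h : CN K σ a c) (v : Viol K a S) (j : Fin 3) :
    0 ≤ ng a z j ∧ ng a z j ≤ nc (NM a z) j / 3 ∧
      1 + nc (NM a z) j - 1 / qM a z j = (nc (NM a z) j + ng a z j) / 2 := by
  have g := gram_of_dist h.ha
  obtain ⟨q0, q1, q2⟩ := qM_eq hz g
  obtain ⟨n0, n1, n2⟩ := nc_eq h v hz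
  have hy : ∀ {i j k : Fin 4}, i ≠ j → i ≠ k → 0 ≤ Y a z i j k := fun hij hik =>
    Y_nonneg hz h.hp hij hik
  have hp : ∀ k, 0 < qM a z k := fun k => by
    have := qM_ge h v hz k
    linarith
  have h1 := (hz.ct 0 1 (by decide)).bars g (k := 2) (l := 3) (by decide) (by decide) (by decide)
    (by decide) (by decide) (by decide)
  have h2 := (hz.ct 0 2 (by decide)).bars g (k := 1) (l := 3) (by decide) (by decide) (by decide)
    (by decide) (by decide) (by decide)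
  have h3 := (hz.ct 0 3 (by decide)).bars g (k := 1) (l := 2) (by decide) (by decide) (by decide)
    (by decide) (by decide) (by decide)
  have b12 : bar a 2 (Pt a z 0) = (3 * Y a z 0 1 2 - Y a z 0 1 3) / 2 := h1.2.2.1
  have b13 : bar a 3 (Pt a z 0) = (3 * Y a z 0 1 3 - Y a z 0 1 2) / 2 := h1.2.2.2
  have b21 : bar a 1 (Pt a z 1) = (3 * Y a z 0 2 1 - Y a z 0 2 3) / 2 := h2.2.2.1
  have b23 : bar a 3 (Pt a z 1) = (3 * Y a z 0 2 3 - Y a z 0 2 1) / 2 := h2.2.2.2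
  have b31 : bar a 1 (Pt a z 2) = (3 * Y a z 0 3 1 - Y a z 0 3 2) / 2 := h3.2.2.1
  have b32 : bar a 2 (Pt a z 2) = (3 * Y a z 0 3 2 - Y a z 0 3 1) / 2 := h3.2.2.2
  have e0 : ((0 : Fin 3).succ : Fin 4) = 1 := rfl
  have e1 : ((1 : Fin 3).succ : Fin 4) = 2 := rfl
  have e2 : ((2 : Fin 3).succ : Fin 4) = 3 := rfl
  have p0 := hp 0
  have p1 := hp 1
  have p2 := hp 2
  rw [q0] at p0
  rw [q1] at p1
  rw [q2] at p2
  have g0 : ng a z 0 = nl (Y a z 0 1 2) (Y a z 0 1 3) + nl (Y a z 0 1 3) (Y a z 0 1 2) := by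
    unfold ng nl
    rw [if_pos rfl, if_neg (by decide), if_neg (by decide), e1, e2, b12, b13, q0,
      qq_comm (Y a z 0 1 3), zero_add, add_div]
  have g1 : ng a z 1 = nl (Y a z 0 2 1) (Y a z 0 2 3) + nl (Y a z 0 2 3) (Y a z 0 2 1) := by
    unfold ng nl
    rw [if_neg (by decide), if_pos rfl, if_neg (by decide), e0, e2, b21, b23, q1,
      qq_comm (Y a z 0 2 3), add_zero, add_div]
  have g2 : ng a z 2 = nl (Y a z 0 3 1) (Y a z 0 3 2) + nl (Y a z 0 3 2) (Y a z 0 3 1) := by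
    unfold ng nl
    rw [if_neg (by decide), if_neg (by decide), if_pos rfl, e0, e1, b31, b32, q2,
      qq_comm (Y a z 0 3 2), add_zero, add_div]
  have fin : ∀ {y y' : ℝ}, 0 ≤ y → 0 ≤ y' → 0 < qq y y' → 0 ≤ nl y y' + nl y' y ∧
      nl y y' + nl y' y ≤ (lk y y' + lk y' y) / 3 ∧
      1 + (lk y y' + lk y' y) - 1 / qq y y' =
        ((lk y y' + lk y' y) + (nl y y' + nl y' y)) / 2 := by
    intro y y' hy hy' hq
    exact ⟨add_nonneg (nl_nonneg hq) (nl_nonneg (by rwa [qq_comm])), nl_le hy hy' hq, nun_nl hq⟩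
  fin_cases j
  · show 0 ≤ ng a z 0 ∧ ng a z 0 ≤ nc (NM a z) 0 / 3 ∧
      1 + nc (NM a z) 0 - 1 / qM a z 0 = (nc (NM a z) 0 + ng a z 0) / 2
    rw [g0, n0, q0]
    exact fin (hy (by decide) (by decide)) (hy (by decide) (by decide)) p0
  · show 0 ≤ ng a z 1 ∧ ng a z 1 ≤ nc (NM a z) 1 / 3 ∧
      1 + nc (NM a z) 1 - 1 / qM a z 1 = (nc (NM a z) 1 + ng a z 1) / 2
    rw [g1, n1, q1]
    exact fin (hy (by decide) (by decide)) (hy (by decide) (by decide)) p1
  · show 0 ≤ ng a z 2 ∧ ng a z 2 ≤ nc (NM a z) 2 / 3 ∧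
      1 + nc (NM a z) 2 - 1 / qM a z 2 = (nc (NM a z) 2 + ng a z 2) / 2
    rw [g2, n2, q2]
    exact fin (hy (by decide) (by decide)) (hy (by decide) (by decide)) p2

end body

end Helper93.MEI
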