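import Pool.Agent.Helper93.MEI.F2
import Pool.Agent.Helper78.MEI.FGM

/-!
# Project MEI (M2): the second bound of a placed body inside `WCost`

* `inst_F2`: `GM - Λ/3 wx V w + (1 - DhM) w ≤ Yt` for every point of the body;
* `WCost.second`: the cost of the certificate from a second pair `(G₂, D₂)` valid on the body;
* `Dh_corner`: nodes and apex together have a deficit at most `(1 - t_k)/2 + (N t)_k / 2`.
-/

namespace Helper93.MEI

open Set Metric MeasureTheory Helper80.CW Helper82.CW Helper14.CW Helper78.MEI Helper82.M2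
open Helper14.MEI2 Pool.Agent.Helper52.MEI Pool.Agent.Helper73.MEI Helper37.MEI Helper41.MEI
open Helper33.MEI (Wi Dl tx M3 mt mt_pos)
open Pool.Agent.Helper55.Sx (Sim)
open Pool.Agent.Helper55.Mass (LN LN_nonneg vv vv_nonneg)
open Pool.Agent.Helper55.Apex (nc)
open Pool.Agent.Helper55.ApexP (PN alP alP_nonneg)
open Pool.Agent.Helper55.Fill (xx xx_nonneg xx_le xx_feas rr rr_nonneg)
open Pool.Agent.Helper31.SR
open Helper75.MEI2 (mu vt)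
open scoped RealInnerProductSpace ENNReal

variable {a : Fin 4 → E3} {σ : Measure (E3 × E3)} {K : Set E3} {S : Fin 4 → ℝ}
  {c : Fin 4 → E3} {z : Fin 4 → Fin 4 → E3}

/-- `Lam` of the certificate `GM` -/
noncomputable def LamM (A' : ℝ) (N : Fin 3 → Fin 3 → ℝ) (ζ ζp : Fin 3 → ℝ) (lam : ℝ)
    (hf : Fin 3 → ℝ × ℝ → ℝ) (β : Fin 3 → ℝ) (M : Fin 3 → Fin 3 → ℝ) : ℝ × ℝ → ℝ :=
  Lam N (fun _ : Unit => fun t => lam * alP N ζp t) (fun _ => ζ)
    (ash hf (fun p => Pool.Agent.Helper55.Mass.Id (hf p)) β A') M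

/-- the deficit of the certificate `GM`, `κ = 1/2` -/
noncomputable def DhM (A' : ℝ) (N : Fin 3 → Fin 3 → ℝ) (ζ ζp : Fin 3 → ℝ) (lam : ℝ)
    (hf κ : Fin 3 → ℝ × ℝ → ℝ) (β : Fin 3 → ℝ) (M : Fin 3 → Fin 3 → ℝ) (sm : Fin 3 → ℝ) :
    ℝ × ℝ → ℝ :=
  Dh N (fun _ : Unit => fun t => lam * alP N ζp t) (fun _ => ζ) (fun _ => 1)
    (ash hf (fun p => Pool.Agent.Helper55.Mass.Id (hf p)) β A')
    (ast κ (fun p => Pool.Agent.Helper55.Mass.Id (κ p)) β A') M sm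

/-- **the bound of the coupling with `κ = 1/2`**, placed body -/
theorem inst_F2 [IsFiniteMeasure σ] (h : CN K σ a c) (v : Viol K a S) (hz : CV a K z)
    (τ : Equiv.Perm (Fin 4)) {A' : ℝ} (hA' : 0 < A')
    {l : Fin 3 → Bool → Bool → E3 × E3 → ℝ} (hl : Lok a l)
    {δ dE dm : Fin 3 → ℝ} (hδ : ∀ p, MA σ a l τ p p ≤ δ p) (hdE : ∀ p, 0 ≤ dE p)
    (hdm : ∀ p, 0 ≤ dm p) (hdd : ∀ p, δ p ^ 2 ≤ dE p * dm p)
    {ρ β : Fin 3 → ℝ} (hρ : ∀ p, 0 < ρ p)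
    (hMρ : ∀ p k, k ≠ p → MA σ a l τ p k ≤ ρ p)
    {x : E3} (hx : x ∈ K)
    {N : Fin 3 → Fin 3 → ℝ} (hNd : N = NM (fun i => a (τ i)) (fun i j => z (τ i) (τ j)))
    {R : Fin 3 → ℝ} (hRd : R = RM (fun i => a (τ i)) (fun i j => z (τ i) (τ j)))
    {ζ ζp : Fin 3 → ℝ} (hζp : ∀ k, 0 < ζp k) (hζ : ∀ k, ζ k ≤ ζp k)
    (hb : ∀ k, b3 (fun i => a (τ i)) x k ≤ ζ k + LN N ζ k)
    {lam : ℝ} (hl0 : 0 ≤ lam)
    {hf : Fin 3 → ℝ × ℝ → ℝ} (hf0 : ∀ l, ∀ t, 0 ≤ hf l t)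
    (hfz : ∀ l, ∀ t, (¬ ∀ k, 0 ≤ mu (PN N) (vt t) k) → hf l t = 0)
    (hfx : ∀ t, (∀ k, 0 ≤ mu (PN N) (vt t) k) → ∀ k,
      lam * alP N ζp t * ζp k + ((hf 0 t + hf 1 t + hf 2 t) - hf k t) ≤ mu (PN N) (vt t) k)
    {κ : Fin 3 → ℝ × ℝ → ℝ} (hκ0 : ∀ l, ∀ t ∈ Sim, 0 ≤ κ l t)
    (hκr : ∀ t ∈ Sim, ∀ k, (κ 0 t + κ 1 t + κ 2 t) - κ k t ≤ rr N (vv t) k)
    (hβ0 : ∀ p, 0 ≤ β p) (hβ1 : ∀ p, β p ≤ 1)
    (hK : ∀ p, β p * ρ p ≤ A' * Pool.Agent.Helper55.Mass.Id (κ p))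
    (hF0 : ∀ p, 0 < Pool.Agent.Helper55.Mass.Id (hf p))
    (hF : ∀ p, (1 - β p) * ρ p ≤ A' * Pool.Agent.Helper55.Mass.Id (hf p))
    {V : ℝ} (hV : ∀ k : Fin 3, S (τ k.succ) ≤ V) {t : ℝ × ℝ} (ht : t ∈ Sim)
    {q : E3} (hq : q ∈ K) :
    GM A' N ζ ζp lam hf κ β (MB σ a l τ) (fun p => aE σ a l (τ 0) (τ p.succ) - dE p) R
        (fun k => S (τ k.succ)) (Qv a (τ 0) x) t
      - LamM A' N ζ ζp lam hf β (MB σ a l τ) t / 3 * wx V (‖a (τ 0) - q‖ ^ 2)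
      + (1 - DhM A' N ζ ζp lam hf κ β (MB σ a l τ)
          (fun p => am σ a l (τ 0) (τ p.succ) - dm p) t) * ‖a (τ 0) - q‖ ^ 2 ≤
      Yt (fun i => a (τ i)) t q := by
  have h' := h.perm τ
  have v' := viol_perm v τ
  have hz' := hz.perm τ
  have hN : ∀ k m, 0 ≤ N k m := fun k m => by
    rw [hNd]
    exact NM_nonneg h' v' hz' k m
  have hd : ∀ k, N k k = 0 := fun k => by
    rw [hNd]
    exact NM_diag k
  have hcol : ∀ m, nc N m ≤ 9 / 10 := fun m => by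
    rw [hNd]
    exact nc_le h' v' hz' m
  have hc : (9 / 10 : ℝ) < 1 := by norm_num
  have hgr := gram_of_dist h'.ha
  have hKp : ∀ l, 0 ≤ Pool.Agent.Helper55.Mass.Id (κ l) := fun l => by
    have h1 := (mul_nonneg (hβ0 l) (hρ l).le).trans (hK l)
    by_contra hneg
    have := mul_neg_of_pos_of_neg hA' (not_le.1 hneg)
    linarith
  have hM0 : ∀ l' k, 0 ≤ MB σ a l τ l' k := fun l' k => MB_nonneg τ l' k
  have hMl : ∀ p, MB σ a l τ p p = 0 := fun p => MB_diag τ p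
  have hMB : ∀ p k, MB σ a l τ p k ≤ ρ p := fun p k => by
    unfold MB
    split_ifs with e
    · exact (hρ p).le
    · exact hMρ p k e
  have hn := ng_facts hz' h' v'
  have key := gen_F2 (ι := Unit) (a := fun i => a (τ i)) hgr hN hc hcol (h'.hp q hq) ht
    (al := fun _ => fun t => lam * alP N ζp t) (ζ := fun _ => ζ)
    (L := fun _ => Qv a (τ 0) x) (μx := fun _ => 1) (R := R) (S := fun k => S (τ k.succ))
    (μ := fun j => 1 / qM (fun i => a (τ i)) (fun i j => z (τ i) (τ j)) j)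
    (n := ng (fun i => a (τ i)) (fun i j => z (τ i) (τ j)))
    (α := ash (hf) (fun l => Pool.Agent.Helper55.Mass.Id (hf l)) β A')
    (g := ast κ (fun l => Pool.Agent.Helper55.Mass.Id (κ l)) β A')
    (M := MB σ a l τ) (E := fun p => aE σ a l (τ 0) (τ p.succ) - dE p)
    (sm := fun p => am σ a l (τ 0) (τ p.succ) - dm p)
    (fun _ => mul_nonneg hl0 (alP_nonneg hζp t))
    (fun l => ash_nonneg hf0 hA' hF0 hβ1 l t)
    (fun l => ast_nonneg hκ0 hA' hβ0 hKp l ht)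
    hM0
    (fun k => by
      simp only [Finset.univ_unique, Finset.sum_singleton]
      exact ash_feas4 hN hd hc hcol hζp hζ hf0 hfz hfx hl0 hA' hF0 hβ1 hF hMl hMB ht k)
    (fun k => ast_feas4 hκ0 hκr hA' hβ0 hKp hK hMl hMB ht k)
    (fun j => (hn j).1) (fun j => by rw [hNd]; exact (hn j).2.1)
    (fun j => by rw [hNd]; exact (hn j).2.2.le)
    (fun j => by
      rw [hRd, hNd]
      exact Pt_load_F2 hz' h' v' hq hV j)
    (fun _ => apex_load hgr (h.hd x hx q hq) (h'.hp q hq) hb)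
    (fun p => by
      have h0 := arc_load h.ha hl h.cpt h.pm.mem h.hp h.hd τ hq p
      exact load_drop2 h'.ha (h'.hp q hq) h0 (hδ p) ((MA_nonneg τ p p).trans (hδ p))
        (hdE p) (hdm p) (hdd p))
    (v.le _ q hq) (v.le _ q hq) (v.le _ q hq)
  exact key

/-- **the cost from a second pair of bounds** valid on the body -/
theorem WCost.second {τ : Equiv.Perm (Fin 4)} {A' : ℝ} (hA' : 0 ≤ A')
    {G D G2 D2 e : ℝ × ℝ → ℝ} {cst : ℝ}
    (h2 : WCost a K τ A' G2 D2 cst)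
    (hG2 : ∀ t ∈ Dl, ∀ q ∈ K, G2 t + (1 - D2 t) * ‖a (τ 0) - q‖ ^ 2 ≤
      Yt (fun i => a (τ i)) t q)
    (hGe : ∀ t ∈ Dl, G t ≤ G2 t + √(mt t) * e t)
    (hem : AEStronglyMeasurable e (volume.restrict Dl)) {C : ℝ}
    (heC : ∀ t ∈ Dl, |e t| ≤ C) :
    WCost a K τ A' G D (cst + A' * ((√2)⁻¹ * ∫ t in Dl, e t * M3 t)) := by
  obtain ⟨ω, s, C2, w1, w2, w3, w4, w5, w6⟩ := h2
  refine ⟨fun t => ω t + A' * e t, s, C2 + A' * C, w1.add (hem.const_mul _), fun t ht => ?_, w3,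
    w4, fun t ht q hq hs _ => ?_, ?_⟩
  · have h1 := w2 t ht
    have h2 := mul_le_mul_of_nonneg_left (heC t ht) hA'
    have h3 : |A' * e t| = A' * |e t| := by rw [abs_mul, abs_of_nonneg hA']
    have h4 := abs_add_le (ω t) (A' * e t)
    linarith
  · have k := w5 t ht q hq hs (hG2 t ht q hq)
    have hm : 0 < √(mt t) := Real.sqrt_pos.2 mt_pos
    have k2 : G t / √(mt t) ≤ G2 t / √(mt t) + e t := by
      rw [div_le_iff₀ hm, add_mul, div_mul_cancel₀ _ hm.ne']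
      have := hGe t ht
      linarith
    have k3 := mul_le_mul_of_nonneg_left k2 hA'
    linarith
  · have e1 : ∀ t, (ω t + A' * e t) * M3 t = ω t * M3 t + A' * (e t * M3 t) := fun t => by ring
    simp only [e1]
    rw [integral_add (on_Dl w1 w2) ((on_Dl hem heC).const_mul A'), integral_const_mul,
      mul_add]
    linarith

/-- nodes and apex together: the weights of the apex use the walls as well -/
theorem Dh_corner {N : Fin 3 → Fin 3 → ℝ} (hN : ∀ k m, 0 ≤ N k m) {c : ℝ} (hc : c < 1)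
    (hcol : ∀ m, nc N m ≤ c) {b ζ : Fin 3 → ℝ} (hb : ∀ k, 0 ≤ b k) {α b0 : ℝ}
    (hα : 0 ≤ α) (hx : ∀ k, α * ζ k ≤ xx N b k) {k : Fin 3}
    (hb0 : 2 * b0 ≤ (ζ 0 + LN N ζ 0 + (ζ 1 + LN N ζ 1) + (ζ 2 + LN N ζ 2)) - (ζ k + LN N ζ k)) :
    (LN N (fun i => xx N b i - α * ζ i) 0 + LN N (fun i => xx N b i - α * ζ i) 1
      + LN N (fun i => xx N b i - α * ζ i) 2) / 2 + α * b0 ≤
      ((b 0 + b 1 + b 2 - b k) + LN N (fun i => xx N b i - α * ζ i) k) / 2 := by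
  have f0 := xx_feas hN hc hcol hb 0
  have f1 := xx_feas hN hc hcol hb 1
  have f2 := xx_feas hN hc hcol hb 2
  have x0 := hx 0
  have x1 := hx 1
  have x2 := hx 2
  have e : ∀ j, LN N (fun i => xx N b i - α * ζ i) j = LN N (xx N b) j - α * LN N ζ j := by
    intro j
    unfold LN
    ring
  have k1 := mul_le_mul_of_nonneg_left hb0 hα
  rw [e 0, e 1, e 2]
  fin_cases k
  · show (LN N (xx N b) 0 - α * LN N ζ 0 + (LN N (xx N b) 1 - α * LN N ζ 1) +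
      (LN N (xx N b) 2 - α * LN N ζ 2)) / 2 + α * b0 ≤
      (b 0 + b 1 + b 2 - b 0 + LN N (fun i => xx N b i - α * ζ i) 0) / 2
    rw [e 0]
    have k2 : 2 * (α * b0) ≤ α * (ζ 1 + LN N ζ 1) + α * (ζ 2 + LN N ζ 2) := by
      have : α * (2 * b0) ≤ α * ((ζ 0 + LN N ζ 0 + (ζ 1 + LN N ζ 1) + (ζ 2 + LN N ζ 2)) -
        (ζ 0 + LN N ζ 0)) := k1
      linarith
    linarith
  · show (LN N (xx N b) 0 - α * LN N ζ 0 + (LN N (xx N b) 1 - α * LN N ζ 1) +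
      (LN N (xx N b) 2 - α * LN N ζ 2)) / 2 + α * b0 ≤
      (b 0 + b 1 + b 2 - b 1 + LN N (fun i => xx N b i - α * ζ i) 1) / 2
    rw [e 1]
    have k2 : 2 * (α * b0) ≤ α * (ζ 0 + LN N ζ 0) + α * (ζ 2 + LN N ζ 2) := by
      have : α * (2 * b0) ≤ α * ((ζ 0 + LN N ζ 0 + (ζ 1 + LN N ζ 1) + (ζ 2 + LN N ζ 2)) -
        (ζ 1 + LN N ζ 1)) := k1
      linarith
    linarith
  · show (LN N (xx N b) 0 - α * LN N ζ 0 + (LN N (xx N b) 1 - α * LN N ζ 1) +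
      (LN N (xx N b) 2 - α * LN N ζ 2)) / 2 + α * b0 ≤
      (b 0 + b 1 + b 2 - b 2 + LN N (fun i => xx N b i - α * ζ i) 2) / 2
    rw [e 2]
    have k2 : 2 * (α * b0) ≤ α * (ζ 0 + LN N ζ 0) + α * (ζ 1 + LN N ζ 1) := by
      have : α * (2 * b0) ≤ α * ((ζ 0 + LN N ζ 0 + (ζ 1 + LN N ζ 1) + (ζ 2 + LN N ζ 2)) -
        (ζ 2 + LN N ζ 2)) := k1
      linarith
    linarith

/-- the deficit of a point of the body: at most half the sum of two of its coordinates -/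
theorem bar0_pair (h : Gram4 (al a)) {x : E3} (hx : Pl a x) {k : Fin 4} (hk : k ≠ 0) :
    2 * (-(bar a 0 x)) ≤ (bar a 1 x + bar a 2 x + bar a 3 x) - bar a k x := by
  have h1 := (pl_iff h).1 hx k 0 hk
  have hs := bar_sum h x
  linarith

end Helper93.MEI
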