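import Mathlib

/-!
# Lower bounds by measurable functions from lower bounds by continuous functions

`G` compact, `Φ` and `τ` continuous on `G`.  If every continuous `L` with `L (τ z) ≤ Φ z` on `G`
satisfies `∫_D L M ≤ I`, then so does every bounded measurable `g`.
-/

namespace Helper93.Meas

open Set Filter Topology MeasureTheory

variable {Z T : Type*} [PseudoMetricSpace T]

/-- the Lipschitz regularisation -/
noncomputable def Ln (G : Set Z) (Φ : Z → ℝ) (τ : Z → T) (C : ℝ) (n : ℕ) (t : T) : ℝ :=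
  min C (sInf ((fun z => Φ z + n * dist t (τ z)) '' G))

variable {G : Set Z} {Φ : Z → ℝ} {τ : Z → T} {C B : ℝ}

theorem bddBelow_im (hB : ∀ z ∈ G, |Φ z| ≤ B) (n : ℕ) (t : T) :
    BddBelow ((fun z => Φ z + n * dist t (τ z)) '' G) := by
  refine ⟨-B, ?_⟩
  rintro _ ⟨z, hz, rfl⟩
  have h1 := (abs_le.1 (hB z hz)).1
  have h2 : 0 ≤ (n : ℝ) * dist t (τ z) := by positivity
  show -B ≤ Φ z + n * dist t (τ z)
  linarith

theorem sInf_ge (hG : G.Nonempty) (hB : ∀ z ∈ G, |Φ z| ≤ B) (n : ℕ) (t : T) :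
    -B ≤ sInf ((fun z => Φ z + n * dist t (τ z)) '' G) := by
  apply le_csInf (hG.image _)
  rintro _ ⟨z, hz, rfl⟩
  have h1 := (abs_le.1 (hB z hz)).1
  have h2 : 0 ≤ (n : ℝ) * dist t (τ z) := by positivity
  show -B ≤ Φ z + n * dist t (τ z)
  linarith

theorem Ln_le (hB : ∀ z ∈ G, |Φ z| ≤ B) (n : ℕ) {z : Z} (hz : z ∈ G) :
    Ln G Φ τ C n (τ z) ≤ Φ z := by
  unfold Ln
  refine (min_le_right _ _).trans ?_
  have h1 := csInf_le (bddBelow_im (τ := τ) hB n (τ z)) ⟨z, hz, rfl⟩
  refine h1.trans (le_of_eq ?_)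
  show Φ z + n * dist (τ z) (τ z) = Φ z
  rw [dist_self, mul_zero, add_zero]

theorem Ln_cont (hG : G.Nonempty) (hB : ∀ z ∈ G, |Φ z| ≤ B) (n : ℕ) :
    Continuous (Ln G Φ τ C n) := by
  have h1 : LipschitzWith (n : NNReal)
      (fun t : T => sInf ((fun z => Φ z + n * dist t (τ z)) '' G)) := by
    apply LipschitzWith.of_le_add_mul
    intro s t
    have key : sInf ((fun z => Φ z + n * dist s (τ z)) '' G) - (n : ℝ) * dist s t ≤
        sInf ((fun z => Φ z + n * dist t (τ z)) '' G) := by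
      apply le_csInf (hG.image _)
      rintro _ ⟨z, hz, rfl⟩
      have h2 := csInf_le (bddBelow_im (τ := τ) hB n s) ⟨z, hz, rfl⟩
      have h3 : (n : ℝ) * dist s (τ z) ≤ n * (dist s t + dist t (τ z)) :=
        mul_le_mul_of_nonneg_left (dist_triangle _ _ _) (Nat.cast_nonneg n)
      have h4 : sInf ((fun z => Φ z + n * dist s (τ z)) '' G) ≤ Φ z + n * dist s (τ z) := h2
      show sInf ((fun z => Φ z + n * dist s (τ z)) '' G) - (n : ℝ) * dist s t ≤
        Φ z + n * dist t (τ z)
      linarith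
    have h5 : ((n : NNReal) : ℝ) = (n : ℝ) := by simp
    rw [h5]
    linarith
  exact continuous_const.min h1.continuous

theorem Ln_mono (hG : G.Nonempty) (hB : ∀ z ∈ G, |Φ z| ≤ B) (t : T) :
    Monotone (fun n => Ln G Φ τ C n t) := by
  intro m n hmn
  apply min_le_min le_rfl
  apply le_csInf (hG.image _)
  rintro _ ⟨z, hz, rfl⟩
  refine (csInf_le (bddBelow_im (τ := τ) hB m t) ⟨z, hz, rfl⟩).trans ?_
  show Φ z + m * dist t (τ z) ≤ Φ z + n * dist t (τ z)
  have : (m : ℝ) ≤ n := by exact_mod_cast hmn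
  have := mul_le_mul_of_nonneg_right this (dist_nonneg (x := t) (y := τ z))
  linarith

theorem Ln_bd (hG : G.Nonempty) (hB : ∀ z ∈ G, |Φ z| ≤ B) (n : ℕ) (t : T) :
    |Ln G Φ τ C n t| ≤ |C| + |B| := by
  have h1 := sInf_ge (τ := τ) hG hB n t
  have h2 : Ln G Φ τ C n t ≤ C := min_le_left _ _
  have h3 : min C (-B) ≤ Ln G Φ τ C n t := min_le_min le_rfl h1
  rw [abs_le]
  constructor
  · have h4 : -(|C| + |B|) ≤ min C (-B) := by
      apply le_min
      · have := neg_abs_le C
        have := abs_nonneg B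
        linarith
      · have := le_abs_self B
        have := abs_nonneg C
        linarith
    linarith
  · have := le_abs_self C
    have := abs_nonneg B
    linarith

/-- the limit dominates `g` -/
theorem g_le [PseudoMetricSpace Z] (hGc : IsCompact G) (hne : G.Nonempty)
    (hB : ∀ z ∈ G, |Φ z| ≤ B) (hΦ : ContinuousOn Φ G)
    (hτ : ContinuousOn τ G) {g : T → ℝ} {t : T} (hgC : g t ≤ C)
    (h : ∀ z ∈ G, dist t (τ z) = 0 → g t ≤ Φ z) {L : ℝ} (hL : ∀ n, Ln G Φ τ C n t ≤ L) :
    g t ≤ L := by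
  by_contra hcon
  push Not at hcon
  obtain ⟨c, hc1, hc2⟩ := exists_between hcon
  have h1 : ∀ n : ℕ, ∃ z ∈ G, Φ z + n * dist t (τ z) < c := by
    intro n
    have h2 := hL n
    unfold Ln at h2
    rcases min_le_iff.1 h2 with h3 | h3
    · exact absurd (hgC.trans h3) (not_le.2 hcon)
    · obtain ⟨_, ⟨z, hz, rfl⟩, hlt⟩ := exists_lt_of_csInf_lt (hne.image _) (h3.trans_lt hc1)
      exact ⟨z, hz, hlt⟩
  choose z hz hlt using h1
  obtain ⟨w, hw, φ, hφ, hlim⟩ := hGc.tendsto_subseq hz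
  have hlim' : Tendsto (z ∘ φ) atTop (𝓝[G] w) :=
    tendsto_nhdsWithin_iff.2 ⟨hlim, Eventually.of_forall fun n => hz _⟩
  have hΦl : Tendsto (Φ ∘ (z ∘ φ)) atTop (𝓝 (Φ w)) := (hΦ w hw).tendsto.comp hlim'
  have hτl : Tendsto (τ ∘ (z ∘ φ)) atTop (𝓝 (τ w)) := (hτ w hw).tendsto.comp hlim'
  have hdl : Tendsto (fun n => dist t (τ (z (φ n)))) atTop (𝓝 (dist t (τ w))) :=
    tendsto_const_nhds.dist hτl
  have hd0 : dist t (τ w) ≤ 0 := by
    have hz0 : Tendsto (fun n : ℕ => (c + B) / (n : ℝ)) atTop (𝓝 0) :=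
      tendsto_const_div_atTop_nhds_zero_nat (c + B)
    refine le_of_tendsto_of_tendsto hdl hz0 ?_
    filter_upwards [eventually_gt_atTop 0] with n hn
    have hn' : (0 : ℝ) < n := by exact_mod_cast hn
    rw [le_div_iff₀ hn']
    have h2 := hlt (φ n)
    have h3 := (abs_le.1 (hB _ (hz (φ n)))).1
    have h4 : (n : ℝ) ≤ (φ n : ℝ) := by exact_mod_cast hφ.id_le n
    have h5 : (n : ℝ) * dist t (τ (z (φ n))) ≤ (φ n : ℝ) * dist t (τ (z (φ n))) :=
      mul_le_mul_of_nonneg_right h4 dist_nonneg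
    linarith
  have hd : dist t (τ w) = 0 := le_antisymm hd0 dist_nonneg
  have hΦc : Φ w ≤ c := by
    refine le_of_tendsto hΦl (Eventually.of_forall fun n => ?_)
    have h2 := hlt (φ n)
    have h3 : 0 ≤ ((φ n : ℕ) : ℝ) * dist t (τ (z (φ n))) := by positivity
    show Φ (z (φ n)) ≤ c
    linarith
  have := h w hw hd
  linarith

/-- **measurable lower bounds are as good as continuous ones** -/
theorem meas_of_cont [PseudoMetricSpace Z] [MeasurableSpace T] [BorelSpace T]
    {μ : Measure T} {D : Set T} (hD : MeasurableSet D) (hDf : μ D ≠ ⊤)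
    (hGc : IsCompact G) (hΦ : ContinuousOn Φ G) (hτ : ContinuousOn τ G)
    {M : T → ℝ} (hM : Continuous M) (hM0 : ∀ t, 0 ≤ M t) {b : ℝ} (hMb : ∀ t ∈ D, M t ≤ b)
    {g : T → ℝ} (hg : AEStronglyMeasurable g (μ.restrict D)) (hgC : ∀ t ∈ D, |g t| ≤ C)
    (h : ∀ z ∈ G, ∀ t ∈ D, dist t (τ z) = 0 → g t ≤ Φ z) {I : ℝ}
    (hI : ∀ L : T → ℝ, Continuous L → (∀ z ∈ G, L (τ z) ≤ Φ z) → ∫ t in D, L t * M t ∂μ ≤ I) :
    ∫ t in D, g t * M t ∂μ ≤ I := by
  have : IsFiniteMeasure (μ.restrict D) := ⟨by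
    rw [Measure.restrict_apply_univ]
    exact hDf.lt_top⟩
  have hgM : IntegrableOn (fun t => g t * M t) D μ := by
    apply Integrable.mono' (integrable_const (|C| * |b|)) (hg.mul hM.aestronglyMeasurable)
    filter_upwards [ae_restrict_mem hD] with t ht
    show ‖g t * M t‖ ≤ |C| * |b|
    rw [Real.norm_eq_abs, abs_mul]
    apply mul_le_mul ((hgC t ht).trans (le_abs_self C)) _ (abs_nonneg _) (abs_nonneg _)
    rw [abs_of_nonneg (hM0 t)]
    exact (hMb t ht).trans (le_abs_self b)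
  rcases G.eq_empty_or_nonempty with he | hne
  · refine le_trans ?_ (hI (fun _ => C) continuous_const ?_)
    · apply setIntegral_mono_on hgM _ hD
      · intro t ht
        exact mul_le_mul_of_nonneg_right ((le_abs_self _).trans (hgC t ht)) (hM0 t)
      · apply Integrable.mono' (integrable_const (|C| * |b|))
          (continuous_const.mul hM).aestronglyMeasurable
        filter_upwards [ae_restrict_mem hD] with t ht
        show ‖C * M t‖ ≤ |C| * |b|
        rw [Real.norm_eq_abs, abs_mul]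
        apply mul_le_mul le_rfl _ (abs_nonneg _) (abs_nonneg _)
        rw [abs_of_nonneg (hM0 t)]
        exact (hMb t ht).trans (le_abs_self b)
    · intro z hz
      rw [he] at hz
      exact absurd hz (notMem_empty z)
  · obtain ⟨B, hB⟩ := hGc.exists_bound_of_continuousOn hΦ
    have hB' : ∀ z ∈ G, |Φ z| ≤ B := fun z hz => by
      rw [← Real.norm_eq_abs]
      exact hB z hz
    set Li : T → ℝ := fun t => ⨆ n, Ln G Φ τ C n t with hLi
    have hbdd : ∀ t, BddAbove (range fun n => Ln G Φ τ C n t) := by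
      intro t
      refine ⟨|C| + |B|, ?_⟩
      rintro _ ⟨n, rfl⟩
      exact (le_abs_self _).trans (Ln_bd hne hB' n t)
    have hlim : ∀ t, Tendsto (fun n => Ln G Φ τ C n t) atTop (𝓝 (Li t)) := fun t =>
      tendsto_atTop_ciSup (Ln_mono hne hB' t) (hbdd t)
    have hLb : ∀ t, |Li t| ≤ |C| + |B| := fun t =>
      le_of_tendsto (hlim t).abs (Eventually.of_forall fun n => Ln_bd hne hB' n t)
    have hLm : AEStronglyMeasurable Li (μ.restrict D) :=
      aestronglyMeasurable_of_tendsto_ae atTop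
        (fun n => (Ln_cont hne hB' n).aestronglyMeasurable)
        (Eventually.of_forall fun t => hlim t)
    have hbound : ∀ F : T → ℝ, (∀ t, |F t| ≤ |C| + |B|) → ∀ t ∈ D,
        ‖F t * M t‖ ≤ (|C| + |B|) * |b| := by
      intro F hF t ht
      rw [Real.norm_eq_abs, abs_mul]
      apply mul_le_mul (hF t) _ (abs_nonneg _) (by positivity)
      rw [abs_of_nonneg (hM0 t)]
      exact (hMb t ht).trans (le_abs_self b)
    have hLiM : IntegrableOn (fun t => Li t * M t) D μ := by
      apply Integrable.mono' (integrable_const ((|C| + |B|) * |b|))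
        (hLm.mul hM.aestronglyMeasurable)
      filter_upwards [ae_restrict_mem hD] with t ht
      exact hbound Li hLb t ht
    have hconv : Tendsto (fun n => ∫ t in D, Ln G Φ τ C n t * M t ∂μ) atTop
        (𝓝 (∫ t in D, Li t * M t ∂μ)) := by
      apply tendsto_integral_of_dominated_convergence (fun _ => (|C| + |B|) * |b|)
      · intro n
        exact ((Ln_cont hne hB' n).mul hM).aestronglyMeasurable
      · exact integrable_const _
      · intro n
        filter_upwards [ae_restrict_mem hD] with t ht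
        exact hbound _ (fun t => Ln_bd hne hB' n t) t ht
      · exact Eventually.of_forall fun t => (hlim t).mul_const (M t)
    have h1 : ∫ t in D, Li t * M t ∂μ ≤ I :=
      le_of_tendsto hconv (Eventually.of_forall fun n =>
        hI _ (Ln_cont hne hB' n) fun z hz => Ln_le hB' n hz)
    refine le_trans ?_ h1
    apply setIntegral_mono_on hgM hLiM hD
    intro t ht
    apply mul_le_mul_of_nonneg_right _ (hM0 t)
    apply g_le hGc hne hB' hΦ hτ ((le_abs_self _).trans (hgC t ht))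
      (fun z hz hd => h z hz t ht hd) (fun n => le_ciSup (hbdd t) n)

end Helper93.Meas
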