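import Pool.Agent.Helper41.MEI.ArcQ

/-!
# Project MEI (M2): a coordinate beyond the far end of the opposite edge, small levels

Sum of the levels at most `0.0135`: `r ≤ T b_2(q) + (1/5) X⁵ (X/2 + z)`, so the correction of the
first moments uses the field `x⁵ e_X`, concentrated at the ends of the edge.
-/

set_option autoImplicit false

namespace Helper93.Neg5

open Helper41.ArcP

theorem rem0 {X : ℝ} (h1 : X ≤ 0.93) :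
    0 ≤ 0.0135 * (1 / 2 - X + 0.2 * X ^ 5) - 0.0135 ^ 2 / 2 + 0.1 * X ^ 6 * (1 - X) ∨ X < 0 := by
  rcases lt_or_ge X 0 with h | h0
  · exact Or.inr h
  left
  rcases le_total X 0.48 with h2 | h2
  · have h3 : 0 ≤ X ^ 5 := by positivity
    have h4 : 0 ≤ 0.1 * X ^ 6 * (1 - X) := mul_nonneg (by positivity) (by linarith)
    linarith
  · have e : 0.0135 * (1 / 2 - X + 0.2 * X ^ 5) - 0.0135 ^ 2 / 2 + 0.1 * X ^ 6 * (1 - X) =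
      16364125472 / 69198046875 * (X - 0.48) ^ 0 * (0.93 - X) ^ 7 +
      64077719264 / 69198046875 * (X - 0.48) ^ 1 * (0.93 - X) ^ 6 +
      49985798624 / 23066015625 * (X - 0.48) ^ 2 * (0.93 - X) ^ 5 +
      86316572384 / 13839609375 * (X - 0.48) ^ 3 * (0.93 - X) ^ 4 +
      181799086544 / 13839609375 * (X - 0.48) ^ 4 * (0.93 - X) ^ 3 +
      317848123979 / 23066015625 * (X - 0.48) ^ 5 * (0.93 - X) ^ 2 +
      390273820064 / 69198046875 * (X - 0.48) ^ 6 * (0.93 - X) ^ 1 +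
      18932032639 / 138396093750 * (X - 0.48) ^ 7 * (0.93 - X) ^ 0 := by ring
    rw [e]
    have u : 0 ≤ X - 0.48 := by linarith
    have v : 0 ≤ 0.93 - X := by linarith
    positivity

theorem rem5 {T X : ℝ} (hT0 : 0 ≤ T) (hT : T ≤ 0.0135) (hX0 : 0 ≤ X) (hX : X ≤ 0.93) :
    T * ((1 + T) / 2 - 0.2 * X ^ 4 * X) ≤ (1 - X) * (T + 0.2 * X ^ 4 * X ^ 2 / 2) := by
  have h1 : 0 ≤ 0.0135 * (1 / 2 - X + 0.2 * X ^ 5) - 0.0135 ^ 2 / 2 + 0.1 * X ^ 6 * (1 - X) := by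
    rcases rem0 hX with h | h
    · exact h
    · exact absurd h (not_lt.2 hX0)
  have h2 : 0 ≤ 0.1 * X ^ 6 * (1 - X) := mul_nonneg (by positivity) (by linarith)
  have h3 : 0 ≤ T * (0.0135 - T) := mul_nonneg hT0 (by linarith)
  have h4 := mul_nonneg hT0 h1
  have h5 := mul_nonneg (by linarith : 0 ≤ 0.0135 - T) h2
  have e : 0.0135 * ((1 - X) * (T + 0.2 * X ^ 4 * X ^ 2 / 2) -
      T * ((1 + T) / 2 - 0.2 * X ^ 4 * X)) =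
      T * (0.0135 * (1 / 2 - X + 0.2 * X ^ 5) - 0.0135 ^ 2 / 2 + 0.1 * X ^ 6 * (1 - X)) +
      (0.0135 - T) * (0.1 * X ^ 6 * (1 - X)) + 0.0135 / 2 * (T * (0.0135 - T)) := by ring
  have h6 : 0 ≤ 0.0135 * ((1 - X) * (T + 0.2 * X ^ 4 * X ^ 2 / 2) -
      T * ((1 + T) / 2 - 0.2 * X ^ 4 * X)) := by
    rw [e]
    have : 0 ≤ 0.0135 / 2 * (T * (0.0135 - T)) := by linarith
    linarith
  linarith

theorem regB {T X z s r : ℝ} (hT : T ≤ 0.0135) (hX0 : 0.93 ≤ X) (hX1 : X ≤ 1)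
    (hr : 0 ≤ r) (hs : 2 * r ≤ s)
    (ha : r + s / 2 ≤ T + X * z)
    (hc : r + r ^ 2 - s * r + z + z ^ 2 ≤ 3 / 2 * s - 3 / 4 * s ^ 2 + T) :
    r ≤ T * (1 - s + r) + 0.1496 * (X * (X / 2 + z)) := by
  have k1 : 0 ≤ (0.0135 - T) * (1.04 - (1 - s + r)) := mul_nonneg (by linarith) (by linarith)
  have k2 : 0 ≤ 0.7 * (T + X * z - r - s / 2) := mul_nonneg (by norm_num) (by linarith)
  have k3 : 0 ≤ 0.34 * (3 / 2 * s - 3 / 4 * s ^ 2 + T - (r + r ^ 2 - s * r + z + z ^ 2)) :=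
    mul_nonneg (by norm_num) (by linarith)
  nlinarith [sq_nonneg (z - 0.8094 * X + 0.5), sq_nonneg (r - s / 2 + 0.07),
    sq_nonneg (s - 0.43), mul_nonneg (sub_nonneg.2 hX0) (sub_nonneg.2 hX1)]

theorem regC {T X z s r : ℝ} (hT0 : 0 ≤ T) (hT : T ≤ 0.0135) (hX0 : 0 ≤ X) (hX1 : X ≤ 1)
    (hr : 0 ≤ r) (hs : 2 * r ≤ s) (hP : 0 ≤ X * (X / 2 + z))
    (ha : r + s / 2 ≤ T + X * z) (hb : (1 - X) * z ≤ T)
    (hc : r + r ^ 2 - s * r + z + z ^ 2 ≤ 3 / 2 * s - 3 / 4 * s ^ 2 + T) :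
    r ≤ T * (1 - s + r) + 0.2 * X ^ 4 * (X * (X / 2 + z)) := by
  rcases le_total X 0.93 with h | h
  · have h4 : X ^ 4 ≤ 0.93 ^ 4 := pow_le_pow_left₀ hX0 h 4
    have h4' : 0 ≤ X ^ 4 := by positivity
    norm_num at h4
    exact regA1 hX0 (by linarith) hs ha hb hT0 (by linarith) (by linarith)
      (rem5 hT0 hT hX0 h)
  · have h1 := regB hT h hX1 hr hs ha hc
    have h4 : 0.93 ^ 4 ≤ X ^ 4 := pow_le_pow_left₀ (by norm_num) h 4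
    have h5 : 0.1496 ≤ 0.2 * X ^ 4 := by norm_num at h4 ⊢; linarith
    have h6 := mul_le_mul_of_nonneg_right h5 hP
    linarith

theorem finE5 {X ξ m c T w n : ℝ} (hX0 : 0 ≤ X) (hX : X ≤ 2 * 0.1286 → 0.337 ≤ w)
    (hξ : ξ ≤ 0.1286) (hXξ : X / 2 < ξ) (hm : 0 ≤ m) (hc : 0 ≤ c) (hT0 : 0 ≤ T)
    (hn0 : 0 ≤ n) (hn : n ≤ 0.72)
    (hP2 : -(X * (X / 2 - ξ)) ≤ ξ ^ 2 / 2)
    (h : 0.1216 * (ξ ^ 2 / 2) ≤ 0.337 * (0.0035 * (m + c))) :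
    0 ≤ w * ((T + 0.00002) * m + 0.00002 * c) + 0.2 * n * X ^ 4 * (X * (X / 2 - ξ)) := by
  have hw := hX (by linarith)
  have h4 : X ^ 4 ≤ 0.2572 ^ 4 := pow_le_pow_left₀ hX0 (by linarith) 4
  have h4' : 0 ≤ X ^ 4 := by positivity
  have h5 : n * X ^ 4 ≤ 0.72 * 0.2572 ^ 4 := mul_le_mul hn h4 h4' (by norm_num)
  have h6 : 0 ≤ n * X ^ 4 := mul_nonneg hn0 h4'
  have h7 : n * X ^ 4 * -(X * (X / 2 - ξ)) ≤ n * X ^ 4 * (ξ ^ 2 / 2) :=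
    mul_le_mul_of_nonneg_left hP2 h6
  have h8 : n * X ^ 4 * (ξ ^ 2 / 2) ≤ 0.72 * 0.2572 ^ 4 * (ξ ^ 2 / 2) :=
    mul_le_mul_of_nonneg_right h5 (by positivity)
  have h1 : 0 ≤ (w - 0.337) * (0.00002 * (m + c)) := mul_nonneg (by linarith) (by positivity)
  have h2 : 0 ≤ w * (T * m) := mul_nonneg (by linarith) (by positivity)
  have h9 : 0 ≤ m + c := by linarith
  norm_num at h8
  linarith

theorem finD5 {X ξ s r T w n : ℝ} (hX0 : 0 ≤ X) (hX : X ≤ 2 * 0.1286 → 0.337 ≤ w)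
    (hT0 : 0 ≤ T) (hT1 : T ≤ 0.0135) (hξ0 : 0 ≤ ξ) (hn0 : 0 ≤ n) (hn : n ≤ 0.72)
    (hXξ : X / 2 < ξ) (hξ : (1 + X) * ξ ≤ T) (hs : 2 * r ≤ s) (ha : r + s / 2 ≤ T + X * (-ξ))
    (hP2 : -(X * (X / 2 - ξ)) ≤ ξ ^ 2 / 2) :
    0 ≤ w * (T * (1 - s + r) - r) + 0.2 * n * X ^ 4 * (X * (X / 2 - ξ)) := by
  have k0 : 0 ≤ X * ξ := mul_nonneg hX0 hξ0
  have hξT : ξ ≤ T := by linarith
  have hw := hX (by linarith)
  have h3 : ξ ^ 2 ≤ T ^ 2 := sqB hξ0 hξT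
  have h4 : r ≤ T / 2 := by linarith
  have h5 : 0 ≤ T * (T - r - s / 2) := mul_nonneg hT0 (by linarith)
  have h6 : 0 ≤ (T / 2 - r) * (1 - 3 * T) := mul_nonneg (by linarith) (by linarith)
  have h7 : 0 ≤ T * (0.0135 - T) := mul_nonneg hT0 (by linarith)
  have h8 : 0.1 * T ^ 2 ≤ T * (1 - s + r) - r := by nlinarith
  have h9 : 0 ≤ (w - 0.337) * (T * (1 - s + r) - r) :=
    mul_nonneg (by linarith) ((by positivity : (0 : ℝ) ≤ 0.1 * T ^ 2).trans h8)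
  have j4 : X ^ 4 ≤ 0.027 ^ 4 := pow_le_pow_left₀ hX0 (by linarith) 4
  have j4' : 0 ≤ X ^ 4 := by positivity
  have j5 : n * X ^ 4 ≤ 0.72 * 0.027 ^ 4 := mul_le_mul hn j4 j4' (by norm_num)
  have j6 : 0 ≤ n * X ^ 4 := mul_nonneg hn0 j4'
  have j7 : n * X ^ 4 * -(X * (X / 2 - ξ)) ≤ n * X ^ 4 * (ξ ^ 2 / 2) :=
    mul_le_mul_of_nonneg_left hP2 j6
  have j8 : n * X ^ 4 * (ξ ^ 2 / 2) ≤ 0.72 * 0.027 ^ 4 * (ξ ^ 2 / 2) :=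
    mul_le_mul_of_nonneg_right j5 (by positivity)
  norm_num at j8
  linarith

theorem finP5 {w r m T P q n κ : ℝ} (hw0 : 0 ≤ w) (hw : w ≤ n) (hκ : 0 ≤ κ) (hP : 0 ≤ P)
    (hm : q ≤ m) (hm0 : 0 ≤ m) (hT0 : 0 ≤ T) (h : r ≤ T * q + κ * P) :
    w * r ≤ w * ((T + 0.00002) * m) + n * κ * P := by
  have h1 := mul_le_mul_of_nonneg_left h hw0
  have h2 : 0 ≤ w * (T * (m - q)) := mul_nonneg hw0 (mul_nonneg hT0 (by linarith))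
  have h3 : 0 ≤ w * (0.00002 * m) := by positivity
  have h4 : 0 ≤ (n - w) * (κ * P) := mul_nonneg (by linarith) (by positivity)
  linarith

/-- **the pointwise bound in reduced coordinates** -/
theorem pwR5 {X ξ s p2 p3 c S0 S1 S2 S3 T w n : ℝ} (g2 : 0 ≤ p2) (g3 : 0 ≤ p3)
    (r23 : ipr X ξ s p2 p3 c + p2 - c ≤ S2 + S3)
    (r20 : ipr X ξ s p2 p3 c + p2 - s / 2 - ξ ≤ S2 + S0)
    (r32 : ipr X ξ s p2 p3 c + p3 - (1 - s - c) ≤ S3 + S2)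
    (r21 : ipr X ξ s p2 p3 c + p2 - s / 2 + ξ ≤ S2 + S1)
    (r31 : ipr X ξ s p2 p3 c + p3 - s / 2 + ξ ≤ S3 + S1)
    (X2 : ipr X ξ s p2 p3 c + p2 + (1 / 2 - nmr ξ s c) ≤ S2)
    (X3 : ipr X ξ s p2 p3 c + p3 + (1 / 2 - nmr ξ s c) ≤ S3)
    (hu : p2 + p3 ≤ 1 / 4)
    (Q0 : nmr ξ s c - s / 2 - ξ - 1 / 2 ≤ S0) (Q1 : nmr ξ s c - s / 2 + ξ - 1 / 2 ≤ S1)
    (plx : X ≤ 1) (pl2 : 1 - s - c - c ≤ 1) (pl3 : c - (1 - s - c) ≤ 1)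
    (h0 : 0 ≤ S0) (h1 : 0 ≤ S1) (h2 : 0 ≤ S2) (h3 : 0 ≤ S3) (hT : S0 + S1 + S2 + S3 ≤ T)
    (hT1 : T ≤ 0.0135) (hw0 : 0 ≤ w) (hw : w ≤ n) (hn : n ≤ 0.72)
    (hw1 : X ≤ 2 * 0.1286 → 0.337 ≤ w) (hX : 0 ≤ X) :
    w * max (-c) 0 ≤ w * ((T + 0.00002) * max (1 - s - c) 0 + 0.00002 * max c 0) +
      0.2 * n * X ^ 4 * (X * (X / 2 - ξ)) := by
  have hT0 : 0 ≤ T := by linarith
  have hn0 : 0 ≤ n := hw0.trans hw
  have m2 : 0 ≤ max (1 - s - c) 0 := le_max_right _ _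
  have m2' : 1 - s - c ≤ max (1 - s - c) 0 := le_max_left _ _
  have m3 : 0 ≤ max c 0 := le_max_right _ _
  have hX4 : 0 ≤ X ^ 4 := by positivity
  have hP2 : -(X * (X / 2 - ξ)) ≤ ξ ^ 2 / 2 := by
    have := sq_nonneg (X - ξ)
    linarith
  have hneg : X * (X / 2 - ξ) < 0 → X / 2 < ξ := by
    intro hP
    by_contra hcon
    rw [not_lt] at hcon
    exact absurd (mul_nonneg hX (by linarith : 0 ≤ X / 2 - ξ)) (by linarith)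
  rcases le_or_gt 0 c with hc | hc
  · rw [max_eq_right (by linarith : -c ≤ 0), mul_zero, max_eq_left hc]
    rcases le_or_gt 0 (X * (X / 2 - ξ)) with hP | hP
    · have i1 : 0 ≤ w * ((T + 0.00002) * max (1 - s - c) 0 + 0.00002 * c) := by positivity
      have i2 : 0 ≤ 0.2 * n * X ^ 4 * (X * (X / 2 - ξ)) := by positivity
      linarith
    · have hξX := hneg hP
      have hξ0 : 0 ≤ ξ := by linarith
      obtain ⟨k1, k2⟩ := caseE g2 g3 r32 r21 r31 X2 X3 hu Q1 pl3 h0 h1 h2 h3 hT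
        (hT1.trans (by norm_num)) hX hc hξ0
      exact finE5 hX hw1 k1 hξX m2 hc hT0 hn0 hn hP2 k2
  · rw [max_eq_left (by linarith : 0 ≤ -c), max_eq_right hc.le, mul_zero, add_zero]
    obtain ⟨d1, d2, d3, d4, d5⟩ := caseD g2 g3 pl2 hc.le r23 r20 r21 Q0 h0 h1 h2 h3 hT
    rcases le_or_gt 0 (X * (X / 2 - ξ)) with hP | hP
    · have e2 : X / 2 + -ξ = X / 2 - ξ := by ring
      have k1 := regC hT0 hT1 hX plx (by linarith : 0 ≤ -c) d1 (by rw [e2]; exact hP) d2 d3 d5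
      have e1 : 1 - s + -c = 1 - s - c := by ring
      rw [e1, e2] at k1
      have k2 := finP5 (κ := 0.2 * X ^ 4) hw0 hw (by positivity) hP m2' m2 hT0 k1
      refine k2.trans (le_of_eq ?_)
      ring
    · have hξX := hneg hP
      have hξ0 : 0 ≤ ξ := by linarith
      have k1 := finD5 hX hw1 hT0 hT1 hξ0 hn0 hn hξX d4 d1 d2 hP2
      have k2 : 0 ≤ w * (T * (max (1 - s - c) 0 - (1 - s - c))) :=
        mul_nonneg hw0 (mul_nonneg hT0 (by linarith))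
      have k3 : 0 ≤ w * (0.00002 * max (1 - s - c) 0) := by positivity
      have e1 : w * (T * (1 - s + -c) - -c) = w * (T * (1 - s - c)) -
          w * (-c) := by ring
      rw [e1] at k1
      linarith

/-- **the pointwise bound**, `x` on the side of `a 0` -/
theorem pwX5 {x0 x1 x2 x3 q0 q1 q2 q3 S0 S1 S2 S3 T w n : ℝ}
    (sx : x0 + x1 + x2 + x3 = 1) (sq : q0 + q1 + q2 + q3 = 1)
    (hd : x0 ^ 2 + x1 ^ 2 + x2 ^ 2 + x3 ^ 2 + (q0 ^ 2 + q1 ^ 2 + q2 ^ 2 + q3 ^ 2) -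
      2 * (x0 * q0 + x1 * q1 + x2 * q2 + x3 * q3) = 2)
    (hx2 : x2 ≤ 0) (hx3 : x3 ≤ 0)
    (X2 : 1 / 2 * (x0 ^ 2 + x1 ^ 2 + x2 ^ 2 + x3 ^ 2) - x2 - 1 / 2 ≤ S2)
    (X3 : 1 / 2 * (x0 ^ 2 + x1 ^ 2 + x2 ^ 2 + x3 ^ 2) - x3 - 1 / 2 ≤ S3)
    (Q0 : 1 / 2 * (q0 ^ 2 + q1 ^ 2 + q2 ^ 2 + q3 ^ 2) - q0 - 1 / 2 ≤ S0)
    (Q1 : 1 / 2 * (q0 ^ 2 + q1 ^ 2 + q2 ^ 2 + q3 ^ 2) - q1 - 1 / 2 ≤ S1)
    (Q2 : 1 / 2 * (q0 ^ 2 + q1 ^ 2 + q2 ^ 2 + q3 ^ 2) - q2 - 1 / 2 ≤ S2)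
    (Q3 : 1 / 2 * (q0 ^ 2 + q1 ^ 2 + q2 ^ 2 + q3 ^ 2) - q3 - 1 / 2 ≤ S3)
    (plx : x0 - x1 ≤ 1) (pl2 : q2 - q3 ≤ 1) (pl3 : q3 - q2 ≤ 1)
    (h0 : 0 ≤ S0) (h1 : 0 ≤ S1) (h2 : 0 ≤ S2) (h3 : 0 ≤ S3) (hT : S0 + S1 + S2 + S3 ≤ T)
    (hT1 : T ≤ 0.0135) (hw0 : 0 ≤ w) (hw : w ≤ n) (hn : n ≤ 0.72)
    (hw1 : x0 - x1 ≤ 2 * 0.1286 → -x2 + -x3 ≤ 1 / 4 → 0.337 ≤ w)
    (hX : 0 ≤ x0 - x1) :
    w * max (-q3) 0 ≤ w * ((T + 0.00002) * max q2 0 + 0.00002 * max q3 0) +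
      0.2 * n * (x0 - x1) ^ 4 * ((x0 - x1) * ((x0 - x1) / 2 - (q0 - q1) / 2)) := by
  have hu : -x2 + -x3 ≤ 1 / 4 := by
    have e1 : x0 ^ 2 + x1 ^ 2 = ((1 - x2 - x3) ^ 2 + (x0 - x1) ^ 2) / 2 := by
      have : x0 = 1 - x1 - x2 - x3 := by linarith
      rw [this]; ring
    have e2 : (x2 + x3) ^ 2 / 2 ≤ x2 ^ 2 + x3 ^ 2 := by
      have := sq_nonneg (x2 - x3)
      linarith
    have e3 := sq_nonneg (x0 - x1)
    have e4 : (1 + (-x2 + -x3)) ^ 2 / 4 + (x2 + x3) ^ 2 / 4 + (-x2 + -x3) / 2 - 1 / 2 ≤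
        0.0302 := by
      have e5 : (1 - x2 - x3) ^ 2 = (1 + (-x2 + -x3)) ^ 2 := by ring
      rw [e5] at e1
      linarith
    have e6 : (-x2 + -x3) + (-x2 + -x3) ^ 2 / 2 ≤ 0.2802 := by linarith
    by_contra hcon
    rw [not_le] at hcon
    have e7 := sqB (by norm_num : (0 : ℝ) ≤ 1 / 4) hcon.le
    norm_num at e7
    linarith
  have ei : ipr (x0 - x1) ((q0 - q1) / 2) (q0 + q1) (-x2) (-x3) q3 =
      x0 * q0 + x1 * q1 + x2 * q2 + x3 * q3 := by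
    have k1 : x0 = 1 - x1 - x2 - x3 := by linarith
    have k2 : q2 = 1 - q0 - q1 - q3 := by linarith
    unfold ipr
    rw [k1, k2]
    ring
  have en : nmr ((q0 - q1) / 2) (q0 + q1) q3 = (q0 ^ 2 + q1 ^ 2 + q2 ^ 2 + q3 ^ 2) / 2 := by
    have k2 : q2 = 1 - q0 - q1 - q3 := by linarith
    unfold nmr
    rw [k2]
    ring
  have e2 : 1 - (q0 + q1) - q3 = q2 := by linarith
  have main := pwR5 (X := x0 - x1) (ξ := (q0 - q1) / 2) (s := q0 + q1) (p2 := -x2) (p3 := -x3)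
    (c := q3) (S0 := S0) (S1 := S1) (S2 := S2) (S3 := S3) (T := T) (w := w) (n := n)
    (by linarith)
    (by linarith) (by rw [ei]; linarith) (by rw [ei]; linarith) (by rw [ei]; linarith)
    (by rw [ei]; linarith) (by rw [ei]; linarith) (by rw [ei, en]; linarith)
    (by rw [ei, en]; linarith) hu (by rw [en]; linarith) (by rw [en]; linarith) plx
    (by linarith) (by linarith) h0 h1 h2 h3 hT hT1 hw0 hw hn (fun h => hw1 h hu) hX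
  rw [e2] at main
  exact main

end Helper93.Neg5
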