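import Pool.Agent.Helper93.MEI.Neg5a
import Pool.Agent.Helper93.MEI.Blk6
import Pool.Agent.Helper41.MEI.ArcV

/-!
# Project MEI (M2): the field `x⁵ φ e_X` and the volume near the ends of an edge
-/

set_option autoImplicit false

namespace Helper93.Neg5

open Set MeasureTheory Filter Topology Metric
open Helper80.CW Helper22.Wedge Helper22.Sig Helper14.CW Helper14.MEI2 Helper93.MEI
open Helper22.MEI (s t FD FD_pos)
open Helper21.Sec Helper21.Mom Helper53.MEI Helper93.MEI.Blk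
open Pool.Agent.Helper95.MEI.Fub (Zp int_cont Zp_meas)
open Pool.Agent.Helper73.MEI
open scoped RealInnerProductSpace ContDiff Real

/-! ### the pointwise bound -/

/-- the field -/
noncomputable def gE (η X : ℝ) : ℝ := 6.4 * nn η X * X ^ 5

/-- its derivative -/
noncomputable def dE (η X : ℝ) : ℝ := 16 * X ^ 4 + 16.8 * η * X ^ 5

section pt
variable {a : Fin 4 → E3}

theorem wt_le_nn (h : Gram4 (al a)) (i : Bool) {x : E3} (hx : Pl a x) :
    Helper37.MEI.wt a i x ≤ nn (sg i) (eX a x) := by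
  have h1 := (pl_e h hx).2.1
  have h2 := (nn_bd (sg_abs i) h1).1
  have h3 := Helper53.MEI.wF_nn (a := a) i x
  rw [← h3]
  unfold wF Pool.Agent.Helper8.MEI.DD
  refine div_le_self h2 ?_
  have : 0 ≤ eX a x ^ 2 := sq_nonneg _
  have : 0 ≤ eY a x ^ 2 := sq_nonneg _
  have : 0 ≤ eW a x ^ 2 := sq_nonneg _
  linarith

/-- **the pointwise bound**, levels of sum at most `.0135` -/
theorem pw_bar5 (h : Gram4 (al a)) {x q : E3} (hx : Pl a x) (hq : Pl a q) (hxq : ‖x - q‖ = 1)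
    (h2 : bar a 2 x ≤ 0) (h3 : bar a 3 x ≤ 0) {S : Fin 4 → ℝ} (hS0 : ∀ i, 0 ≤ S i)
    (hQx : ∀ i, Qv a i x ≤ S i) (hQq : ∀ i, Qv a i q ≤ S i) {T : ℝ}
    (hT : S 0 + S 1 + S 2 + S 3 ≤ T) (hT1 : T ≤ 0.0135) (i : Bool) {k k' : Fin 4}
    (hk : k = 2 ∧ k' = 3 ∨ k = 3 ∧ k' = 2) :
    Helper37.MEI.wt a i x * max (-bar a k q) 0 ≤
      Helper37.MEI.wt a i x * ((T + 0.00002) * max (bar a k' q) 0 +
        0.00002 * max (bar a k q) 0) + gE (sg i) (eX a x) * (eX a x - eX a q) := by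
  have sx := bar_sum h x
  have sq := bar_sum h q
  have hd := norm_sub_sq_bar h x q
  rw [hxq] at hd
  have hw0 := Helper37.MEI.wt_nonneg h i hx
  have hw := wt_le_nn h i hx
  have hn := (nn_bd (sg_abs i) (pl_e h hx).2.1).2
  have x2 := hQx 2
  have x3 := hQx 3
  have q0 := hQq 0
  have q1 := hQq 1
  have q2 := hQq 2
  have q3 := hQq 3
  rw [Qv_eq h] at x2 x3 q0 q1 q2 q3
  have px := (pl_iff h).1 hx
  have pq := (pl_iff h).1 hq
  have px01 := px 0 1 (by decide)
  have px10 := px 1 0 (by decide)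
  have pq23 := pq 2 3 (by decide)
  have pq32 := pq 3 2 (by decide)
  have wl := fun hX hu => Helper41.ArcT.wt_lo (x := x) h i hX h2 h3 hu
  set w := Helper37.MEI.wt a i x
  have s0 := hS0 0
  have s1 := hS0 1
  have s2 := hS0 2
  have s3 := hS0 3
  unfold gE
  rcases le_total 0 (bar a 0 x - bar a 1 x) with hX | hX
  · have hwl : bar a 0 x - bar a 1 x ≤ 2 * 0.1286 → -bar a 2 x + -bar a 3 x ≤ 1 / 4 →
        0.337 ≤ w := fun k1 k2 => wl (by rw [abs_of_nonneg hX]; exact k1) k2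
    rcases hk with ⟨e1, e2⟩ | ⟨e1, e2⟩
    · rw [e1, e2]
      have := pwX5 (x0 := bar a 0 x) (x1 := bar a 1 x) (x2 := bar a 3 x)
        (x3 := bar a 2 x) (q0 := bar a 0 q) (q1 := bar a 1 q) (q2 := bar a 3 q)
        (q3 := bar a 2 q) (S0 := S 0) (S1 := S 1) (S2 := S 3) (S3 := S 2) (T := T) (w := w)
        (n := nn (sg i) (eX a x))
        (by linarith) (by linarith) (by linarith) h3 h2 (by linarith) (by linarith)
        (by linarith) (by linarith) (by linarith) (by linarith) px01 pq32 pq23 s0 s1 s3 s2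
        (by linarith) hT1 hw0 hw hn (fun k1 k2 => hwl k1 (by linarith)) hX
      refine this.trans (le_of_eq ?_)
      unfold eX
      ring
    · rw [e1, e2]
      have := pwX5 (x0 := bar a 0 x) (x1 := bar a 1 x) (x2 := bar a 2 x)
        (x3 := bar a 3 x) (q0 := bar a 0 q) (q1 := bar a 1 q) (q2 := bar a 2 q)
        (q3 := bar a 3 q) (S0 := S 0) (S1 := S 1) (S2 := S 2) (S3 := S 3) (T := T) (w := w)
        (n := nn (sg i) (eX a x))
        (by linarith) (by linarith) (by linarith) h2 h3 (by linarith) (by linarith)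
        (by linarith) (by linarith) (by linarith) (by linarith) px01 pq23 pq32 s0 s1 s2 s3
        (by linarith) hT1 hw0 hw hn hwl hX
      refine this.trans (le_of_eq ?_)
      unfold eX
      ring
  · have hX' : 0 ≤ bar a 1 x - bar a 0 x := by linarith
    have hwl : bar a 1 x - bar a 0 x ≤ 2 * 0.1286 → -bar a 2 x + -bar a 3 x ≤ 1 / 4 →
        0.337 ≤ w := fun k1 k2 => wl (by rw [abs_of_nonpos hX, neg_sub]; exact k1) k2
    rcases hk with ⟨e1, e2⟩ | ⟨e1, e2⟩
    · rw [e1, e2]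
      have := pwX5 (x0 := bar a 1 x) (x1 := bar a 0 x) (x2 := bar a 3 x)
        (x3 := bar a 2 x) (q0 := bar a 1 q) (q1 := bar a 0 q) (q2 := bar a 3 q)
        (q3 := bar a 2 q) (S0 := S 1) (S1 := S 0) (S2 := S 3) (S3 := S 2) (T := T) (w := w)
        (n := nn (sg i) (eX a x))
        (by linarith) (by linarith) (by linarith) h3 h2 (by linarith) (by linarith)
        (by linarith) (by linarith) (by linarith) (by linarith) px10 pq32 pq23 s1 s0 s3 s2
        (by linarith) hT1 hw0 hw hn (fun k1 k2 => hwl k1 (by linarith)) hX'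
      refine this.trans (le_of_eq ?_)
      unfold eX
      ring
    · rw [e1, e2]
      have := pwX5 (x0 := bar a 1 x) (x1 := bar a 0 x) (x2 := bar a 2 x)
        (x3 := bar a 3 x) (q0 := bar a 1 q) (q1 := bar a 0 q) (q2 := bar a 2 q)
        (q3 := bar a 3 q) (S0 := S 1) (S1 := S 0) (S2 := S 2) (S3 := S 3) (T := T) (w := w)
        (n := nn (sg i) (eX a x))
        (by linarith) (by linarith) (by linarith) h2 h3 (by linarith) (by linarith)
        (by linarith) (by linarith) (by linarith) (by linarith) px10 pq23 pq32 s1 s0 s2 s3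
        (by linarith) hT1 hw0 hw hn hwl hX'
      refine this.trans (le_of_eq ?_)
      unfold eX
      ring

end pt

/-! ### the flux -/

theorem gE_cd (η : ℝ) {n : WithTop ℕ∞} : ContDiff ℝ n (gE η) := by
  unfold gE nn
  fun_prop

theorem gE_der (η X : ℝ) : HasDerivAt (gE η) (dE η X) X := by
  have h1 : HasDerivAt (fun X : ℝ => 3.2 * X ^ 5 + 2.8 * η * X ^ 6)
      (3.2 * (5 * X ^ 4) + 2.8 * η * (6 * X ^ 5)) X := by
    have a1 := (hasDerivAt_pow 5 X).const_mul (3.2 : ℝ)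
    have a2 := (hasDerivAt_pow 6 X).const_mul (2.8 * η)
    have := a1.add a2
    norm_num at this ⊢
    exact this
  have e1 : gE η = fun X : ℝ => 3.2 * X ^ 5 + 2.8 * η * X ^ 6 := by
    funext X
    unfold gE nn
    ring
  rw [e1]
  refine h1.congr_deriv ?_
  unfold dE
  ring

theorem dE_cont (η : ℝ) : Continuous (dE η) := by unfold dE; fun_prop

theorem dE_nonneg {η X : ℝ} (hη : |η| ≤ 1) (hX : |X| ≤ 1 / 2) : 0 ≤ dE η X := by
  have h1 : |η * X| ≤ 1 / 2 := by
    rw [abs_mul]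
    calc |η| * |X| ≤ 1 * (1 / 2) := mul_le_mul hη hX (abs_nonneg _) zero_le_one
      _ = 1 / 2 := one_mul _
  have h2 := (abs_le.1 h1).1
  have e : dE η X = X ^ 4 * (16 + 16.8 * (η * X)) := by unfold dE; ring
  rw [e]
  exact mul_nonneg (by positivity) (by linarith)

variable (b : OrthonormalBasis (Fin 3) ℝ E3) (c : E3)

theorem fd_gE (η : ℝ) (x : E3) :
    fderiv ℝ (fun y => gE η (co b c y).1) x (b 0) = dE η (co b c x).1 := by
  have hd : DifferentiableAt ℝ (fun y => (co b c y).1) x :=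
    ((contDiff_fst.comp (co_cdn b c (n := 1))).differentiable one_ne_zero) x
  have h1 := (gE_der η (co b c x).1).comp_hasFDerivAt x hd.hasFDerivAt
  have h2 := h1.fderiv
  have e : (gE η ∘ fun y => (co b c y).1) = fun y => gE η (co b c y).1 := rfl
  rw [e] at h2
  rw [h2]
  simp only [FunLike.coe_smul, Pi.smul_apply, smul_eq_mul, Helper41.ArcT.fd_X, mul_one]

/-- **the flux without walls** -/
theorem fluxX5 {σ : Measure (E3 × E3)} [IsFiniteMeasure σ] {K : Set E3} (hK : IsCompact K)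
    (hσ : ∀ᵐ z ∂σ, z.1 ∈ K ∧ z.2 ∈ K)
    (hU : ∀ G : E3 → E3, ContDiff ℝ ∞ G → ∫ z, ⟪G z.1, z.1 - z.2⟫ ∂σ = ∫ x in K, dvg G x)
    (η : ℝ) :
    ∫ z in {z : E3 × E3 | z.1 ∈ EC b c}, gE η (co b c z.1).1 * ⟪b 0, z.1 - z.2⟫ ∂σ =
      ∫ x in K ∩ EC b c, dE η (co b c x).1 := by
  have hg : ContDiff ℝ ∞ (fun y => gE η (co b c y).1) :=
    (gE_cd η).comp (contDiff_fst.comp (co_cdn b c))
  have h := Helper53.MEI.fluxg_lim b c hK hσ hU hg (b 0)
  rw [cel_eq, Helper41.ArcT.nuw_b0, Helper41.ArcT.nuw_b0] at h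
  simp only [zero_mul, add_zero, fd_gE] at h
  have h1 := tendsto_nhds_unique h tendsto_const_nhds
  linarith

/-! ### the upper region -/

/-- the triangle -/
def Tri (U : ℝ) : Set (ℝ × ℝ) :=
  regionBetween (fun Y => √2 * |Y|) (fun Y => √2 / 2 * (U - |Y|)) (Icc (-(U / 3)) (U / 3))

theorem Tri_meas (U : ℝ) : MeasurableSet (Tri U) :=
  measurableSet_regionBetween (by fun_prop : Continuous fun Y : ℝ => √2 * |Y|).measurable
    (by fun_prop : Continuous fun Y : ℝ => √2 / 2 * (U - |Y|)).measurable measurableSet_Icc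

theorem Tri_vol {U : ℝ} (hU : 0 ≤ U) : volume.real (Tri U) = √2 / 6 * U ^ 2 := by
  have hr := r2
  have hf : Continuous fun Y : ℝ => √2 * |Y| := by fun_prop
  have hg : Continuous fun Y : ℝ => √2 / 2 * (U - |Y|) := by fun_prop
  have if1 : IntegrableOn (fun Y : ℝ => √2 * |Y|) (Icc (-(U / 3)) (U / 3)) volume :=
    hf.continuousOn.integrableOn_compact isCompact_Icc
  have ig1 : IntegrableOn (fun Y : ℝ => √2 / 2 * (U - |Y|)) (Icc (-(U / 3)) (U / 3)) volume :=
    hg.continuousOn.integrableOn_compact isCompact_Icc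
  have h1 := volume_regionBetween_eq_integral if1 ig1
    measurableSet_Icc (fun Y hY => by
      have : |Y| ≤ U / 3 := abs_le.2 hY
      have h2 : √2 / 2 * (2 * |Y|) ≤ √2 / 2 * (U - |Y|) :=
        mul_le_mul_of_nonneg_left (by linarith) (by positivity)
      linarith)
  have h2 : ∫ y in Icc (-(U / 3)) (U / 3), ((fun Y => √2 / 2 * (U - |Y|)) - fun Y => √2 * |Y|) y =
      √2 / 6 * U ^ 2 := by
    have hc : Continuous fun Y : ℝ => √2 / 2 * (U - 3 * |Y|) := by fun_prop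
    rw [integral_Icc_eq_integral_Ioc, ← intervalIntegral.integral_of_le (by linarith)]
    have e : ∀ Y : ℝ, ((fun Y => √2 / 2 * (U - |Y|)) - fun Y => √2 * |Y|) Y =
        √2 / 2 * (U - 3 * |Y|) := by
      intro Y
      simp only [Pi.sub_apply]
      ring
    simp only [e]
    rw [← intervalIntegral.integral_add_adjacent_intervals (b := (0 : ℝ))
      (hc.intervalIntegrable _ _) (hc.intervalIntegrable _ _)]
    have e1 : ∫ x in (-(U / 3))..(0 : ℝ), √2 / 2 * (U - 3 * |x|) =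
        ∫ x in (0 : ℝ)..(U / 3), √2 / 2 * (U - 3 * |x|) := by
      have := intervalIntegral.integral_comp_neg (a := 0) (b := U / 3)
        (f := fun x : ℝ => √2 / 2 * (U - 3 * |x|))
      simp only [abs_neg, neg_zero] at this
      exact this.symm
    rw [e1]
    have e2 : ∫ x in (0 : ℝ)..(U / 3), √2 / 2 * (U - 3 * |x|) =
        ∫ x in (0 : ℝ)..(U / 3), √2 / 2 * (U - 3 * x) := by
      refine intervalIntegral.integral_congr fun x hx => ?_
      rw [uIcc_of_le (by linarith)] at hx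
      simp only [abs_of_nonneg hx.1]
    have e3 : ∫ x in (0 : ℝ)..(U / 3), (U - 3 * x) = U ^ 2 / 6 := by
      have hd : ∀ x ∈ uIcc (0 : ℝ) (U / 3), HasDerivAt (fun x : ℝ =>
          U * x ^ 1 + (-(3 / 2)) * x ^ 2) (U - 3 * x) x := by
        intro x _
        have k := (hpow 0 U x).add (hpow 1 (-(3 / 2)) x)
        refine k.congr_deriv ?_
        push_cast
        ring
      have hc3 : Continuous fun x : ℝ => U - 3 * x := by fun_prop
      rw [intervalIntegral.integral_eq_sub_of_hasDerivAt hd (hc3.intervalIntegrable _ _)]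
      ring
    rw [e2, intervalIntegral.integral_const_mul, e3]
    ring
  have h3 : volume (Tri U) = ENNReal.ofReal (√2 / 6 * U ^ 2) := by
    rw [← h2]
    exact h1
  rw [Measure.real, h3, ENNReal.toReal_ofReal (by positivity)]

/-- the region -/
def Rup (m : ℝ) : Set (ℝ × (ℝ × ℝ)) :=
  {q | q.1 ∈ Icc (-(1 / 2) : ℝ) (1 / 2) ∧ q.2 ∈ Tri (hh q.1 + m)}

theorem Rup_meas (m : ℝ) : MeasurableSet (Rup m) := by
  have hU : Continuous fun q : ℝ × (ℝ × ℝ) => hh q.1 + m :=
    (hh_cont.comp continuous_fst).add continuous_const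
  have hY : Continuous fun q : ℝ × (ℝ × ℝ) => q.2.1 := by fun_prop
  have hW : Continuous fun q : ℝ × (ℝ × ℝ) => q.2.2 := by fun_prop
  have m1 : MeasurableSet {q : ℝ × (ℝ × ℝ) | q.1 ∈ Icc (-(1 / 2) : ℝ) (1 / 2)} :=
    measurable_fst measurableSet_Icc
  have m2 : MeasurableSet {q : ℝ × (ℝ × ℝ) | -((hh q.1 + m) / 3) ≤ q.2.1} :=
    measurableSet_le (hU.measurable.div_const 3).neg hY.measurable
  have m3 : MeasurableSet {q : ℝ × (ℝ × ℝ) | q.2.1 ≤ (hh q.1 + m) / 3} :=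
    measurableSet_le hY.measurable (hU.measurable.div_const 3)
  have m5 : MeasurableSet {q : ℝ × (ℝ × ℝ) | √2 * |q.2.1| < q.2.2} :=
    measurableSet_lt (by fun_prop : Continuous fun q : ℝ × (ℝ × ℝ) => √2 * |q.2.1|).measurable
      hW.measurable
  have m6 : MeasurableSet {q : ℝ × (ℝ × ℝ) | q.2.2 < √2 / 2 * (hh q.1 + m - |q.2.1|)} :=
    measurableSet_lt hW.measurable
      ((hU.sub (continuous_abs.comp hY)).const_mul (√2 / 2) |>.measurable)
  have e : Rup m = {q : ℝ × (ℝ × ℝ) | q.1 ∈ Icc (-(1 / 2) : ℝ) (1 / 2)} ∩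
      (({q : ℝ × (ℝ × ℝ) | -((hh q.1 + m) / 3) ≤ q.2.1} ∩
        {q : ℝ × (ℝ × ℝ) | q.2.1 ≤ (hh q.1 + m) / 3}) ∩
      ({q : ℝ × (ℝ × ℝ) | √2 * |q.2.1| < q.2.2} ∩
      {q : ℝ × (ℝ × ℝ) | q.2.2 < √2 / 2 * (hh q.1 + m - |q.2.1|)})) := by
    ext q
    unfold Rup Tri regionBetween
    simp only [mem_ofPred_eq, mem_inter_iff, mem_Ioo, mem_Icc]
  rw [e]
  exact m1.inter ((m2.inter m3).inter (m5.inter m6))

theorem Rup_bdd {m : ℝ} (h1 : m ≤ 1) : Bornology.IsBounded (Rup m) := by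
  have h : Rup m ⊆ Icc (-(1 / 2)) (1 / 2) ×ˢ (Icc (-1) 1 ×ˢ Icc 0 2) := by
    intro q hq
    obtain ⟨hX, hq2⟩ := hq
    unfold Tri regionBetween at hq2
    simp only [mem_ofPred_eq, mem_Ioo, mem_Icc] at hq2
    obtain ⟨⟨a1, a2⟩, a3, a4⟩ := hq2
    have hX' : |q.1| ≤ 1 / 2 := abs_le.2 hX
    have b1 : hh q.1 ≤ 1 / 4 := (sq_le4 hX').2
    have b0 : 0 ≤ hh q.1 := (sq_le4 hX').1
    have c0 : 0 ≤ √2 * |q.2.1| := by positivity
    have c1 : √2 ≤ 1.4143 := by rw [Real.sqrt_le_left (by norm_num)]; norm_num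
    have c2 : √2 / 2 * (hh q.1 + m - |q.2.1|) ≤ √2 / 2 * 2 :=
      mul_le_mul_of_nonneg_left (by linarith [abs_nonneg q.2.1]) (by positivity)
    exact ⟨hX, ⟨by linarith, by linarith⟩, by linarith, by linarith⟩
  exact ((isBounded_Icc _ _).prod ((isBounded_Icc _ _).prod (isBounded_Icc _ _))).subset h

variable {b c} in
/-- **the body in the cell is in the region** -/
theorem sub_Rup {K : Set E3} {s1 s2 s3 s4 : ℝ} (h : Bod b c K s1 s2 s3 s4) (h3 : 0 ≤ s3)
    (h4 : 0 ≤ s4) {m : ℝ} (hm : s3 + s4 < m) : K ∩ EC b c ⊆ Cw b c ⁻¹' Rup m := by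
  rintro x ⟨hx, hE⟩
  have hr := r2
  have hX := h.X_le x hx
  have q3 := h.Q3 x hx
  have q4 := h.Q4 x hx
  have hE' : |(co b c x).2.1| < √2 / 2 * ((co b c x).2.2 - √2 / 4) := hE
  set X := (co b c x).1 with hXd
  set Y := (co b c x).2.1 with hYd
  set W := (co b c x).2.2 - √2 / 4 with hWd
  have hy := abs_nonneg Y
  have hs : 0 < √2 := by positivity
  have hYW : √2 * |Y| < W := by
    have h6 := mul_lt_mul_of_pos_left hE' hs
    have e : √2 * (√2 / 2 * W) = W := by linear_combination W / 2 * hr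
    rwa [e] at h6
  have hW0 : 0 < W := lt_of_le_of_lt (by positivity) hYW
  have hu : |Y| + √2 * W < hh X + m := by
    unfold hh
    have k1 : 0 ≤ Y ^ 2 + W ^ 2 := by positivity
    rcases abs_cases Y with ⟨e1, _⟩ | ⟨e1, _⟩
    · rw [e1]; linarith
    · rw [e1]; linarith
  have hY3 : |Y| ≤ (hh X + m) / 3 := by
    have e : √2 * W > 2 * |Y| := by
      have := mul_lt_mul_of_pos_left hYW hs
      have e2 : √2 * (√2 * |Y|) = 2 * |Y| := by linear_combination |Y| * hr
      linarith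
    linarith
  refine ⟨abs_le.1 hX, ?_⟩
  unfold Tri regionBetween
  simp only [mem_ofPred_eq, mem_Ioo]
  refine ⟨abs_le.1 hY3, hYW, ?_⟩
  change W < √2 / 2 * (hh X + m - |Y|)
  have h6 := mul_lt_mul_of_pos_left (show √2 * W < hh X + m - |Y| by linarith)
    (by positivity : 0 < √2 / 2)
  have e : √2 / 2 * (√2 * W) = W := by linear_combination W / 2 * hr
  rwa [e] at h6

/-- **upper bound of an integral by its sections** -/
theorem int_up3 {R : Set (ℝ × (ℝ × ℝ))} (hR : MeasurableSet R) (hRb : Bornology.IsBounded R)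
    {H : ℝ × (ℝ × ℝ) → ℝ} (hH : Continuous H) {φ : ℝ → ℝ} (hφ : Continuous φ) {a b : ℝ}
    (hab : a ≤ b) (h1 : ∀ X ∈ Icc a b, ∫ w in {w : ℝ × ℝ | (X, w) ∈ R}, H (X, w) ≤ φ X)
    (h2 : ∀ X, X ∉ Icc a b → ∀ w, (X, w) ∉ R) : ∫ q in R, H q ≤ ∫ X in a..b, φ X := by
  have hi : IntegrableOn H R :=
    (hH.continuousOn.integrableOn_compact hRb.isCompact_closure).mono_set subset_closure
  have hi2 := (integrable_indicator_iff hR).2 hi
  have hv : (volume : Measure (ℝ × (ℝ × ℝ))) =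
    (volume : Measure ℝ).prod (volume : Measure (ℝ × ℝ)) := rfl
  have hsec : ∀ X, MeasurableSet {w : ℝ × ℝ | (X, w) ∈ R} := fun X =>
    measurable_prodMk_left hR
  have key : ∀ X : ℝ, ∫ w, R.indicator H (X, w) =
      (Icc a b).indicator (fun X => ∫ w in {w : ℝ × ℝ | (X, w) ∈ R}, H (X, w)) X := by
    intro X
    by_cases hx : X ∈ Icc a b
    · rw [indicator_of_mem hx, ← integral_indicator (hsec X)]
      rfl
    · rw [indicator_of_notMem hx]
      have : ∀ w, R.indicator H (X, w) = 0 := fun w => indicator_of_notMem (h2 X hx w) _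
      simp only [this, integral_zero]
  have h3 : ∫ q in R, H q =
      ∫ X in Icc a b, ∫ w in {w : ℝ × ℝ | (X, w) ∈ R}, H (X, w) := by
    rw [← integral_indicator hR, hv]
    rw [hv] at hi2
    rw [integral_prod _ hi2, ← integral_indicator measurableSet_Icc]
    exact integral_congr_ae (Eventually.of_forall key)
  have h4 : IntegrableOn (fun X => ∫ w in {w : ℝ × ℝ | (X, w) ∈ R}, H (X, w)) (Icc a b) := by
    rw [hv] at hi2
    have h5 := hi2.integral_prod_left
    rw [← integrable_indicator_iff measurableSet_Icc]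
    exact (integrable_congr (Eventually.of_forall key)).1 h5
  rw [h3, intervalIntegral.integral_of_le hab, ← integral_Icc_eq_integral_Ioc]
  exact setIntegral_mono_on h4 (hφ.continuousOn.integrableOn_compact isCompact_Icc)
    measurableSet_Icc h1

theorem int_dE (η m : ℝ) : ∫ X in (-(1 / 2) : ℝ)..(1 / 2), dE η X * (√2 / 6 * (hh X + m) ^ 2) =
    √2 * (8 / 3) * (1 / 10080 + m / 560 + m ^ 2 / 80) := by
  have hd : ∀ x ∈ uIcc (-(1 / 2) : ℝ) (1 / 2), HasDerivAt (fun x : ℝ =>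
      √2 / 6 * ((16 * (1 / 4 + m) ^ 2 / 5) * x ^ 5 + (16.8 * η * (1 / 4 + m) ^ 2 / 6) * x ^ 6 +
      (-(32 * (1 / 4 + m)) / 7) * x ^ 7 + (-(33.6 * η * (1 / 4 + m)) / 8) * x ^ 8 +
      (16 / 9) * x ^ 9 + (16.8 * η / 10) * x ^ 10))
      (dE η x * (√2 / 6 * (hh x + m) ^ 2)) x := by
    intro x _
    have k := ((((((hpow 4 (16 * (1 / 4 + m) ^ 2 / 5) x).add
      (hpow 5 (16.8 * η * (1 / 4 + m) ^ 2 / 6) x)).add
      (hpow 6 (-(32 * (1 / 4 + m)) / 7) x)).add (hpow 7 (-(33.6 * η * (1 / 4 + m)) / 8) x)).add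
      (hpow 8 (16 / 9) x)).add (hpow 9 (16.8 * η / 10) x)).const_mul (√2 / 6)
    refine k.congr_deriv ?_
    unfold dE hh
    push_cast
    ring
  have hc : Continuous fun x : ℝ => dE η x * (√2 / 6 * (hh x + m) ^ 2) := by
    have h1 := dE_cont η
    have h2 := hh_cont
    fun_prop
  rw [intervalIntegral.integral_eq_sub_of_hasDerivAt hd (hc.intervalIntegrable _ _)]
  ring

variable {b c} in
/-- **the volume term** -/
theorem vol5 {K : Set E3} {s1 s2 s3 s4 : ℝ} (h : Bod b c K s1 s2 s3 s4)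
    (h3 : 0 ≤ s3) (h4 : 0 ≤ s4) {m : ℝ} (hm : s3 + s4 < m) (hm1 : m ≤ 1) {η : ℝ}
    (hη : |η| ≤ 1) :
    ∫ x in K ∩ EC b c, dE η (co b c x).1 ≤
      √2 * (8 / 3) * (1 / 10080 + m / 560 + m ^ 2 / 80) := by
  have hm0 : 0 ≤ m := by linarith
  have hsub := sub_Rup h h3 h4 hm
  have hRm : MeasurableSet (Cw b c ⁻¹' Rup m) := (Cw_cont b c).measurable (Rup_meas m)
  have hHc : Continuous fun q : ℝ × (ℝ × ℝ) => dE η q.1 := (dE_cont η).comp continuous_fst
  have hi : IntegrableOn (fun q : ℝ × (ℝ × ℝ) => dE η q.1) (Rup m) :=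
    (hHc.continuousOn.integrableOn_compact (Rup_bdd hm1).isCompact_closure).mono_set
      subset_closure
  have hi2 : IntegrableOn (fun x : E3 => dE η (co b c x).1) (Cw b c ⁻¹' Rup m) :=
    ((Cw_mp b c).integrableOn_comp_preimage (Cw_emb b c)).2 hi
  have st1 : ∫ x in K ∩ EC b c, dE η (co b c x).1 ≤
      ∫ x in Cw b c ⁻¹' Rup m, dE η (co b c x).1 := by
    refine setIntegral_mono_set hi2 ?_ hsub.eventuallyLE
    refine (ae_restrict_iff' hRm).2 (ae_of_all _ fun x hx => ?_)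
    exact dE_nonneg hη (abs_le.2 hx.1)
  refine st1.trans ?_
  have e1 := int_Cw b c (Rup m) (fun q => dE η q.1)
  have e2 : ∫ x in Cw b c ⁻¹' Rup m, dE η (co b c x).1 = ∫ q in Rup m, dE η q.1 := e1
  rw [e2, ← int_dE η m]
  have hcc : Continuous fun x : ℝ => dE η x * (√2 / 6 * (hh x + m) ^ 2) := by
    have h1 := dE_cont η
    have h2 := hh_cont
    fun_prop
  refine int_up3 (Rup_meas m) (Rup_bdd hm1) hHc hcc (by norm_num) (fun X hX => ?_)
    (fun X hX w hw => hX hw.1)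
  have e3 : {w : ℝ × ℝ | (X, w) ∈ Rup m} = Tri (hh X + m) := by
    ext w
    unfold Rup
    simp only [mem_ofPred_eq, hX, true_and]
  have hh0 : 0 ≤ hh X := (sq_le4 (abs_le.2 hX)).1
  rw [e3]
  change ∫ w in Tri (hh X + m), dE η X ≤ _
  rw [setIntegral_const, Tri_vol (by linarith), smul_eq_mul]
  exact le_of_eq (mul_comm _ _)

end Helper93.Neg5
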