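import Pool.Agent.Helper93.MEI.Bar
import Pool.Agent.Helper8.MEI.C

/-!
# Project MEI (M2), regime I: rows (R1), (R2) of `h29_reg1.md`
-/

namespace Helper93.MEI

open Set Metric MeasureTheory Helper80.CW Helper14.CW
open Pool.Agent.Helper8.MEI (DD DD_pos DD_ge)
open scoped RealInnerProductSpace Real

/-! ### (R1) ranges in the edge cell -/

/-- real form: `y, w` of a point of the edge cell -/
theorem r1_real {x y w t : ℝ} (hc : √2 * |y| ≤ w)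
    (hb : x ^ 2 + (y ^ 2 + w ^ 2) + √2 * w + |y| ≤ 1 / 4 + t) (ht : t ≤ 0.002) :
    |y| ≤ 0.078 ∧ 0 ≤ w ∧ w ≤ 0.1602 ∧ DD x y w ≤ 0.2815 ∧
      x ^ 2 + (y ^ 2 + w ^ 2) + √2 * √(y ^ 2 + w ^ 2) ≤ 1 / 4 + t := by
  have s2 := s2s
  have hs : (0 : ℝ) < √2 := by positivity
  have hs1 : (1.4142 : ℝ) < √2 := by
    rw [Real.lt_sqrt (by norm_num)]
    norm_num
  have hy := abs_nonneg y
  have hw0 : 0 ≤ w := by nlinarith
  have e : |y| ^ 2 = y ^ 2 := sq_abs y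
  have h1 : 2 * |y| ≤ √2 * w := by nlinarith
  have h2 : 2 * |y| ^ 2 ≤ w ^ 2 := by nlinarith [mul_nonneg hs.le hy]
  have hyb : |y| ≤ 0.078 := by
    by_contra hneg
    push Not at hneg
    nlinarith [sq_nonneg x]
  have hwb : w ≤ 0.1602 := by
    by_contra hneg
    push Not at hneg
    have : 1.4142 * w ≤ √2 * w := mul_le_mul_of_nonneg_right hs1.le hw0
    nlinarith [sq_nonneg x, sq_nonneg y]
  have hr : √2 * √(y ^ 2 + w ^ 2) ≤ √2 * w + |y| := by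
    apply edge_r_le
    have : |y| ≤ √2 * w := by linarith
    nlinarith
  set r := √(y ^ 2 + w ^ 2) with hrdef
  have hr0 : 0 ≤ r := Real.sqrt_nonneg _
  have hr2 : r ^ 2 = y ^ 2 + w ^ 2 := Real.sq_sqrt (by positivity)
  have hlast : x ^ 2 + (y ^ 2 + w ^ 2) + √2 * r ≤ 1 / 4 + t := by linarith
  refine ⟨hyb, hw0, hwb, ?_, hlast⟩
  unfold DD
  rw [← hr2] at hlast ⊢
  have hrb : r ≤ 0.2 := by
    by_contra hneg
    push Not at hneg
    have : 1.4142 * r ≤ √2 * r := mul_le_mul_of_nonneg_right hs1.le hr0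
    nlinarith [sq_nonneg x]
  have : 1.4142 * r ≤ √2 * r := mul_le_mul_of_nonneg_right hs1.le hr0
  nlinarith

section pt
variable {a : Fin 4 → E3} (h : Gram4 (al a))
include h

/-- (R1) for points -/
theorem r1_point {p : E3} {t : ℝ} (h2 : bar a 2 p ≤ 0) (h3 : bar a 3 p ≤ 0)
    (q2 : Qv a 2 p ≤ t) (q3 : Qv a 3 p ≤ t) (ht : t ≤ 0.002) :
    |eY a p| ≤ 0.078 ∧ 0 ≤ eW a p ∧ eW a p ≤ 0.1602 ∧ DD (eX a p) (eY a p) (eW a p) ≤ 0.2815 ∧
      eX a p ^ 2 + (eY a p ^ 2 + eW a p ^ 2) + √2 * √(eY a p ^ 2 + eW a p ^ 2) ≤ 1 / 4 + t :=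
  r1_real ((edge_cell_iff p).1 ⟨h2, h3⟩) (edge_cell_ball h q2 q3) ht

end pt

/-! ### (R2) -/

/-- positive part of a real number -/
noncomputable def pp (x : ℝ) : ℝ := max x 0

theorem pp_nonneg (x : ℝ) : 0 ≤ pp x := le_max_right _ _
theorem le_pp (x : ℝ) : x ≤ pp x := le_max_left _ _
theorem pp_sub (x : ℝ) : pp x - pp (-x) = x := by
  unfold pp
  rcases le_total x 0 with h | h
  · rw [max_eq_right h, max_eq_left (by linarith)]
    ring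
  · rw [max_eq_left h, max_eq_right (by linarith)]
    ring

theorem wt_div {x y w : ℝ} (hx : |x| ≤ 1 / 2) :
    (1 / 2 + 7 * x / 16) / (4 * DD x y w) ≤ 0.64 ∧ (1 / 2 - 7 * x / 16) / (4 * DD x y w) ≤ 0.64 ∧
      9 / 32 ≤ 1 / 2 + 7 * x / 16 ∧ 9 / 32 ≤ 1 / 2 - 7 * x / 16 := by
  obtain ⟨h1, h2⟩ := abs_le.1 hx
  have hD := DD_pos x y w
  refine ⟨?_, ?_, by linarith, by linarith⟩
  · rw [div_le_iff₀ (by linarith)]
    unfold DD
    nlinarith [sq_nonneg y, sq_nonneg w, mul_nonneg (sub_nonneg.2 h1) (sub_nonneg.2 h2)]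
  · rw [div_le_iff₀ (by linarith)]
    unfold DD
    nlinarith [sq_nonneg y, sq_nonneg w, mul_nonneg (sub_nonneg.2 h1) (sub_nonneg.2 h2)]

/-- (R2), real form: `Q1, Q2` arbitrary reals (`Q_i(q)`) -/
theorem r2_real {x y w Q1 Q2 : ℝ} (hx : |x| ≤ 1 / 2) (hD : DD x y w ≤ 0.2815) :
    0.499 * ((pp (-Q1) + pp (-Q2)) / 2) -
      ((1 / 2 + 7 * x / 16) * pp Q1 + (1 / 2 - 7 * x / 16) * pp Q2) / (4 * DD x y w) ≤
    (-((1 / 2 + 7 * x / 16) * Q1) - (1 / 2 - 7 * x / 16) * Q2) / (4 * DD x y w) := by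
  obtain ⟨_, _, w1, w2⟩ := wt_div (y := y) (w := w) hx
  have hDp := DD_pos x y w
  have e1 := pp_sub Q1
  have e2 := pp_sub Q2
  have p1 := pp_nonneg (-Q1)
  have p2 := pp_nonneg (-Q2)
  have key : 0.499 * ((pp (-Q1) + pp (-Q2)) / 2) ≤
      ((1 / 2 + 7 * x / 16) * pp (-Q1) + (1 / 2 - 7 * x / 16) * pp (-Q2)) / (4 * DD x y w) := by
    rw [le_div_iff₀ (by linarith)]
    have k1 : 9 / 32 * pp (-Q1) ≤ (1 / 2 + 7 * x / 16) * pp (-Q1) :=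
      mul_le_mul_of_nonneg_right w1 p1
    have k2 : 9 / 32 * pp (-Q2) ≤ (1 / 2 - 7 * x / 16) * pp (-Q2) :=
      mul_le_mul_of_nonneg_right w2 p2
    have k3 : DD x y w * (pp (-Q1) + pp (-Q2)) ≤ 0.2815 * (pp (-Q1) + pp (-Q2)) :=
      mul_le_mul_of_nonneg_right hD (by linarith)
    nlinarith
  have e : (-((1 / 2 + 7 * x / 16) * Q1) - (1 / 2 - 7 * x / 16) * Q2) / (4 * DD x y w) =
      ((1 / 2 + 7 * x / 16) * pp (-Q1) + (1 / 2 - 7 * x / 16) * pp (-Q2)) / (4 * DD x y w) -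
      ((1 / 2 + 7 * x / 16) * pp Q1 + (1 / 2 - 7 * x / 16) * pp Q2) / (4 * DD x y w) := by
    rw [← sub_div]
    congr 1
    linear_combination (-(1 / 2 + 7 * x / 16)) * (-e1) - (1 / 2 - 7 * x / 16) * (-e2)
  rw [e]
  linarith

/-- the negative part is controlled by the sup of `Q⁺` -/
theorem neg_real {x y w Q1 Q2 s1 s2 : ℝ} (hx : |x| ≤ 1 / 2) (h1 : pp Q1 ≤ s1) (h2 : pp Q2 ≤ s2) :
    ((1 / 2 + 7 * x / 16) * pp Q1 + (1 / 2 - 7 * x / 16) * pp Q2) / (4 * DD x y w) ≤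
      0.64 * (s1 + s2) := by
  obtain ⟨a1, a2, w1, w2⟩ := wt_div (y := y) (w := w) hx
  have hDp := DD_pos x y w
  have e : ((1 / 2 + 7 * x / 16) * pp Q1 + (1 / 2 - 7 * x / 16) * pp Q2) / (4 * DD x y w) =
      (1 / 2 + 7 * x / 16) / (4 * DD x y w) * pp Q1 +
        (1 / 2 - 7 * x / 16) / (4 * DD x y w) * pp Q2 := by
    ring
  rw [e]
  have k1 : (1 / 2 + 7 * x / 16) / (4 * DD x y w) * pp Q1 ≤ 0.64 * s1 :=
    mul_le_mul a1 h1 (pp_nonneg _) (by norm_num)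
  have k2 : (1 / 2 - 7 * x / 16) / (4 * DD x y w) * pp Q2 ≤ 0.64 * s2 :=
    mul_le_mul a2 h2 (pp_nonneg _) (by norm_num)
  linarith

end Helper93.MEI
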