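import Pool.Agent.Helper93.MEI.Side

/-!
# Project MEI (M2), regime II: the face density with a tent and the strip bound for the rest

Real form.  `y_k ≥ 0`, `δ = 2 Σ y² - (Σ y)²/2`; loss measure data `L, m, M_0..M_3`
(`L + m δ ≤ 2 Σ M_k y_k`), tent value `τ`, `c_k ≤ b_k(p) - τ M_k`.
-/

namespace Helper93.MEI

open Set Metric Helper80.CW Helper14.CW
open scoped RealInnerProductSpace

/-- real form of the strip lemma, general weights `c_k ≥ μ`, general coefficient `c` of `δ` -/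
theorem strip_real {A c v μ y1 y2 y3 c1 c2 c3 : ℝ} (hA : 0 < A) (hc : 0 ≤ c) (hv : 0 ≤ v)
    (hv' : v ≤ 0.2) (hμ : 0 ≤ μ) (y1p : 0 ≤ y1) (y2p : 0 ≤ y2) (y3p : 0 ≤ y3)
    (h1 : μ ≤ c1) (h2 : μ ≤ c2) (h3 : μ ≤ c3) {δ : ℝ}
    (hd : δ = 2 * (y1 ^ 2 + y2 ^ 2 + y3 ^ 2) - 1 / 2 * (y1 + y2 + y3) ^ 2) (hδ : δ ≤ 1.2)
    (v1 : δ - 2 * y1 ≤ v) (v2 : δ - 2 * y2 ≤ v) (v3 : δ - 2 * y3 ≤ v) :
    - (pp (c * v - 2 * A * μ * √(2 / 3 * v)) + pp (c - A * (c1 + c2 + c3)) * pp (δ - v)) ≤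
      2 * A * (c1 * y1 + c2 * y2 + c3 * y3) - c * δ := by
  have hδ0 : 0 ≤ δ := by
    rw [hd]
    nlinarith [sq_nonneg (y1 - y2), sq_nonneg (y1 - y3), sq_nonneg (y2 - y3), sq_nonneg (y1 + y2 + y3)]
  have hle : δ ≤ 3 / 2 * (y1 + y2 + y3) ^ 2 := by
    rw [hd]
    nlinarith [mul_nonneg y1p y2p, mul_nonneg y1p y3p, mul_nonneg y2p y3p]
  have hC2 : √(2 / 3 * v) ^ 2 = 2 / 3 * v := Real.sq_sqrt (by positivity)
  have hC0 : 0 ≤ √(2 / 3 * v) := Real.sqrt_nonneg _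
  set C := √(2 / 3 * v)
  have hpp := le_pp (c * v - 2 * A * μ * C)
  have hpp0 := pp_nonneg (c * v - 2 * A * μ * C)
  have hq := le_pp (c - A * (c1 + c2 + c3))
  have hq0 := pp_nonneg (c - A * (c1 + c2 + c3))
  rcases le_total δ v with hdv | hdv
  · have e1 : pp (δ - v) = 0 := by
      unfold pp
      exact max_eq_right (by linarith)
    rw [e1, mul_zero, add_zero]
    obtain ⟨S, hS⟩ : ∃ S, S = y1 + y2 + y3 := ⟨_, rfl⟩
    have hS0 : 0 ≤ S := by rw [hS]; positivity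
    have hm : μ * S ≤ c1 * y1 + c2 * y2 + c3 * y3 := by
      have := mul_le_mul_of_nonneg_right h1 y1p
      have := mul_le_mul_of_nonneg_right h2 y2p
      have := mul_le_mul_of_nonneg_right h3 y3p
      rw [hS]
      linarith
    rw [← hS] at hle
    obtain ⟨r, hr⟩ : ∃ r, r = √(2 / 3 * δ) := ⟨_, rfl⟩
    have hr0 : 0 ≤ r := by rw [hr]; exact Real.sqrt_nonneg _
    have hr2 : r ^ 2 = 2 / 3 * δ := by rw [hr]; exact Real.sq_sqrt (by positivity)
    have hrS : r ≤ S := by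
      rw [hr]
      apply Real.sqrt_le_iff.2 ⟨hS0, by linarith⟩
    have hrC : r ≤ C := by
      rw [hr]
      exact Real.sqrt_le_sqrt (by linarith)
    have k1 : 2 * A * (μ * r) ≤ 2 * A * (c1 * y1 + c2 * y2 + c3 * y3) := by
      apply mul_le_mul_of_nonneg_left _ (by positivity)
      exact (mul_le_mul_of_nonneg_left hrS hμ).trans hm
    have k2 : δ = 3 / 2 * r ^ 2 := by linarith
    have k3 : v = 3 / 2 * C ^ 2 := by linarith
    have k6 : c * δ = r * (c * (3 / 2) * r) := by rw [k2]; ring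
    have g0 : c * (3 / 2) * r ≤ c * (3 / 2) * C :=
      mul_le_mul_of_nonneg_left hrC (by positivity)
    rcases le_total (2 * A * μ) (c * (3 / 2) * C) with hcase | hcase
    · have g1 : r * (2 * A * μ - c * (3 / 2) * C) ≤ r * (2 * A * μ - c * (3 / 2) * r) :=
        mul_le_mul_of_nonneg_left (by linarith) hr0
      have g2 : C * (2 * A * μ - c * (3 / 2) * C) ≤ r * (2 * A * μ - c * (3 / 2) * C) := by
        nlinarith
      have k5 : c * v - 2 * A * μ * C = - (C * (2 * A * μ - c * (3 / 2) * C)) := by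
        rw [k3]; ring
      linarith
    · have k4 : 0 ≤ r * (2 * A * μ - c * (3 / 2) * r) := mul_nonneg hr0 (by linarith)
      linarith
  · have e1 : pp (δ - v) = δ - v := by
      unfold pp
      exact max_eq_left (by linarith)
    rw [e1]
    obtain ⟨m, hm⟩ : ∃ m, m = (δ - v) / 2 := ⟨_, rfl⟩
    have hm0 : 0 ≤ m := by rw [hm]; linarith
    have z1 : 0 ≤ y1 - m := by rw [hm]; linarith
    have z2 : 0 ≤ y2 - m := by rw [hm]; linarith
    have z3 : 0 ≤ y3 - m := by rw [hm]; linarith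
    obtain ⟨S, hS⟩ : ∃ S, S = (y1 - m) + (y2 - m) + (y3 - m) := ⟨_, rfl⟩
    have hS0 : 0 ≤ S := by rw [hS]; positivity
    have hsum : m * (c1 + c2 + c3) + μ * S ≤ c1 * y1 + c2 * y2 + c3 * y3 := by
      have g1 := mul_le_mul_of_nonneg_right h1 z1
      have g2 := mul_le_mul_of_nonneg_right h2 z2
      have g3 := mul_le_mul_of_nonneg_right h3 z3
      rw [hS]
      linarith
    have hdS : v + 2 * m ≤ 3 / 2 * m ^ 2 + m * S + 3 / 2 * S ^ 2 := by
      have : v + 2 * m = δ := by rw [hm]; ring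
      rw [this, hd, hS]
      nlinarith [mul_nonneg z1 z2, mul_nonneg z1 z3, mul_nonneg z2 z3]
    have hm6 : m ≤ 0.6 := by rw [hm]; linarith
    have hCS : C ≤ S := by
      by_contra hcon
      push Not at hcon
      have hC4 : C ≤ 0.4 := by nlinarith
      have t1 : S * S < C * C := mul_self_lt_mul_self hS0 hcon
      have t2 : m * S ≤ m * 0.4 := mul_le_mul_of_nonneg_left (by linarith) hm0
      have t3 : m * m ≤ m * 0.6 := mul_le_mul_of_nonneg_left hm6 hm0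
      rw [pow_two] at hC2 hdS
      rw [pow_two] at hdS
      linarith
    have g5 : μ * C ≤ μ * S := mul_le_mul_of_nonneg_left hCS hμ
    have g6 : 2 * A * (m * (c1 + c2 + c3) + μ * C) ≤ 2 * A * (c1 * y1 + c2 * y2 + c3 * y3) :=
      mul_le_mul_of_nonneg_left (by linarith) (by positivity)
    have g7 : δ = v + 2 * m := by rw [hm]; ring
    have g8 : (c - A * (c1 + c2 + c3)) * (2 * m) ≤ pp (c - A * (c1 + c2 + c3)) * (2 * m) :=
      mul_le_mul_of_nonneg_right hq (by positivity)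
    rw [g7]
    have e3 : v + 2 * m - v = 2 * m := by ring
    rw [e3]
    linarith

section gram
variable {a : Fin 4 → E3} (h : Gram4 (al a))
include h

/-- **face density with one tent and the strip bound for the rest.**
`L, M_k` with `L ≤ -M_0 δ - Σ M_k Q_k(q)` (averaged coupling), `τ` with `τ M_k + μ ≤ b_k(p)`:
`A Q_0(p) - κ δ ≥ A τ L - ((A (1 - τ m) + κ) v - 2 A μ √(2v/3))₊
  - (κ - A (β(p) - τ β_M))₊ (δ - v)₊`, `m = Σ M_k`, `β_M = -M_0`. -/
theorem face_density {p q : E3} {A κ v μ τ L M0 M1 M2 M3 : ℝ} (hA : 0 < A) (hκ : 0 ≤ κ)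
    (hv : 0 ≤ v) (hv' : v ≤ 0.2) (hμ : 0 ≤ μ) (hτ : 0 ≤ τ) (hq : Pl a q) (hpq : ‖p - q‖ = 1)
    (hc : L ≤ - M0 * ‖a 0 - q‖ ^ 2 - (M1 * Qv a 1 q + M2 * Qv a 2 q + M3 * Qv a 3 q))
    (h1 : τ * M1 + μ ≤ bar a 1 p) (h2 : τ * M2 + μ ≤ bar a 2 p) (h3 : τ * M3 + μ ≤ bar a 3 p)
    (hm : τ * (M0 + M1 + M2 + M3) ≤ 1)
    (v1 : Qv a 1 q ≤ v) (v2 : Qv a 2 q ≤ v) (v3 : Qv a 3 q ≤ v) (hδ : ‖a 0 - q‖ ^ 2 ≤ 1.2) :
    A * (τ * L) - (pp ((A * (1 - τ * (M0 + M1 + M2 + M3)) + κ) * v - 2 * A * μ * √(2 / 3 * v)) +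
      pp (κ - A * (- bar a 0 p + τ * M0)) * pp (‖a 0 - q‖ ^ 2 - v)) ≤
      A * Qv a 0 p - κ * ‖a 0 - q‖ ^ 2 := by
  have e0 := face_id h p q
  rw [hpq] at e0
  have hd := norm_d_sq h q
  have hb := bar_sum h p
  rw [Qv_yv h (by decide) q] at v1 v2 v3
  rw [Qv_yv h (by decide) q, Qv_yv h (by decide) q, Qv_yv h (by decide) q] at hc
  have y1 := yv_nonneg hq (i := 0) (j := 1) (by decide)
  have y2 := yv_nonneg hq (i := 0) (j := 2) (by decide)
  have y3 := yv_nonneg hq (i := 0) (j := 3) (by decide)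
  have key := strip_real (A := A) (c := A * (1 - τ * (M0 + M1 + M2 + M3)) + κ) (v := v) (μ := μ)
    (y1 := yv a 0 1 q) (y2 := yv a 0 2 q) (y3 := yv a 0 3 q) (c1 := bar a 1 p - τ * M1)
    (c2 := bar a 2 p - τ * M2) (c3 := bar a 3 p - τ * M3) (δ := ‖a 0 - q‖ ^ 2) hA
    (add_nonneg (mul_nonneg hA.le (by linarith)) hκ) hv hv' hμ y1 y2 y3 (by linarith)
    (by linarith) (by linarith) hd hδ v1 v2 v3
  have e5 : A * (1 - τ * (M0 + M1 + M2 + M3)) + κ - A * (bar a 1 p - τ * M1 +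
      (bar a 2 p - τ * M2) + (bar a 3 p - τ * M3)) = κ - A * (- bar a 0 p + τ * M0) := by
    have : bar a 0 p = 1 - bar a 1 p - bar a 2 p - bar a 3 p := by linarith
    rw [this]
    ring
  rw [e5] at key
  have e6 := mul_le_mul_of_nonneg_left (mul_le_mul_of_nonneg_left hc hτ) hA.le
  have hQ : Qv a 0 p = 2 * (bar a 1 p * yv a 0 1 q + bar a 2 p * yv a 0 2 q +
    bar a 3 p * yv a 0 3 q) - ‖a 0 - q‖ ^ 2 := by linarith
  rw [hQ]
  linarith

end gram

end Helper93.MEI
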