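import Pool.Agent.Helper93.MEI.Side

/-!
# Project MEI (M2), regime II: the exact strip function

`y_k ≥ g_k` (for instance `g_k = (δ - S_k)₊ / 2`), `δ = 2 Σ y² - (Σ y)²/2`.  If
`3/2 X² + l X + q(g) ≤ δ` with `l ≥ 3 g_k - g_j - g_m` for all `k`, then `Σ (y_k - g_k) ≥ X`.
-/

namespace Helper93.MEI

open Set Metric Helper80.CW Helper14.CW
open scoped RealInnerProductSpace

/-- real form -/
theorem sum_ge {y1 y2 y3 g1 g2 g3 X l δ : ℝ} (h1 : g1 ≤ y1) (h2 : g2 ≤ y2) (h3 : g3 ≤ y3)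
    (hδ : δ = 2 * (y1 ^ 2 + y2 ^ 2 + y3 ^ 2) - 1 / 2 * (y1 + y2 + y3) ^ 2)
    (hl : 0 ≤ l) (l1 : 3 * g1 - g2 - g3 ≤ l) (l2 : 3 * g2 - g1 - g3 ≤ l)
    (l3 : 3 * g3 - g1 - g2 ≤ l)
    (hX : 3 / 2 * X ^ 2 + l * X + (3 / 2 * (g1 ^ 2 + g2 ^ 2 + g3 ^ 2) - g1 * g2 - g1 * g3 -
      g2 * g3) ≤ δ) : X ≤ (y1 - g1) + (y2 - g2) + (y3 - g3) := by
  obtain ⟨x1, hx1⟩ : ∃ x, x = y1 - g1 := ⟨_, rfl⟩
  obtain ⟨x2, hx2⟩ : ∃ x, x = y2 - g2 := ⟨_, rfl⟩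
  obtain ⟨x3, hx3⟩ : ∃ x, x = y3 - g3 := ⟨_, rfl⟩
  have p1 : 0 ≤ x1 := by linarith
  have p2 : 0 ≤ x2 := by linarith
  have p3 : 0 ≤ x3 := by linarith
  have e1 : y1 = g1 + x1 := by linarith
  have e2 : y2 = g2 + x2 := by linarith
  have e3 : y3 = g3 + x3 := by linarith
  rw [← hx1, ← hx2, ← hx3]
  by_contra hcon
  push Not at hcon
  obtain ⟨T, hT⟩ : ∃ T, T = x1 + x2 + x3 := ⟨_, rfl⟩
  rw [← hT] at hcon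
  have hT0 : 0 ≤ T := by rw [hT]; positivity
  have hup : δ ≤ 3 / 2 * T ^ 2 + l * T + (3 / 2 * (g1 ^ 2 + g2 ^ 2 + g3 ^ 2) - g1 * g2 -
      g1 * g3 - g2 * g3) := by
    rw [hδ, e1, e2, e3, hT]
    have m1 := mul_le_mul_of_nonneg_right l1 p1
    have m2 := mul_le_mul_of_nonneg_right l2 p2
    have m3 := mul_le_mul_of_nonneg_right l3 p3
    have n12 := mul_nonneg p1 p2
    have n13 := mul_nonneg p1 p3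
    have n23 := mul_nonneg p2 p3
    nlinarith
  have hXT : 3 / 2 * T ^ 2 + l * T < 3 / 2 * X ^ 2 + l * X := by
    have h5 : T * T < X * X := mul_self_lt_mul_self hT0 hcon
    have h6 : l * T ≤ l * X := mul_le_mul_of_nonneg_left hcon.le hl
    nlinarith
  linarith

/-- weighted form -/
theorem wsum_ge {y1 y2 y3 g1 g2 g3 X l δ b1 b2 b3 μ : ℝ} (h1 : g1 ≤ y1) (h2 : g2 ≤ y2)
    (h3 : g3 ≤ y3) (hδ : δ = 2 * (y1 ^ 2 + y2 ^ 2 + y3 ^ 2) - 1 / 2 * (y1 + y2 + y3) ^ 2)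
    (hl : 0 ≤ l) (l1 : 3 * g1 - g2 - g3 ≤ l) (l2 : 3 * g2 - g1 - g3 ≤ l)
    (l3 : 3 * g3 - g1 - g2 ≤ l)
    (hX : 3 / 2 * X ^ 2 + l * X + (3 / 2 * (g1 ^ 2 + g2 ^ 2 + g3 ^ 2) - g1 * g2 - g1 * g3 -
      g2 * g3) ≤ δ) (hμ : 0 ≤ μ) (m1 : μ ≤ b1) (m2 : μ ≤ b2) (m3 : μ ≤ b3) :
    b1 * g1 + b2 * g2 + b3 * g3 + μ * X ≤ b1 * y1 + b2 * y2 + b3 * y3 := by
  have h4 := sum_ge h1 h2 h3 hδ hl l1 l2 l3 hX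
  have h5 := mul_le_mul_of_nonneg_left h4 hμ
  have k1 := mul_le_mul_of_nonneg_right m1 (sub_nonneg.2 h1)
  have k2 := mul_le_mul_of_nonneg_right m2 (sub_nonneg.2 h2)
  have k3 := mul_le_mul_of_nonneg_right m3 (sub_nonneg.2 h3)
  linarith

/-- the positive part `g = (δ - S)₊/2` -/
noncomputable def gv (δ S : ℝ) : ℝ := pp (δ - S) / 2

theorem gv_nonneg (δ S : ℝ) : 0 ≤ gv δ S := div_nonneg (pp_nonneg _) (by norm_num)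

section gram
variable {a : Fin 4 → E3} (h : Gram4 (al a))
include h

theorem gv_le {k : Fin 4} (hk : 0 ≠ k) {q : E3} (hq : Pl a q) {S : ℝ} (hS : Qv a k q ≤ S) :
    gv (‖a 0 - q‖ ^ 2) S ≤ yv a 0 k q := by
  rw [Qv_yv h hk q] at hS
  have := yv_nonneg hq hk
  unfold gv pp
  rcases max_cases (‖a 0 - q‖ ^ 2 - S) 0 with ⟨e, _⟩ | ⟨e, _⟩ <;> rw [e] <;> linarith

/-- **exact strip function**: with `g_k = (δ - S_k)₊/2`, any `X` with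
`3/2 X² + l X + q(g) ≤ δ`, all `b_k(p) ≥ μ ≥ 0`. -/
theorem strip_exact {p q : E3} {A κ μ X l S1 S2 S3 : ℝ} (hA : 0 ≤ A) (hμ : 0 ≤ μ)
    (hq : Pl a q) (hpq : ‖p - q‖ = 1) (h1 : μ ≤ bar a 1 p) (h2 : μ ≤ bar a 2 p)
    (h3 : μ ≤ bar a 3 p) (v1 : Qv a 1 q ≤ S1) (v2 : Qv a 2 q ≤ S2) (v3 : Qv a 3 q ≤ S3)
    (hl : 0 ≤ l)
    (l1 : 3 * gv (‖a 0 - q‖ ^ 2) S1 - gv (‖a 0 - q‖ ^ 2) S2 - gv (‖a 0 - q‖ ^ 2) S3 ≤ l)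
    (l2 : 3 * gv (‖a 0 - q‖ ^ 2) S2 - gv (‖a 0 - q‖ ^ 2) S1 - gv (‖a 0 - q‖ ^ 2) S3 ≤ l)
    (l3 : 3 * gv (‖a 0 - q‖ ^ 2) S3 - gv (‖a 0 - q‖ ^ 2) S1 - gv (‖a 0 - q‖ ^ 2) S2 ≤ l)
    (hX : 3 / 2 * X ^ 2 + l * X + (3 / 2 * (gv (‖a 0 - q‖ ^ 2) S1 ^ 2 +
      gv (‖a 0 - q‖ ^ 2) S2 ^ 2 + gv (‖a 0 - q‖ ^ 2) S3 ^ 2) -
      gv (‖a 0 - q‖ ^ 2) S1 * gv (‖a 0 - q‖ ^ 2) S2 -
      gv (‖a 0 - q‖ ^ 2) S1 * gv (‖a 0 - q‖ ^ 2) S3 -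
      gv (‖a 0 - q‖ ^ 2) S2 * gv (‖a 0 - q‖ ^ 2) S3) ≤ ‖a 0 - q‖ ^ 2) :
    2 * A * (bar a 1 p * gv (‖a 0 - q‖ ^ 2) S1 + bar a 2 p * gv (‖a 0 - q‖ ^ 2) S2 +
      bar a 3 p * gv (‖a 0 - q‖ ^ 2) S3 + μ * X) - (A + κ) * ‖a 0 - q‖ ^ 2 ≤
      A * Qv a 0 p - κ * ‖a 0 - q‖ ^ 2 := by
  have e0 := face_id h p q
  rw [hpq] at e0
  have hd := norm_d_sq h q
  have key := wsum_ge (gv_le h (by decide) hq v1) (gv_le h (by decide) hq v2)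
    (gv_le h (by decide) hq v3) hd hl l1 l2 l3 hX hμ h1 h2 h3
  have hQ : Qv a 0 p = 2 * (bar a 1 p * yv a 0 1 q + bar a 2 p * yv a 0 2 q +
    bar a 3 p * yv a 0 3 q) - ‖a 0 - q‖ ^ 2 := by linarith
  rw [hQ]
  have := mul_le_mul_of_nonneg_left key (by linarith : 0 ≤ 2 * A)
  linarith

/-- placement at `p`: near the corner `k` the radius is at most `2/(1 + t_k)`:
`b_k(p) ≤ 1 + b_0(p)`, i.e. `λ (1 + t_k) ≤ 2`. -/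
theorem place_lam {p : E3} (hp : Pl a p) {k : Fin 4} (hk : k ≠ 0) :
    bar a k p + (1 - bar a 0 p) ≤ 2 := by
  have := (pl_iff h).1 hp k 0 hk
  linarith

end gram

end Helper93.MEI
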