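import Pool.Agent.Helper14.CW.Vol1

/-!
# The first order volume formula for bodies of constant width: upper bound

`vol K ≤ (3/4) ∫_B (3 H² / |x|² - |∇H|²) - π/3`, hence equality (with `volume_first` of helper14).
-/

namespace Helper93.MEI

open Set Metric MeasureTheory Helper80.CW Helper82.CW Helper14.CW
open scoped ContDiff Topology RealInnerProductSpace Real

section smooth
variable {f : E3 → ℝ} {c : ℝ}

theorem inner_eq_sum (y z : E3) : ⟪y, z⟫ = ∑ i, z i * y i := by
  rw [PiLp.inner_apply]
  apply Finset.sum_congr rfl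
  intro i _
  simp

/-- `Fm` maps onto the body (away from `0`) if `f > 0`. -/
theorem Fm_surj (h : SSup f c) (hpos : ∀ x, x ≠ 0 → 0 < f x) :
    {y : E3 | ∀ z, ⟪y, z⟫ ≤ f z} \ {0} ⊆ Fm f '' (closedBall 0 1 \ {0}) := by
  rintro y ⟨hy, hy0⟩
  have hy0 : y ≠ 0 := hy0
  have hcont : ContinuousOn (fun z : E3 => ⟪y, z⟫ / f z) (sphere (0 : E3) 1) := by
    intro z hz
    have hz0 : z ≠ 0 := by
      rintro rfl
      simp at hz
    have h1 : ContinuousAt (fun z : E3 => ⟪y, z⟫) z := by fun_prop
    exact (h1.div (h.sm z hz0).continuousAt (hpos z hz0).ne').continuousWithinAt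
  obtain ⟨z0, hz0s, hmax⟩ := (isCompact_sphere (0 : E3) 1).exists_isMaxOn
    ⟨e 0, by simp [norm_e]⟩ hcont
  have hz0 : z0 ≠ 0 := by
    rintro rfl
    simp at hz0s
  have hz1 : ‖z0‖ = 1 := by simpa using hz0s
  set t : ℝ := ⟪y, z0⟫ / f z0 with ht
  have hf0 := hpos z0 hz0
  have ht1 : t ≤ 1 := by
    rw [ht, div_le_one hf0]
    exact hy z0
  have hnorm : ∀ z : E3, z ≠ 0 → ⟪y, z⟫ ≤ t * f z := by
    intro z hz
    have hn : 0 < ‖z‖ := norm_pos_iff.2 hz
    have hzs : ‖z‖⁻¹ • z ∈ sphere (0 : E3) 1 := by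
      simp [norm_smul, hn.ne']
    have h1 : ⟪y, ‖z‖⁻¹ • z⟫ / f (‖z‖⁻¹ • z) ≤ t := hmax hzs
    rw [h.pos_smul (inv_nonneg.2 hn.le), inner_smul_right,
      mul_div_mul_left _ _ (inv_ne_zero hn.ne'), div_le_iff₀ (hpos z hz)] at h1
    exact h1
  have ht0 : 0 < t := by
    have h1 := hnorm y hy0
    have h2 : 0 < ⟪y, y⟫ := by
      rw [real_inner_self_eq_norm_mul_norm]
      have := norm_pos_iff.2 hy0
      positivity
    have h3 := hpos y hy0
    by_contra hneg
    have : t * f y ≤ 0 := mul_nonpos_of_nonpos_of_nonneg (not_lt.1 hneg) h3.le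
    linarith
  -- the gradient at the maximum
  set q : E3 → ℝ := fun z => t * f z - ∑ j, z j * y j with hq
  have hq0 : ∀ z, 0 ≤ q z := by
    intro z
    simp only [hq]
    rw [← inner_eq_sum]
    by_cases hz : z = 0
    · subst hz
      rw [h.zero]
      simp
    · linarith [hnorm z hz]
  have hqz : q z0 = 0 := by
    simp only [hq]
    rw [← inner_eq_sum, ht]
    field_simp
    ring
  have hmin : IsLocalMin q z0 := by
    filter_upwards with w
    rw [hqz]
    exact hq0 w
  have h3 := hmin.fderiv_eq_zero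
  have hlin : Sm (fun w : E3 => ∑ j, w j * y j) :=
    Sm.sum (fun j _ => (Sm.coord j).mul (Sm.const _))
  have hgrad : ∀ i, t * pd i f z0 = y i := by
    intro i
    have h4 : pd i q z0 = 0 := by
      unfold pd
      rw [h3]
      simp
    rw [hq, pd_sub ((Sm.const _).mul h.sm) hlin i hz0, pd_const_mul _ h.sm i hz0,
      pd_sum (fun j _ => (Sm.coord j).mul (Sm.const _)) i hz0] at h4
    have h5 : ∀ j, pd i (fun w : E3 => w j * y j) z0 = if i = j then y j else 0 := by
      intro j
      rw [pd_mul (Sm.coord j) (Sm.const _) i hz0, pd_coord]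
      have : pd i (fun _ => y j) z0 = 0 := by
        unfold pd
        simp
      rw [this]
      simp
    simp only [h5] at h4
    simp at h4
    linarith
  refine ⟨t • z0, ⟨?_, ?_⟩, ?_⟩
  · rw [mem_closedBall_zero_iff, norm_smul, hz1, Real.norm_of_nonneg ht0.le]
    linarith
  · exact smul_ne_zero ht0.ne' hz0
  · ext i
    rw [Fm_apply, norm_smul, hz1, Real.norm_of_nonneg ht0.le]
    have h6 := (h.hom.pd h.sm i) t ht0 z0 hz0
    norm_num at h6
    rw [h6, ← hgrad i]
    ring

theorem minors_nonneg (h : SSup f c) {x : E3} (hx : x ≠ 0) : hs2 f x ≤ lap f x ^ 2 := by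
  have hp := h.psd hx
  have s01 := h.symm hx 0 1
  have s02 := h.symm hx 0 2
  have s12 := h.symm hx 1 2
  have key : ∀ a b d : ℝ, (∀ s t : ℝ, 0 ≤ s * s * a + 2 * (s * t) * b + t * t * d) →
      b ^ 2 ≤ a * d := by
    intro a b d hq
    have ha : 0 ≤ a := by simpa using hq 1 0
    have hd : 0 ≤ d := by simpa using hq 0 1
    rcases eq_or_lt_of_le ha with h0 | h0
    · have hb : b = 0 := by
        by_contra hb
        have := hq (-(d + 1) / (2 * b)) 1
        rw [← h0] at this
        have e1 : -(d + 1) / (2 * b) * (-(d + 1) / (2 * b)) * 0 + 2 * (-(d + 1) / (2 * b) * 1) * b +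
            1 * 1 * d = -1 := by
          field_simp
          ring
        linarith
      rw [hb, ← h0]
      simp
    · have := hq (-b / a) 1
      have e1 : (-b / a) * (-b / a) * a + 2 * ((-b / a) * 1) * b + 1 * 1 * d =
          (a * d - b ^ 2) / a := by
        field_simp
        ring
      rw [e1, le_div_iff₀ h0] at this
      linarith
  have k01 := key (pd 0 (pd 0 f) x) (pd 0 (pd 1 f) x) (pd 1 (pd 1 f) x) (by
    intro s t
    have := hp (WithLp.toLp 2 ![s, t, 0])
    simp [Fin.sum_univ_three] at this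
    rw [s01] at this
    linarith)
  have k02 := key (pd 0 (pd 0 f) x) (pd 0 (pd 2 f) x) (pd 2 (pd 2 f) x) (by
    intro s t
    have := hp (WithLp.toLp 2 ![s, 0, t])
    simp [Fin.sum_univ_three] at this
    rw [s02] at this
    linarith)
  have k12 := key (pd 1 (pd 1 f) x) (pd 1 (pd 2 f) x) (pd 2 (pd 2 f) x) (by
    intro s t
    have := hp (WithLp.toLp 2 ![0, s, t])
    simp [Fin.sum_univ_three] at this
    rw [s12] at this
    linarith)
  unfold lap hs2
  simp only [Fin.sum_univ_three]
  rw [s01, s02, s12]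
  nlinarith

/-- volume of a smooth body, upper bound -/
theorem volume_le_smooth (h : SSup f c) (hpos : ∀ x, x ≠ 0 → 0 < f x) :
    volume {y : E3 | ∀ z, ⟪y, z⟫ ≤ f z} ≤
      ENNReal.ofReal (1 / 6 * SI (fun x => f x * (lap f x ^ 2 - hs2 f x))) := by
  set D : E3 → ℝ := fun x => (fderiv ℝ (Fm f) x).det with hD
  have hD0 : ∀ x, x ≠ 0 → 0 ≤ D x := by
    intro x hx
    rw [hD]
    simp only
    rw [h.det_eq hx]
    have h1 := minors_nonneg h hx
    have h2 := h.nonneg x
    have : 0 ≤ lap f x ^ 2 - hs2 f x := by linarith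
    positivity
  have h1 : volume {y : E3 | ∀ z, ⟪y, z⟫ ≤ f z} ≤
      volume ({y : E3 | ∀ z, ⟪y, z⟫ ≤ f z} \ {0}) := by
    rw [measure_sdiff_null (measure_singleton _)]
  have hsm : MeasurableSet (closedBall (0 : E3) 1 \ {0}) :=
    measurableSet_closedBall.diff (measurableSet_singleton _)
  have h2 := addHaar_image_le_lintegral_abs_det_fderiv volume hsm
    (f := Fm f) (f' := fun x => fderiv ℝ (Fm f) x)
    (fun x hx => (Fm_diffAt h.sm hx.2).hasFDerivAt.hasFDerivWithinAt)
  refine (h1.trans (measure_mono (Fm_surj h hpos))).trans (h2.trans ?_)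
  have hDhom : Hom 0 D := by
    have e1 : ∀ x, x ≠ 0 → D x = ‖x‖ * (f x * (lap f x ^ 2 - hs2 f x)) / 2 := by
      intro x hx
      rw [hD]
      simp only
      rw [h.det_eq hx]
      ring
    have a := (h.hom.lap h.sm).sq
    have b := h.hom.hs2 h.sm
    norm_num at a b
    have e2 := Hom.norm.mul (h.hom.mul (a.sub b))
    norm_num at e2
    intro r hr x hx
    rw [e1 x hx, e1 _ (smul_ne_zero hr.ne' hx)]
    have := e2 r hr x hx
    norm_num at this ⊢
    linarith
  have hSI : SI D = (1 / 2) * SI (fun x => f x * (lap f x ^ 2 - hs2 f x)) := by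
    rw [← SI_const_mul]
    apply SI_congr
    intro x hx
    have hx0 : x ≠ 0 := by
      rintro rfl
      simp at hx
    rw [hD]
    simp only
    rw [h.det_eq hx0, hx]
    ring
  have hball : ∫ x in ball (0 : E3) 1, D x = 1 / 3 * SI D := ball_SI hDhom
  -- integrability of `D` on the ball
  have hDc : ContinuousOn D {0}ᶜ := by
    intro x hx
    have hx : x ≠ 0 := hx
    have h1 : ContinuousAt (fderiv ℝ (Fm f)) x :=
      ((contDiffAt_Fm h.sm hx).fderiv_right (m := ∞) (by simp)).continuousAt
    exact (ContinuousLinearMap.continuous_det.continuousAt.comp h1).continuousWithinAt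
  obtain ⟨C, hC⟩ := (isCompact_sphere (0 : E3) 1).exists_bound_of_continuousOn
    (hDc.mono (fun x hx => by
      have : x ≠ 0 := by
        rintro rfl
        simp at hx
      exact this))
  have hbd : ∀ x, x ≠ 0 → ‖D x‖ ≤ C := by
    intro x hx
    have hn : 0 < ‖x‖ := norm_pos_iff.2 hx
    have h3 := hDhom ‖x‖⁻¹ (inv_pos.2 hn) x hx
    rw [zpow_zero, one_mul] at h3
    rw [← h3]
    apply hC
    simp [norm_smul, hn.ne']
  have hae : ∀ᵐ x : E3, x ≠ 0 := by simp [ae_iff, measure_singleton]
  have hDm : AEStronglyMeasurable D (volume.restrict (ball (0 : E3) 1)) := by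
    have hms : AEStronglyMeasurable D (volume.restrict {0}ᶜ) :=
      hDc.aestronglyMeasurable (measurableSet_singleton _).compl
    rw [restrict_compl_singleton] at hms
    exact hms.restrict
  have hfin : IsFiniteMeasure (volume.restrict (ball (0 : E3) 1)) :=
    ⟨by rw [Measure.restrict_apply_univ]; exact measure_ball_lt_top⟩
  have hint : Integrable D (volume.restrict (ball (0 : E3) 1)) := by
    apply Integrable.mono' (integrable_const C) hDm
    filter_upwards [ae_restrict_of_ae hae] with x hx using hbd x hx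
  have h4 : ∫⁻ x in closedBall (0 : E3) 1 \ {0}, ENNReal.ofReal |D x| =
      ∫⁻ x in ball (0 : E3) 1, ENNReal.ofReal (D x) := by
    have e1 : (closedBall (0 : E3) 1 \ {0} : Set E3) =ᵐ[volume] ball (0 : E3) 1 := by
      have e2 : (closedBall (0 : E3) 1 \ {0} : Set E3) =ᵐ[volume] closedBall (0 : E3) 1 :=
        sdiff_null_ae_eq_self (measure_singleton _)
      refine e2.trans ?_
      have e3 : closedBall (0 : E3) 1 =ᵐ[volume] ball (0 : E3) 1 := by
        rw [← ball_union_sphere]
        exact union_ae_eq_left_of_ae_eq_empty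
          (ae_eq_empty.2 (Measure.addHaar_sphere volume (0 : E3) 1))
      exact e3
    rw [setLIntegral_congr e1]
    apply lintegral_congr_ae
    filter_upwards [ae_restrict_of_ae hae] with x hx
    rw [abs_of_nonneg (hD0 x hx)]
  have h5 : ∫⁻ x in ball (0 : E3) 1, ENNReal.ofReal (D x) =
      ENNReal.ofReal (∫ x in ball (0 : E3) 1, D x) := by
    rw [ofReal_integral_eq_lintegral_ofReal hint]
    filter_upwards [ae_restrict_of_ae hae] with x hx using hD0 x hx
  show ∫⁻ x in closedBall (0 : E3) 1 \ {0}, ENNReal.ofReal |D x| ≤ _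
  rw [h4, h5, hball, hSI]
  apply ENNReal.ofReal_le_ofReal
  apply le_of_eq
  ring

end smooth

end Helper93.MEI
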